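import Pool.Agent.Lib.GP.GTilt

set_option autoImplicit false

/-!
Changing the time scale `A`, and the a priori lower bound.
-/

namespace Pool.GP

open Finset

lemma Inc_Ws (n : ℕ) (w : ℕ → ℝ) (hw : ∀ j, 0 ≤ w j) (c : ℝ) :
    Inc (fun ω : Fin n → Bool => c ≤ Ws n w ω) := by
  intro ω ω' h hc
  refine hc.trans ?_
  unfold Ws
  exact Finset.sum_le_sum fun j _ => mul_le_mul_of_nonneg_left (h j) (hw j)

lemma Inc_Ws_lt (n : ℕ) (w : ℕ → ℝ) (hw : ∀ j, 0 ≤ w j) (c : ℝ) :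
    Inc (fun ω : Fin n → Bool => c < Ws n w ω) := by
  intro ω ω' h hc
  refine hc.trans_le ?_
  unfold Ws
  exact Finset.sum_le_sum fun j _ => mul_le_mul_of_nonneg_left (h j) (hw j)

lemma ZI_eq_Ws {n : ℕ} (A I k : ℕ) (ω : Fin n → Bool) :
    ZI A I ω k = Ws n (fun v => ∑ i ∈ Icc I k, if v < A / i then (1:ℝ) else 0) ω := by
  rw [Ws_sum]; rfl

lemma Inc_ZI {n : ℕ} (A I K1 K2 : ℕ) (h : ℕ → ℝ) :
    Inc (fun ω : Fin n → Bool => ∀ k ∈ Icc K1 K2, h k ≤ ZI A I ω k) := by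
  refine Inc.forall fun k => Inc.forall fun _ => ?_
  simp only [ZI_eq_Ws]
  apply Inc_Ws
  intro j
  exact Finset.sum_nonneg fun i _ => by split_ifs <;> norm_num

/-- splitting by Harris -/
lemma G_split (A K1 K2 K3 : ℕ) (h : ℝ) :
    G A K1 K2 h * G A K2 K3 h ≤ G A K1 K3 h := by
  unfold G
  refine (harris A (Inc_ZI A 1 K1 K2 _) (Inc_ZI A 1 K2 K3 _)).trans (Pr_mono A ?_)
  rintro ω ⟨h1, h2⟩ k hk
  rw [Finset.mem_Icc] at hk
  rcases le_total k K2 with hk2 | hk2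
  · exact h1 k (Finset.mem_Icc.2 ⟨hk.1, hk2⟩)
  · exact h2 k (Finset.mem_Icc.2 ⟨hk2, hk.2⟩)

lemma G_anti_h (A K1 K2 : ℕ) {h h' : ℝ} (hh : h ≤ h') : G A K1 K2 h' ≤ G A K1 K2 h := by
  unfold G
  refine Pr_mono A fun ω hω k hk => ?_
  have := hω k hk
  have h2 : h * Real.sqrt ((A:ℝ) * k) ≤ h' * Real.sqrt ((A:ℝ) * k) :=
    mul_le_mul_of_nonneg_right hh (Real.sqrt_nonneg _)
  linarith

lemma G_anti_K (A K1 K2 K2' : ℕ) (h : ℝ) (hK : K2 ≤ K2') : G A K1 K2' h ≤ G A K1 K2 h := by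
  unfold G
  refine Pr_mono A fun ω hω k hk => ?_
  rw [Finset.mem_Icc] at hk
  exact hω k (Finset.mem_Icc.2 ⟨hk.1, hk.2.trans hK⟩)

lemma G_mono_K1 (A K1 K1' K2 : ℕ) (h : ℝ) (hK : K1 ≤ K1') : G A K1 K2 h ≤ G A K1' K2 h := by
  unfold G
  refine Pr_mono A fun ω hω k hk => ?_
  rw [Finset.mem_Icc] at hk
  exact hω k (Finset.mem_Icc.2 ⟨hK.trans hk.1, hk.2⟩)

lemma G_nonneg (A K1 K2 : ℕ) (h : ℝ) : 0 ≤ G A K1 K2 h := Pr_nonneg _ _

lemma G_le_one (A K1 K2 : ℕ) (h : ℝ) : G A K1 K2 h ≤ 1 := Pr_le_one _ _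

/-- a priori lower bound -/
lemma G_lower (A K1 K2 : ℕ) (hK2 : 1 ≤ K2) (hA : K2 ≤ A) :
    1 / (200 * Real.sqrt K2) ≤ G A K1 K2 0 := by
  have hK2r : (1:ℝ) ≤ K2 := by exact_mod_cast hK2
  have hAr : (K2:ℝ) ≤ A := by exact_mod_cast hA
  have hApos : (0:ℝ) < A := by linarith
  set u0 := A / K2 with hu0
  have hu0ge : 1 ≤ u0 := by rw [hu0, Nat.le_div_iff_mul_le (by omega)]; omega
  have hu0A : u0 ≤ A := Nat.div_le_self _ _
  have hu0r : (1:ℝ) ≤ u0 := by exact_mod_cast hu0ge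
  have hu0Ar : (u0:ℝ) ≤ A := by exact_mod_cast hu0A
  have hu0low : (A:ℝ) ≤ 2 * K2 * u0 := by
    have h1 := Nat.lt_div_mul_add (a := A) (b := K2) (by omega)
    have h2 : (A:ℝ) < u0 * K2 + K2 := by
      have : ((A:ℕ):ℝ) < ((A / K2 * K2 + K2 : ℕ) : ℝ) := by exact_mod_cast h1
      push_cast at this
      exact this
    nlinarith
  set H := Real.sqrt (u0:ℝ) / 2 with hH
  have hHpos : 0 < H := by positivity
  have hHsq : H ^ 2 = u0 / 4 := by rw [hH, div_pow, Real.sq_sqrt (by positivity)]; norm_num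
  set w : ℕ → ℝ := fun j => if u0 ≤ j then 1 else 0 with hw
  have hw0 : ∀ j, 0 ≤ w j := fun j => by simp only [hw]; split_ifs <;> norm_num
  have hYW : ∀ ω : Fin A → Bool, ∀ t, u0 ≤ t → t ≤ A → Y ω t = Y ω u0 + Wk w ω t := by
    intro ω t ht _
    unfold Y Ws Wk
    rw [← Finset.sum_add_distrib]
    refine Finset.sum_congr rfl fun j _ => ?_
    simp only [hw]
    by_cases h1 : (j:ℕ) < u0
    · have h2 : (j:ℕ) < t := by omega
      simp [h1, h2]
    · have h2 : u0 ≤ (j:ℕ) := by omega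
      by_cases h3 : (j:ℕ) < t <;> simp [h1, h2, h3]
  have h1 : 3 / 32 ≤ Pr A (fun ω => Real.sqrt u0 / 2 ≤ Y ω u0) := by
    unfold Y
    apply paley_zygmund A _ (Real.sqrt u0) (by positivity)
    rw [Real.sq_sqrt (by positivity)]
    have e1 : ∑ j ∈ range A, (if j < u0 then (1:ℝ) else 0) ^ 2 = ∑ j ∈ range u0, (1:ℝ) := by
      have e2 : ∀ v, (if v < u0 then (1:ℝ) else 0) ^ 2 = if v < u0 then (1:ℝ) else 0 := by
        intro v; split_ifs <;> norm_num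
      simp only [e2]
      rw [← Finset.sum_filter]
      congr 1
      ext v
      simp only [Finset.mem_filter, Finset.mem_range]
      omega
    rw [e1]; simp
  have h2 : H / (2 * Real.sqrt (2 * A + 1 ^ 2 + H ^ 2))
      ≤ Pr A (fun ω => ∀ k ≤ A, 0 < H + Wk w ω k) := by
    apply survive A w 1 A H _ _ hHpos
    · intro j _
      simp only [hw]; split_ifs <;> simp
    · calc ∑ j ∈ range A, w j ^ 2 ≤ ∑ j ∈ range A, (1:ℝ) := by
            refine Finset.sum_le_sum fun j _ => ?_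
            simp only [hw]; split_ifs <;> norm_num
        _ = A := by simp
  have hinc1 : Inc (fun ω : Fin A → Bool => Real.sqrt u0 / 2 ≤ Y ω u0) := by
    unfold Y
    apply Inc_Ws
    intro j; split_ifs <;> norm_num
  have hinc2 : Inc (fun ω : Fin A → Bool => ∀ k ≤ A, 0 < H + Wk w ω k) := by
    refine Inc.forall fun k => Inc.forall fun _ => ?_
    have : ∀ ω : Fin A → Bool, (0 < H + Wk w ω k) ↔ (-H < Ws A (fun j => if j < k then w j else 0) ω) := by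
      intro ω; rw [Wk_eq_Ws]; constructor <;> intro h <;> linarith
    simp only [this]
    apply Inc_Ws_lt
    intro j
    split_ifs
    · exact hw0 j
    · exact le_rfl
  have h3 := harris A hinc1 hinc2
  have h4 : Pr A (fun ω => (Real.sqrt u0 / 2 ≤ Y ω u0) ∧ (∀ k ≤ A, 0 < H + Wk w ω k)) ≤ G A K1 K2 0 := by
    unfold G
    refine Pr_mono A ?_
    rintro ω ⟨e1, e2⟩ k hk
    rw [zero_mul]
    unfold ZI
    refine Finset.sum_nonneg fun i hi => ?_
    rw [Finset.mem_Icc] at hi hk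
    have hi1 : u0 ≤ A / i := by rw [hu0]; exact Nat.div_le_div_left (by omega) (by omega)
    rw [hYW ω (A / i) hi1 (Nat.div_le_self _ _)]
    have := e2 (A / i) (Nat.div_le_self _ _)
    linarith
  have h5 : (3 / 32) * (H / (2 * Real.sqrt (2 * A + 1 ^ 2 + H ^ 2))) ≤ G A K1 K2 0 := by
    refine le_trans ?_ (h3.trans h4)
    exact mul_le_mul h1 h2 (by positivity) (Pr_nonneg _ _)
  refine le_trans ?_ h5
  -- numerics
  have h6 : Real.sqrt (2 * A + 1 ^ 2 + H ^ 2) ≤ 2 * Real.sqrt A := by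
    have : 2 * Real.sqrt (A:ℝ) = Real.sqrt (4 * A) := by
      rw [Real.sqrt_mul (by norm_num), show (4:ℝ) = 2 ^ 2 by norm_num, Real.sqrt_sq (by norm_num)]
    rw [this]
    apply Real.sqrt_le_sqrt
    rw [hHsq]; linarith
  have h7 : Real.sqrt (A:ℝ) ≤ Real.sqrt 2 * Real.sqrt K2 * Real.sqrt u0 := by
    rw [← Real.sqrt_mul (by norm_num), ← Real.sqrt_mul (by positivity)]
    exact Real.sqrt_le_sqrt hu0low
  have hs2 : Real.sqrt 2 ≤ 1.5 := by
    rw [Real.sqrt_le_left (by norm_num)]; norm_num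
  have hsK : 0 < Real.sqrt (K2:ℝ) := by positivity
  have hsu : 0 < Real.sqrt (u0:ℝ) := by positivity
  have h8 : Real.sqrt (2 * A + 1 ^ 2 + H ^ 2) ≤ 3 * Real.sqrt K2 * Real.sqrt u0 := by
    have : Real.sqrt 2 * Real.sqrt K2 * Real.sqrt u0 ≤ 1.5 * Real.sqrt K2 * Real.sqrt u0 := by
      gcongr
    linarith
  have h9 : 1 / (200 * Real.sqrt K2) ≤ (3 / 32) * (H / (2 * (3 * Real.sqrt K2 * Real.sqrt u0))) := by
    rw [hH]
    have : (3 / 32) * (Real.sqrt (u0:ℝ) / 2 / (2 * (3 * Real.sqrt K2 * Real.sqrt u0)))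
        = 1 / (128 * Real.sqrt K2) := by
      field_simp; norm_num
    rw [this]
    apply one_div_le_one_div_of_le (by positivity)
    nlinarith
  refine h9.trans ?_
  apply mul_le_mul_of_nonneg_left _ (by norm_num)
  apply div_le_div_of_nonneg_left hHpos.le (by positivity)
  linarith

/-- canonical probability with sums started at `I` -/
noncomputable def GI (A I K1 K2 : ℕ) (h : ℝ) : ℝ :=
  Pr A (fun ω => ∀ k ∈ Icc K1 K2, h * Real.sqrt ((A:ℝ) * k) ≤ ZI A I ω k)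

lemma small_start (A I K1 : ℕ) (x : ℝ) (hx : 0 < x) (hI : 1 ≤ I) (hK1 : 4 * x ^ 3 * I ≤ K1) (hA : 1 ≤ A) :
    Pr A (fun ω => Real.sqrt ((A:ℝ) * K1) / x ≤ |ZI A 1 ω I|) ≤ 2 * Real.exp (-(x / 2)) := by
  have hApos : (0:ℝ) < A := by exact_mod_cast hA
  have hIpos : (0:ℝ) < I := by exact_mod_cast hI
  refine (small_idx A A I _ (2 * A * I) (by positivity) le_rfl (by positivity)).trans ?_
  apply mul_le_mul_of_nonneg_left _ (by norm_num)
  apply Real.exp_le_exp.2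
  apply neg_le_neg
  rw [div_pow, Real.sq_sqrt (by positivity)]
  have : (A:ℝ) * K1 / x ^ 2 / (2 * (2 * A * I)) = (K1:ℝ) / (4 * x ^ 2 * I) := by
    field_simp; ring
  rw [this]
  have h2 : x ≤ (K1:ℝ) / (4 * x ^ 2 * I) := by
    rw [le_div_iff₀ (by positivity)]
    have : x * (4 * x ^ 2 * I) = 4 * x ^ 3 * I := by ring
    rw [this]; exact hK1
  linarith

lemma G_le_GI (A I K1 K2 : ℕ) (x h : ℝ) (hx : 0 < x) (hI : 1 ≤ I) (hK1 : 4 * x ^ 3 * I ≤ K1)
    (hIK : I ≤ K1) (hA : 1 ≤ A) :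
    G A K1 K2 h ≤ GI A (I+1) K1 K2 (h - 1 / x) + 2 * Real.exp (-(x / 2)) := by
  unfold G GI
  refine (Pr_le_add A (fun ω hω => ?_)).trans (add_le_add le_rfl (small_start A I K1 x hx hI hK1 hA))
  by_contra hc
  push Not at hc
  obtain ⟨⟨k, hk, hk2⟩, hc2⟩ := hc
  have hk' := Finset.mem_Icc.1 hk
  have h1 := hω k hk
  rw [ZI_split A I k (by omega) ω] at h1
  have h2 := (abs_lt.1 hc2).2
  have h3 : Real.sqrt ((A:ℝ) * K1) / x ≤ Real.sqrt ((A:ℝ) * k) / x := by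
    apply div_le_div_of_nonneg_right _ hx.le
    apply Real.sqrt_le_sqrt
    exact mul_le_mul_of_nonneg_left (by exact_mod_cast hk'.1) (by positivity)
  have h4 : (h - 1 / x) * Real.sqrt ((A:ℝ) * k) = h * Real.sqrt ((A:ℝ) * k) - Real.sqrt ((A:ℝ) * k) / x := by
    ring
  linarith

lemma GI_le_G (A I K1 K2 : ℕ) (x h : ℝ) (hx : 0 < x) (hI : 1 ≤ I) (hK1 : 4 * x ^ 3 * I ≤ K1)
    (hIK : I ≤ K1) (hA : 1 ≤ A) :
    GI A (I+1) K1 K2 h ≤ G A K1 K2 (h - 1 / x) + 2 * Real.exp (-(x / 2)) := by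
  unfold G GI
  refine (Pr_le_add A (fun ω hω => ?_)).trans (add_le_add le_rfl (small_start A I K1 x hx hI hK1 hA))
  by_contra hc
  push Not at hc
  obtain ⟨⟨k, hk, hk2⟩, hc2⟩ := hc
  have hk' := Finset.mem_Icc.1 hk
  have h1 := hω k hk
  rw [ZI_split A I k (by omega) ω] at hk2
  have h2 := (abs_lt.1 hc2).1
  have h3 : Real.sqrt ((A:ℝ) * K1) / x ≤ Real.sqrt ((A:ℝ) * k) / x := by
    apply div_le_div_of_nonneg_right _ hx.le
    apply Real.sqrt_le_sqrt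
    exact mul_le_mul_of_nonneg_left (by exact_mod_cast hk'.1) (by positivity)
  have h4 : (h - 1 / x) * Real.sqrt ((A:ℝ) * k) = h * Real.sqrt ((A:ℝ) * k) - Real.sqrt ((A:ℝ) * k) / x := by
    ring
  linarith

end Pool.GP
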