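import Pool.Agent.Lib.GP.Delta5

set_option autoImplicit false

/-!
The `δ`-model: comparison with the canonical functional.
-/

namespace Pool.GP.Delta

open Finset Pool.GP

lemma Inc_Sd (D : ℕ) (δ : ℕ → ℕ) (s : Finset ℕ) :
    Inc (fun ω : Fin D → Bool => ∀ k ∈ s, (k:ℝ) ≤ Sd D δ ω k) := by
  refine Inc.forall fun k => Inc.forall fun _ => ?_
  intro ω ω' h hc
  refine hc.trans ?_
  unfold Sd
  exact Finset.sum_le_sum fun j _ => mul_le_mul_of_nonneg_left (h j) (by positivity)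

lemma Par.lower {D A : ℕ} {δ : ℕ → ℕ} {x : ℝ} {I K1 K2 : ℕ} (P : Par D A δ x I K1 K2) :
    (G A K1 K2 (8 / x) - 40 * D * Real.exp (-(x / 40))) / x ^ 186 ≤ PD D δ := by
  have hx := P.x_pos
  rcases le_or_gt (G A K1 K2 (8 / x) - 40 * D * Real.exp (-(x / 40))) 0 with hc | hc
  · exact (div_nonpos_of_nonpos_of_nonneg hc (by positivity)).trans (Pr_nonneg _ _)
  have h1 := P.small
  have h2 := P.middle
  have h3 := P.large
  have h4 := harris D (Inc_Sd D δ (Icc K1 K2)) (Inc_Sd D δ (Icc 1 K1))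
  have h5 := harris D ((Inc_Sd D δ (Icc K1 K2)).and (Inc_Sd D δ (Icc 1 K1))) (Inc_Sd D δ (Icc K2 D))
  have h6 : Pr D (fun ω => ((∀ k ∈ Icc K1 K2, (k:ℝ) ≤ Sd D δ ω k) ∧
      (∀ k ∈ Icc 1 K1, (k:ℝ) ≤ Sd D δ ω k)) ∧ (∀ k ∈ Icc K2 D, (k:ℝ) ≤ Sd D δ ω k)) ≤ PD D δ := by
    unfold PD
    refine Pr_mono D ?_
    rintro ω ⟨⟨e1, e2⟩, e3⟩ k hk
    rw [Finset.mem_Icc] at hk
    rcases le_total k K1 with h | h
    · exact e2 k (Finset.mem_Icc.2 ⟨hk.1, h⟩)
    · rcases le_total k K2 with h' | h'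
      · exact e1 k (Finset.mem_Icc.2 ⟨h, h'⟩)
      · exact e3 k (Finset.mem_Icc.2 ⟨h', hk.2⟩)
  refine le_trans ?_ (h5.trans h6)
  have h7 : (G A K1 K2 (8 / x) - 40 * D * Real.exp (-(x / 40))) * (1 / x ^ 19) ≤
      Pr D (fun ω => ∀ k ∈ Icc K1 K2, (k:ℝ) ≤ Sd D δ ω k) *
      Pr D (fun ω => ∀ k ∈ Icc 1 K1, (k:ℝ) ≤ Sd D δ ω k) :=
    mul_le_mul h2 h1 (by positivity) (Pr_nonneg _ _)
  have h8 := mul_le_mul (h7.trans h4) h3 (by positivity) (Pr_nonneg _ _)
  refine le_trans (le_of_eq ?_) h8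
  have : x ^ 186 = x ^ 19 * x ^ 167 := by ring
  rw [this]
  field_simp

end Delta

open Delta in
/-- comparison of the `δ`-model with the canonical functional -/
theorem deltaTarget : DeltaTarget := by
  refine ⟨1000, fun x D A δ hCx hCD H => ?_⟩
  push_cast at hCx
  have hx : 0 < x := by linarith
  have hx1 : 1 ≤ x := by linarith
  have hpw : ∀ {a b : ℕ}, a ≤ b → x ^ a ≤ x ^ b := fun hab => pow_le_pow_right₀ hx1 hab
  have hD0 : (0:ℝ) < D := lt_of_lt_of_le (pow_pos hx _) hCD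
  -- the parameters
  set I := ⌈x ^ 20⌉₊ + 1 with hI
  set K1 := ⌈x ^ 33⌉₊ with hK1
  set K2 := ⌊(D:ℝ) / x ^ 250⌋₊ with hK2
  have hIl : x ^ 20 + 1 ≤ I := by
    rw [hI]; push_cast
    have := Nat.le_ceil (x ^ 20)
    linarith
  have hIu : (I:ℝ) ≤ 2 * x ^ 20 := by
    rw [hI]; push_cast
    have h1 := Nat.ceil_lt_add_one (pow_pos hx 20).le
    have h2 : 2 ≤ x ^ 20 := by
      have := hpw (a := 1) (b := 20) (by norm_num)
      rw [pow_one] at this
      linarith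
    linarith
  have hK1l : x ^ 33 ≤ K1 := Nat.le_ceil _
  have hK1u : (K1:ℝ) ≤ 2 * x ^ 33 := by
    have h1 := Nat.ceil_lt_add_one (pow_pos hx 33).le
    have h2 : 1 ≤ x ^ 33 := one_le_pow₀ hx1
    linarith
  have hDx : 2 ≤ (D:ℝ) / x ^ 250 := by
    rw [le_div_iff₀ (by positivity)]
    have h1 : x ^ 1 * x ^ 250 ≤ x ^ 1000 := by
      rw [← pow_add]; exact hpw (by norm_num)
    rw [pow_one] at h1
    have h2 : 2 * x ^ 250 ≤ x * x ^ 250 := mul_le_mul_of_nonneg_right (by linarith) (pow_pos hx _).le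
    linarith
  have hK2l : (D:ℝ) ≤ 2 * x ^ 250 * K2 := by
    have h1 := Nat.lt_floor_add_one ((D:ℝ) / x ^ 250)
    have h2 : (D:ℝ) / x ^ 250 ≤ 2 * K2 := by linarith
    rw [div_le_iff₀ (by positivity)] at h2
    linarith
  have hK2u : (K2:ℝ) * x ^ 250 ≤ D := by
    have h1 := Nat.floor_le (by positivity : 0 ≤ (D:ℝ) / x ^ 250)
    rwa [le_div_iff₀ (by positivity)] at h1
  have P : Par D A δ x I K1 K2 :=
    ⟨by linarith, (hpw (by norm_num)).trans hCD, H, hIl, hIu, hK1l, hK1u, hK2l, hK2u⟩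
  have hA := P.A_pos
  have hE := Real.exp_pos (-(x / 40))
  have hDE : 0 ≤ (D:ℝ) * Real.exp (-(x / 40)) := by positivity
  refine ⟨K1, K2, hK1l, ?_, ?_, P.K2_le_D, ?_, ?_, ?_, ?_⟩
  · refine hK1u.trans ?_
    have h1 : x ^ 1 * x ^ 33 ≤ x ^ 1000 := by
      rw [← pow_add]; exact hpw (by norm_num)
    rw [pow_one] at h1
    have h2 : 2 * x ^ 33 ≤ x * x ^ 33 := mul_le_mul_of_nonneg_right (by linarith) (pow_pos hx _).le
    linarith
  · have := P.K1_le_K2
    omega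
  · refine hK2l.trans ?_
    apply mul_le_mul_of_nonneg_right _ (Nat.cast_nonneg _)
    have h1 : x ^ 1 * x ^ 250 ≤ x ^ 1000 := by
      rw [← pow_add]; exact hpw (by norm_num)
    rw [pow_one] at h1
    have h2 : 2 * x ^ 250 ≤ x * x ^ 250 := mul_le_mul_of_nonneg_right (by linarith) (pow_pos hx _).le
    linarith
  · have h1 := P.DkA' (k := K2) le_rfl
    have h2 : x ^ 20 ≤ x ^ 200 := hpw (by norm_num)
    have h3 : (1:ℝ) ≤ D := by
      have : 0 < D := by exact_mod_cast hD0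
      exact_mod_cast this
    calc x ^ 20 * (K2:ℝ) ≤ x ^ 200 * K2 := mul_le_mul_of_nonneg_right h2 (Nat.cast_nonneg _)
      _ = 1 * (K2 * x ^ 200) := by ring
      _ ≤ D * (K2 * x ^ 200) := mul_le_mul_of_nonneg_right h3 (by positivity)
      _ = D * K2 * x ^ 200 := by ring
      _ ≤ A := h1
  · refine P.upper.trans ?_
    have h1 : G A K1 K2 (-(7 / x)) ≤ G A K1 K2 (-(((1000:ℕ):ℝ) / x)) := by
      apply G_anti_h
      apply neg_le_neg
      apply div_le_div_of_nonneg_right _ hx.le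
      norm_num
    push_cast at h1 ⊢
    linarith
  · have h1 : G A K1 K2 (((1000:ℕ):ℝ) / x) ≤ G A K1 K2 (8 / x) := by
      apply G_anti_h
      apply div_le_div_of_nonneg_right _ hx.le
      norm_num
    push_cast at h1 ⊢
    rcases le_or_gt (G A K1 K2 (1000 / x) - 1000 * D * Real.exp (-(x / 40))) 0 with hc | hc
    · exact (div_nonpos_of_nonpos_of_nonneg hc (by positivity)).trans (Pr_nonneg _ _)
    · refine le_trans ?_ P.lower
      have h2 : G A K1 K2 (1000 / x) - 1000 * D * Real.exp (-(x / 40)) ≤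
          G A K1 K2 (8 / x) - 40 * D * Real.exp (-(x / 40)) := by linarith
      have h3 : x ^ 186 ≤ x ^ 1000 := hpw (by norm_num)
      exact div_le_div₀ (hc.le.trans h2) h2 (by positivity) h3

end Pool.GP
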