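import Pool.Agent.Lib.GP.DeltaDefs
import Pool.Agent.Lib.GraphPart.Regular

set_option autoImplicit false

/-!
Regular codes satisfy the hypotheses of Theorem U.
-/

namespace Pool.GP

open Finset Pool.Agent.Lib.GraphPart

lemma sum_blocks (F : ℕ → ℝ) (h t0 : ℕ) : ∀ n : ℕ,
    ∑ j ∈ Ico (t0 * h) ((t0 + n) * h), F j = ∑ t ∈ Ico t0 (t0 + n), ∑ j ∈ range h, F (t * h + j) := by
  intro n
  induction n with
  | zero => simp
  | succ n ih =>
    have e : t0 + (n+1) = (t0 + n) + 1 := by ring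
    rw [e, Finset.sum_Ico_succ_top (by omega), ← ih, ← sum_Ico_group F h (t0 + n),
      Finset.sum_Ico_consecutive _ (Nat.mul_le_mul_right _ (by omega)) (Nat.mul_le_mul_right _ (by omega))]

lemma sum_inv_sq_Ico_le (a : ℕ) (ha : 1 ≤ a) : ∀ n : ℕ,
    ∑ t ∈ Ico (a+1) (a + 1 + n), 1 / (t:ℝ) ^ 2 ≤ 1 / (a:ℝ) - 1 / ((a + n : ℕ):ℝ) := by
  intro n
  induction n with
  | zero => simp
  | succ n ih =>
    have e : a + 1 + (n+1) = (a + 1 + n) + 1 := by ring
    rw [e, Finset.sum_Ico_succ_top (by omega)]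
    have h1 : (0:ℝ) < ((a + n : ℕ):ℝ) := by exact_mod_cast (by omega : 0 < a + n)
    have h2 : ((a + 1 + n : ℕ):ℝ) = ((a + n : ℕ):ℝ) + 1 := by push_cast; ring
    have h3 : ((a + (n+1) : ℕ):ℝ) = ((a + n : ℕ):ℝ) + 1 := by push_cast; ring
    rw [h2, h3]
    set y := ((a + n : ℕ):ℝ)
    have h4 : 1 / (y + 1) ^ 2 ≤ 1 / y - 1 / (y + 1) := by
      have : 1 / y - 1 / (y + 1) = 1 / (y * (y + 1)) := by field_simp; ring
      rw [this]
      apply one_div_le_one_div_of_le (by positivity)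
      nlinarith
    linarith

lemma sum_inv_sq_Ico_ge (a : ℕ) : ∀ n : ℕ,
    1 / ((a + 1 : ℕ):ℝ) - 1 / ((a + 1 + n : ℕ):ℝ) ≤ ∑ t ∈ Ico a (a + n), 1 / ((t:ℝ) + 1) ^ 2 := by
  intro n
  induction n with
  | zero => simp
  | succ n ih =>
    have e : a + (n+1) = (a + n) + 1 := by ring
    rw [e, Finset.sum_Ico_succ_top (by omega)]
    have h2 : ((a + 1 + n : ℕ):ℝ) = ((a + n : ℕ):ℝ) + 1 := by push_cast; ring
    have h3 : ((a + 1 + (n + 1) : ℕ):ℝ) = ((a + n : ℕ):ℝ) + 1 + 1 := by push_cast; ring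
    rw [h3]
    rw [h2] at ih
    set y := ((a + n : ℕ):ℝ)
    have hy : 0 ≤ y := by positivity
    have h4 : 1 / (y + 1) - 1 / (y + 1 + 1) ≤ 1 / (y + 1) ^ 2 := by
      have : 1 / (y + 1) - 1 / (y + 1 + 1) = 1 / ((y + 1) * (y + 1 + 1)) := by field_simp; ring
      rw [this]
      apply one_div_le_one_div_of_le (by positivity)
      nlinarith
    linarith

/-- the weighted sum of squares of a flat sequence -/
lemma flat_sum (α : ℕ → ℝ) (e v3 D i : ℕ) (η l1 l2 a : ℝ) (hR : Reg α e v3 η l1 l2) (hη0 : 0 ≤ η) (hη1 : η ≤ 1)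
    (hev : e ≤ v3) (hD : 2 ^ v3 ≤ D)
    (ha : (2:ℝ) ^ e / i = a) (ha2 : a ≤ 1 / 4) (hi : 1 ≤ i) (hib : (i:ℝ) ≤ 2 ^ v3 / 4)  :
    (1 - η) * (1 - 2 * a - i / 2 ^ v3) ≤ i * ∑ j ∈ Ico (i-1) D, α j ^ 2 / ((j:ℝ) + 1) ^ 2 ∧
    i * ∑ j ∈ Ico (i-1) D, α j ^ 2 / ((j:ℝ) + 1) ^ 2 ≤ (1 + η) * a + (1 + η) * (1 + 2 * a) + l2 ^ 2 * (i / 2 ^ v3) := by
  set h := 2 ^ e with hh
  have hhpos : 0 < h := by positivity
  have hhr : (0:ℝ) < (h:ℝ) := by exact_mod_cast hhpos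
  have hhcast : (h:ℝ) = (2:ℝ) ^ e := by rw [hh]; push_cast; rfl
  have hipos : (0:ℝ) < i := by exact_mod_cast hi
  have ha' : (h:ℝ) = a * i := by
    rw [hhcast, ← ha]; field_simp
  have hapos : 0 < a := by rw [← ha]; positivity
  have hih : 4 * h ≤ i := by
    have : 4 * (h:ℝ) ≤ i := by rw [ha']; nlinarith
    exact_mod_cast this
  set T1 := 2 ^ (v3 - e) with hT1
  have hT1h : T1 * h = 2 ^ v3 := by rw [hT1, hh, ← pow_add]; congr 1; omega
  have hT1hr : (T1:ℝ) * h = 2 ^ v3 := by exact_mod_cast hT1h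
  set q := (i - 1) / h with hq
  have hq1 : q * h ≤ i - 1 := Nat.div_mul_le_self _ _
  have hq2 : i - 1 < q * h + h := Nat.lt_div_mul_add hhpos
  have hq3 : 1 ≤ q := by
    rw [hq, Nat.le_div_iff_mul_le hhpos]; omega
  have hqT : q + 1 ≤ T1 := by
    have h1 : 4 * i ≤ 2 ^ v3 := by
      have : 4 * (i:ℝ) ≤ 2 ^ v3 := by linarith
      exact_mod_cast this
    by_contra hcon
    push Not at hcon
    have h2 : T1 * h ≤ q * h := Nat.mul_le_mul_right _ (by omega)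
    omega
  set F : ℕ → ℝ := fun j => α j ^ 2 / ((j:ℝ) + 1) ^ 2 with hF
  have hF0 : ∀ j, 0 ≤ F j := fun j => by positivity
  -- splitting
  have hs1 : i - 1 ≤ (q + 1) * h := by
    have : (q + 1) * h = q * h + h := by ring
    omega
  have hs2 : (q + 1) * h ≤ 2 ^ v3 := by rw [← hT1h]; exact Nat.mul_le_mul_right _ hqT
  have hsplit : ∑ j ∈ Ico (i-1) D, F j = ∑ j ∈ Ico (i-1) ((q+1)*h), F j +
      ∑ j ∈ Ico ((q+1)*h) (2 ^ v3), F j + ∑ j ∈ Ico (2 ^ v3) D, F j := by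
    rw [Finset.sum_Ico_consecutive _ hs1 hs2, Finset.sum_Ico_consecutive _ (hs1.trans hs2) hD]
  obtain ⟨n, hn⟩ : ∃ n, T1 = (q + 1) + n := ⟨T1 - (q+1), by omega⟩
  have hmid : ∑ j ∈ Ico ((q+1)*h) (2 ^ v3), F j = ∑ t ∈ Ico (q+1) (q+1+n), ∑ j ∈ range h, F (t * h + j) := by
    rw [← hT1h, hn]; exact sum_blocks F h (q+1) n
  -- block bounds
  have hblock : ∀ t, t < T1 → |∑ j ∈ range h, α (t * h + j) ^ 2 - h| ≤ η * h := by
    intro t ht
    have h1 : (t + 1) * 2 ^ e ≤ 2 ^ v3 := by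
      rw [← hT1h, ← hh]; exact Nat.mul_le_mul_right _ ht
    have := hR.flat t h1
    rw [← hh] at this
    rw [hhcast]
    exact this
  have hup : ∀ t ∈ Ico (q+1) (q+1+n), ∑ j ∈ range h, F (t * h + j) ≤ (1 + η) / h * (1 / (t:ℝ) ^ 2) := by
    intro t ht
    rw [Finset.mem_Ico] at ht
    have htpos : (0:ℝ) < t := by exact_mod_cast (by omega : 0 < t)
    have h1 := (abs_le.1 (hblock t (by omega))).2
    calc ∑ j ∈ range h, F (t * h + j) ≤ ∑ j ∈ range h, α (t * h + j) ^ 2 * (1 / ((t:ℝ) * h) ^ 2) := by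
          refine Finset.sum_le_sum fun j _ => ?_
          simp only [hF]
          rw [div_eq_mul_one_div]
          apply mul_le_mul_of_nonneg_left _ (sq_nonneg _)
          apply one_div_le_one_div_of_le (by positivity)
          apply pow_le_pow_left₀ (by positivity)
          push_cast
          have : (0:ℝ) ≤ j := by positivity
          linarith
      _ = (∑ j ∈ range h, α (t * h + j) ^ 2) * (1 / ((t:ℝ) * h) ^ 2) := by rw [Finset.sum_mul]
      _ ≤ ((1 + η) * h) * (1 / ((t:ℝ) * h) ^ 2) := by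
          apply mul_le_mul_of_nonneg_right _ (by positivity)
          linarith
      _ = (1 + η) / h * (1 / (t:ℝ) ^ 2) := by field_simp
  have hlow : ∀ t ∈ Ico (q+1) (q+1+n), (1 - η) / h * (1 / ((t:ℝ) + 1) ^ 2) ≤ ∑ j ∈ range h, F (t * h + j) := by
    intro t ht
    rw [Finset.mem_Ico] at ht
    have htpos : (0:ℝ) < t := by exact_mod_cast (by omega : 0 < t)
    have h1 := (abs_le.1 (hblock t (by omega))).1
    calc (1 - η) / h * (1 / ((t:ℝ) + 1) ^ 2) = ((1 - η) * h) * (1 / (((t:ℝ) + 1) * h) ^ 2) := by field_simp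
      _ ≤ (∑ j ∈ range h, α (t * h + j) ^ 2) * (1 / (((t:ℝ) + 1) * h) ^ 2) := by
          apply mul_le_mul_of_nonneg_right _ (by positivity)
          linarith
      _ = ∑ j ∈ range h, α (t * h + j) ^ 2 * (1 / (((t:ℝ) + 1) * h) ^ 2) := by rw [Finset.sum_mul]
      _ ≤ ∑ j ∈ range h, F (t * h + j) := by
          refine Finset.sum_le_sum fun j hj => ?_
          simp only [hF]
          rw [div_eq_mul_one_div (α (t * h + j) ^ 2)]
          apply mul_le_mul_of_nonneg_left _ (sq_nonneg _)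
          apply one_div_le_one_div_of_le (by positivity)
          apply pow_le_pow_left₀ (by positivity)
          have : ((j + 1 : ℕ):ℝ) ≤ h := by exact_mod_cast Finset.mem_range.1 hj
          push_cast at this ⊢
          linarith
  have hq0 : (0:ℝ) < q := by exact_mod_cast hq3
  -- middle sum bounds
  have hmidup : ∑ j ∈ Ico ((q+1)*h) (2 ^ v3), F j ≤ (1 + η) / h * (1 / q) := by
    rw [hmid]
    refine (Finset.sum_le_sum hup).trans ?_
    rw [← Finset.mul_sum]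
    apply mul_le_mul_of_nonneg_left _ (by positivity)
    have := sum_inv_sq_Ico_le q hq3 n
    have h2 : 0 ≤ 1 / ((q + n : ℕ):ℝ) := by positivity
    linarith
  have hmidlow : (1 - η) / h * (1 / ((q + 2 : ℕ):ℝ) - 1 / T1) ≤ ∑ j ∈ Ico ((q+1)*h) (2 ^ v3), F j := by
    rw [hmid]
    refine le_trans ?_ (Finset.sum_le_sum hlow)
    rw [← Finset.mul_sum]
    apply mul_le_mul_of_nonneg_left _ (div_nonneg (by linarith) hhr.le)
    have h3 := sum_inv_sq_Ico_ge (q+1) n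
    have h4 : 1 / ((q + 1 + 1 + n : ℕ):ℝ) ≤ 1 / T1 := by
      apply one_div_le_one_div_of_le
      · exact_mod_cast (by omega : 0 < T1)
      · exact_mod_cast (by omega : T1 ≤ q + 1 + 1 + n)
    linarith
  -- first part
  have hfirst : ∑ j ∈ Ico (i-1) ((q+1)*h), F j ≤ (1 + η) * h / (i:ℝ) ^ 2 := by
    have h1 := (abs_le.1 (hblock q (by omega))).2
    calc ∑ j ∈ Ico (i-1) ((q+1)*h), F j ≤ ∑ j ∈ Ico (i-1) ((q+1)*h), α j ^ 2 * (1 / (i:ℝ) ^ 2) := by
          refine Finset.sum_le_sum fun j hj => ?_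
          rw [Finset.mem_Ico] at hj
          simp only [hF]
          rw [div_eq_mul_one_div]
          apply mul_le_mul_of_nonneg_left _ (sq_nonneg _)
          apply one_div_le_one_div_of_le (by positivity)
          apply pow_le_pow_left₀ (by positivity)
          exact_mod_cast (by omega : i ≤ j + 1)
      _ = (∑ j ∈ Ico (i-1) ((q+1)*h), α j ^ 2) * (1 / (i:ℝ) ^ 2) := by rw [Finset.sum_mul]
      _ ≤ (∑ j ∈ Ico (q*h) ((q+1)*h), α j ^ 2) * (1 / (i:ℝ) ^ 2) := by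
          apply mul_le_mul_of_nonneg_right _ (by positivity)
          apply Finset.sum_le_sum_of_subset_of_nonneg
          · exact Finset.Ico_subset_Ico_left hq1
          · intro j _ _; positivity
      _ ≤ ((1 + η) * h) * (1 / (i:ℝ) ^ 2) := by
          apply mul_le_mul_of_nonneg_right _ (by positivity)
          rw [sum_Ico_group (fun j => α j ^ 2) h q]
          linarith
      _ = (1 + η) * h / (i:ℝ) ^ 2 := by ring
  -- last part
  have hv3pos : (0:ℝ) < 2 ^ v3 := by positivity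
  have hlast : ∑ j ∈ Ico (2 ^ v3) D, F j ≤ l2 ^ 2 * (1 / 2 ^ v3) := by
    obtain ⟨m, hm⟩ : ∃ m, D = 2 ^ v3 + m := ⟨D - 2 ^ v3, by omega⟩
    calc ∑ j ∈ Ico (2 ^ v3) D, F j ≤ ∑ j ∈ Ico (2 ^ v3) D, l2 ^ 2 * (1 / ((j:ℝ) + 1) ^ 2) := by
          refine Finset.sum_le_sum fun j _ => ?_
          simp only [hF]
          rw [div_eq_mul_one_div]
          apply mul_le_mul_of_nonneg_right _ (by positivity)
          exact pow_le_pow_left₀ (hR.nn j) (hR.bd2 j) 2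
      _ = l2 ^ 2 * ∑ j ∈ Ico (2 ^ v3) D, (1 / ((j:ℝ) + 1) ^ 2) := by rw [Finset.mul_sum]
      _ ≤ l2 ^ 2 * (1 / 2 ^ v3) := by
          apply mul_le_mul_of_nonneg_left _ (sq_nonneg _)
          have h1 : ∑ j ∈ Ico (2 ^ v3) D, (1 / ((j:ℝ) + 1) ^ 2) = ∑ t ∈ Ico (2 ^ v3 + 1) (2 ^ v3 + 1 + m), 1 / (t:ℝ) ^ 2 := by
            have e1 : 2 ^ v3 + 1 + m = D + 1 := by omega
            rw [e1, Finset.sum_Ico_eq_sum_range, Finset.sum_Ico_eq_sum_range]
            have e2 : D + 1 - (2 ^ v3 + 1) = D - 2 ^ v3 := by omega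
            rw [e2]
            refine Finset.sum_congr rfl fun j _ => ?_
            push_cast
            ring
          rw [h1]
          have h2 := sum_inv_sq_Ico_le (2 ^ v3) Nat.one_le_two_pow m
          have h3 : 0 ≤ 1 / ((2 ^ v3 + m : ℕ):ℝ) := by positivity
          push_cast at h2 h3 ⊢
          linarith
  have hlast0 : 0 ≤ ∑ j ∈ Ico (2 ^ v3) D, F j := Finset.sum_nonneg fun j _ => hF0 j
  have hfirst0 : 0 ≤ ∑ j ∈ Ico (i-1) ((q+1)*h), F j := Finset.sum_nonneg fun j _ => hF0 j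
  -- arithmetic: i/(q h) and i/((q+2) h)
  have hqh1 : (i:ℝ) ≤ q * h + h := by exact_mod_cast (by omega : i ≤ q * h + h)
  have hqh2 : (q:ℝ) * h ≤ i := by exact_mod_cast (by omega : q * h ≤ i)
  have hr1 : (i:ℝ) * (1 / h * (1 / q)) ≤ 1 + 2 * a := by
    have : (i:ℝ) * (1 / h * (1 / q)) = i / (q * h) := by field_simp
    rw [this, div_le_iff₀ (by positivity)]
    -- i ≤ (1+2a)(q h), q h ≥ i - h = i(1-a)
    have h1 : (i:ℝ) * (1 - a) ≤ q * h := by
      have : (i:ℝ) * (1 - a) = i - a * i := by ring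
      rw [this, ← ha']; linarith
    have h2 : (i:ℝ) ≤ (1 + 2 * a) * (i * (1 - a)) := by
      have : (1 + 2 * a) * ((i:ℝ) * (1 - a)) = i * (1 + a * (1 - 2 * a)) := by ring
      rw [this]
      have h3 : 0 ≤ a * (1 - 2 * a) := mul_nonneg hapos.le (by linarith)
      nlinarith
    exact h2.trans (mul_le_mul_of_nonneg_left h1 (by linarith))
  have hr2 : 1 - 2 * a ≤ (i:ℝ) * (1 / h * (1 / ((q + 2 : ℕ):ℝ))) := by
    have e1 : (i:ℝ) * (1 / h * (1 / ((q + 2 : ℕ):ℝ))) = i / ((q + 2) * h) := by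
      push_cast; field_simp
    rw [e1, le_div_iff₀ (by positivity)]
    have h1 : ((q:ℝ) + 2) * h ≤ i * (1 + 2 * a) := by
      have : (i:ℝ) * (1 + 2 * a) = i + 2 * (a * i) := by ring
      rw [this, ← ha']; linarith
    calc (1 - 2 * a) * (((q:ℝ) + 2) * h) ≤ (1 - 2 * a) * (i * (1 + 2 * a)) :=
          mul_le_mul_of_nonneg_left h1 (by linarith)
      _ = i * (1 - 4 * a ^ 2) := by ring
      _ ≤ i * 1 := by
          apply mul_le_mul_of_nonneg_left _ hipos.le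
          nlinarith
      _ = i := mul_one _
  have hr3 : (i:ℝ) * (1 / h * (1 / T1)) = i / 2 ^ v3 := by
    rw [← hT1hr]; field_simp
  have hfsum : ∑ j ∈ Ico (i-1) D, α j ^ 2 / ((j:ℝ) + 1) ^ 2 = ∑ j ∈ Ico (i-1) D, F j := rfl
  rw [hfsum, hsplit]
  constructor
  · calc (1 - η) * (1 - 2 * a - i / 2 ^ v3) ≤ (1 - η) * ((i:ℝ) * (1 / h * (1 / ((q + 2 : ℕ):ℝ))) - (i:ℝ) * (1 / h * (1 / T1))) := by
          apply mul_le_mul_of_nonneg_left _ (by linarith)
          rw [hr3]; linarith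
      _ = i * ((1 - η) / h * (1 / ((q + 2 : ℕ):ℝ) - 1 / T1)) := by ring
      _ ≤ i * (∑ j ∈ Ico (i-1) ((q+1)*h), F j + ∑ j ∈ Ico ((q+1)*h) (2 ^ v3), F j + ∑ j ∈ Ico (2 ^ v3) D, F j) := by
          apply mul_le_mul_of_nonneg_left _ hipos.le
          linarith
  · have p1 : (i:ℝ) * ∑ j ∈ Ico (i-1) ((q+1)*h), F j ≤ (1 + η) * a := by
      calc (i:ℝ) * ∑ j ∈ Ico (i-1) ((q+1)*h), F j ≤ i * ((1 + η) * h / (i:ℝ) ^ 2) :=
            mul_le_mul_of_nonneg_left hfirst hipos.le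
        _ = (1 + η) * a := by rw [ha']; field_simp
    have p2 : (i:ℝ) * ∑ j ∈ Ico ((q+1)*h) (2 ^ v3), F j ≤ (1 + η) * (1 + 2 * a) := by
      calc (i:ℝ) * ∑ j ∈ Ico ((q+1)*h) (2 ^ v3), F j ≤ i * ((1 + η) / h * (1 / q)) :=
            mul_le_mul_of_nonneg_left hmidup hipos.le
        _ = (1 + η) * ((i:ℝ) * (1 / h * (1 / q))) := by ring
        _ ≤ (1 + η) * (1 + 2 * a) := mul_le_mul_of_nonneg_left hr1 (by linarith)
    have p3 : (i:ℝ) * ∑ j ∈ Ico (2 ^ v3) D, F j ≤ l2 ^ 2 * (i / 2 ^ v3) := by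
      calc (i:ℝ) * ∑ j ∈ Ico (2 ^ v3) D, F j ≤ i * (l2 ^ 2 * (1 / 2 ^ v3)) :=
            mul_le_mul_of_nonneg_left hlast hipos.le
        _ = l2 ^ 2 * (i / 2 ^ v3) := by ring
    rw [mul_add, mul_add]
    linarith

/-- **Regular codes satisfy the hypotheses of Theorem U.** -/
theorem dhyp_of_RC {Lam L e v3 N : ℕ} (hP : Par Lam L e v3) {c : Cd} (hc : c ∈ allCodes N) (hN : N < 2 ^ (L+1))
    (hRC : RC L e v3 c) (x : ℝ) (hx0 : 0 < x) (hx16 : x ^ 16 = 2 ^ e) (hxL : 2 * ((L:ℝ) ^ 2 + 2) ^ 2 ≤ x)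
    (hx : 100 ≤ x) :
    ∃ A : ℕ, Dhyp c.1 A (fun j => ab c (j - 1)) x := by
  obtain ⟨hD, Ah, hAh, hR⟩ := hRC
  obtain ⟨he1, he2⟩ := hP.exps
  have he80 := hP.e_big
  set D := c.1 with hDdef
  have hx1 : 1 ≤ x := by linarith
  -- D
  have hDN : D ^ 2 ≤ N := durfee_sq_le hc
  have hDup : D < 2 ^ (L / 2 + 1) := by
    by_contra hcon
    push Not at hcon
    have h1 : (2 ^ (L/2+1)) ^ 2 ≤ D ^ 2 := Nat.pow_le_pow_left hcon 2
    have h2 : (2 ^ (L/2+1)) ^ 2 = 2 ^ (2 * (L/2+1)) := by rw [← pow_mul]; ring_nf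
    have h3 : 2 ^ (L+1) ≤ 2 ^ (2 * (L/2+1)) := Nat.pow_le_pow_right (by norm_num) (by omega)
    omega
  have hV : (2:ℝ) ^ (L/2) = 2 ^ v3 * x ^ 64 := by
    have : x ^ 64 = 2 ^ (4 * e) := by
      calc x ^ 64 = (x ^ 16) ^ 4 := by ring
        _ = (2 ^ e) ^ 4 := by rw [hx16]
        _ = 2 ^ (4 * e) := by rw [← pow_mul]; ring_nf
    rw [this, ← pow_add]; congr 1; omega
  have hDr : (D:ℝ) ≤ 2 * (2 ^ v3 * x ^ 64) := by
    have h1 : (D:ℝ) ≤ 2 ^ (L/2+1) := by exact_mod_cast hDup.le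
    rw [pow_succ, hV] at h1
    linarith
  have hDlow : (2:ℝ) ^ v3 ≤ D := by exact_mod_cast hD
  have hV0 : (0:ℝ) < 2 ^ v3 := by positivity
  -- Ah
  have hAh1 : 2 ^ v3 * x ^ 48 / 2 ≤ Ah := by
    refine le_trans ?_ hAh
    apply div_le_div_of_nonneg_right _ (by norm_num)
    have h1 : x ^ 48 = 2 ^ (3 * e) := by
      calc x ^ 48 = (x ^ 16) ^ 3 := by ring
        _ = (2 ^ e) ^ 3 := by rw [hx16]
        _ = 2 ^ (3 * e) := by rw [← pow_mul]; ring_nf
    rw [h1, ← pow_add]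
    apply pow_le_pow_right₀ (by norm_num)
    omega
  have hAhpos : 0 < Ah := lt_of_lt_of_le (by positivity) hAh1
  have hAh2 : (2 ^ v3 * x ^ 48 / 2) ^ 2 ≤ Ah ^ 2 := pow_le_pow_left₀ (by positivity) hAh1 2
  have hv3one : (1:ℝ) ≤ 2 ^ v3 := one_le_pow₀ (by norm_num)
  have hx96 : x ^ 10 ≤ Ah ^ 2 := by
    refine le_trans ?_ hAh2
    have e1 : (2 ^ v3 * x ^ 48 / 2) ^ 2 = (2 ^ v3) ^ 2 * x ^ 96 / 4 := by ring
    rw [e1]
    have e2 : (1:ℝ) ≤ (2 ^ v3) ^ 2 := one_le_pow₀ hv3one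
    have e3 : 4 * x ^ 10 ≤ x ^ 96 := by
      calc 4 * x ^ 10 ≤ x * x ^ 10 := mul_le_mul_of_nonneg_right (by linarith) (by positivity)
        _ = x ^ 11 := by ring
        _ ≤ x ^ 96 := pow_le_pow_right₀ hx1 (by norm_num)
    have e4 : x ^ 96 ≤ (2 ^ v3) ^ 2 * x ^ 96 := le_mul_of_one_le_left (by positivity) e2
    linarith
  set A : ℕ := ⌊Ah ^ 2⌋₊ with hA
  have hA1 : (A:ℝ) ≤ Ah ^ 2 := Nat.floor_le (by positivity)
  have hA2 : Ah ^ 2 < A + 1 := Nat.lt_floor_add_one _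
  have hx10 : 100 ≤ x ^ 10 := by
    calc (100:ℝ) ≤ x := hx
      _ = x ^ 1 := (pow_one x).symm
      _ ≤ x ^ 10 := pow_le_pow_right₀ hx1 (by norm_num)
  have hA3 : Ah ^ 2 ≤ 2 * A := by linarith
  have hApos : (0:ℝ) < A := by linarith
  -- δ in terms of α
  set α : ℕ → ℝ := fun j => ((j:ℝ) + 1) * ab c j / Ah with hα
  have hδα : ∀ j : ℕ, ((ab c j : ℕ):ℝ) ^ 2 = Ah ^ 2 * (α j ^ 2 / ((j:ℝ) + 1) ^ 2) := by
    intro j
    simp only [hα]
    have : (0:ℝ) < (j:ℝ) + 1 := by positivity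
    field_simp
  have hjδ : ∀ j : ℕ, 1 ≤ j → ((j:ℝ) * (ab c (j-1) : ℕ)) ^ 2 = Ah ^ 2 * α (j-1) ^ 2 := by
    intro j hj
    simp only [hα]
    have h1 : ((j - 1 : ℕ):ℝ) + 1 = j := by push_cast [Nat.cast_sub hj]; ring
    rw [h1]
    field_simp
  have hl2 : (2:ℝ) ^ (2 * e) = x ^ 32 := by
    calc (2:ℝ) ^ (2 * e) = (2 ^ e) ^ 2 := by rw [← pow_mul]; ring_nf
      _ = (x ^ 16) ^ 2 := by rw [hx16]
      _ = x ^ 32 := by ring
  refine ⟨A, ⟨?_, ?_, ?_, ?_⟩⟩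
  · -- tail
    intro i hi1 hi2
    have hi1r : (1:ℝ) ≤ i := (one_le_pow₀ hx1).trans hi1
    have hi1n : 1 ≤ i := by exact_mod_cast hi1r
    have hipos : (0:ℝ) < i := by linarith
    have hiV : (i:ℝ) / 2 ^ v3 ≤ 1 / x ^ 100 := by
      rw [div_le_div_iff₀ hV0 (by positivity), one_mul]
      have e1 : (i:ℝ) * x ^ 200 = (i * x ^ 100) * x ^ 100 := by ring
      have e2 : (i * x ^ 100) * x ^ 100 ≤ (2 ^ v3) * x ^ 100 := by
        rw [← e1]
        refine hi2.trans (hDr.trans ?_)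
        calc 2 * (2 ^ v3 * x ^ 64) = 2 ^ v3 * (2 * x ^ 64) := by ring
          _ ≤ 2 ^ v3 * x ^ 100 := by
              apply mul_le_mul_of_nonneg_left _ hV0.le
              calc 2 * x ^ 64 ≤ x * x ^ 64 := mul_le_mul_of_nonneg_right (by linarith) (by positivity)
                _ = x ^ 65 := by ring
                _ ≤ x ^ 100 := pow_le_pow_right₀ hx1 (by norm_num)
      exact le_of_mul_le_mul_right e2 (by positivity)
    have ha : (2:ℝ) ^ e / i ≤ 1 / x ^ 4 := by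
      rw [div_le_div_iff₀ hipos (by positivity), one_mul, ← hx16]
      calc x ^ 16 * x ^ 4 = x ^ 20 := by ring
        _ ≤ (i:ℝ) := hi1
    have hx4 : 1 / x ^ 4 ≤ 1 / 4 := by
      apply one_div_le_one_div_of_le (by norm_num)
      calc (4:ℝ) ≤ x := by linarith
        _ = x ^ 1 := (pow_one x).symm
        _ ≤ x ^ 4 := pow_le_pow_right₀ hx1 (by norm_num)
    have hη : (1:ℝ) / 2 ^ (e / 4) ≤ 2 / x ^ 4 := by
      rw [div_le_div_iff₀ (by positivity) (by positivity), one_mul]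
      have h1 : (x ^ 4) ^ 4 ≤ (2 * 2 ^ (e/4)) ^ 4 := by
        calc (x ^ 4) ^ 4 = x ^ 16 := by ring
          _ = 2 ^ e := hx16
          _ ≤ 2 ^ (4 * (e/4) + 4) := pow_le_pow_right₀ (by norm_num) (by omega)
          _ = (2 * 2 ^ (e/4)) ^ 4 := by rw [mul_pow, pow_add, ← pow_mul]; ring_nf
      exact (pow_le_pow_iff_left₀ (by positivity) (by positivity) (by norm_num)).1 h1
    have hib : (i:ℝ) ≤ 2 ^ v3 / 4 := by
      rw [div_le_div_iff₀ hV0 (by positivity), one_mul] at hiV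
      have h4 : (4:ℝ) ≤ x ^ 100 := by
        calc (4:ℝ) ≤ x := by linarith
          _ = x ^ 1 := (pow_one x).symm
          _ ≤ x ^ 100 := pow_le_pow_right₀ hx1 (by norm_num)
      have : (i:ℝ) * 4 ≤ i * x ^ 100 := mul_le_mul_of_nonneg_left h4 hipos.le
      linarith
    have hη1 : (1:ℝ) / 2 ^ (e / 4) ≤ 1 := by
      rw [div_le_one (by positivity)]; exact one_le_pow₀ (by norm_num)
    obtain ⟨f1, f2⟩ := flat_sum α e v3 D i (1 / 2 ^ (e/4)) _ _ ((2:ℝ) ^ e / i) hR (by positivity) hη1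
      (by omega) hD rfl (ha.trans hx4) hi1n hib
    rw [hl2] at f2
    set S := (i:ℝ) * ∑ j ∈ Ico (i-1) D, α j ^ 2 / ((j:ℝ) + 1) ^ 2 with hS
    have hsum : (i:ℝ) * ∑ j ∈ Icc i D, (((fun j => ab c (j - 1)) j : ℕ):ℝ) ^ 2 = Ah ^ 2 * S := by
      rw [hS]
      have h1 : ∑ j ∈ Icc i D, (((fun j => ab c (j - 1)) j : ℕ):ℝ) ^ 2 = ∑ j ∈ Ico (i-1) D, ((ab c j : ℕ):ℝ) ^ 2 := by
        have e1 : Icc i D = Ico i (D+1) := by
          ext j; rw [Finset.mem_Icc, Finset.mem_Ico]; omega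
        rw [e1, Finset.sum_Ico_eq_sum_range, Finset.sum_Ico_eq_sum_range]
        have e2 : D + 1 - i = D - (i - 1) := by omega
        rw [e2]
        refine Finset.sum_congr rfl fun j _ => ?_
        have e3 : i + j - 1 = i - 1 + j := by omega
        simp only [e3]
      rw [h1]
      have h2 : ∑ j ∈ Ico (i-1) D, ((ab c j : ℕ):ℝ) ^ 2 = ∑ j ∈ Ico (i-1) D, Ah ^ 2 * (α j ^ 2 / ((j:ℝ) + 1) ^ 2) :=
        Finset.sum_congr rfl fun j _ => hδα j
      rw [h2, ← Finset.mul_sum]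
      ring
    rw [hsum]
    set η := (1:ℝ) / 2 ^ (e / 4) with hηdef
    set a := (2:ℝ) ^ e / i with hadef
    set u := 1 / x ^ 4 with hu
    have hη2 : η ≤ 2 * u := by rw [hu]; rw [mul_one_div]; exact hη
    have hη0 : 0 ≤ η := by positivity
    have ha0 : 0 ≤ a := by positivity
    have hu0 : 0 < u := by positivity
    have hb : (i:ℝ) / 2 ^ v3 ≤ u := by
      refine hiV.trans ?_
      rw [hu]
      apply one_div_le_one_div_of_le (by positivity)
      exact pow_le_pow_right₀ hx1 (by norm_num)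
    have hb2 : (x ^ 32) ^ 2 * ((i:ℝ) / 2 ^ v3) ≤ u := by
      calc (x ^ 32) ^ 2 * ((i:ℝ) / 2 ^ v3) ≤ (x ^ 32) ^ 2 * (1 / x ^ 100) :=
            mul_le_mul_of_nonneg_left hiV (by positivity)
        _ = 1 / x ^ 36 := by field_simp
        _ ≤ u := by
            rw [hu]
            apply one_div_le_one_div_of_le (by positivity)
            exact pow_le_pow_right₀ hx1 (by norm_num)
    have hb0 : 0 ≤ (i:ℝ) / 2 ^ v3 := by positivity
    have hu4 : u ≤ 1 / 4 := hx4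
    have hSup : S ≤ 1 + 12 * u := by
      have g1 : (1 + η) * a ≤ 2 * a := mul_le_mul_of_nonneg_right (by linarith) ha0
      have g2 : (1 + η) * (1 + 2 * a) ≤ 1 + η + 4 * a := by
        have : (1 + η) * (1 + 2 * a) = 1 + η + 2 * ((1 + η) * a) := by ring
        linarith
      linarith
    have hSlow : 1 - 12 * u ≤ S := by
      refine le_trans ?_ f1
      have g0 : 0 ≤ 2 * a + (i:ℝ) / 2 ^ v3 := by positivity
      have g1 : (1 - η) * (1 - 2 * a - i / 2 ^ v3) = 1 - η - (2 * a + i / 2 ^ v3) + η * (2 * a + i / 2 ^ v3) := by ring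
      rw [g1]
      have g2 : 0 ≤ η * (2 * a + (i:ℝ) / 2 ^ v3) := by positivity
      linarith
    -- conclusion
    have hAS : |Ah ^ 2 * S - Ah ^ 2| ≤ Ah ^ 2 * (12 * u) := by
      have : Ah ^ 2 * S - Ah ^ 2 = Ah ^ 2 * (S - 1) := by ring
      rw [this, abs_mul, abs_of_nonneg (by positivity : (0:ℝ) ≤ Ah ^ 2)]
      apply mul_le_mul_of_nonneg_left _ (by positivity)
      rw [abs_le]; constructor <;> linarith
    have hAA : |Ah ^ 2 - A| ≤ 1 := by rw [abs_le]; constructor <;> linarith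
    have htri : |Ah ^ 2 * S - A| ≤ Ah ^ 2 * (12 * u) + 1 := by
      have : Ah ^ 2 * S - A = (Ah ^ 2 * S - Ah ^ 2) + (Ah ^ 2 - A) := by ring
      rw [this]
      exact (abs_add_le _ _).trans (add_le_add hAS hAA)
    refine htri.trans ?_
    have hx3 : 0 < x ^ 3 := by positivity
    rw [le_div_iff₀ hx3]
    have g5 : u * x ^ 3 = 1 / x := by rw [hu]; field_simp
    have g6 : 1 / x ≤ 1 / 100 := by apply one_div_le_one_div_of_le <;> linarith
    calc (Ah ^ 2 * (12 * u) + 1) * x ^ 3 = 12 * Ah ^ 2 * (u * x ^ 3) + x ^ 3 := by ring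
      _ ≤ 12 * Ah ^ 2 * (1 / 100) + x ^ 3 := by
          rw [g5]
          have := mul_le_mul_of_nonneg_left g6 (by positivity : (0:ℝ) ≤ 12 * Ah ^ 2)
          linarith
      _ ≤ A := by
          have g7 : x ^ 3 * 100 ≤ x ^ 10 := by
            calc x ^ 3 * 100 ≤ x ^ 3 * x := mul_le_mul_of_nonneg_left hx hx3.le
              _ = x ^ 4 := by ring
              _ ≤ x ^ 10 := pow_le_pow_right₀ hx1 (by norm_num)
          linarith
  · -- pt
    intro j hj hjx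
    rw [Finset.mem_Icc] at hj
    rw [hjδ j hj.1]
    have hjV : j - 1 < 2 ^ v3 := by
      have h1 : (j:ℝ) * x ^ 80 ≤ (2 ^ v3) * x ^ 80 := by
        refine hjx.trans (hDr.trans ?_)
        calc 2 * (2 ^ v3 * x ^ 64) = 2 ^ v3 * (2 * x ^ 64) := by ring
          _ ≤ 2 ^ v3 * x ^ 80 := by
              apply mul_le_mul_of_nonneg_left _ hV0.le
              calc 2 * x ^ 64 ≤ x * x ^ 64 := mul_le_mul_of_nonneg_right (by linarith) (by positivity)
                _ = x ^ 65 := by ring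
                _ ≤ x ^ 80 := pow_le_pow_right₀ hx1 (by norm_num)
      have h2 : (j:ℝ) ≤ 2 ^ v3 := le_of_mul_le_mul_right h1 (by positivity)
      have h3 : j ≤ 2 ^ v3 := by exact_mod_cast h2
      have := hj.1
      omega
    have h1 := hR.bd1 (j-1) hjV
    have h2 : α (j-1) ^ 2 ≤ ((L:ℝ) ^ 2 + 2) ^ 2 := pow_le_pow_left₀ (hR.nn _) h1 2
    calc Ah ^ 2 * α (j-1) ^ 2 ≤ (2 * A) * ((L:ℝ) ^ 2 + 2) ^ 2 :=
          mul_le_mul hA3 h2 (by positivity) (by positivity)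
      _ = A * (2 * ((L:ℝ) ^ 2 + 2) ^ 2) := by ring
      _ ≤ A * x := mul_le_mul_of_nonneg_left hxL hApos.le
  · -- pt2
    intro j hj
    rw [Finset.mem_Icc] at hj
    rw [hjδ j hj.1]
    have h1 := hR.bd2 (j-1)
    rw [hl2] at h1
    have h2 : α (j-1) ^ 2 ≤ (x ^ 32) ^ 2 := pow_le_pow_left₀ (hR.nn _) h1 2
    calc Ah ^ 2 * α (j-1) ^ 2 ≤ (2 * A) * (x ^ 32) ^ 2 :=
          mul_le_mul hA3 h2 (by positivity) (by positivity)
      _ = A * (2 * x ^ 64) := by ring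
      _ ≤ A * x ^ 80 := by
          apply mul_le_mul_of_nonneg_left _ hApos.le
          calc 2 * x ^ 64 ≤ x * x ^ 64 := mul_le_mul_of_nonneg_right (by linarith) (by positivity)
            _ = x ^ 65 := by ring
            _ ≤ x ^ 80 := pow_le_pow_right₀ hx1 (by norm_num)
  · -- big
    calc (D:ℝ) ^ 2 ≤ (2 * (2 ^ v3 * x ^ 64)) ^ 2 := pow_le_pow_left₀ (by positivity) hDr 2
      _ = 16 * x ^ 32 * (2 ^ v3 * x ^ 48 / 2) ^ 2 := by ring
      _ ≤ 16 * x ^ 32 * Ah ^ 2 := mul_le_mul_of_nonneg_left hAh2 (by positivity)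
      _ ≤ 16 * x ^ 32 * (2 * A) := mul_le_mul_of_nonneg_left hA3 (by positivity)
      _ = A * (32 * x ^ 32) := by ring
      _ ≤ A * x ^ 40 := by
          apply mul_le_mul_of_nonneg_left _ hApos.le
          calc 32 * x ^ 32 ≤ x * x ^ 32 := mul_le_mul_of_nonneg_right (by linarith) (by positivity)
            _ = x ^ 33 := by ring
            _ ≤ x ^ 40 := pow_le_pow_right₀ hx1 (by norm_num)

end Pool.GP
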