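import Pool.Agent.Lib.GP.TheoremU
import Pool.Agent.Lib.GP.Delta
import Pool.Agent.Lib.GP.FromRC
import Pool.Agent.Lib.GraphPart.Necessary

set_option autoImplicit false

/-!
Assembly: the probability that a partition is graphical.
-/

namespace Pool.GP

open Finset Filter Pool.Agent.Lib.GraphPart

lemma theta_le_one : theta ≤ 1 := by
  have h1 : ∀ᶠ K : ℕ in atTop, vK K ≤ 1 + Real.log 200 / Real.log K := by
    filter_upwards [eventually_ge_atTop 2] with K hK
    have hKr : (2:ℝ) ≤ K := by exact_mod_cast hK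
    have hlog : 0 < Real.log K := Real.log_pos (by linarith)
    have h1 := G_vK_pos K (by omega)
    have h3 := Real.log_le_log (by positivity) h1
    rw [one_div, Real.log_inv, Real.log_mul (by norm_num) (by linarith)] at h3
    unfold vK
    rw [div_le_iff₀ hlog]
    have : (1 + Real.log 200 / Real.log K) * Real.log K = Real.log K + Real.log 200 := by field_simp
    rw [this]; linarith
  have h2 : Tendsto (fun K : ℕ => 1 + Real.log 200 / Real.log (K:ℝ)) atTop (nhds (1 + 0)) := by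
    apply Tendsto.const_add
    exact Tendsto.const_div_atTop (Real.tendsto_log_atTop.comp tendsto_natCast_atTop_atTop) _
  have h3 := le_of_tendsto_of_tendsto theta_tendsto h2 h1
  linarith

/-- sums over subsets and over sign vectors -/
lemma sum_powerset_eq (d : ℕ) (F : Finset ℕ → ℝ) :
    ∑ T ∈ (range d).powerset, F T =
      ∑ ω : Fin d → Bool, F ((range d).filter fun m => ∃ h : m < d, ω ⟨m, h⟩ = true) := by
  refine Finset.sum_nbij' (fun T j => decide ((j:ℕ) ∈ T))
    (fun ω => (range d).filter fun m => ∃ h : m < d, ω ⟨m, h⟩ = true) ?_ ?_ ?_ ?_ ?_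
  · intro T _; exact Finset.mem_univ _
  · intro ω _
    rw [Finset.mem_powerset]; exact Finset.filter_subset _ _
  · intro T hT
    rw [Finset.mem_powerset] at hT
    ext m
    rw [Finset.mem_filter]
    constructor
    · rintro ⟨_, h, h2⟩
      simpa using h2
    · intro hm
      have := Finset.mem_range.1 (hT hm)
      exact ⟨hT hm, this, by simpa using hm⟩
  · intro ω _
    funext j
    rw [Bool.eq_iff_iff, decide_eq_true_iff, Finset.mem_filter]
    constructor
    · rintro ⟨_, _, h⟩; exact h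
    · intro h; exact ⟨Finset.mem_range.2 j.2, j.2, h⟩
  · intro T hT
    rw [Finset.mem_powerset] at hT
    congr 1
    ext m
    rw [Finset.mem_filter]
    constructor
    · intro hm
      have := Finset.mem_range.1 (hT hm)
      exact ⟨hT hm, this, by simpa using hm⟩
    · rintro ⟨_, h, h2⟩
      simpa using h2

open Classical in
/-- the average over exchanges is the sign probability -/
lemma avg_eq_PD (c : Cd) :
    (1 / 2 ^ c.1 : ℝ) * ∑ T ∈ (range c.1).powerset, (if DomCond (Pool.Agent.Lib.GraphPart.sw T c) then (1:ℝ) else 0) =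
      PD c.1 (fun j => ab c (j - 1)) := by
  rw [sum_sw_eq, sum_powerset_eq]
  unfold PD Pr E
  rw [one_div, inv_mul_eq_div]
  congr 1
  refine Finset.sum_congr rfl fun ω _ => ?_
  have hS : ∀ k, Sk (fun j => (ab c j : ℝ)) ((range c.1).filter fun m => ∃ h : m < c.1, ω ⟨m, h⟩ = true) c.1 k =
      Sd c.1 (fun j => ab c (j - 1)) ω k := by
    intro k
    unfold Sk Sd
    rw [Finset.sum_range]
    refine Finset.sum_congr rfl fun j _ => ?_
    have h1 : Pool.Agent.Lib.GraphPart.sg ((range c.1).filter fun m => ∃ h : m < c.1, ω ⟨m, h⟩ = true) (j:ℕ) = sg (ω j) := by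
      unfold Pool.Agent.Lib.GraphPart.sg sg
      have : (j:ℕ) ∈ ((range c.1).filter fun m => ∃ h : m < c.1, ω ⟨m, h⟩ = true) ↔ ω j = true := by
        rw [Finset.mem_filter]
        constructor
        · rintro ⟨_, _, h⟩; exact h
        · intro h; exact ⟨Finset.mem_range.2 j.2, j.2, h⟩
      simp only [this]
    rw [h1]
    have h2 : (j:ℕ) + 1 - 1 = j := by omega
    beta_reduce
    rw [h2]
    ring
  simp only [hS]
  unfold ind
  congr 1
  rw [eq_iff_iff]
  constructor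
  · intro h k hk
    rw [Finset.mem_Icc] at hk
    exact h k hk.1 hk.2
  · intro h k hk1 hk2
    exact h k (Finset.mem_Icc.2 ⟨hk1, hk2⟩)

/-- the proportion of codes satisfying the dominance condition -/
noncomputable def gp (N : ℕ) : ℝ := (∑ c ∈ allCodes N, PD c.1 (fun j => ab c (j - 1))) / pp N

open Classical in
lemma gp_eq (N : ℕ) : gp N = (((allCodes N).filter fun c => DomCond c).card : ℝ) / pp N := by
  unfold gp
  congr 1
  rw [Finset.card_filter]
  push_cast
  rw [← sum_avg]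
  exact Finset.sum_congr rfl fun c _ => (avg_eq_PD c).symm

open Classical in
/-- the number of graphical partitions -/
lemma card_graphical (n : ℕ) :
    ((univ : Finset (2 * n).Partition).filter fun P => GraphicalMS P.parts).card =
      ((allCodes (2 * n)).filter fun c => DomCond c).card := by
  symm
  refine Finset.card_bij (fun c hc => (⟨partsOf c, fun {x} hx => partsOf_pos hx,
    partsOf_sum (Finset.mem_filter.1 hc).1⟩ : (2 * n).Partition)) ?_ ?_ ?_
  · intro c hc
    rw [Finset.mem_filter] at hc ⊢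
    exact ⟨Finset.mem_univ _, (graphical_iff hc.1).2 hc.2⟩
  · intro c hc c' hc' h
    exact partsOf_injective (congrArg Nat.Partition.parts h)
  · intro P hP
    rw [Finset.mem_filter] at hP
    obtain ⟨c, hc⟩ := partsOf_surjective P.parts (fun x hx => P.parts_pos hx)
    have hmem : c ∈ allCodes (2 * n) := by
      rw [mem_allCodes, mem_codes]
      have h1 := P.parts_sum
      rw [← hc] at h1
      unfold partsOf at h1
      rw [Multiset.sum_add, sum_topM, sum_botM, add_assoc, ← Finset.sum_add_distrib] at h1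
      rw [← h1]
      congr 1
      refine Finset.sum_congr rfl fun j _ => by ring
    refine ⟨c, Finset.mem_filter.2 ⟨hmem, ?_⟩, ?_⟩
    · rw [← graphical_iff hmem, hc]; exact hP.2
    · exact Nat.Partition.ext hc

lemma gp_nonneg (N : ℕ) : 0 ≤ gp N := by
  unfold gp
  apply div_nonneg _ (by positivity)
  exact Finset.sum_nonneg fun c _ => Pr_nonneg _ _

open Classical in
lemma gp_le_one (N : ℕ) : gp N ≤ 1 := by
  rw [gp_eq, div_le_one (by exact_mod_cast pp_pos N)]
  rw [← card_allCodes N]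
  exact_mod_cast Finset.card_filter_le _ _

/-- `2 ^ (L / a)` beats polynomials -/
lemma eventually_pow_big (a n : ℕ) (ha : 1 ≤ a) (c : ℝ) :
    ∀ᶠ L : ℕ in atTop, c * ((L:ℝ) + 3) ^ n ≤ (2:ℝ) ^ (L / a) := by
  have hlog2 : 0 < Real.log 2 := Real.log_pos (by norm_num)
  have har : (0:ℝ) < a := by exact_mod_cast ha
  obtain ⟨X, hX⟩ := poly_exp_small (|c| * 4 ^ n) (Real.log 2 / a) (1/2) n (by positivity) (by norm_num)
  filter_upwards [eventually_ge_atTop (⌈X⌉₊ + 1)] with L hL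
  have hLr : X ≤ L := (Nat.le_ceil X).trans (by exact_mod_cast (by omega : ⌈X⌉₊ ≤ L))
  have hL1 : (1:ℝ) ≤ L := by exact_mod_cast (by omega : 1 ≤ L)
  have h1 := hX L hLr
  have h2 : ((L:ℝ) + 3) ^ n ≤ (4 * L) ^ n := pow_le_pow_left₀ (by positivity) (by linarith) n
  have h3 : Real.exp (Real.log 2 / a * L) ≤ 2 * (2:ℝ) ^ (L / a) := by
    have h4 : (L:ℝ) / a ≤ ((L / a : ℕ) : ℝ) + 1 := by
      have := Nat.lt_div_mul_add (a := L) (b := a) (by omega)
      rw [div_le_iff₀ har]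
      have h5 : (L:ℝ) < (L / a : ℕ) * a + a := by exact_mod_cast this
      linarith
    calc Real.exp (Real.log 2 / a * L) = Real.exp (Real.log 2 * (L / a)) := by congr 1; ring
      _ ≤ Real.exp (Real.log 2 * (((L / a : ℕ) : ℝ) + 1)) := by
          apply Real.exp_le_exp.2
          exact mul_le_mul_of_nonneg_left h4 hlog2.le
      _ = (2:ℝ) ^ ((((L / a : ℕ) : ℝ)) + 1) := by rw [Real.rpow_def_of_pos (by norm_num)]
      _ = 2 * (2:ℝ) ^ (L / a) := by
          rw [Real.rpow_add (by norm_num), Real.rpow_one, Real.rpow_natCast]; ring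
  have h6 : c * ((L:ℝ) + 3) ^ n ≤ |c| * 4 ^ n * (L:ℝ) ^ n := by
    calc c * ((L:ℝ) + 3) ^ n ≤ |c| * ((L:ℝ) + 3) ^ n := mul_le_mul_of_nonneg_right (le_abs_self c) (by positivity)
      _ ≤ |c| * (4 * L) ^ n := mul_le_mul_of_nonneg_left h2 (abs_nonneg c)
      _ = |c| * 4 ^ n * (L:ℝ) ^ n := by rw [mul_pow]; ring
  have h7 : |c| * 4 ^ n * (L:ℝ) ^ n ≤ 1 / 2 * Real.exp (Real.log 2 / a * L) := by
    rw [Real.exp_neg, ← div_eq_mul_inv, div_le_iff₀ (Real.exp_pos _)] at h1
    exact h1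
  linarith

lemma eventually_Par (Lam : ℕ) (hLam : 100 ≤ Lam) : ∀ᶠ L : ℕ in atTop,
    Par Lam L (L / Lam) (L / 2 - 4 * (L / Lam)) := by
  filter_upwards [eventually_pow_big (Lam * 4) 5 (by omega) (10 ^ 6), eventually_pow_big (Lam * 4) 0 (by omega) (160 * Lam),
    eventually_ge_atTop (2 * Lam + 2)] with L h1 h2 h3
  refine ⟨hLam, rfl, rfl, ?_, ?_, h3⟩
  · have : (10:ℝ) ^ 6 * ((L:ℝ) + 3) ^ 5 ≤ (2:ℝ) ^ (L / Lam / 4) := by rw [Nat.div_div_eq_div_mul]; exact h1
    exact_mod_cast this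
  · have : (160:ℝ) * Lam ≤ (2:ℝ) ^ (L / Lam / 4) := by
      rw [Nat.div_div_eq_div_mul]; rw [pow_zero, mul_one] at h2; exact h2
    exact_mod_cast this

open Classical in
/-- bounds for one dyadic range of `N` -/
lemma gp_range (hT : DeltaTarget) (ε : ℝ) (hε : 0 < ε) : ∀ᶠ L : ℕ in atTop, ∀ N : ℕ, 2 ^ L ≤ N → N < 2 ^ (L+1) →
    (N:ℝ) ^ (-(theta / 2 + ε)) ≤ gp N ∧ gp N ≤ (N:ℝ) ^ (-(theta / 2 - ε)) := by
  obtain ⟨κ0, hκ0, hU⟩ := theoremU hT ε hε
  have ht0 := theta_nonneg
  have ht1 := theta_le_one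
  set Lam : ℕ := max 100 (max ⌈1 / κ0⌉₊ ⌈64 / ε⌉₊) with hLam
  have hLam100 : 100 ≤ Lam := le_max_left _ _
  have hLam100r : (100:ℝ) ≤ Lam := by exact_mod_cast hLam100
  have hLamκ : 1 / κ0 ≤ Lam := (Nat.le_ceil _).trans (by
    exact_mod_cast (le_max_left _ _).trans (le_max_right _ _))
  have hLamε : 64 / ε ≤ Lam := (Nat.le_ceil _).trans (by
    exact_mod_cast (le_max_right _ _).trans (le_max_right _ _))
  have hLampos : (0:ℝ) < Lam := by linarith
  have hLamκ' : 1 / (Lam:ℝ) ≤ κ0 := by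
    rw [div_le_iff₀ hLampos]; rw [div_le_iff₀ hκ0] at hLamκ; linarith
  have hLamε' : 64 / (Lam:ℝ) ≤ ε := by
    rw [div_le_iff₀ hLampos]; rw [div_le_iff₀ hε] at hLamε; linarith
  set κ : ℝ := 1 / (16 * Lam) with hκ
  obtain ⟨D0, hD0⟩ := hU κ (by positivity)
  filter_upwards [eventually_Par Lam hLam100, eventually_pow_big (Lam * 16) 4 (by omega) 100,
    eventually_ge_atTop (4 * D0 + 20 + ⌈5 / ε⌉₊ + ⌈2 * (3 + ε) / ε⌉₊)] with L hPar hbig hL
  intro N hN1 hN2
  set e := L / Lam with he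
  set v3 := L / 2 - 4 * e with hv3
  obtain ⟨he1, he2⟩ := hPar.exps
  have he80 := hPar.e_big
  have hL20 : (20:ℝ) ≤ L := by exact_mod_cast (by omega : 20 ≤ L)
  have hLε : 5 / ε ≤ L := (Nat.le_ceil _).trans (by exact_mod_cast (by omega : ⌈5 / ε⌉₊ ≤ L))
  have hLε2 : 2 * (3 + ε) / ε ≤ L := (Nat.le_ceil _).trans (by exact_mod_cast (by omega : ⌈2 * (3 + ε) / ε⌉₊ ≤ L))
  rw [div_le_iff₀ hε] at hLε hLε2
  -- real versions of e, v3
  have her1 : (e:ℝ) ≤ L / Lam := Nat.cast_div_le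
  have her2 : (L:ℝ) / Lam - 1 ≤ e := by
    have := Nat.lt_div_mul_add (a := L) (b := Lam) (by omega)
    have h2 : (L:ℝ) < (L / Lam : ℕ) * Lam + Lam := by exact_mod_cast this
    rw [sub_le_iff_le_add, div_le_iff₀ hLampos]
    rw [← he] at h2
    linarith
  have hvr1 : (L:ℝ) / 2 - 1 / 2 - 4 * (L / Lam) ≤ v3 := by
    have h1 : L ≤ 2 * (v3 + 4 * e) + 1 := by omega
    have h2 : (L:ℝ) ≤ 2 * (v3 + 4 * e) + 1 := by exact_mod_cast h1
    linarith
  have hvr2 : (L:ℝ) / 4 ≤ v3 := by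
    have h1 : L ≤ 4 * v3 := by omega
    have h2 : (L:ℝ) ≤ 4 * v3 := by exact_mod_cast h1
    linarith
  -- x
  set x : ℝ := (2:ℝ) ^ ((e:ℝ) / 16) with hx
  have hx0 : 0 < x := by positivity
  have hx16 : x ^ 16 = 2 ^ e := by
    rw [hx, ← Real.rpow_natCast, ← Real.rpow_mul (by norm_num), ← Real.rpow_natCast]
    congr 1; push_cast; ring
  have hxbig : 100 * ((L:ℝ) + 3) ^ 4 ≤ x := by
    refine hbig.trans ?_
    rw [← Nat.div_div_eq_div_mul, ← he, ← Real.rpow_natCast]
    apply Real.rpow_le_rpow_of_exponent_le (by norm_num)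
    have : ((e / 16 : ℕ):ℝ) ≤ (e:ℝ) / ((16:ℕ):ℝ) := Nat.cast_div_le
    exact_mod_cast this
  have hL3 : (1:ℝ) ≤ ((L:ℝ) + 3) ^ 4 := one_le_pow₀ (by linarith)
  have hx100 : 100 ≤ x := by linarith
  have hxL : 2 * ((L:ℝ) ^ 2 + 2) ^ 2 ≤ x := by
    have h1 : ((L:ℝ) ^ 2 + 2) ^ 2 ≤ (((L:ℝ) + 3) ^ 2) ^ 2 := by
      apply pow_le_pow_left₀ (by positivity)
      nlinarith
    have h2 : (((L:ℝ) + 3) ^ 2) ^ 2 = ((L:ℝ) + 3) ^ 4 := by ring
    linarith
  -- regular codes
  have hreg : ∀ c ∈ allCodes N, RC L e v3 c →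
      (2:ℝ) ^ (-((L / 2 + 1) * (theta + ε))) ≤ PD c.1 (fun j => ab c (j - 1)) ∧
      (0 ≤ theta - ε → PD c.1 (fun j => ab c (j - 1)) ≤ (2:ℝ) ^ (-(v3 * (theta - ε)))) := by
    intro c hc hRC
    obtain ⟨A, hA⟩ := dhyp_of_RC hPar hc hN2 hRC x hx0 hx16 hxL hx100
    have hDlow : 2 ^ v3 ≤ c.1 := hRC.1
    have hDN : c.1 ^ 2 ≤ N := durfee_sq_le hc
    have hDlowr : (2:ℝ) ^ (v3:ℝ) ≤ c.1 := by rw [Real.rpow_natCast]; exact_mod_cast hDlow
    have hDupr : (c.1:ℝ) ≤ (2:ℝ) ^ ((L:ℝ) / 2 + 1) := by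
      have h1 : (c.1:ℝ) ^ 2 ≤ ((2:ℝ) ^ ((L:ℝ) / 2 + 1)) ^ 2 := by
        have h2 : (c.1:ℝ) ^ 2 ≤ N := by exact_mod_cast hDN
        have h3 : (N:ℝ) ≤ 2 ^ (L+1) := by exact_mod_cast hN2.le
        have h4 : ((2:ℝ) ^ ((L:ℝ) / 2 + 1)) ^ 2 = 2 ^ (L + 2) := by
          rw [← Real.rpow_natCast, ← Real.rpow_mul (by norm_num), ← Real.rpow_natCast]
          congr 1; push_cast; ring
        rw [h4]
        have h5 : (2:ℝ) ^ (L+1) ≤ 2 ^ (L+2) := pow_le_pow_right₀ (by norm_num) (by omega)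
        linarith
      exact (pow_le_pow_iff_left₀ (by positivity) (by positivity) (by norm_num)).1 h1
    have hD0c : D0 ≤ c.1 := by
      have h1 : v3 < 2 ^ v3 := Nat.lt_two_pow_self
      omega
    have hDpos : (0:ℝ) < c.1 := lt_of_lt_of_le (by positivity) hDlowr
    have hx1 : (c.1:ℝ) ^ κ ≤ x := by
      calc (c.1:ℝ) ^ κ ≤ ((2:ℝ) ^ ((L:ℝ) / 2 + 1)) ^ κ := Real.rpow_le_rpow hDpos.le hDupr (by positivity)
        _ = (2:ℝ) ^ (((L:ℝ) / 2 + 1) * κ) := by rw [← Real.rpow_mul (by norm_num)]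
        _ ≤ x := by
            apply Real.rpow_le_rpow_of_exponent_le (by norm_num)
            rw [hκ, mul_one_div, div_le_div_iff₀ (by positivity) (by norm_num)]
            have h1 : ((L:ℝ) / Lam - 1) * Lam = L - Lam := by field_simp
            have h2 : ((L:ℝ) - Lam) ≤ e * Lam := by
              rw [← h1]; exact mul_le_mul_of_nonneg_right her2 hLampos.le
            have h3 : 2 * (Lam:ℝ) + 2 ≤ L := by exact_mod_cast hPar.hL
            linarith
    have hx2 : x ≤ (c.1:ℝ) ^ κ0 := by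
      calc x ≤ ((2:ℝ) ^ (v3:ℝ)) ^ κ0 := by
            rw [← Real.rpow_mul (by norm_num)]
            apply Real.rpow_le_rpow_of_exponent_le (by norm_num)
            have h1 : (e:ℝ) ≤ L * κ0 := by
              calc (e:ℝ) ≤ L / Lam := her1
                _ = L * (1 / Lam) := by ring
                _ ≤ L * κ0 := mul_le_mul_of_nonneg_left hLamκ' (by positivity)
            have h2 : (L:ℝ) / 4 * κ0 ≤ v3 * κ0 := mul_le_mul_of_nonneg_right hvr2 hκ0.le
            have h3 : 0 ≤ (L:ℝ) * κ0 := by positivity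
            linarith
        _ ≤ (c.1:ℝ) ^ κ0 := Real.rpow_le_rpow (by positivity) hDlowr hκ0.le
    obtain ⟨h1, h2⟩ := hD0 c.1 hD0c x hx1 hx2 A _ hA
    constructor
    · refine le_trans ?_ h1
      have h3 : (2:ℝ) ^ (-((L / 2 + 1) * (theta + ε))) = ((2:ℝ) ^ ((L:ℝ) / 2 + 1)) ^ (-(theta + ε)) := by
        rw [← Real.rpow_mul (by norm_num)]; congr 1; ring
      rw [h3]
      exact Real.rpow_le_rpow_of_nonpos hDpos hDupr (by linarith)
    · intro hτ
      refine h2.trans ?_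
      have h3 : (2:ℝ) ^ (-(v3 * (theta - ε))) = ((2:ℝ) ^ (v3:ℝ)) ^ (-(theta - ε)) := by
        rw [← Real.rpow_mul (by norm_num)]; congr 1; ring
      rw [h3]
      exact Real.rpow_le_rpow_of_nonpos (by positivity) hDlowr (by linarith)
  -- the irregular codes
  have hirr := irregular_card hPar hN1 hN2
  have hpp : (0:ℝ) < pp N := by exact_mod_cast pp_pos N
  have hcardsum : (((allCodes N).filter fun c => RC L e v3 c).card : ℝ) +
      (((allCodes N).filter fun c => ¬ RC L e v3 c).card : ℝ) = pp N := by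
    have := Finset.card_filter_add_card_filter_not (s := allCodes N) (fun c => RC L e v3 c)
    rw [card_allCodes] at this
    exact_mod_cast this
  have hsplit : ∑ c ∈ allCodes N, PD c.1 (fun j => ab c (j - 1)) =
      ∑ c ∈ (allCodes N).filter (fun c => RC L e v3 c), PD c.1 (fun j => ab c (j - 1)) +
      ∑ c ∈ (allCodes N).filter (fun c => ¬ RC L e v3 c), PD c.1 (fun j => ab c (j - 1)) :=
    (Finset.sum_filter_add_sum_filter_not _ _ _).symm
  have hNpos : (0:ℝ) < N := by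
    have : 0 < N := lt_of_lt_of_le (by positivity) hN1
    exact_mod_cast this
  have hN1r : (2:ℝ) ^ (L:ℝ) ≤ N := by rw [Real.rpow_natCast]; exact_mod_cast hN1
  have hN2r : (N:ℝ) ≤ (2:ℝ) ^ ((L:ℝ) + 1) := by
    have : (2:ℝ) ^ ((L:ℝ) + 1) = 2 ^ (L+1) := by
      rw [← Real.rpow_natCast]; congr 1; push_cast; ring
    rw [this]; exact_mod_cast hN2.le
  have h2L : (5:ℝ) / 2 ^ L ≤ (2:ℝ) ^ (3 - (L:ℝ)) := by
    rw [Real.rpow_sub (by norm_num), Real.rpow_natCast]
    apply div_le_div_of_nonneg_right _ (by positivity)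
    norm_num
  constructor
  · -- lower bound
    have h5L : (5:ℝ) / 2 ^ L ≤ 1 / 2 := by
      refine h2L.trans ?_
      have : (1:ℝ) / 2 = (2:ℝ) ^ (-1:ℝ) := by rw [Real.rpow_neg_one]; norm_num
      rw [this]
      exact Real.rpow_le_rpow_of_exponent_le (by norm_num) (by linarith)
    have hRCcard : (pp N : ℝ) / 2 ≤ (((allCodes N).filter fun c => RC L e v3 c).card : ℝ) := by
      have := mul_le_mul_of_nonneg_right h5L hpp.le
      linarith
    have g1 : (pp N : ℝ) / 2 * (2:ℝ) ^ (-((L / 2 + 1) * (theta + ε))) ≤ ∑ c ∈ allCodes N, PD c.1 (fun j => ab c (j - 1)) := by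
      rw [hsplit]
      have g2 : (((allCodes N).filter fun c => RC L e v3 c).card : ℝ) * (2:ℝ) ^ (-((L / 2 + 1) * (theta + ε))) ≤
          ∑ c ∈ (allCodes N).filter (fun c => RC L e v3 c), PD c.1 (fun j => ab c (j - 1)) := by
        rw [← nsmul_eq_mul, ← Finset.sum_const]
        refine Finset.sum_le_sum fun c hc => ?_
        rw [Finset.mem_filter] at hc
        exact (hreg c hc.1 hc.2).1
      have g3 : 0 ≤ ∑ c ∈ (allCodes N).filter (fun c => ¬ RC L e v3 c), PD c.1 (fun j => ab c (j - 1)) :=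
        Finset.sum_nonneg fun c _ => Pr_nonneg _ _
      have g4 : (pp N : ℝ) / 2 * (2:ℝ) ^ (-((L / 2 + 1) * (theta + ε))) ≤
          (((allCodes N).filter fun c => RC L e v3 c).card : ℝ) * (2:ℝ) ^ (-((L / 2 + 1) * (theta + ε))) :=
        mul_le_mul_of_nonneg_right hRCcard (by positivity)
      linarith
    have g5 : (1:ℝ) / 2 * (2:ℝ) ^ (-((L / 2 + 1) * (theta + ε))) ≤ gp N := by
      unfold gp
      rw [le_div_iff₀ hpp]
      linarith
    refine le_trans ?_ g5
    calc (N:ℝ) ^ (-(theta / 2 + ε)) ≤ ((2:ℝ) ^ (L:ℝ)) ^ (-(theta / 2 + ε)) :=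
          Real.rpow_le_rpow_of_nonpos (by positivity) hN1r (by linarith)
      _ = (2:ℝ) ^ ((L:ℝ) * (-(theta / 2 + ε))) := by rw [← Real.rpow_mul (by norm_num)]
      _ ≤ (2:ℝ) ^ (-1 + (-((L / 2 + 1) * (theta + ε)))) := by
          apply Real.rpow_le_rpow_of_exponent_le (by norm_num)
          have : (L:ℝ) * (-(theta / 2 + ε)) = -1 + (-((L / 2 + 1) * (theta + ε))) + (1 + theta + ε - L * ε / 2) := by ring
          rw [this]
          linarith
      _ = 1 / 2 * (2:ℝ) ^ (-((L / 2 + 1) * (theta + ε))) := by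
          rw [Real.rpow_add (by norm_num), Real.rpow_neg_one]; norm_num
  · -- upper bound
    rcases le_or_gt (theta / 2 - ε) 0 with hσ | hσ
    · refine (gp_le_one N).trans ?_
      apply Real.one_le_rpow _ (by linarith)
      refine le_trans ?_ hN1r
      exact Real.one_le_rpow (by norm_num) (by positivity)
    · have hτ : 0 ≤ theta - ε := by linarith
      have g1 : ∑ c ∈ allCodes N, PD c.1 (fun j => ab c (j - 1)) ≤
          pp N * (2:ℝ) ^ (-(v3 * (theta - ε))) + 5 / 2 ^ L * pp N := by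
        rw [hsplit]
        have g2 : ∑ c ∈ (allCodes N).filter (fun c => RC L e v3 c), PD c.1 (fun j => ab c (j - 1)) ≤
            (((allCodes N).filter fun c => RC L e v3 c).card : ℝ) * (2:ℝ) ^ (-(v3 * (theta - ε))) := by
          rw [← nsmul_eq_mul, ← Finset.sum_const]
          refine Finset.sum_le_sum fun c hc => ?_
          rw [Finset.mem_filter] at hc
          exact (hreg c hc.1 hc.2).2 hτ
        have g3 : ∑ c ∈ (allCodes N).filter (fun c => ¬ RC L e v3 c), PD c.1 (fun j => ab c (j - 1)) ≤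
            (((allCodes N).filter fun c => ¬ RC L e v3 c).card : ℝ) := by
          calc ∑ c ∈ (allCodes N).filter (fun c => ¬ RC L e v3 c), PD c.1 (fun j => ab c (j - 1))
              ≤ ∑ c ∈ (allCodes N).filter (fun c => ¬ RC L e v3 c), (1:ℝ) :=
                Finset.sum_le_sum fun c _ => Pr_le_one _ _
            _ = _ := by rw [Finset.sum_const, nsmul_eq_mul, mul_one]
        have g4 : (((allCodes N).filter fun c => RC L e v3 c).card : ℝ) ≤ pp N := by
          have : (0:ℝ) ≤ (((allCodes N).filter fun c => ¬ RC L e v3 c).card : ℝ) := by positivity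
          linarith
        have g5 := mul_le_mul_of_nonneg_right g4 (by positivity : (0:ℝ) ≤ (2:ℝ) ^ (-(v3 * (theta - ε))))
        linarith
      have g6 : gp N ≤ (2:ℝ) ^ (-(v3 * (theta - ε))) + 5 / 2 ^ L := by
        unfold gp
        rw [div_le_iff₀ hpp]
        linarith
      have g7 : (2:ℝ) ^ (-((L + 1) * (theta / 2 - ε))) ≤ (N:ℝ) ^ (-(theta / 2 - ε)) := by
        have : (2:ℝ) ^ (-(((L:ℝ) + 1) * (theta / 2 - ε))) = ((2:ℝ) ^ ((L:ℝ) + 1)) ^ (-(theta / 2 - ε)) := by
          rw [← Real.rpow_mul (by norm_num)]; congr 1; ring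
        rw [this]
        exact Real.rpow_le_rpow_of_nonpos hNpos hN2r (by linarith)
      have hhalf : ∀ y : ℝ, (2:ℝ) ^ (-1 + y) = 1 / 2 * (2:ℝ) ^ y := by
        intro y; rw [Real.rpow_add (by norm_num), Real.rpow_neg_one]; norm_num
      have g8 : (2:ℝ) ^ (-(v3 * (theta - ε))) ≤ 1 / 2 * (2:ℝ) ^ (-((L + 1) * (theta / 2 - ε))) := by
        rw [← hhalf]
        apply Real.rpow_le_rpow_of_exponent_le (by norm_num)
        have k1 : ((L:ℝ) / 2 - 1 / 2 - 4 * (L / Lam)) * (theta - ε) ≤ v3 * (theta - ε) :=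
          mul_le_mul_of_nonneg_right hvr1 hτ
        have k2 : 4 * ((L:ℝ) / Lam) * (theta - ε) ≤ L * ε / 16 := by
          have k3 : 4 * ((L:ℝ) / Lam) = L / 16 * (64 / Lam) := by ring
          rw [k3]
          have k4 : (L:ℝ) / 16 * (64 / Lam) ≤ L / 16 * ε := mul_le_mul_of_nonneg_left hLamε' (by positivity)
          calc (L:ℝ) / 16 * (64 / Lam) * (theta - ε) ≤ L / 16 * ε * 1 :=
                mul_le_mul k4 (by linarith) hτ (by positivity)
            _ = L * ε / 16 := by ring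
        have k5 : ((L:ℝ) / 2 - 1 / 2 - 4 * (L / Lam)) * (theta - ε) =
            L * theta / 2 - L * ε / 2 - (theta - ε) / 2 - 4 * (L / Lam) * (theta - ε) := by ring
        have k6 : -(((L:ℝ) + 1) * (theta / 2 - ε)) = -(L * theta / 2) + L * ε - (theta / 2 - ε) := by ring
        rw [k6]
        linarith
      have g9 : (5:ℝ) / 2 ^ L ≤ 1 / 2 * (2:ℝ) ^ (-((L + 1) * (theta / 2 - ε))) := by
        refine h2L.trans ?_
        rw [← hhalf]
        apply Real.rpow_le_rpow_of_exponent_le (by norm_num)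
        have k1 : ((L:ℝ) + 1) * (theta / 2 - ε) ≤ (L + 1) * (1 / 2) :=
          mul_le_mul_of_nonneg_left (by linarith) (by positivity)
        linarith
      linarith

/-- **The proportion is `N ^ (-theta/2 + o(1))`.** -/
theorem gp_bounds (ε : ℝ) (hε : 0 < ε) : ∀ᶠ N : ℕ in atTop,
    (N:ℝ) ^ (-(theta / 2 + ε)) ≤ gp N ∧ gp N ≤ (N:ℝ) ^ (-(theta / 2 - ε)) := by
  obtain ⟨L0, hL0⟩ := eventually_atTop.1 (gp_range deltaTarget ε hε)
  filter_upwards [eventually_ge_atTop (2 ^ L0)] with N hN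
  have hN0 : N ≠ 0 := by
    have : 0 < 2 ^ L0 := by positivity
    omega
  have h1 : L0 ≤ Nat.log 2 N := Nat.le_log_of_pow_le (by norm_num) hN
  exact hL0 (Nat.log 2 N) h1 N (Nat.pow_log_le_self 2 hN0) (Nat.lt_pow_succ_log_self (by norm_num) N)

/-- logarithmic form -/
theorem gp_log : Tendsto (fun n : ℕ => -Real.log (gp (2 * n)) / Real.log n) atTop (nhds (theta / 2)) := by
  have hlogtend : Tendsto (fun n : ℕ => Real.log (n:ℝ)) atTop atTop :=
    Real.tendsto_log_atTop.comp tendsto_natCast_atTop_atTop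
  have ht0 := theta_nonneg
  have ht1 := theta_le_one
  rw [Metric.tendsto_atTop']
  intro ε hε
  have h2 : Tendsto (fun n : ℕ => 2 * n) atTop atTop := tendsto_id.const_mul_atTop' (by norm_num)
  have ev := h2.eventually (gp_bounds (ε / 4) (by positivity))
  have ev2 := hlogtend.eventually_ge_atTop (4 * Real.log 2 * (1 + ε) / ε)
  obtain ⟨n1, hn1⟩ := eventually_atTop.1 (ev.and (ev2.and (eventually_ge_atTop 2)))
  refine ⟨n1, fun n hn => ?_⟩
  obtain ⟨⟨hlo, hup⟩, hlog, hn2⟩ := hn1 n hn.le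
  have hnr : (2:ℝ) ≤ n := by exact_mod_cast hn2
  have hlogn : 0 < Real.log n := Real.log_pos (by linarith)
  have hlog2 : 0 < Real.log 2 := Real.log_pos (by norm_num)
  have hcast : ((2 * n : ℕ):ℝ) = 2 * n := by push_cast; ring
  rw [hcast] at hlo hup
  have h2n : (0:ℝ) < 2 * n := by linarith
  have hgpos : 0 < gp (2 * n) := lt_of_lt_of_le (by positivity) hlo
  have e1 := Real.log_le_log (by positivity) hlo
  have e2 := Real.log_le_log hgpos hup
  rw [Real.log_rpow h2n, Real.log_mul (by norm_num) (by linarith)] at e1 e2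
  have hlogε : 4 * Real.log 2 * (1 + ε) ≤ Real.log n * ε := by
    rwa [div_le_iff₀ hε] at hlog
  have h4 : Real.log 2 * (1 + ε) ≤ Real.log n * ε / 4 := by linarith
  rw [Real.dist_eq, abs_lt]
  constructor
  · rw [lt_sub_iff_add_lt, lt_div_iff₀ hlogn]
    have : (Real.log 2 + Real.log n) * (theta / 2 - ε / 4) = Real.log n * (theta / 2 - ε / 4) + Real.log 2 * (theta / 2 - ε / 4) := by ring
    nlinarith
  · rw [sub_lt_iff_lt_add, div_lt_iff₀ hlogn]
    nlinarith

end Pool.GP
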