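import Mathlib

set_option autoImplicit false

/-!
Finite sign averages: the uniform probability on `Fin n → Bool`.
-/

namespace Pool.GP

open Finset

/-- the sign of a bit -/
def sg (b : Bool) : ℝ := if b then 1 else -1

@[simp] lemma sg_true : sg true = 1 := by simp [sg]
@[simp] lemma sg_false : sg false = -1 := by simp [sg]

lemma sg_sq (b : Bool) : sg b ^ 2 = 1 := by cases b <;> simp

lemma sg_not (b : Bool) : sg (!b) = - sg b := by cases b <;> simp

lemma abs_sg (b : Bool) : |sg b| = 1 := by cases b <;> simp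

/-- average over all sign vectors of length `n` -/
noncomputable def E (n : ℕ) (f : (Fin n → Bool) → ℝ) : ℝ := (∑ ω, f ω) / 2 ^ n

open Classical in
/-- indicator of a proposition -/
noncomputable def ind (p : Prop) : ℝ := if p then 1 else 0

lemma ind_of {p : Prop} (h : p) : ind p = 1 := by simp [ind, h]
lemma ind_not {p : Prop} (h : ¬ p) : ind p = 0 := by simp [ind, h]
lemma ind_nonneg (p : Prop) : 0 ≤ ind p := by unfold ind; split_ifs <;> norm_num
lemma ind_le_one (p : Prop) : ind p ≤ 1 := by unfold ind; split_ifs <;> norm_num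
lemma ind_mono {p q : Prop} (h : p → q) : ind p ≤ ind q := by
  by_cases hp : p
  · rw [ind_of hp, ind_of (h hp)]
  · rw [ind_not hp]; exact ind_nonneg q
lemma ind_and (p q : Prop) : ind (p ∧ q) = ind p * ind q := by
  by_cases hp : p <;> by_cases hq : q <;> simp [ind, hp, hq]
lemma ind_add_not (p : Prop) : ind p + ind (¬ p) = 1 := by
  by_cases hp : p <;> simp [ind, hp]
lemma ind_or_le (p q : Prop) : ind (p ∨ q) ≤ ind p + ind q := by
  by_cases hp : p <;> by_cases hq : q <;> simp [ind, hp, hq]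

/-- probability of an event under the uniform distribution on `Fin n → Bool` -/
noncomputable def Pr (n : ℕ) (A : (Fin n → Bool) → Prop) : ℝ :=
  E n (fun ω => ind (A ω))

lemma E_add (n : ℕ) (f g : (Fin n → Bool) → ℝ) : E n (fun ω => f ω + g ω) = E n f + E n g := by
  simp [E, Finset.sum_add_distrib, add_div]

lemma E_sub (n : ℕ) (f g : (Fin n → Bool) → ℝ) : E n (fun ω => f ω - g ω) = E n f - E n g := by
  simp [E, Finset.sum_sub_distrib, sub_div]

lemma E_mul_left (n : ℕ) (c : ℝ) (f : (Fin n → Bool) → ℝ) :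
    E n (fun ω => c * f ω) = c * E n f := by
  simp [E, ← Finset.mul_sum, mul_div_assoc]

lemma E_mul_right (n : ℕ) (c : ℝ) (f : (Fin n → Bool) → ℝ) :
    E n (fun ω => f ω * c) = E n f * c := by
  simp only [E, ← Finset.sum_mul]; ring

lemma E_const (n : ℕ) (c : ℝ) : E n (fun _ => c) = c := by
  simp [E]

lemma E_mono (n : ℕ) {f g : (Fin n → Bool) → ℝ} (h : ∀ ω, f ω ≤ g ω) : E n f ≤ E n g := by
  unfold E
  exact div_le_div_of_nonneg_right (Finset.sum_le_sum fun ω _ => h ω) (by positivity)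

lemma E_nonneg (n : ℕ) {f : (Fin n → Bool) → ℝ} (h : ∀ ω, 0 ≤ f ω) : 0 ≤ E n f := by
  unfold E
  exact div_nonneg (Finset.sum_nonneg fun ω _ => h ω) (by positivity)

lemma E_sum {ι : Type*} (n : ℕ) (s : Finset ι) (f : ι → (Fin n → Bool) → ℝ) :
    E n (fun ω => ∑ i ∈ s, f i ω) = ∑ i ∈ s, E n (f i) := by
  simp only [E]
  rw [Finset.sum_comm, Finset.sum_div]

lemma E_congr (n : ℕ) {f g : (Fin n → Bool) → ℝ} (h : ∀ ω, f ω = g ω) : E n f = E n g := by
  unfold E; simp [h]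

/-- relabelling -/
lemma E_equiv (n : ℕ) (e : (Fin n → Bool) ≃ (Fin n → Bool)) (f : (Fin n → Bool) → ℝ) :
    E n (fun ω => f (e ω)) = E n f := by
  unfold E
  rw [e.sum_comp]

lemma E_zero (f : (Fin 0 → Bool) → ℝ) : E 0 f = f (fun i => i.elim0) := by
  unfold E
  rw [Fintype.sum_unique, pow_zero, div_one]
  congr 1

/-- recursion on the last coordinate -/
lemma E_succ (n : ℕ) (f : (Fin (n+1) → Bool) → ℝ) :
    E (n+1) f = (E n (fun ω => f (Fin.snoc ω true)) + E n (fun ω => f (Fin.snoc ω false))) / 2 := by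
  unfold E
  have h : ∑ ω, f ω = ∑ ω : Fin n → Bool, (f (Fin.snoc ω true) + f (Fin.snoc ω false)) := by
    rw [← (Fin.snocEquiv (fun _ : Fin (n+1) => Bool)).sum_comp, Fintype.sum_prod_type_right]
    refine Finset.sum_congr rfl fun ω _ => ?_
    rw [Fintype.sum_bool]
    rfl
  rw [h, Finset.sum_add_distrib, pow_succ]
  field_simp

/-- recursion on the first coordinate -/
lemma E_succ' (n : ℕ) (f : (Fin (n+1) → Bool) → ℝ) :
    E (n+1) f = (E n (fun ω => f (Fin.cons true ω)) + E n (fun ω => f (Fin.cons false ω))) / 2 := by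
  unfold E
  have h : ∑ ω, f ω = ∑ ω : Fin n → Bool, (f (Fin.cons true ω) + f (Fin.cons false ω)) := by
    rw [← (Fin.consEquiv (fun _ : Fin (n+1) => Bool)).sum_comp, Fintype.sum_prod_type_right]
    refine Finset.sum_congr rfl fun ω _ => ?_
    rw [Fintype.sum_bool]
    rfl
  rw [h, Finset.sum_add_distrib, pow_succ]
  field_simp

/-- independence of the coordinates -/
lemma E_prod (n : ℕ) (g : Fin n → Bool → ℝ) :
    E n (fun ω => ∏ j, g j (ω j)) = ∏ j, ((g j true + g j false) / 2) := by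
  unfold E
  have h : ∑ ω : Fin n → Bool, ∏ j, g j (ω j) = ∏ j, ∑ b : Bool, g j b := by
    rw [Finset.prod_univ_sum, Fintype.piFinset_univ]
  rw [h, Finset.prod_div_distrib]
  simp

/-! ### probabilities -/

lemma Pr_nonneg (n : ℕ) (A : (Fin n → Bool) → Prop) : 0 ≤ Pr n A :=
  E_nonneg n fun ω => ind_nonneg _

lemma Pr_mono (n : ℕ) {A B : (Fin n → Bool) → Prop} (h : ∀ ω, A ω → B ω) : Pr n A ≤ Pr n B :=
  E_mono n fun ω => ind_mono (h ω)

lemma Pr_congr (n : ℕ) {A B : (Fin n → Bool) → Prop} (h : ∀ ω, A ω ↔ B ω) : Pr n A = Pr n B :=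
  le_antisymm (Pr_mono n fun ω => (h ω).1) (Pr_mono n fun ω => (h ω).2)

lemma Pr_true (n : ℕ) : Pr n (fun _ => True) = 1 := by
  simp [Pr, ind, E_const]

lemma Pr_le_one (n : ℕ) (A : (Fin n → Bool) → Prop) : Pr n A ≤ 1 := by
  rw [← Pr_true n]
  exact Pr_mono n fun _ _ => trivial

lemma Pr_add_not (n : ℕ) (A : (Fin n → Bool) → Prop) : Pr n A + Pr n (fun ω => ¬ A ω) = 1 := by
  unfold Pr
  rw [← E_add]
  conv_rhs => rw [← E_const n 1]
  exact E_congr n fun ω => ind_add_not _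

lemma Pr_or_le (n : ℕ) (A B : (Fin n → Bool) → Prop) :
    Pr n (fun ω => A ω ∨ B ω) ≤ Pr n A + Pr n B := by
  unfold Pr
  rw [← E_add]
  exact E_mono n fun ω => ind_or_le _ _

lemma Pr_exists_le {ι : Type*} (n : ℕ) (s : Finset ι) (A : ι → (Fin n → Bool) → Prop) :
    Pr n (fun ω => ∃ i ∈ s, A i ω) ≤ ∑ i ∈ s, Pr n (A i) := by
  unfold Pr
  rw [← E_sum]
  refine E_mono n fun ω => ?_
  by_cases h : ∃ i ∈ s, A i ω
  · rw [ind_of h]
    obtain ⟨i, hi, hA⟩ := h
    calc (1:ℝ) = ind (A i ω) := (ind_of hA).symm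
      _ ≤ _ := Finset.single_le_sum (f := fun i => ind (A i ω))
          (fun j _ => ind_nonneg _) hi
  · rw [ind_not h]
    exact Finset.sum_nonneg fun j _ => ind_nonneg _

/-- `P(A) ≤ P(B) + P(C)` when `A ⊆ B ∪ C` -/
lemma Pr_le_add (n : ℕ) {A B C : (Fin n → Bool) → Prop} (h : ∀ ω, A ω → B ω ∨ C ω) :
    Pr n A ≤ Pr n B + Pr n C :=
  (Pr_mono n h).trans (Pr_or_le n B C)

lemma Pr_equiv (n : ℕ) (e : (Fin n → Bool) ≃ (Fin n → Bool)) (A : (Fin n → Bool) → Prop) :
    Pr n (fun ω => A (e ω)) = Pr n A :=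
  E_equiv n e (fun ω => ind (A ω))

/-- Markov's inequality -/
lemma Pr_markov (n : ℕ) (f : (Fin n → Bool) → ℝ) (hf : ∀ ω, 0 ≤ f ω) {c : ℝ} (hc : 0 < c) :
    Pr n (fun ω => c ≤ f ω) ≤ E n f / c := by
  rw [le_div_iff₀ hc]
  unfold Pr
  rw [← E_mul_right]
  refine E_mono n fun ω => ?_
  by_cases h : c ≤ f ω
  · rw [ind_of h]; simpa using h
  · rw [ind_not h]; simpa using hf ω

/-- global sign flip -/
def flipAll (n : ℕ) : (Fin n → Bool) ≃ (Fin n → Bool) where
  toFun ω := fun j => !(ω j)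
  invFun ω := fun j => !(ω j)
  left_inv ω := by ext j; simp
  right_inv ω := by ext j; simp

/-! ### Harris inequality -/

/-- an increasing event -/
def Inc {n : ℕ} (A : (Fin n → Bool) → Prop) : Prop :=
  ∀ ω ω' : Fin n → Bool, (∀ j, sg (ω j) ≤ sg (ω' j)) → A ω → A ω'

lemma sg_mono {a b : Bool} (h : a ≤ b) : sg a ≤ sg b := by
  cases a <;> cases b
  · simp
  · simp
  · exact absurd h (by decide)
  · simp

lemma Inc.and {n : ℕ} {A B : (Fin n → Bool) → Prop} (hA : Inc A) (hB : Inc B) :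
    Inc (fun ω => A ω ∧ B ω) :=
  fun ω ω' h hAB => ⟨hA ω ω' h hAB.1, hB ω ω' h hAB.2⟩

lemma Inc.forall {n : ℕ} {ι : Sort*} {A : ι → (Fin n → Bool) → Prop} (hA : ∀ i, Inc (A i)) :
    Inc (fun ω => ∀ i, A i ω) :=
  fun ω ω' h hAB i => hA i ω ω' h (hAB i)

lemma harris (n : ℕ) {A B : (Fin n → Bool) → Prop} (hA : Inc A) (hB : Inc B) :
    Pr n A * Pr n B ≤ Pr n (fun ω => A ω ∧ B ω) := by
  have key := fkg (α := Fin n → Bool) (β := ℝ) (μ := fun _ => 1)
    (f := fun ω => ind (A ω)) (g := fun ω => ind (B ω))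
    (fun _ => zero_le_one) (fun ω => ind_nonneg _) (fun ω => ind_nonneg _)
    (fun ω ω' h => ind_mono (hA ω ω' (fun j => sg_mono (h j))))
    (fun ω ω' h => ind_mono (hB ω ω' (fun j => sg_mono (h j))))
    (fun _ _ => by norm_num)
  have h2 : (∑ ω : Fin n → Bool, (1:ℝ)) = 2 ^ n := by simp
  simp only [one_mul, h2] at key
  unfold Pr E
  simp only [ind_and]
  rw [div_mul_div_comm, div_le_div_iff₀ (by positivity) (by positivity)]
  nlinarith [key, pow_pos (two_pos (α := ℝ)) n]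

end Pool.GP
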