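import Pool.Agent.Lib.GP.Embed

set_option autoImplicit false

/-!
Canonical functional and comparison of functionals.
-/

namespace Pool.GP

open Finset

/-- canonical functional, indices from `I` to `k` -/
noncomputable def ZI {n : ℕ} (A I : ℕ) (ω : Fin n → Bool) (k : ℕ) : ℝ := ∑ i ∈ Icc I k, Y ω (A / i)

/-- coarse functional, indices from `I` to `k`, stage index map `li` -/
noncomputable def CI {m : ℕ} (d : ℕ → ℕ) (li : ℕ → ℕ) (I : ℕ) (ε : Fin m → Bool) (k : ℕ) : ℝ :=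
  ∑ i ∈ Icc I k, Cw d ε (li i)

/-- the canonical persistence probability -/
noncomputable def G (A K1 K2 : ℕ) (h : ℝ) : ℝ :=
  Pr A (fun ω => ∀ k ∈ Icc K1 K2, h * Real.sqrt ((A:ℝ) * k) ≤ ZI A 1 ω k)

lemma sum_inv_sqrt_le (k : ℕ) : ∑ i ∈ Icc 1 k, 1 / Real.sqrt i ≤ 2 * Real.sqrt k := by
  induction k with
  | zero => simp
  | succ k ih =>
    rw [Finset.sum_Icc_succ_top (by omega)]
    have h1 : 0 < Real.sqrt ((k+1:ℕ):ℝ) := Real.sqrt_pos.2 (by positivity)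
    have h2 : 0 ≤ Real.sqrt (k:ℝ) := Real.sqrt_nonneg _
    have h3 : Real.sqrt ((k+1:ℕ):ℝ) ^ 2 = k + 1 := by rw [Real.sq_sqrt (by positivity)]; push_cast; ring
    have h4 : Real.sqrt (k:ℝ) ^ 2 = k := Real.sq_sqrt (by positivity)
    have h5 : 1 / Real.sqrt ((k+1:ℕ):ℝ) ≤ 2 * Real.sqrt ((k+1:ℕ):ℝ) - 2 * Real.sqrt (k:ℝ) := by
      rw [div_le_iff₀ h1]
      nlinarith [sq_nonneg (Real.sqrt ((k+1:ℕ):ℝ) - Real.sqrt (k:ℝ))]
    linarith

lemma sqrt_le_sum_inv_sqrt (k : ℕ) : Real.sqrt k ≤ ∑ i ∈ Icc 1 k, 1 / Real.sqrt i := by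
  rcases Nat.eq_zero_or_pos k with rfl | hk
  · simp
  have h1 : ∀ i ∈ Icc 1 k, 1 / Real.sqrt k ≤ 1 / Real.sqrt i := by
    intro i hi
    rw [Finset.mem_Icc] at hi
    apply one_div_le_one_div_of_le
    · exact Real.sqrt_pos.2 (by exact_mod_cast hi.1)
    · exact Real.sqrt_le_sqrt (by exact_mod_cast hi.2)
  have h2 := Finset.sum_le_sum h1
  rw [Finset.sum_const, Nat.card_Icc, nsmul_eq_mul] at h2
  have h3 : ((k + 1 - 1 : ℕ) : ℝ) * (1 / Real.sqrt k) = Real.sqrt k := by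
    have : (k + 1 - 1 : ℕ) = k := by omega
    rw [this]
    have h4 : 0 < Real.sqrt (k:ℝ) := Real.sqrt_pos.2 (by exact_mod_cast hk)
    rw [mul_one_div, div_eq_iff h4.ne']
    exact (Real.mul_self_sqrt (by positivity)).symm
  linarith

/-- the error in the comparison of functionals -/
lemma sum_err (A : ℕ) (I k : ℕ) (hI : 1 ≤ I) (x : ℝ) (hx : 0 < x) (f g : ℕ → ℝ)
    (h : ∀ i ∈ Icc I k, |f i - g i| ≤ Real.sqrt ((A:ℝ)/i) / x) :
    |∑ i ∈ Icc I k, f i - ∑ i ∈ Icc I k, g i| ≤ 2 / x * Real.sqrt ((A:ℝ) * k) := by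
  rw [← Finset.sum_sub_distrib]
  refine (Finset.abs_sum_le_sum_abs _ _).trans ((Finset.sum_le_sum h).trans ?_)
  have h1 : ∑ i ∈ Icc I k, Real.sqrt ((A:ℝ)/i) / x ≤ ∑ i ∈ Icc 1 k, Real.sqrt ((A:ℝ)/i) / x := by
    apply Finset.sum_le_sum_of_subset_of_nonneg
    · exact Finset.Icc_subset_Icc_left hI
    · intro i _ _; positivity
  refine h1.trans ?_
  have h2 : ∑ i ∈ Icc 1 k, Real.sqrt ((A:ℝ)/i) / x
      = Real.sqrt A / x * ∑ i ∈ Icc 1 k, 1 / Real.sqrt i := by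
    rw [Finset.mul_sum]
    refine Finset.sum_congr rfl fun i _ => ?_
    rw [Real.sqrt_div (by positivity)]
    field_simp
  rw [h2, Real.sqrt_mul (by positivity)]
  calc Real.sqrt A / x * ∑ i ∈ Icc 1 k, 1 / Real.sqrt i ≤ Real.sqrt A / x * (2 * Real.sqrt k) :=
        mul_le_mul_of_nonneg_left (sum_inv_sqrt_le k) (by positivity)
    _ = 2 / x * (Real.sqrt A * Real.sqrt k) := by ring

/-- hypotheses of the embedding comparison -/
structure EmbHyp (d : ℕ → ℕ) (li : ℕ → ℕ) (A I K2 : ℕ) (x : ℝ) : Prop where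
  hd : ∀ l, 1 ≤ d l
  hx : 2 ≤ x
  hI : 2 ≤ I
  hA : ∀ i ∈ Icc I K2, li i ≤ li I
  hsum : ∀ i ∈ Icc I K2, |∑ j ∈ range (li i), (d j : ℝ) ^ 2 - (A:ℝ)/i| ≤ (A:ℝ)/i / x ^ 3
  hfour : ∀ i ∈ Icc I K2, ∑ j ∈ range (li i), (d j : ℝ) ^ 4 ≤ ((A:ℝ)/i) ^ 2 / x ^ 12
  hApos : 4 ≤ A

/-- good event has high probability -/
lemma emb_good (d li : ℕ → ℕ) (A I K2 : ℕ) (x : ℝ) (H : EmbHyp d li A I K2 x) (hIK : I ≤ K2) :
    Pr A (fun ω => ¬ (li I ≤ stg d (ext ω) A ∧ ∀ i ∈ Icc I K2,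
      |Cw d (esig d (li I) A ω) (li i) - Y ω (A / i)| ≤ Real.sqrt ((A:ℝ)/i) / x))
      ≤ 4 * K2 * Real.exp (-(x / 40)) := by
  have h1 : ∀ i ∈ Icc I K2, Pr A (fun ω => ¬ (li i ≤ stg d (ext ω) A ∧
      |Cw d (esig d (li I) A ω) (li i) - Y ω (A / i)| ≤ Real.sqrt ((A:ℝ)/i) / x))
      ≤ 4 * Real.exp (-(x / 40)) := by
    intro i hi
    have hi' := Finset.mem_Icc.1 hi
    have hi2 : 2 ≤ i := H.hI.trans hi'.1
    have hipos : (0:ℝ) < i := by exact_mod_cast (by omega : 0 < i)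
    have hApos : (4:ℝ) ≤ A := by exact_mod_cast H.hApos
    apply one_index d H.hd (li I) A (li i) (A / i) x ((A:ℝ)/i) H.hx (H.hA i hi) (by positivity)
    · exact Nat.cast_div_le
    · have := Nat.lt_div_mul_add (a := A) (b := i) (by omega)
      rw [div_le_iff₀ hipos]
      have h2 : (A:ℝ) < (A / i : ℕ) * i + i := by exact_mod_cast this
      nlinarith
    · exact H.hsum i hi
    · exact H.hfour i hi
    · have hx3 : 8 ≤ x ^ 3 := by
        calc (8:ℝ) = 2 ^ 3 := by norm_num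
          _ ≤ x ^ 3 := pow_le_pow_left₀ (by norm_num) H.hx 3
      have h3 : 2 / x ^ 3 ≤ 1 / 4 := by
        rw [div_le_div_iff₀ (by positivity) (by norm_num)]; linarith
      have h4 : (A:ℝ) / i ≤ A / 2 := by
        apply div_le_div_of_nonneg_left (by positivity) (by norm_num)
        exact_mod_cast hi2
      have h5 : (A:ℝ) / i * (1 + 2 / x ^ 3) ≤ A / 2 * (1 + 1 / 4) := by
        apply mul_le_mul h4 (by linarith) (by positivity) (by positivity)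
      linarith
  have h2 : ∀ ω : Fin A → Bool, ¬ (li I ≤ stg d (ext ω) A ∧ ∀ i ∈ Icc I K2,
      |Cw d (esig d (li I) A ω) (li i) - Y ω (A / i)| ≤ Real.sqrt ((A:ℝ)/i) / x) →
      ∃ i ∈ Icc I K2, ¬ (li i ≤ stg d (ext ω) A ∧
        |Cw d (esig d (li I) A ω) (li i) - Y ω (A / i)| ≤ Real.sqrt ((A:ℝ)/i) / x) := by
    intro ω hneg
    by_contra hc
    push Not at hc
    apply hneg
    refine ⟨?_, fun i hi => (hc i hi).2⟩
    exact (hc I (Finset.mem_Icc.2 ⟨le_rfl, hIK⟩)).1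
  refine (Pr_mono A h2).trans ((Pr_exists_le A (Icc I K2) _).trans ((Finset.sum_le_sum h1).trans ?_))
  rw [Finset.sum_const, Nat.card_Icc, nsmul_eq_mul]
  have h3 : ((K2 + 1 - I : ℕ) : ℝ) ≤ K2 := by
    have := H.hI
    have : K2 + 1 - I ≤ K2 := by omega
    exact_mod_cast this
  have h4 := Real.exp_pos (-(x/40))
  nlinarith

/-- coarse ≤ fine -/
lemma emb_coarse_le (d li : ℕ → ℕ) (A I K1 K2 : ℕ) (x : ℝ) (H : EmbHyp d li A I K2 x) (hIK : I ≤ K2)
    (h : ℕ → ℝ) :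
    Pr (li I) (fun ε => ∀ k ∈ Icc K1 K2, h k + 2 / x * Real.sqrt ((A:ℝ) * k) ≤ CI d li I ε k)
      ≤ Pr A (fun ω => ∀ k ∈ Icc K1 K2, h k ≤ ZI A I ω k) + 8 * K2 * Real.exp (-(x / 40)) := by
  set F : (Fin (li I) → Bool) → ℝ := fun ε =>
    ind (∀ k ∈ Icc K1 K2, h k + 2 / x * Real.sqrt ((A:ℝ) * k) ≤ CI d li I ε k) with hF
  have hlaw := law_esig d (li I) A F
  have hgood := emb_good d li A I K2 x H hIK
  set δ := 4 * (K2:ℝ) * Real.exp (-(x / 40)) with hδ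
  have hEF : E (li I) F = Pr (li I)
      (fun ε => ∀ k ∈ Icc K1 K2, h k + 2 / x * Real.sqrt ((A:ℝ) * k) ≤ CI d li I ε k) := rfl
  -- P(stage completed) ≥ 1 - δ
  have h1 : 1 - δ ≤ Pr A (fun ω => li I ≤ stg d (ext ω) A) := by
    have h2 := Pr_add_not A (fun ω => li I ≤ stg d (ext ω) A)
    have h3 : Pr A (fun ω => ¬ li I ≤ stg d (ext ω) A) ≤ δ := by
      refine le_trans (Pr_mono A fun ω hn => ?_) hgood
      exact fun hc => hn hc.1
    linarith
  have hE1 : E (li I) F ≤ 1 := by rw [hEF]; exact Pr_le_one _ _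
  have hE0 : 0 ≤ E (li I) F := by rw [hEF]; exact Pr_nonneg _ _
  have hlow : E (li I) F - δ ≤ E A (fun ω => F (esig d (li I) A ω) * ind (li I ≤ stg d (ext ω) A)) := by
    rw [hlaw]
    have hδ0 : 0 ≤ δ := by positivity
    nlinarith
  have hup : E A (fun ω => F (esig d (li I) A ω) * ind (li I ≤ stg d (ext ω) A))
      ≤ Pr A (fun ω => ∀ k ∈ Icc K1 K2, h k ≤ ZI A I ω k) + δ := by
    refine le_trans ?_ (add_le_add le_rfl hgood)
    unfold Pr
    rw [← E_add]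
    refine E_mono A fun ω => ?_
    by_cases hg : (li I ≤ stg d (ext ω) A ∧ ∀ i ∈ Icc I K2,
      |Cw d (esig d (li I) A ω) (li i) - Y ω (A / i)| ≤ Real.sqrt ((A:ℝ)/i) / x)
    · have e1 : F (esig d (li I) A ω) ≤ ind (∀ k ∈ Icc K1 K2, h k ≤ ZI A I ω k) := by
        rw [hF]
        apply ind_mono
        intro hall k hk
        have hk' := Finset.mem_Icc.1 hk
        have e2 := hall k hk
        have e3 := sum_err A I k (by have := H.hI; omega) x (by have := H.hx; linarith)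
          (fun i => Cw d (esig d (li I) A ω) (li i)) (fun i => Y ω (A / i))
          (fun i hi => hg.2 i (Finset.mem_Icc.2
            ⟨(Finset.mem_Icc.1 hi).1, (Finset.mem_Icc.1 hi).2.trans hk'.2⟩))
        have e4 := (abs_le.1 e3).2
        unfold ZI
        unfold CI at e2
        linarith
      have e5 : F (esig d (li I) A ω) * ind (li I ≤ stg d (ext ω) A) ≤ F (esig d (li I) A ω) * 1 :=
        mul_le_mul_of_nonneg_left (ind_le_one _) (ind_nonneg _)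
      have e6 := ind_nonneg (¬ (li I ≤ stg d (ext ω) A ∧ ∀ i ∈ Icc I K2,
        |Cw d (esig d (li I) A ω) (li i) - Y ω (A / i)| ≤ Real.sqrt ((A:ℝ)/i) / x))
      linarith
    · rw [ind_of hg]
      have e5 : F (esig d (li I) A ω) * ind (li I ≤ stg d (ext ω) A) ≤ 1 * 1 :=
        mul_le_mul (ind_le_one _) (ind_le_one _) (ind_nonneg _) zero_le_one
      have e6 := ind_nonneg (∀ k ∈ Icc K1 K2, h k ≤ ZI A I ω k)
      linarith
  rw [← hEF]
  have : 8 * (K2:ℝ) * Real.exp (-(x/40)) = 2 * δ := by rw [hδ]; ring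
  rw [this]
  linarith

/-- fine ≤ coarse -/
lemma emb_fine_le (d li : ℕ → ℕ) (A I K1 K2 : ℕ) (x : ℝ) (H : EmbHyp d li A I K2 x) (hIK : I ≤ K2)
    (h : ℕ → ℝ) :
    Pr A (fun ω => ∀ k ∈ Icc K1 K2, h k + 2 / x * Real.sqrt ((A:ℝ) * k) ≤ ZI A I ω k)
      ≤ Pr (li I) (fun ε => ∀ k ∈ Icc K1 K2, h k ≤ CI d li I ε k) + 4 * K2 * Real.exp (-(x / 40)) := by
  set F : (Fin (li I) → Bool) → ℝ := fun ε => ind (∀ k ∈ Icc K1 K2, h k ≤ CI d li I ε k) with hF
  have hlaw := law_esig d (li I) A F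
  have hgood := emb_good d li A I K2 x H hIK
  have hEF : E (li I) F = Pr (li I) (fun ε => ∀ k ∈ Icc K1 K2, h k ≤ CI d li I ε k) := rfl
  have hE0 : 0 ≤ E (li I) F := by rw [hEF]; exact Pr_nonneg _ _
  have hup : E A (fun ω => F (esig d (li I) A ω) * ind (li I ≤ stg d (ext ω) A)) ≤ E (li I) F := by
    rw [hlaw]
    have := Pr_le_one A (fun ω => li I ≤ stg d (ext ω) A)
    nlinarith
  rw [← hEF]
  refine le_trans ?_ (add_le_add hup hgood)
  unfold Pr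
  rw [← E_add]
  refine E_mono A fun ω => ?_
  by_cases hg : (li I ≤ stg d (ext ω) A ∧ ∀ i ∈ Icc I K2,
      |Cw d (esig d (li I) A ω) (li i) - Y ω (A / i)| ≤ Real.sqrt ((A:ℝ)/i) / x)
  · have e1 : ind (∀ k ∈ Icc K1 K2, h k + 2 / x * Real.sqrt ((A:ℝ) * k) ≤ ZI A I ω k)
        ≤ F (esig d (li I) A ω) := by
      rw [hF]
      apply ind_mono
      intro hall k hk
      have hk' := Finset.mem_Icc.1 hk
      have e2 := hall k hk
      have e3 := sum_err A I k (by have := H.hI; omega) x (by have := H.hx; linarith)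
        (fun i => Cw d (esig d (li I) A ω) (li i)) (fun i => Y ω (A / i))
        (fun i hi => hg.2 i (Finset.mem_Icc.2
          ⟨(Finset.mem_Icc.1 hi).1, (Finset.mem_Icc.1 hi).2.trans hk'.2⟩))
      have e4 := (abs_le.1 e3).1
      unfold ZI at e2
      unfold CI
      linarith
    rw [ind_of hg.1, mul_one]
    have e6 := ind_nonneg (¬ (li I ≤ stg d (ext ω) A ∧ ∀ i ∈ Icc I K2,
        |Cw d (esig d (li I) A ω) (li i) - Y ω (A / i)| ≤ Real.sqrt ((A:ℝ)/i) / x))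
    linarith
  · rw [ind_of hg]
    have e5 := ind_le_one (∀ k ∈ Icc K1 K2, h k + 2 / x * Real.sqrt ((A:ℝ) * k) ≤ ZI A I ω k)
    have e6 : 0 ≤ F (esig d (li I) A ω) * ind (li I ≤ stg d (ext ω) A) :=
      mul_nonneg (ind_nonneg _) (ind_nonneg _)
    linarith

end Pool.GP
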