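import Pool.Agent.Lib.GP.Machine

set_option autoImplicit false

/-!
Clock bounds for the embedding: exponential (super)martingales `cos`, `cosh`.
-/

namespace Pool.GP

open Finset

/-! ### elementary inequalities -/

lemma exp_neg_le_quad {v : ℝ} (hv : 0 ≤ v) : Real.exp (-v) ≤ 1 - v + v ^ 2 / 2 := by
  have h1 := Real.quadratic_le_exp_of_nonneg hv
  rw [Real.exp_neg, inv_le_comm₀ (Real.exp_pos _) (by nlinarith [sq_nonneg (v - 1)])]
  have h2 : 0 < 1 - v + v ^ 2 / 2 := by nlinarith [sq_nonneg (v - 1)]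
  rw [inv_le_comm₀ h2 (Real.exp_pos _)]
  rw [inv_eq_one_div, div_le_iff₀ (Real.exp_pos _)]
  have h3 : 0 ≤ v ^ 4 := by positivity
  nlinarith [mul_le_mul_of_nonneg_left h1 h2.le]

lemma exp_le_one_sub {u : ℝ} (h0 : 0 ≤ u) (h1 : u ≤ 2/5) : Real.exp (-u - u ^ 2) ≤ 1 - u := by
  have h2 : 0 ≤ u + u ^ 2 := by positivity
  have h3 := exp_neg_le_quad h2
  have h4 : -u - u^2 = -(u + u^2) := by ring
  rw [h4]
  refine h3.trans ?_
  have h5 : (1 + u) ^ 2 ≤ 2 := by nlinarith
  nlinarith [mul_nonneg (sq_nonneg u) (sub_nonneg.2 h5)]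

lemma cos_ge_exp {y : ℝ} (hy : |y| ≤ 1/2) : Real.exp (-(y ^ 2 / 2) - y ^ 4 / 4) ≤ Real.cos y := by
  have h1 := Real.one_sub_sq_div_two_le_cos (x := y)
  have h2 : y ^ 2 ≤ 1/4 := by
    have := sq_le_sq' (by linarith [neg_abs_le y, abs_nonneg y] : -(1/2 : ℝ) ≤ y)
      ((le_abs_self y).trans hy)
    linarith
  have h3 := exp_le_one_sub (u := y ^ 2 / 2) (by positivity) (by linarith)
  have h4 : -(y ^ 2 / 2) - (y ^ 2 / 2) ^ 2 = -(y ^ 2 / 2) - y ^ 4 / 4 := by ring
  rw [h4] at h3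
  linarith

lemma cos_le_exp {y : ℝ} (hy : |y| ≤ 1) : Real.cos y ≤ Real.exp (-(y ^ 2 / 2) + y ^ 4 / 16) := by
  have h1 := Real.cos_bound hy
  have h2 := (abs_le.1 h1).2
  have h3 : |y| ^ 4 = y ^ 4 := by
    rw [← abs_pow]; exact abs_of_nonneg (by positivity)
  rw [h3] at h2
  have h4 := Real.add_one_le_exp (-(y ^ 2 / 2) + y ^ 4 / 16)
  have h5 : 0 ≤ y ^ 4 := by positivity
  linarith

lemma cosh_ge_exp {y : ℝ} : Real.exp (y ^ 2 / 2 - y ^ 4 / 8) ≤ Real.cosh y := by
  have h1 : 1 + y ^ 2 / 2 ≤ Real.cosh y := by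
    have h := Real.cosh_sq' (y/2)
    have h2 : Real.cosh y = 1 + 2 * Real.sinh (y/2) ^ 2 := by
      have : Real.cosh y = Real.cosh (2 * (y/2)) := by ring_nf
      rw [this, Real.cosh_two_mul, h]; ring
    have h3 : (y/2) ^ 2 ≤ Real.sinh (y/2) ^ 2 := by
      rw [← sq_abs (y/2), ← sq_abs (Real.sinh (y/2)), Real.abs_sinh]
      exact pow_le_pow_left₀ (abs_nonneg _) (Real.self_le_sinh_iff.2 (abs_nonneg _)) 2
    rw [h2]
    nlinarith
  -- exp(u - u²/2) ≤ 1 + u for u ≥ 0
  have h2 : ∀ u : ℝ, 0 ≤ u → Real.exp (u - u ^ 2 / 2) ≤ 1 + u := by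
    intro u hu
    have h3 : u - u ^ 2 / 2 ≤ Real.log (1 + u) := by
      have h4 : ∀ v : ℝ, 0 ≤ v → 0 ≤ Real.log (1 + v) - (v - v ^ 2 / 2) := by
        have hmono : MonotoneOn (fun v : ℝ => Real.log (1 + v) - (v - v ^ 2 / 2)) (Set.Ici 0) := by
          apply monotoneOn_of_deriv_nonneg (convex_Ici 0)
          · apply ContinuousOn.sub
            · apply ContinuousOn.log (by fun_prop)
              intro x hx
              have : (0:ℝ) ≤ x := hx
              linarith
            · fun_prop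
          · intro x hx
            rw [interior_Ici] at hx
            have hx' : (0:ℝ) < x := hx
            have : (1 + x) ≠ 0 := by linarith
            have h5 : DifferentiableAt ℝ (fun v : ℝ => Real.log (1 + v)) x :=
              DifferentiableAt.log (by fun_prop) this
            exact (h5.sub (by fun_prop)).differentiableWithinAt
          · intro x hx
            rw [interior_Ici] at hx
            have hx' : (0:ℝ) < x := hx
            have hne : (1 + x) ≠ 0 := by linarith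
            have h5 : HasDerivAt (fun v : ℝ => Real.log (1 + v) - (v - v ^ 2 / 2))
                (1 / (1 + x) - (1 - x)) x := by
              have h6 : HasDerivAt (fun v : ℝ => Real.log (1 + v)) (1 / (1 + x)) x := by
                have := ((hasDerivAt_id x).const_add 1).log hne
                simpa using this
              have h7 : HasDerivAt (fun v : ℝ => v - v ^ 2 / 2) (1 - x) x := by
                have := (hasDerivAt_id' x).sub ((hasDerivAt_pow 2 x).div_const 2)
                have e : (1 - (((2:ℕ):ℝ) * x ^ (2-1)) / 2) = 1 - x := by norm_num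
                rw [e] at this
                exact this
              exact h6.sub h7
            rw [h5.deriv]
            have : 1 / (1 + x) - (1 - x) = x ^ 2 / (1 + x) := by field_simp; ring
            rw [this]
            positivity
        intro v hv
        have := hmono (Set.mem_Ici.2 le_rfl) (Set.mem_Ici.2 hv) hv
        simpa using this
      linarith [h4 u hu]
    calc Real.exp (u - u ^ 2 / 2) ≤ Real.exp (Real.log (1 + u)) := Real.exp_le_exp.2 h3
      _ = 1 + u := Real.exp_log (by linarith)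
  have h3 := h2 (y ^ 2 / 2) (by positivity)
  have h4 : y ^ 2 / 2 - (y ^ 2 / 2) ^ 2 / 2 = y ^ 2 / 2 - y ^ 4 / 8 := by ring
  rw [h4] at h3
  linarith

/-! ### the martingales -/

/-- potential -/
noncomputable def pot (d : ℕ → ℕ) (φ : ℝ → ℝ) (b : ℕ → Bool) (t : ℕ) : ℝ :=
  (∏ l ∈ range (stg d b t), φ (d l)) * φ ((mrun d b t).2)

lemma pot_succ (d : ℕ → ℕ) (hd : ∀ l, 1 ≤ d l) (φ : ℝ → ℝ) (h0 : φ 0 = 1)
    (hev : ∀ x, φ (-x) = φ x) (b : ℕ → Bool) (t : ℕ) :
    pot d φ b (t+1) = (∏ l ∈ range (stg d b t), φ (d l)) * φ ((mrun d b t).2 + sg (b t)) := by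
  unfold pot
  by_cases h : (d (mrun d b t).1 : ℤ) ≤ |(mrun d b t).2 + si (b t)|
  · have h2 : stg d b (t+1) = stg d b t + 1 := by simp [stg, mrun, mstep, h]
    have h3 : (mrun d b (t+1)).2 = 0 := by simp [mrun, mstep, h]
    rw [h2, h3, Finset.prod_range_succ, Int.cast_zero, h0, mul_one]
    congr 1
    have h4 := exit_eq hd b t h
    have h5 : ((mrun d b t).2 : ℝ) + sg (b t) = d (mrun d b t).1 * sg (b t) := by
      rw [sg_eq_si]; exact_mod_cast h4
    rw [h5]
    cases b t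
    · simp only [sg_false, mul_neg, mul_one, hev]; rfl
    · simp only [sg_true, mul_one]; rfl
  · have h2 : stg d b (t+1) = stg d b t := by simp [stg, mrun, mstep, h]
    have h3 : (mrun d b (t+1)).2 = (mrun d b t).2 + si (b t) := by simp [mrun, mstep, h]
    rw [h2, h3, sg_eq_si]
    push_cast
    rfl

lemma pot_congr (d : ℕ → ℕ) (φ : ℝ → ℝ) {b b' : ℕ → Bool} {t : ℕ} (h : ∀ v < t, b v = b' v) :
    pot d φ b t = pot d φ b' t := by
  unfold pot stg
  rw [mrun_congr d h]

/-- general multiplicative martingale for an even function `φ` with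
`(φ(x+1)+φ(x-1))/2 = c φ(x)` -/
lemma machine_mart (d : ℕ → ℕ) (hd : ∀ l, 1 ≤ d l) (φ : ℝ → ℝ) (c : ℝ) (h0 : φ 0 = 1)
    (hev : ∀ x, φ (-x) = φ x) (hφ : ∀ x, φ (x + 1) + φ (x - 1) = 2 * c * φ x) (n : ℕ) :
    E n (fun ω => pot d φ (ext ω) n) = c ^ n := by
  induction n with
  | zero =>
    rw [E_zero]
    simp [pot, stg, mrun, h0]
  | succ n ih =>
    rw [E_succ, pow_succ, ← ih, ← E_add, ← E_mul_right]
    have h1 : ∀ ω : Fin n → Bool, pot d φ (ext (Fin.snoc ω true : Fin (n+1) → Bool)) (n+1)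
        + pot d φ (ext (Fin.snoc ω false : Fin (n+1) → Bool)) (n+1)
        = 2 * (pot d φ (ext ω) n * c) := by
      intro ω
      have e : ∀ bb : Bool, mrun d (ext (Fin.snoc ω bb : Fin (n+1) → Bool)) n
          = mrun d (ext ω) n := fun bb => mrun_congr d fun v hv => ext_snoc_lt ω bb hv
      rw [pot_succ d hd φ h0 hev, pot_succ d hd φ h0 hev]
      simp only [stg, e, ext_snoc_last, sg_true, sg_false]
      rw [← mul_add]
      have := hφ ((mrun d (ext ω) n).2 : ℝ)
      rw [sub_eq_add_neg] at this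
      rw [this]
      unfold pot stg
      ring
    simp only [h1]
    rw [E_mul_left]
    ring

/-- upper clock bound: the `m` first stages are completed by time `n`, unless ... -/
lemma clock_upper (d : ℕ → ℕ) (hd : ∀ l, 1 ≤ d l) (l : ℝ) (hl0 : 0 < l)
    (hl : ∀ j, l * d j ≤ 1/2) (m n : ℕ) :
    Pr n (fun ω => stg d (ext ω) n < m)
      ≤ Real.exp (-(l ^ 2 * ((n:ℝ) - ∑ j ∈ range m, (d j : ℝ) ^ 2) / 2)
          + l ^ 4 * ((n:ℝ) / 16 + (∑ j ∈ range m, (d j : ℝ) ^ 4) / 4)) := by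
  set φ : ℝ → ℝ := fun x => Real.cos (l * x) with hφ
  have hl1 : l ≤ 1/2 := by
    have := hl 0
    have h1 : (1:ℝ) ≤ d 0 := by exact_mod_cast hd 0
    nlinarith
  have hdl : ∀ j, |l * (d j : ℝ)| ≤ 1/2 := fun j => by
    rw [abs_of_nonneg (by positivity)]; exact hl j
  have hpos : ∀ j, 0 < φ (d j) := fun j => by
    have := cos_ge_exp (hdl j)
    exact lt_of_lt_of_le (Real.exp_pos _) this
  have hle1 : ∀ x, φ x ≤ 1 := fun x => Real.cos_le_one _
  have hmart := machine_mart d hd φ (Real.cos l) (by simp [hφ]) (by intro x; simp [hφ])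
    (by
      intro x
      simp only [hφ]
      rw [mul_add, mul_sub, mul_one, Real.cos_add, Real.cos_sub]
      ring) n
  set c := ∏ j ∈ range m, φ (d j) with hc
  have hcpos : 0 < c := Finset.prod_pos fun j _ => hpos j
  -- displacement part
  have hx : ∀ b : ℕ → Bool, φ (d (stg d b n)) ≤ φ ((mrun d b n).2) := by
    intro b
    have h1 := mrun_abs_lt hd b n
    have h2 : |((mrun d b n).2 : ℝ)| ≤ d (mrun d b n).1 := by
      have : ((|(mrun d b n).2| : ℤ) : ℝ) < ((d (mrun d b n).1 : ℤ) : ℝ) := by exact_mod_cast h1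
      push_cast at this
      exact this.le
    simp only [hφ]
    rw [← Real.cos_abs (l * ((mrun d b n).2 : ℝ)), abs_mul, abs_of_pos hl0]
    apply Real.cos_le_cos_of_nonneg_of_le_pi
    · positivity
    · have h3 := hl (stg d b n)
      have := Real.pi_gt_three
      linarith
    · exact mul_le_mul_of_nonneg_left h2 hl0.le
  have hpotnn : ∀ b : ℕ → Bool, 0 ≤ pot d φ b n := by
    intro b
    unfold pot
    exact mul_nonneg (Finset.prod_nonneg fun j _ => (hpos j).le) ((hpos _).le.trans (hx b))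
  have hlow : ∀ ω : Fin n → Bool, stg d (ext ω) n < m → c ≤ pot d φ (ext ω) n := by
    intro ω h
    unfold pot
    calc c = (∏ j ∈ range (stg d (ext ω) n + 1), φ (d j))
          * ∏ j ∈ Finset.Ico (stg d (ext ω) n + 1) m, φ (d j) := by
          rw [hc, Finset.prod_range_mul_prod_Ico _ (by omega)]
      _ ≤ (∏ j ∈ range (stg d (ext ω) n + 1), φ (d j)) * 1 := by
          apply mul_le_mul_of_nonneg_left _ (Finset.prod_nonneg fun j _ => (hpos j).le)
          exact Finset.prod_le_one (fun j _ => (hpos j).le) (fun j _ => hle1 _)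
      _ = (∏ j ∈ range (stg d (ext ω) n), φ (d j)) * φ (d (stg d (ext ω) n)) := by
          rw [mul_one, Finset.prod_range_succ]
      _ ≤ _ := mul_le_mul_of_nonneg_left (hx _) (Finset.prod_nonneg fun j _ => (hpos j).le)
  have h1 : Pr n (fun ω => stg d (ext ω) n < m) ≤ Real.cos l ^ n / c := by
    rw [← hmart]
    refine (Pr_mono n hlow).trans (Pr_markov n (fun ω => pot d φ (ext ω) n) (fun ω => hpotnn _) hcpos)
  refine h1.trans ?_
  rw [div_le_iff₀ hcpos]
  have h2 : Real.exp (-(l ^ 2 * (∑ j ∈ range m, (d j : ℝ) ^ 2) / 2)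
      - l ^ 4 * (∑ j ∈ range m, (d j : ℝ) ^ 4) / 4) ≤ c := by
    rw [hc]
    calc Real.exp (-(l ^ 2 * (∑ j ∈ range m, (d j : ℝ) ^ 2) / 2)
      - l ^ 4 * (∑ j ∈ range m, (d j : ℝ) ^ 4) / 4)
        = ∏ j ∈ range m, Real.exp (-((l * d j) ^ 2 / 2) - (l * d j) ^ 4 / 4) := by
          rw [← Real.exp_sum]
          congr 1
          rw [Finset.mul_sum, Finset.mul_sum, Finset.sum_div, Finset.sum_div,
            ← Finset.sum_neg_distrib, ← Finset.sum_sub_distrib]
          exact Finset.sum_congr rfl fun j _ => by ring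
      _ ≤ _ := Finset.prod_le_prod (fun j _ => (Real.exp_pos _).le) (fun j _ => cos_ge_exp (hdl j))
  have h3 : Real.cos l ^ n ≤ Real.exp ((n:ℝ) * (-(l ^ 2 / 2) + l ^ 4 / 16)) := by
    rw [Real.exp_nat_mul]
    have h0 : 0 ≤ Real.cos l := by
      have : |l| ≤ 1/2 := by rw [abs_of_pos hl0]; exact hl1
      exact (Real.exp_pos _).le.trans (cos_ge_exp this)
    exact pow_le_pow_left₀ h0 (cos_le_exp (by rw [abs_of_pos hl0]; linarith)) n
  refine h3.trans ?_
  refine le_trans (le_of_eq ?_) (mul_le_mul_of_nonneg_left h2 (Real.exp_pos _).le)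
  rw [← Real.exp_add]
  congr 1
  ring

/-- lower clock bound, raw form -/
lemma clock_lower_raw (d : ℕ → ℕ) (hd : ∀ l, 1 ≤ d l) (l : ℝ) (m n : ℕ) :
    Pr n (fun ω => m ≤ stg d (ext ω) n) ≤ Real.cosh l ^ n / ∏ j ∈ range m, Real.cosh (l * d j) := by
  set φ : ℝ → ℝ := fun x => Real.cosh (l * x) with hφ
  have hge1 : ∀ x, 1 ≤ φ x := fun x => Real.one_le_cosh _
  have hmart := machine_mart d hd φ (Real.cosh l) (by simp [hφ]) (by intro x; simp [hφ])
    (by
      intro x
      simp only [hφ]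
      rw [mul_add, mul_sub, mul_one, Real.cosh_add, Real.cosh_sub]
      ring) n
  set c := ∏ j ∈ range m, φ (d j) with hc
  have hcpos : 0 < c := Finset.prod_pos fun j _ => lt_of_lt_of_le one_pos (hge1 _)
  have hpotnn : ∀ b : ℕ → Bool, 0 ≤ pot d φ b n := by
    intro b
    unfold pot
    exact mul_nonneg (Finset.prod_nonneg fun j _ => zero_le_one.trans (hge1 _))
      (zero_le_one.trans (hge1 _))
  have hlow : ∀ ω : Fin n → Bool, m ≤ stg d (ext ω) n → c ≤ pot d φ (ext ω) n := by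
    intro ω h
    unfold pot
    calc c ≤ c * ∏ j ∈ Finset.Ico m (stg d (ext ω) n), φ (d j) := by
          apply le_mul_of_one_le_right hcpos.le
          calc (1:ℝ) = ∏ j ∈ Finset.Ico m (stg d (ext ω) n), (1:ℝ) := by simp
            _ ≤ _ := Finset.prod_le_prod (fun _ _ => zero_le_one) (fun j _ => hge1 _)
      _ = ∏ j ∈ range (stg d (ext ω) n), φ (d j) := by
          rw [hc, Finset.prod_range_mul_prod_Ico _ h]
      _ ≤ _ := le_mul_of_one_le_right (Finset.prod_nonneg fun j _ => zero_le_one.trans (hge1 _))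
          (hge1 _)
  rw [← hmart]
  exact (Pr_mono n hlow).trans (Pr_markov n (fun ω => pot d φ (ext ω) n) (fun ω => hpotnn _) hcpos)

/-- lower clock bound -/
lemma clock_lower (d : ℕ → ℕ) (hd : ∀ l, 1 ≤ d l) (l : ℝ) (m n : ℕ) :
    Pr n (fun ω => m ≤ stg d (ext ω) n)
      ≤ Real.exp (-(l ^ 2 * ((∑ j ∈ range m, (d j : ℝ) ^ 2) - n) / 2)
          + l ^ 4 * (∑ j ∈ range m, (d j : ℝ) ^ 4) / 8) := by
  refine (clock_lower_raw d hd l m n).trans ?_
  have hcpos : 0 < ∏ j ∈ range m, Real.cosh (l * d j) := Finset.prod_pos fun j _ => Real.cosh_pos _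
  rw [div_le_iff₀ hcpos]
  have h2 : Real.exp ((l ^ 2 * (∑ j ∈ range m, (d j : ℝ) ^ 2) / 2)
      - l ^ 4 * (∑ j ∈ range m, (d j : ℝ) ^ 4) / 8) ≤ ∏ j ∈ range m, Real.cosh (l * d j) := by
    calc Real.exp ((l ^ 2 * (∑ j ∈ range m, (d j : ℝ) ^ 2) / 2)
      - l ^ 4 * (∑ j ∈ range m, (d j : ℝ) ^ 4) / 8)
        = ∏ j ∈ range m, Real.exp ((l * d j) ^ 2 / 2 - (l * d j) ^ 4 / 8) := by
          rw [← Real.exp_sum]
          congr 1
          rw [Finset.mul_sum, Finset.mul_sum, Finset.sum_div, Finset.sum_div,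
            ← Finset.sum_sub_distrib]
          exact Finset.sum_congr rfl fun j _ => by ring
      _ ≤ _ := Finset.prod_le_prod (fun j _ => (Real.exp_pos _).le) (fun j _ => cosh_ge_exp)
  have h3 : Real.cosh l ^ n ≤ Real.exp ((n:ℝ) * (l ^ 2 / 2)) := by
    rw [Real.exp_nat_mul]
    exact pow_le_pow_left₀ (Real.cosh_pos _).le (Real.cosh_le_exp_half_sq _) n
  refine h3.trans ?_
  refine le_trans (le_of_eq ?_) (mul_le_mul_of_nonneg_left h2 (Real.exp_pos _).le)
  rw [← Real.exp_add]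
  congr 1
  ring

end Pool.GP
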