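import Pool.Agent.Lib.GP.DeltaDefs

set_option autoImplicit false

/-!
The `δ`-model: reversal, weights, variance bounds.
-/

namespace Pool.GP.Delta

open Finset Pool.GP

/-! ### reversal -/

/-- reversal of a sign vector -/
def rv (n : ℕ) : (Fin n → Bool) ≃ (Fin n → Bool) where
  toFun ω := fun i => ω i.rev
  invFun ω := fun i => ω i.rev
  left_inv ω := by funext i; simp
  right_inv ω := by funext i; simp

lemma Ws_rv (n : ℕ) (w : ℕ → ℝ) (ω : Fin n → Bool) :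
    Ws n w (rv n ω) = Ws n (fun j => w (n - 1 - j)) ω := by
  unfold Ws rv
  rw [← Equiv.sum_comp Fin.revPerm]
  refine Finset.sum_congr rfl fun j _ => ?_
  simp only [Equiv.coe_fn_mk, Fin.revPerm_apply, Fin.rev_rev]
  have : ((Fin.rev j : Fin n) : ℕ) = n - 1 - j := by
    rw [Fin.val_rev]; omega
  rw [this]

lemma Cw_seg (d : ℕ → ℕ) {N m l : ℕ} (hm : m ≤ N) (hl : l ≤ m) (ω : Fin N → Bool) :
    Cw d (seg 0 m ω) l = Ws N (fun j => if j < l then (d j : ℝ) else 0) ω := by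
  unfold Cw Wk Ws
  have h1 : (∑ j : Fin m, if (j:ℕ) < l then (d j : ℝ) * sg (seg 0 m ω j) else 0)
      = ∑ j : Fin m, (fun j : ℕ => if j < l then (d j : ℝ) * sg (ext ω j) else 0) j := by
    refine Finset.sum_congr rfl fun j _ => ?_
    simp only [seg, zero_add]
  have h2 : (∑ j : Fin N, (if (j:ℕ) < l then (d j : ℝ) else 0) * sg (ω j))
      = ∑ j : Fin N, (fun j : ℕ => if j < l then (d j : ℝ) * sg (ext ω j) else 0) j := by
    refine Finset.sum_congr rfl fun j _ => ?_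
    simp only [ext_lt ω j.2, ite_mul, zero_mul]
  rw [h1, h2, Fin.sum_univ_eq_sum_range (fun j : ℕ => if j < l then (d j : ℝ) * sg (ext ω j) else 0) m,
    Fin.sum_univ_eq_sum_range (fun j : ℕ => if j < l then (d j : ℝ) * sg (ext ω j) else 0) N]
  apply Finset.sum_subset (Finset.range_subset_range.2 hm)
  intro j _ hj
  rw [Finset.mem_range] at hj
  rw [if_neg (by omega)]

/-! ### stages -/

/-- stage sizes in reversed order -/
def dd (D : ℕ) (δ : ℕ → ℕ) (l : ℕ) : ℕ := max (δ (D - l)) 1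

/-- number of stages for the index `i` -/
def li (D : ℕ) (i : ℕ) : ℕ := D + 1 - i

/-- coefficient of the coarse functional -/
noncomputable def cw (δ : ℕ → ℕ) (I k j : ℕ) : ℝ := ((min k (j + 1) + 1 - I : ℕ) : ℝ) * (max (δ (j + 1)) 1 : ℕ)

lemma CI_seg {D I k : ℕ} (δ : ℕ → ℕ) (hI : 1 ≤ I) (hk : k ≤ D) (ω : Fin D → Bool) :
    CI (dd D δ) (li D) I (seg 0 (li D I) (rv D ω)) k = Ws D (cw δ I k) ω := by
  unfold CI
  have h1 : ∀ i ∈ Icc I k, Cw (dd D δ) (seg 0 (li D I) (rv D ω)) (li D i) =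
      Ws D (fun j => if i ≤ j + 1 then ((max (δ (j + 1)) 1 : ℕ) : ℝ) else 0) ω := by
    intro i hi
    rw [Finset.mem_Icc] at hi
    rw [Cw_seg (dd D δ) (by unfold li; omega) (by unfold li; omega), Ws_rv]
    refine Ws_congr D (fun j hj => ?_) ω
    have e1 : (D - 1 - j < li D i) ↔ (i ≤ j + 1) := by unfold li; omega
    by_cases h : i ≤ j + 1
    · rw [if_pos (e1.2 h), if_pos h]
      unfold dd
      have : D - (D - 1 - j) = j + 1 := by omega
      rw [this]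
    · rw [if_neg (fun h' => h (e1.1 h')), if_neg h]
  rw [Finset.sum_congr rfl h1, ← Ws_sum]
  refine Ws_congr D (fun j _ => ?_) ω
  rw [← Finset.sum_filter, Finset.sum_const, nsmul_eq_mul]
  unfold cw
  congr 2
  have : (Icc I k).filter (fun i => i ≤ j + 1) = Icc I (min k (j + 1)) := by
    ext i
    simp only [Finset.mem_filter, Finset.mem_Icc]
    omega
  rw [this, Nat.card_Icc]

/-- reduction to the canonical space -/
lemma Pr_CI {D I K1 K2 : ℕ} (δ : ℕ → ℕ) (hI : 1 ≤ I) (hK2 : K2 ≤ D) (h : ℕ → ℝ) :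
    Pr D (fun ω => ∀ k ∈ Icc K1 K2, h k ≤ Ws D (cw δ I k) ω) =
      Pr (li D I) (fun ε => ∀ k ∈ Icc K1 K2, h k ≤ CI (dd D δ) (li D) I ε k) := by
  have h1 : Pr D (fun ω => ∀ k ∈ Icc K1 K2, h k ≤ Ws D (cw δ I k) ω) =
      Pr D (fun ω => ∀ k ∈ Icc K1 K2, h k ≤ CI (dd D δ) (li D) I (seg 0 (li D I) (rv D ω)) k) := by
    refine Pr_congr D fun ω => forall_congr' fun k => forall_congr' fun hk => ?_
    rw [CI_seg δ hI ((Finset.mem_Icc.1 hk).2.trans hK2)]
  rw [h1, Pr_equiv D (rv D) (fun ω => ∀ k ∈ Icc K1 K2, h k ≤ CI (dd D δ) (li D) I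
    (seg 0 (li D I) ω) k)]
  exact Pr_seg (N := D) (t := 0) (r := li D I) (by unfold li; omega)
    (fun ε => ∀ k ∈ Icc K1 K2, h k ≤ CI (dd D δ) (li D) I ε k)

/-! ### difference of the weights -/

/-- weights of the start -/
noncomputable def aw (δ : ℕ → ℕ) (I j : ℕ) : ℝ := ((min (j + 1) (I - 1) : ℕ) : ℝ) * δ (j + 1)

/-- weights of the zero steps -/
noncomputable def bw (δ : ℕ → ℕ) (I k j : ℕ) : ℝ :=
  ((min k (j + 1) + 1 - I : ℕ) : ℝ) * ((δ (j + 1) : ℝ) - (max (δ (j + 1)) 1 : ℕ))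

lemma Sd_eq {D k : ℕ} (δ : ℕ → ℕ) {I : ℕ} (hI : 1 ≤ I) (hk : I ≤ k) (ω : Fin D → Bool) :
    Sd D δ ω k = Ws D (cw δ I k) ω + Ws D (aw δ I) ω + Ws D (bw δ I k) ω := by
  rw [← Ws_add, ← Ws_add]
  unfold Sd Ws
  refine Finset.sum_congr rfl fun j _ => ?_
  congr 1
  unfold cw aw bw
  have e : ((min ((j:ℕ) + 1) k : ℕ) : ℝ) = ((min k ((j:ℕ) + 1) + 1 - I : ℕ) : ℝ) +
      ((min ((j:ℕ) + 1) (I - 1) : ℕ) : ℝ) := by
    rw [← Nat.cast_add]
    congr 1
    omega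
  rw [e]; ring

end Pool.GP.Delta
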