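import Pool.Agent.Lib.GP.Delta1

set_option autoImplicit false

/-!
The `δ`-model: variance bounds and the good event.
-/

namespace Pool.GP.Delta

open Finset Pool.GP

/-- parameters -/
structure Par (D A : ℕ) (δ : ℕ → ℕ) (x : ℝ) (I K1 K2 : ℕ) : Prop where
  hx : 100 ≤ x
  hD : x ^ 500 ≤ D
  H : Dhyp D A δ x
  Il : x ^ 20 + 1 ≤ I
  Iu : (I:ℝ) ≤ 2 * x ^ 20
  K1l : x ^ 33 ≤ K1
  K1u : (K1:ℝ) ≤ 2 * x ^ 33
  K2l : (D:ℝ) ≤ 2 * x ^ 250 * K2
  K2u : (K2:ℝ) * x ^ 250 ≤ D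

lemma sum_range_succ_index (D : ℕ) (f : ℕ → ℝ) : ∑ j ∈ range D, f (j + 1) = ∑ j ∈ Icc 1 D, f j := by
  rw [Finset.range_eq_Ico, Finset.sum_Ico_add' f 0 D 1]
  refine Finset.sum_congr ?_ fun _ _ => rfl
  ext j; simp only [Finset.mem_Ico, Finset.mem_Icc]; omega

variable {D A : ℕ} {δ : ℕ → ℕ} {x : ℝ} {I K1 K2 : ℕ}

section
variable (P : Par D A δ x I K1 K2)
include P

lemma Par.pw {a b : ℕ} (hab : a ≤ b) : x ^ a ≤ x ^ b :=
  pow_le_pow_right₀ (by have := P.hx; linarith) hab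

lemma Par.x_pos : 0 < x := by have := P.hx; linarith

lemma Par.one_le_x : 1 ≤ x := by have := P.hx; linarith

lemma Par.one_le_pow (a : ℕ) : 1 ≤ x ^ a := one_le_pow₀ P.one_le_x

lemma Par.D_pos : 0 < (D:ℝ) := lt_of_lt_of_le (pow_pos P.x_pos _) P.hD

lemma Par.D_big {a : ℕ} (ha : a ≤ 499) : 100 * x ^ a ≤ D := by
  have h1 : x ^ (a + 1) ≤ x ^ 500 := P.pw (by omega)
  have h2 : 100 * x ^ a ≤ x ^ (a + 1) := by
    rw [pow_succ, mul_comm]
    exact mul_le_mul_of_nonneg_left P.hx (pow_pos P.x_pos _).le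
  exact h2.trans (h1.trans P.hD)

lemma Par.A_pos : 0 < (A:ℝ) := by
  have h1 := P.H.big
  have h2 := P.D_pos
  by_contra hc
  have h3 : (A:ℝ) * x ^ 40 ≤ 0 :=
    mul_nonpos_of_nonpos_of_nonneg (by linarith) (pow_pos P.x_pos 40).le
  nlinarith

/-- `A` is much larger than `D` -/
lemma Par.A_ge {a : ℕ} (ha : a ≤ 459) : 100 * x ^ a * D ≤ A := by
  have h1 := P.H.big
  have h2 := P.D_big (a := a + 40) (by omega)
  have h3 := P.D_pos
  have h4 : 100 * x ^ (a + 40) * D ≤ A * x ^ 40 := by nlinarith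
  rw [pow_add] at h4
  have h5 : (100 * x ^ a * D) * x ^ 40 ≤ A * x ^ 40 := by
    have : (100 * x ^ a * D) * x ^ 40 = 100 * (x ^ a * x ^ 40) * D := by ring
    rw [this]; exact h4
  exact le_of_mul_le_mul_right h5 (pow_pos P.x_pos 40)

lemma Par.I_le_K1 : I ≤ K1 := by
  have h1 := P.Iu
  have h2 := P.K1l
  have h3 : x ^ 33 = x ^ 20 * x ^ 13 := by ring
  have h4 : 2 ≤ x ^ 13 := by
    have := P.pw (a := 1) (b := 13) (by norm_num)
    have := P.hx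
    rw [pow_one] at *
    linarith
  have h5 : 2 * x ^ 20 ≤ x ^ 33 := by
    rw [h3]
    nlinarith [pow_pos P.x_pos 20]
  exact_mod_cast h1.trans (h5.trans h2)

lemma Par.K1_le_K2 : K1 + 1 ≤ K2 := by
  have h1 := P.K1u
  have h2 := P.K2l
  have h3 := P.D_big (a := 290) (by norm_num)
  have h4 : x ^ 290 = x ^ 250 * x ^ 40 := by ring
  have h5 : 0 < x ^ 250 := pow_pos P.x_pos _
  have h6 : 50 * x ^ 40 ≤ K2 := by
    have : x ^ 250 * (50 * x ^ 40) ≤ x ^ 250 * K2 := by rw [h4] at h3; nlinarith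
    exact le_of_mul_le_mul_left this h5
  have h7 : x ^ 33 ≤ x ^ 40 := P.pw (by norm_num)
  have h8 := P.one_le_pow 40
  have : ((K1 + 1 : ℕ) : ℝ) ≤ K2 := by push_cast; linarith
  exact_mod_cast this

lemma Par.K2_le_D : K2 ≤ D := by
  have h1 := P.K2u
  have h2 := P.one_le_pow 250
  have h3 : (0:ℝ) ≤ K2 := Nat.cast_nonneg _
  have : (K2:ℝ) ≤ D := by nlinarith
  exact_mod_cast this

lemma Par.I_ge_two : 2 ≤ I := by
  have h1 := P.Il
  have h2 := P.one_le_pow 20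
  have : (2:ℝ) ≤ I := by linarith
  exact_mod_cast this

/-- two-sided tail bound -/
lemma Par.tail {i : ℕ} (h1 : x ^ 20 ≤ i) (h2 : i ≤ K2) :
    (A:ℝ) / i * (1 - 1 / x ^ 3) ≤ ∑ j ∈ Icc i D, (δ j:ℝ) ^ 2 ∧
      ∑ j ∈ Icc i D, (δ j:ℝ) ^ 2 ≤ (A:ℝ) / i * (1 + 1 / x ^ 3) := by
  have hi : (0:ℝ) < i := lt_of_lt_of_le (pow_pos P.x_pos _) h1
  have h3 : (i:ℝ) * x ^ 200 ≤ D := by
    have e1 := P.K2u
    have e2 : (i:ℝ) ≤ K2 := by exact_mod_cast h2
    have e3 : x ^ 200 ≤ x ^ 250 := P.pw (by norm_num)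
    calc (i:ℝ) * x ^ 200 ≤ K2 * x ^ 250 :=
          mul_le_mul e2 e3 (pow_pos P.x_pos _).le (Nat.cast_nonneg _)
      _ ≤ D := e1
  have h4 := abs_le.1 (P.H.tail i h1 h3)
  constructor
  · rw [div_mul_eq_mul_div, div_le_iff₀ hi]
    have : (A:ℝ) * (1 - 1 / x ^ 3) = A - A / x ^ 3 := by ring
    rw [this]; linarith [h4.1]
  · rw [div_mul_eq_mul_div, le_div_iff₀ hi]
    have : (A:ℝ) * (1 + 1 / x ^ 3) = A + A / x ^ 3 := by ring
    rw [this]; linarith [h4.2]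

lemma Par.inv_cube : 1 / x ^ 3 ≤ 1 / 8 := by
  have h1 : (8:ℝ) ≤ x ^ 3 := by
    have := P.pw (a := 1) (b := 3) (by norm_num)
    have := P.hx
    rw [pow_one] at *
    linarith
  exact one_div_le_one_div_of_le (by norm_num) h1

lemma Par.tail_le {i : ℕ} (h1 : x ^ 20 ≤ i) (h2 : i ≤ K2) :
    ∑ j ∈ Icc i D, (δ j:ℝ) ^ 2 ≤ 2 * ((A:ℝ) / i) := by
  have h3 := (P.tail h1 h2).2
  have h4 := P.inv_cube
  have h5 : 0 ≤ (A:ℝ) / i := by positivity
  nlinarith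

lemma Par.tail_ge {i : ℕ} (h1 : x ^ 20 ≤ i) (h2 : i ≤ K2) :
    (A:ℝ) / i / 2 ≤ ∑ j ∈ Icc i D, (δ j:ℝ) ^ 2 := by
  have h3 := (P.tail h1 h2).1
  have h4 := P.inv_cube
  have h5 : 0 ≤ (A:ℝ) / i := by positivity
  nlinarith

lemma Par.I_le_K2 : I ≤ K2 := by
  have := P.I_le_K1
  have := P.K1_le_K2
  omega

lemma Par.xI : x ^ 20 ≤ I := by have := P.Il; linarith

lemma Par.DkA' {k : ℕ} (hk : k ≤ K2) : (D:ℝ) * k * x ^ 200 ≤ A := by
  have hx := P.x_pos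
  have hD := P.D_pos
  have h1 : (k:ℝ) * x ^ 250 ≤ D := by
    have h2 : (k:ℝ) ≤ K2 := by exact_mod_cast hk
    exact (mul_le_mul_of_nonneg_right h2 (pow_pos hx 250).le).trans P.K2u
  have h3 := P.H.big
  have h4 : (D:ℝ) * (k * x ^ 250) ≤ A * x ^ 40 :=
    (mul_le_mul_of_nonneg_left h1 hD.le).trans (by rw [← sq]; exact h3)
  have h5 : (D:ℝ) * k * x ^ 210 * x ^ 40 ≤ A * x ^ 40 := by
    have : (D:ℝ) * k * x ^ 210 * x ^ 40 = D * (k * x ^ 250) := by ring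
    rw [this]; exact h4
  have h6 := le_of_mul_le_mul_right h5 (pow_pos hx 40)
  have h7 : x ^ 200 ≤ x ^ 210 := P.pw (by norm_num)
  exact (mul_le_mul_of_nonneg_left h7 (by positivity)).trans h6

lemma Par.DkA {k : ℕ} (hk : k ≤ K2) : (D:ℝ) * k * x ^ 9 ≤ A := by
  have h7 : x ^ 9 ≤ x ^ 200 := P.pw (by norm_num)
  exact (mul_le_mul_of_nonneg_left h7 (by positivity)).trans (P.DkA' hk)

/-- variance of the start -/
lemma Par.var_a : ∑ j ∈ range D, aw δ I j ^ 2 ≤ 3 * (A * x * I) := by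
  have hI2 := P.I_ge_two
  have hID : I ≤ D := P.I_le_K2.trans P.K2_le_D
  have e0 : ∑ j ∈ range D, aw δ I j ^ 2 = ∑ j ∈ Icc 1 D, (((min j (I - 1) : ℕ) : ℝ) * δ j) ^ 2 :=
    sum_range_succ_index D (fun j => (((min j (I - 1) : ℕ) : ℝ) * δ j) ^ 2)
  rw [e0]
  have hsplit : ∑ j ∈ Icc 1 D, (((min j (I - 1) : ℕ) : ℝ) * δ j) ^ 2 =
      ∑ j ∈ Icc 1 (I - 1), (((min j (I - 1) : ℕ) : ℝ) * δ j) ^ 2 +
      ∑ j ∈ Icc I D, (((min j (I - 1) : ℕ) : ℝ) * δ j) ^ 2 := by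
    rw [← Finset.sum_union]
    · refine Finset.sum_congr ?_ fun _ _ => rfl
      ext j; simp only [Finset.mem_union, Finset.mem_Icc]; omega
    · rw [Finset.disjoint_left]
      intro j h1 h2
      simp only [Finset.mem_Icc] at h1 h2
      omega
  rw [hsplit]
  have hA := P.A_pos
  have hx := P.x_pos
  have h1 : ∑ j ∈ Icc 1 (I - 1), (((min j (I - 1) : ℕ) : ℝ) * δ j) ^ 2 ≤ I * (A * x) := by
    have : ∀ j ∈ Icc 1 (I - 1), (((min j (I - 1) : ℕ) : ℝ) * δ j) ^ 2 ≤ A * x := by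
      intro j hj
      rw [Finset.mem_Icc] at hj
      rw [min_eq_left hj.2]
      refine P.H.pt j (Finset.mem_Icc.2 ⟨hj.1, by omega⟩) ?_
      have e1 : (j:ℝ) ≤ I := by
        have : j ≤ I := by omega
        exact_mod_cast this
      have e2 := P.Iu
      have e3 := P.D_big (a := 100) (by norm_num)
      calc (j:ℝ) * x ^ 80 ≤ (2 * x ^ 20) * x ^ 80 :=
            mul_le_mul_of_nonneg_right (e1.trans e2) (pow_pos hx _).le
        _ = 2 * x ^ 100 := by ring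
        _ ≤ 100 * x ^ 100 := by have := pow_pos hx 100; linarith
        _ ≤ D := e3
    refine (Finset.sum_le_sum this).trans ?_
    rw [Finset.sum_const, nsmul_eq_mul, Nat.card_Icc]
    apply mul_le_mul_of_nonneg_right _ (by positivity)
    have : I - 1 + 1 - 1 ≤ I := by omega
    exact_mod_cast this
  have h2 : ∑ j ∈ Icc I D, (((min j (I - 1) : ℕ) : ℝ) * δ j) ^ 2 ≤ 2 * (A * I) := by
    have : ∀ j ∈ Icc I D, (((min j (I - 1) : ℕ) : ℝ) * δ j) ^ 2 ≤ (I:ℝ) ^ 2 * (δ j:ℝ) ^ 2 := by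
      intro j _
      rw [mul_pow]
      apply mul_le_mul_of_nonneg_right _ (sq_nonneg _)
      apply pow_le_pow_left₀ (Nat.cast_nonneg _)
      have : min j (I - 1) ≤ I := by omega
      exact_mod_cast this
    refine (Finset.sum_le_sum this).trans ?_
    rw [← Finset.mul_sum]
    have h3 := P.tail_le P.xI P.I_le_K2
    have hI0 : (0:ℝ) < I := by
      have : 0 < I := by omega
      exact_mod_cast this
    calc (I:ℝ) ^ 2 * ∑ j ∈ Icc I D, (δ j:ℝ) ^ 2 ≤ (I:ℝ) ^ 2 * (2 * ((A:ℝ) / I)) :=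
          mul_le_mul_of_nonneg_left h3 (by positivity)
      _ = 2 * (A * I) := by field_simp
  have h4 : A * (I:ℝ) ≤ A * x * I := by
    have : (A:ℝ) * I * 1 ≤ A * I * x := mul_le_mul_of_nonneg_left P.one_le_x (by positivity)
    linarith
  linarith

omit P in
/-- variance of the zero steps -/
lemma var_b (hI : 1 ≤ I) (k : ℕ) : ∑ j ∈ range D, bw δ I k j ^ 2 ≤ D * (k:ℝ) ^ 2 := by
  have : ∀ j ∈ range D, bw δ I k j ^ 2 ≤ (k:ℝ) ^ 2 := by
    intro j _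
    unfold bw
    rw [mul_pow]
    have h1 : (((min k (j + 1) + 1 - I : ℕ) : ℝ)) ^ 2 ≤ (k:ℝ) ^ 2 := by
      apply pow_le_pow_left₀ (Nat.cast_nonneg _)
      have : min k (j + 1) + 1 - I ≤ k := by omega
      exact_mod_cast this
    have h2 : ((δ (j + 1) : ℝ) - (max (δ (j + 1)) 1 : ℕ)) ^ 2 ≤ 1 := by
      rcases Nat.eq_zero_or_pos (δ (j + 1)) with h | h
      · rw [h]; norm_num
      · rw [max_eq_left (by omega : 1 ≤ δ (j + 1))]; norm_num
    calc _ ≤ (k:ℝ) ^ 2 * 1 := mul_le_mul h1 h2 (sq_nonneg _) (sq_nonneg _)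
      _ = (k:ℝ) ^ 2 := mul_one _
  refine (Finset.sum_le_sum this).trans ?_
  rw [Finset.sum_const, nsmul_eq_mul, Finset.card_range]

/-- deviation of the start -/
lemma Par.dev_a : Pr D (fun ω => Real.sqrt (A * K1) / x ≤ |Ws D (aw δ I) ω|) ≤
    2 * Real.exp (-x) := by
  have hA := P.A_pos
  have hx := P.x_pos
  have hI0 : (0:ℝ) < I := by have := P.Il; have := pow_pos hx 20; linarith
  refine (hoeffding_abs D _ _ _ P.var_a (by positivity) (by positivity)).trans ?_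
  apply mul_le_mul_of_nonneg_left _ (by norm_num)
  apply Real.exp_le_exp.2
  apply neg_le_neg
  rw [div_pow, Real.sq_sqrt (by positivity)]
  have e : (A:ℝ) * K1 / x ^ 2 / (2 * (3 * (A * x * I))) = (K1:ℝ) / (6 * x ^ 3 * I) := by
    field_simp; ring
  rw [e, le_div_iff₀ (by positivity)]
  have h1 := P.K1l
  have h2 := P.Iu
  have h3 : x * (6 * x ^ 3 * I) ≤ 12 * x ^ 24 := by
    have : x * (6 * x ^ 3 * I) = 6 * x ^ 4 * I := by ring
    rw [this]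
    calc 6 * x ^ 4 * (I:ℝ) ≤ 6 * x ^ 4 * (2 * x ^ 20) := mul_le_mul_of_nonneg_left h2 (by positivity)
      _ = 12 * x ^ 24 := by ring
  have h4 : 12 * x ^ 24 ≤ x ^ 33 := by
    have e2 : x ^ 33 = x ^ 24 * x ^ 9 := by ring
    rw [e2]
    have := P.pw (a := 1) (b := 9) (by norm_num)
    rw [pow_one] at this
    have := P.hx
    nlinarith [pow_pos hx 24]
  linarith

/-- deviation of the zero steps -/
lemma Par.dev_b {k : ℕ} (hk : k ∈ Icc K1 K2) :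
    Pr D (fun ω => Real.sqrt (A * k) / x ≤ |Ws D (bw δ I k) ω|) ≤ 2 * Real.exp (-x) := by
  have hA := P.A_pos
  have hx := P.x_pos
  have hD := P.D_pos
  have hI0 := P.I_ge_two
  rw [Finset.mem_Icc] at hk
  have hk0 : (0:ℝ) < k := by
    have h1 : 0 < k := by have := P.I_le_K1; omega
    exact_mod_cast h1
  refine (hoeffding_abs D _ _ _ (var_b (by omega) k) (by positivity) (by positivity)).trans ?_
  apply mul_le_mul_of_nonneg_left _ (by norm_num)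
  apply Real.exp_le_exp.2
  apply neg_le_neg
  rw [div_pow, Real.sq_sqrt (by positivity)]
  have e : (A:ℝ) * k / x ^ 2 / (2 * (D * (k:ℝ) ^ 2)) = (A:ℝ) / (2 * x ^ 2 * (D * k)) := by
    field_simp
  rw [e, le_div_iff₀ (by positivity)]
  -- x · 2 x² D k ≤ A
  have h5 : x * (2 * x ^ 2 * (D * k)) = 2 * x ^ 3 * (D * k) := by ring
  rw [h5]
  have h6 := P.DkA hk.2
  have h7 : 2 * x ^ 3 ≤ x ^ 9 := by
    have e2 : x ^ 9 = x ^ 3 * x ^ 6 := by ring
    rw [e2]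
    have := P.pw (a := 1) (b := 6) (by norm_num)
    rw [pow_one] at this
    have := P.hx
    nlinarith [pow_pos hx 3]
  have h8 : 0 < (D:ℝ) * k := by positivity
  nlinarith

/-- the good event -/
def Bad (D A : ℕ) (δ : ℕ → ℕ) (x : ℝ) (I K1 K2 : ℕ) (ω : Fin D → Bool) : Prop :=
  (Real.sqrt (A * K1) / x ≤ |Ws D (aw δ I) ω|) ∨
    ∃ k ∈ Icc K1 K2, Real.sqrt (A * k) / x ≤ |Ws D (bw δ I k) ω|

lemma Par.bad_le : Pr D (Bad D A δ x I K1 K2) ≤ 4 * D * Real.exp (-x) := by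
  unfold Bad
  refine (Pr_or_le D _ _).trans ?_
  have h1 := P.dev_a
  have h2 : Pr D (fun ω => ∃ k ∈ Icc K1 K2, Real.sqrt (A * k) / x ≤ |Ws D (bw δ I k) ω|) ≤
      D * (2 * Real.exp (-x)) := by
    refine (Pr_exists_le D (Icc K1 K2) _).trans ((Finset.sum_le_sum fun k hk => P.dev_b hk).trans ?_)
    rw [Finset.sum_const, nsmul_eq_mul, Nat.card_Icc]
    apply mul_le_mul_of_nonneg_right _ (by positivity)
    have := P.K2_le_D
    have := P.K1_le_K2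
    have := P.I_le_K1
    have := P.I_ge_two
    have : K2 + 1 - K1 ≤ D := by omega
    exact_mod_cast this
  have h3 : 1 ≤ (D:ℝ) := by
    have := P.D_big (a := 0) (by norm_num)
    rw [pow_zero] at this; linarith
  have h4 := Real.exp_pos (-x)
  nlinarith

end

end Pool.GP.Delta
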