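import Pool.Agent.Lib.GP.Delta2

set_option autoImplicit false

/-!
The `δ`-model: the middle range.
-/

namespace Pool.GP.Delta

open Finset Pool.GP

variable {D A : ℕ} {δ : ℕ → ℕ} {x : ℝ} {I K1 K2 : ℕ}

lemma sum_li {D i : ℕ} (hi : i ≤ D) (f : ℕ → ℝ) :
    ∑ l ∈ range (li D i), f (D - l) = ∑ j ∈ Icc i D, f j := by
  unfold li
  refine Finset.sum_nbij' (fun l => D - l) (fun j => D - j) ?_ ?_ ?_ ?_ ?_
  · intro l hl
    simp only [Finset.mem_range, Finset.mem_Icc] at *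
    omega
  · intro j hj
    simp only [Finset.mem_range, Finset.mem_Icc] at *
    omega
  · intro l hl
    simp only [Finset.mem_range] at *
    omega
  · intro j hj
    simp only [Finset.mem_Icc] at *
    omega
  · intro l _; rfl

section
variable (P : Par D A δ x I K1 K2)
include P

lemma Par.dmax {i j : ℕ} (hi : 1 ≤ i) (hiK : i ≤ K2) (hij : i ≤ j) (hj : j ≤ D) :
    ((max (δ j) 1 : ℕ) : ℝ) ^ 2 ≤ A * x / (i:ℝ) ^ 2 := by
  have hx := P.x_pos
  have hA := P.A_pos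
  have hD := P.D_pos
  have hi0 : (0:ℝ) < i := by exact_mod_cast hi
  have hijr : (i:ℝ) ≤ j := by exact_mod_cast hij
  have hj0 : (0:ℝ) < j := lt_of_lt_of_le hi0 hijr
  -- `i² x^500 ≤ D²`
  have hiD : (i:ℝ) * x ^ 250 ≤ D := by
    have h2 : (i:ℝ) ≤ K2 := by exact_mod_cast hiK
    exact (mul_le_mul_of_nonneg_right h2 (pow_pos hx 250).le).trans P.K2u
  have hiD2 : (i:ℝ) ^ 2 * x ^ 500 ≤ (D:ℝ) ^ 2 := by
    have e : (i:ℝ) ^ 2 * x ^ 500 = (i * x ^ 250) ^ 2 := by ring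
    rw [e]
    exact pow_le_pow_left₀ (by positivity) hiD 2
  rw [le_div_iff₀ (by positivity)]
  rcases Nat.eq_zero_or_pos (δ j) with h | h
  · rw [h]
    simp only [zero_le, sup_of_le_right, Nat.cast_one, one_pow, one_mul]
    have h3 := hiD2.trans P.H.big
    have h4 : (i:ℝ) ^ 2 * x ^ 460 * x ^ 40 ≤ A * x ^ 40 := by
      have : (i:ℝ) ^ 2 * x ^ 460 * x ^ 40 = (i:ℝ) ^ 2 * x ^ 500 := by ring
      rw [this]; exact h3
    have h5 := le_of_mul_le_mul_right h4 (pow_pos hx 40)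
    have h6 := P.one_le_pow 460
    have h7 := P.one_le_x
    have h8 : (i:ℝ) ^ 2 ≤ A := by nlinarith [sq_nonneg (i:ℝ)]
    nlinarith
  · rw [max_eq_left (by omega : 1 ≤ δ j)]
    rcases le_or_gt ((j:ℝ) * x ^ 80) D with hc | hc
    · have h1 := P.H.pt j (Finset.mem_Icc.2 ⟨by omega, hj⟩) hc
      have h2 : (δ j : ℝ) ^ 2 * (i:ℝ) ^ 2 ≤ ((j:ℝ) * δ j) ^ 2 := by
        rw [mul_pow, mul_comm]
        apply mul_le_mul_of_nonneg_right _ (sq_nonneg _)
        exact pow_le_pow_left₀ hi0.le hijr 2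
      linarith
    · have h1 := P.H.pt2 j (Finset.mem_Icc.2 ⟨by omega, hj⟩)
      -- `D² ≤ j² x^160`
      have h2 : (D:ℝ) ^ 2 ≤ (j:ℝ) ^ 2 * x ^ 160 := by
        have e : (j:ℝ) ^ 2 * x ^ 160 = (j * x ^ 80) ^ 2 := by ring
        rw [e]
        exact pow_le_pow_left₀ hD.le hc.le 2
      have h3 : (i:ℝ) ^ 2 * x ^ 340 * x ^ 160 ≤ (j:ℝ) ^ 2 * x ^ 160 := by
        have : (i:ℝ) ^ 2 * x ^ 340 * x ^ 160 = (i:ℝ) ^ 2 * x ^ 500 := by ring
        rw [this]; exact hiD2.trans h2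
      have h4 := le_of_mul_le_mul_right h3 (pow_pos hx 160)
      rw [mul_pow] at h1
      have h5 : (δ j:ℝ) ^ 2 * (i:ℝ) ^ 2 * x ^ 340 ≤ A * x ^ 80 := by
        have : (δ j:ℝ) ^ 2 * ((i:ℝ) ^ 2 * x ^ 340) ≤ (δ j:ℝ) ^ 2 * (j:ℝ) ^ 2 :=
          mul_le_mul_of_nonneg_left h4 (sq_nonneg _)
        nlinarith
      have h6 : (δ j:ℝ) ^ 2 * (i:ℝ) ^ 2 * x ^ 260 * x ^ 80 ≤ A * x ^ 80 := by
        have : (δ j:ℝ) ^ 2 * (i:ℝ) ^ 2 * x ^ 260 * x ^ 80 = (δ j:ℝ) ^ 2 * (i:ℝ) ^ 2 * x ^ 340 := by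
          ring
        rw [this]; exact h5
      have h7 := le_of_mul_le_mul_right h6 (pow_pos hx 80)
      have h8 := P.one_le_pow 260
      have h9 := P.one_le_x
      have h10 : (δ j:ℝ) ^ 2 * (i:ℝ) ^ 2 ≤ A := by
        nlinarith [mul_nonneg (sq_nonneg (δ j:ℝ)) (sq_nonneg (i:ℝ))]
      nlinarith

lemma Par.sum_sq {i : ℕ} (h1 : x ^ 20 ≤ i) (h2 : i ≤ K2) :
    |∑ j ∈ range (li D i), (dd D δ j : ℝ) ^ 2 - (A:ℝ) / i| ≤ (A:ℝ) / i * (1 / x ^ 3 + 1 / x ^ 9) := by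
  have hx := P.x_pos
  have hi0 : (0:ℝ) < i := lt_of_lt_of_le (pow_pos hx _) h1
  have hiD : i ≤ D := h2.trans P.K2_le_D
  have e : ∑ j ∈ range (li D i), (dd D δ j : ℝ) ^ 2 = ∑ j ∈ Icc i D, ((max (δ j) 1 : ℕ) : ℝ) ^ 2 :=
    sum_li hiD (fun j => ((max (δ j) 1 : ℕ) : ℝ) ^ 2)
  rw [e]
  have h3 := P.tail h1 h2
  have h4 : ∑ j ∈ Icc i D, (δ j : ℝ) ^ 2 ≤ ∑ j ∈ Icc i D, ((max (δ j) 1 : ℕ) : ℝ) ^ 2 := by
    refine Finset.sum_le_sum fun j _ => pow_le_pow_left₀ (Nat.cast_nonneg _) ?_ 2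
    exact_mod_cast le_max_left _ _
  have h5 : ∑ j ∈ Icc i D, ((max (δ j) 1 : ℕ) : ℝ) ^ 2 ≤ ∑ j ∈ Icc i D, (δ j : ℝ) ^ 2 + D := by
    have h6 : ∀ j ∈ Icc i D, ((max (δ j) 1 : ℕ) : ℝ) ^ 2 ≤ (δ j : ℝ) ^ 2 + 1 := by
      intro j _
      rcases Nat.eq_zero_or_pos (δ j) with h | h
      · rw [h]; norm_num
      · rw [max_eq_left (by omega : 1 ≤ δ j)]; linarith
    refine (Finset.sum_le_sum h6).trans ?_
    rw [Finset.sum_add_distrib, Finset.sum_const, nsmul_eq_mul, mul_one, Nat.card_Icc]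
    have : D + 1 - i ≤ D := by
      have : 0 < i := by exact_mod_cast hi0
      omega
    have : ((D + 1 - i : ℕ) : ℝ) ≤ D := by exact_mod_cast this
    linarith
  have h7 : (D:ℝ) ≤ (A:ℝ) / i * (1 / x ^ 9) := by
    rw [mul_one_div, div_div, le_div_iff₀ (by positivity)]
    have := P.DkA h2
    linarith
  rw [abs_le]
  have h8 : (0:ℝ) ≤ (A:ℝ) / i * (1 / x ^ 9) := by positivity
  constructor
  · have := h3.1
    nlinarith
  · have := h3.2
    nlinarith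

lemma Par.emb : EmbHyp (dd D δ) (li D) A I K2 (x - 1) := by
  have hx := P.x_pos
  have hx100 := P.hx
  have hA := P.A_pos
  refine ⟨fun l => le_max_right _ _, by linarith, P.I_ge_two, ?_, ?_, ?_, ?_⟩
  · intro i hi
    rw [Finset.mem_Icc] at hi
    unfold li; omega
  · intro i hi
    rw [Finset.mem_Icc] at hi
    have h1 : x ^ 20 ≤ i := P.xI.trans (by exact_mod_cast hi.1)
    refine (P.sum_sq h1 hi.2).trans ?_
    rw [div_eq_mul_one_div ((A:ℝ) / i)]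
    apply mul_le_mul_of_nonneg_left _ (by positivity)
    have hx1 : 0 < x - 1 := by linarith
    rw [div_add_div _ _ (by positivity) (by positivity), div_le_div_iff₀ (by positivity)
      (by positivity)]
    have e1 : (x - 1) ^ 3 ≤ x ^ 3 - x ^ 2 := by nlinarith
    have e2 : (1 * x ^ 9 + x ^ 3 * 1) * (x - 1) ^ 3 ≤ (1 * x ^ 9 + x ^ 3 * 1) * (x ^ 3 - x ^ 2) :=
      mul_le_mul_of_nonneg_left e1 (by positivity)
    have e3 : (1 * x ^ 9 + x ^ 3 * 1) * (x ^ 3 - x ^ 2) = 1 * (x ^ 3 * x ^ 9) - (x ^ 11 - x ^ 6 + x ^ 5) := by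
      ring
    have e4 : x ^ 6 ≤ x ^ 11 := P.pw (by norm_num)
    have e5 : 0 < x ^ 5 := by positivity
    linarith
  · intro i hi
    rw [Finset.mem_Icc] at hi
    have h1 : x ^ 20 ≤ i := P.xI.trans (by exact_mod_cast hi.1)
    have hi0 : (0:ℝ) < i := lt_of_lt_of_le (pow_pos hx _) h1
    have hi1 : 1 ≤ i := by exact_mod_cast (by exact_mod_cast hi0 : 0 < i)
    have h2 := P.sum_sq h1 hi.2
    have h3 : ∑ j ∈ range (li D i), (dd D δ j : ℝ) ^ 2 ≤ 3 * ((A:ℝ) / i) := by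
      have e1 := (abs_le.1 h2).2
      have e2 := P.inv_cube
      have e3 : 1 / x ^ 9 ≤ 1 := by
        rw [div_le_one (by positivity)]; exact P.one_le_pow 9
      have e4 : 0 ≤ (A:ℝ) / i := by positivity
      nlinarith
    have h4 : ∑ j ∈ range (li D i), (dd D δ j : ℝ) ^ 4 ≤
        ∑ j ∈ range (li D i), (A * x / (i:ℝ) ^ 2) * (dd D δ j : ℝ) ^ 2 := by
      refine Finset.sum_le_sum fun l hl => ?_
      rw [Finset.mem_range] at hl
      have e1 := P.dmax (i := i) (j := D - l) hi1 hi.2 (by unfold li at hl; omega) (Nat.sub_le _ _)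
      have e2 : (dd D δ l : ℝ) ^ 4 = (dd D δ l : ℝ) ^ 2 * (dd D δ l : ℝ) ^ 2 := by ring
      rw [e2]
      exact mul_le_mul_of_nonneg_right e1 (sq_nonneg _)
    rw [← Finset.mul_sum] at h4
    have h5 : (A * x / (i:ℝ) ^ 2) * ∑ j ∈ range (li D i), (dd D δ j : ℝ) ^ 2 ≤
        (A * x / (i:ℝ) ^ 2) * (3 * ((A:ℝ) / i)) :=
      mul_le_mul_of_nonneg_left h3 (by positivity)
    have h6 : (A * x / (i:ℝ) ^ 2) * (3 * ((A:ℝ) / i)) ≤ ((A:ℝ) / i) ^ 2 / (x - 1) ^ 12 := by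
      have hx1 : 0 < x - 1 := by linarith
      have e1 : (A * x / (i:ℝ) ^ 2) * (3 * ((A:ℝ) / i)) = ((A:ℝ) / i) ^ 2 * (3 * x / i) := by
        field_simp
      rw [e1, div_eq_mul_one_div (((A:ℝ) / i) ^ 2)]
      apply mul_le_mul_of_nonneg_left _ (by positivity)
      rw [div_le_div_iff₀ hi0 (by positivity), one_mul]
      have e2 : (x - 1) ^ 12 ≤ x ^ 12 := pow_le_pow_left₀ hx1.le (by linarith) 12
      have e3 : 3 * x * (x - 1) ^ 12 ≤ 3 * x * x ^ 12 := mul_le_mul_of_nonneg_left e2 (by positivity)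
      have e4 : 3 * x * x ^ 12 ≤ x ^ 20 := by
        have e5 : x ^ 20 = x ^ 13 * x ^ 7 := by ring
        have e6 : 3 * x * x ^ 12 = x ^ 13 * 3 := by ring
        rw [e5, e6]
        apply mul_le_mul_of_nonneg_left _ (by positivity)
        have := P.pw (a := 1) (b := 7) (by norm_num)
        rw [pow_one] at this
        linarith
      linarith
    linarith
  · have := P.A_ge (a := 0) (by norm_num)
    have h1 : (1:ℝ) ≤ D := by
      have := P.D_big (a := 0) (by norm_num)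
      rw [pow_zero] at this; linarith
    rw [pow_zero] at this
    have h2 : (4:ℝ) ≤ A := by linarith
    exact_mod_cast h2

lemma Par.K1_le {k : ℕ} (hk : k ∈ Icc K1 K2) : Real.sqrt ((A:ℝ) * K1) / x ≤ Real.sqrt ((A:ℝ) * k) / x := by
  rw [Finset.mem_Icc] at hk
  apply div_le_div_of_nonneg_right _ P.x_pos.le
  apply Real.sqrt_le_sqrt
  exact mul_le_mul_of_nonneg_left (by exact_mod_cast hk.1) P.A_pos.le

lemma Par.exp_bounds : Real.exp (-((x - 1) / 40)) ≤ 2 * Real.exp (-(x / 40)) ∧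
    Real.exp (-x) ≤ Real.exp (-(x / 40)) ∧ Real.exp (-(x / 2)) ≤ Real.exp (-(x / 40)) := by
  have hx := P.x_pos
  refine ⟨?_, Real.exp_le_exp.2 (by linarith), Real.exp_le_exp.2 (by linarith)⟩
  have e : -((x - 1) / 40) = 1 / 40 + -(x / 40) := by ring
  rw [e, Real.exp_add]
  apply mul_le_mul_of_nonneg_right _ (Real.exp_pos _).le
  have h1 : Real.exp (1 / 40) ≤ Real.exp 0.5 := Real.exp_le_exp.2 (by norm_num)
  have h2 : Real.exp 0.5 ^ 2 ≤ 4 := by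
    rw [← Real.exp_nat_mul]
    have : ((2:ℕ):ℝ) * 0.5 = 1 := by norm_num
    rw [this]
    have := Real.exp_one_lt_d9
    linarith
  nlinarith [Real.exp_pos 0.5]

/-- number of small constants -/
lemma Par.gi : 4 * x ^ 3 * ((I - 1 : ℕ) : ℝ) ≤ K1 := by
  have h1 : ((I - 1 : ℕ) : ℝ) ≤ I := by exact_mod_cast Nat.sub_le _ _
  have h2 := P.Iu
  have h3 := P.K1l
  have hx := P.x_pos
  have h4 : 4 * x ^ 3 * ((I - 1 : ℕ) : ℝ) ≤ 4 * x ^ 3 * (2 * x ^ 20) :=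
    mul_le_mul_of_nonneg_left (h1.trans h2) (by positivity)
  have h5 : 4 * x ^ 3 * (2 * x ^ 20) = 8 * x ^ 23 := by ring
  have h6 : 8 * x ^ 23 ≤ x ^ 33 := by
    have e2 : x ^ 33 = x ^ 23 * x ^ 10 := by ring
    rw [e2]
    have := P.pw (a := 1) (b := 10) (by norm_num)
    rw [pow_one] at this
    have := P.hx
    nlinarith [pow_pos hx 23]
  linarith

lemma Par.upper : PD D δ ≤ G A K1 K2 (-(7 / x)) + 40 * D * Real.exp (-(x / 40)) := by
  have hx := P.x_pos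
  have hx100 := P.hx
  have hX : 0 < x - 1 := by linarith
  have hI2 := P.I_ge_two
  have hA := P.A_pos
  have hA1 : 1 ≤ A := by
    have : 0 < A := by exact_mod_cast hA
    omega
  -- step 1
  have h1 : PD D δ ≤ Pr D (fun ω => ∀ k ∈ Icc K1 K2, -(2 / x) * Real.sqrt ((A:ℝ) * k) ≤
      Ws D (cw δ I k) ω) + Pr D (Bad D A δ x I K1 K2) := by
    unfold PD
    refine Pr_le_add D fun ω hω => ?_
    by_contra hc
    push Not at hc
    obtain ⟨⟨k, hk, hk2⟩, hb⟩ := hc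
    unfold Bad at hb
    push Not at hb
    obtain ⟨hb1, hb2⟩ := hb
    have hk' := Finset.mem_Icc.1 hk
    have hIk : I ≤ k := P.I_le_K1.trans hk'.1
    have e1 := hω k (Finset.mem_Icc.2 ⟨by omega, hk'.2.trans P.K2_le_D⟩)
    rw [Sd_eq δ (by omega) hIk] at e1
    have e2 := (abs_lt.1 hb1).2
    have e3 := (abs_lt.1 (hb2 k hk)).2
    have e4 := P.K1_le hk
    have e5 : -(2 / x) * Real.sqrt ((A:ℝ) * k) = -(Real.sqrt ((A:ℝ) * k) / x) -
        Real.sqrt ((A:ℝ) * k) / x := by ring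
    have e6 : (0:ℝ) ≤ k := Nat.cast_nonneg k
    linarith
  -- step 2
  have h2 := Pr_CI (K1 := K1) δ (by omega : 1 ≤ I) P.K2_le_D
    (fun k => -(2 / x) * Real.sqrt ((A:ℝ) * k))
  have h3 := emb_coarse_le (dd D δ) (li D) A I K1 K2 (x - 1) P.emb P.I_le_K2
    (fun k => (-(2 / x) - 2 / (x - 1)) * Real.sqrt ((A:ℝ) * k))
  have e7 : ∀ k : ℕ, (-(2 / x) - 2 / (x - 1)) * Real.sqrt ((A:ℝ) * k) +
      2 / (x - 1) * Real.sqrt ((A:ℝ) * k) = -(2 / x) * Real.sqrt ((A:ℝ) * k) := fun k => by ring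
  simp only [e7] at h3
  -- step 3
  have h4 : Pr A (fun ω => ∀ k ∈ Icc K1 K2, (-(2 / x) - 2 / (x - 1)) * Real.sqrt ((A:ℝ) * k) ≤
      ZI A I ω k) = GI A ((I - 1) + 1) K1 K2 (-(2 / x) - 2 / (x - 1)) := by
    have : (I - 1) + 1 = I := by omega
    rw [this]; rfl
  have h5 := GI_le_G A (I - 1) K1 K2 x (-(2 / x) - 2 / (x - 1)) hx (by omega) P.gi
    (by have := P.I_le_K1; omega) hA1
  have h6 : G A K1 K2 (-(2 / x) - 2 / (x - 1) - 1 / x) ≤ G A K1 K2 (-(7 / x)) := by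
    apply G_anti_h
    have : 2 / (x - 1) ≤ 4 / x := by
      rw [div_le_div_iff₀ hX hx]; linarith
    have e8 : -(7 / x) = -(2 / x) - 4 / x - 1 / x := by ring
    rw [e8]; linarith
  have h7 := P.bad_le
  obtain ⟨x1, x2, x3⟩ := P.exp_bounds
  have hD1 : (1:ℝ) ≤ D := by
    have := P.D_big (a := 0) (by norm_num)
    rw [pow_zero] at this; linarith
  have hK2D : (K2:ℝ) ≤ D := by exact_mod_cast P.K2_le_D
  have hE := Real.exp_pos (-(x / 40))
  have h8 : 8 * (K2:ℝ) * Real.exp (-((x - 1) / 40)) ≤ 16 * D * Real.exp (-(x / 40)) := by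
    have : 8 * (K2:ℝ) * Real.exp (-((x - 1) / 40)) ≤ 8 * D * (2 * Real.exp (-(x / 40))) :=
      mul_le_mul (by linarith) x1 (Real.exp_pos _).le (by positivity)
    linarith
  have h9 : 4 * (D:ℝ) * Real.exp (-x) ≤ 4 * D * Real.exp (-(x / 40)) :=
    mul_le_mul_of_nonneg_left x2 (by positivity)
  have h10 : 2 * Real.exp (-(x / 2)) ≤ 2 * D * Real.exp (-(x / 40)) := by nlinarith
  rw [h2] at h1
  rw [h4] at h3
  have h11 : 0 ≤ (D:ℝ) * Real.exp (-(x / 40)) := by positivity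
  linarith

/-- the middle range, lower bound -/
lemma Par.middle : G A K1 K2 (8 / x) - 40 * D * Real.exp (-(x / 40)) ≤
    Pr D (fun ω => ∀ k ∈ Icc K1 K2, (k:ℝ) ≤ Sd D δ ω k) := by
  have hx := P.x_pos
  have hx100 := P.hx
  have hX : 0 < x - 1 := by linarith
  have hI2 := P.I_ge_two
  have hA := P.A_pos
  have hA1 : 1 ≤ A := by
    have : 0 < A := by exact_mod_cast hA
    omega
  -- step 1
  have h1 : Pr D (fun ω => ∀ k ∈ Icc K1 K2, 3 / x * Real.sqrt ((A:ℝ) * k) ≤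
      Ws D (cw δ I k) ω) ≤ Pr D (fun ω => ∀ k ∈ Icc K1 K2, (k:ℝ) ≤ Sd D δ ω k) +
        Pr D (Bad D A δ x I K1 K2) := by
    refine Pr_le_add D fun ω hω => ?_
    by_contra hc
    push Not at hc
    obtain ⟨⟨k, hk, hk2⟩, hb⟩ := hc
    unfold Bad at hb
    push Not at hb
    obtain ⟨hb1, hb2⟩ := hb
    have hk' := Finset.mem_Icc.1 hk
    have hIk : I ≤ k := P.I_le_K1.trans hk'.1
    have e1 := hω k hk
    rw [Sd_eq δ (by omega) hIk] at hk2
    have e2 := (abs_lt.1 hb1).1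
    have e3 := (abs_lt.1 (hb2 k hk)).1
    have e4 := P.K1_le hk
    have e5 : 3 / x * Real.sqrt ((A:ℝ) * k) = Real.sqrt ((A:ℝ) * k) / x +
        Real.sqrt ((A:ℝ) * k) / x + Real.sqrt ((A:ℝ) * k) / x := by ring
    have e6 : (k:ℝ) ≤ Real.sqrt ((A:ℝ) * k) / x := by
      rw [le_div_iff₀ hx]
      apply Real.le_sqrt_of_sq_le
      have e7 := P.DkA hk'.2
      have e8 : (1:ℝ) ≤ D := by
        have := P.D_big (a := 0) (by norm_num)
        rw [pow_zero] at this; linarith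
      have e9 : (k:ℝ) ≤ K2 := by exact_mod_cast hk'.2
      have e10 : x ^ 2 ≤ x ^ 9 := P.pw (by norm_num)
      have e11 : (0:ℝ) ≤ k := Nat.cast_nonneg k
      have e12 : (k:ℝ) * x ^ 2 ≤ A := by
        calc (k:ℝ) * x ^ 2 ≤ k * x ^ 9 := mul_le_mul_of_nonneg_left e10 e11
          _ ≤ D * k * x ^ 9 := by
              have : 0 ≤ (k:ℝ) * x ^ 9 := by positivity
              nlinarith
          _ ≤ A := e7
      have e13 : ((k:ℝ) * x) ^ 2 = ((k:ℝ) * x ^ 2) * k := by ring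
      rw [e13]
      exact mul_le_mul_of_nonneg_right e12 e11
    linarith
  -- step 2
  have h2 := Pr_CI (K1 := K1) δ (by omega : 1 ≤ I) P.K2_le_D
    (fun k => 3 / x * Real.sqrt ((A:ℝ) * k))
  have h3 := emb_fine_le (dd D δ) (li D) A I K1 K2 (x - 1) P.emb P.I_le_K2
    (fun k => 3 / x * Real.sqrt ((A:ℝ) * k))
  have e7 : ∀ k : ℕ, 3 / x * Real.sqrt ((A:ℝ) * k) +
      2 / (x - 1) * Real.sqrt ((A:ℝ) * k) = (3 / x + 2 / (x - 1)) * Real.sqrt ((A:ℝ) * k) :=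
    fun k => by ring
  simp only [e7] at h3
  -- step 3
  have h4 : Pr A (fun ω => ∀ k ∈ Icc K1 K2, (3 / x + 2 / (x - 1)) * Real.sqrt ((A:ℝ) * k) ≤
      ZI A I ω k) = GI A ((I - 1) + 1) K1 K2 (3 / x + 2 / (x - 1)) := by
    have : (I - 1) + 1 = I := by omega
    rw [this]; rfl
  have h5 := G_le_GI A (I - 1) K1 K2 x (4 / x + 2 / (x - 1)) hx (by omega) P.gi
    (by have := P.I_le_K1; omega) hA1
  have e8 : 4 / x + 2 / (x - 1) - 1 / x = 3 / x + 2 / (x - 1) := by ring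
  rw [e8] at h5
  have h6 : G A K1 K2 (8 / x) ≤ G A K1 K2 (4 / x + 2 / (x - 1)) := by
    apply G_anti_h
    have : 2 / (x - 1) ≤ 4 / x := by
      rw [div_le_div_iff₀ hX hx]; linarith
    have e8 : 8 / x = 4 / x + 4 / x := by ring
    rw [e8]; linarith
  have h7 := P.bad_le
  obtain ⟨x1, x2, x3⟩ := P.exp_bounds
  have hD1 : (1:ℝ) ≤ D := by
    have := P.D_big (a := 0) (by norm_num)
    rw [pow_zero] at this; linarith
  have hK2D : (K2:ℝ) ≤ D := by exact_mod_cast P.K2_le_D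
  have hE := Real.exp_pos (-(x / 40))
  have h8 : 4 * (K2:ℝ) * Real.exp (-((x - 1) / 40)) ≤ 8 * D * Real.exp (-(x / 40)) := by
    have : 4 * (K2:ℝ) * Real.exp (-((x - 1) / 40)) ≤ 4 * D * (2 * Real.exp (-(x / 40))) :=
      mul_le_mul (by linarith) x1 (Real.exp_pos _).le (by positivity)
    linarith
  have h9 : 4 * (D:ℝ) * Real.exp (-x) ≤ 4 * D * Real.exp (-(x / 40)) :=
    mul_le_mul_of_nonneg_left x2 (by positivity)
  have h10 : 2 * Real.exp (-(x / 2)) ≤ 2 * D * Real.exp (-(x / 40)) := by nlinarith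
  rw [h2] at h1
  rw [h4] at h3
  have h11 : 0 ≤ (D:ℝ) * Real.exp (-(x / 40)) := by positivity
  linarith

end

end Pool.GP.Delta
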