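import Pool.Agent.Lib.GP.Delta3

set_option autoImplicit false

/-!
The `δ`-model: the small range and the large range.
-/

namespace Pool.GP.Delta

open Finset Pool.GP

variable {D A : ℕ} {δ : ℕ → ℕ} {x : ℝ} {I K1 K2 : ℕ}

lemma sum_inv_sq_le (n : ℕ) : ∑ j ∈ Icc 1 n, 1 / (j:ℝ) ^ 2 ≤ 2 := by
  have e3 : ∀ n : ℕ, ∑ j ∈ Icc 1 (n + 1), 1 / (j:ℝ) ^ 2 ≤ 2 - 1 / ((n:ℝ) + 1) := by
    intro n
    induction n with
    | zero => norm_num
    | succ n ih =>
      rw [Finset.sum_Icc_succ_top (by omega)]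
      have e4 : 1 / (((n + 1 + 1 : ℕ) : ℝ)) ^ 2 ≤ 1 / ((n:ℝ) + 1) - 1 / (((n + 1 : ℕ) : ℝ) + 1) := by
        push_cast
        rw [div_sub_div _ _ (by positivity) (by positivity), div_le_div_iff₀ (by positivity)
          (by positivity)]
        nlinarith [Nat.cast_nonneg (α := ℝ) n]
      linarith
  rcases n with _ | n
  · norm_num
  · have h1 := e3 n
    have h2 : (0:ℝ) < 1 / ((n:ℝ) + 1) := by positivity
    linarith

/-- a large start followed by a surviving walk -/
lemma base_survive (n : ℕ) (w0 w : ℕ → ℝ) (hw0 : ∀ j, 0 ≤ w0 j) (hw : ∀ j, 0 ≤ w j)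
    (s Wm V T : ℝ) (hs : 0 < s) (hsT : 4 * T ≤ s) (hs0 : s ^ 2 ≤ ∑ j ∈ range n, w0 j ^ 2)
    (hWm : ∀ j < n, |w j| ≤ Wm) (hV : ∑ j ∈ range n, w j ^ 2 ≤ V) :
    (3 / 32) * ((s / 4) / (2 * Real.sqrt (2 * V + Wm ^ 2 + (s / 4) ^ 2))) ≤
      Pr n (fun ω => ∀ t ≤ n, T ≤ Ws n w0 ω + Wk w ω t) := by
  have h1 := paley_zygmund n w0 s hs hs0
  have h2 := survive n w Wm V (s / 4) hWm hV (by positivity)
  have hinc1 : Inc (fun ω : Fin n → Bool => s / 2 ≤ Ws n w0 ω) := Inc_Ws n w0 hw0 _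
  have hinc2 : Inc (fun ω : Fin n → Bool => ∀ k ≤ n, 0 < s / 4 + Wk w ω k) := by
    refine Inc.forall fun k => Inc.forall fun _ => ?_
    have : ∀ ω : Fin n → Bool, (0 < s / 4 + Wk w ω k) ↔
        (-(s / 4) < Ws n (fun j => if j < k then w j else 0) ω) := by
      intro ω; rw [Wk_eq_Ws]; constructor <;> intro h <;> linarith
    simp only [this]
    apply Inc_Ws_lt
    intro j
    split_ifs
    · exact hw j
    · exact le_rfl
  have h3 := harris n hinc1 hinc2
  refine (mul_le_mul h1 h2 (by positivity) (Pr_nonneg _ _)).trans (h3.trans (Pr_mono n ?_))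
  rintro ω ⟨e1, e2⟩ t ht
  have := e2 t ht
  linarith

section
variable (P : Par D A δ x I K1 K2)
include P

/-- the small range -/
lemma Par.small : 1 / x ^ 19 ≤ Pr D (fun ω => ∀ k ∈ Icc 1 K1, (k:ℝ) ≤ Sd D δ ω k) := by
  have hx := P.x_pos
  have hA := P.A_pos
  have hK12 := P.K1_le_K2
  have hK2D := P.K2_le_D
  have hIK := P.I_le_K1
  have hI2 := P.I_ge_two
  have hK1D : K1 + 1 ≤ D := hK12.trans hK2D
  set w0 : ℕ → ℝ := fun l => if l < D - K1 then (δ (D - l) : ℝ) else 0 with hw0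
  set w : ℕ → ℝ := fun l => if D - K1 ≤ l then (δ (D - l) : ℝ) else 0 with hw
  have hw0n : ∀ j, 0 ≤ w0 j := fun j => by simp only [hw0]; split_ifs <;> positivity
  have hwn : ∀ j, 0 ≤ w j := fun j => by simp only [hw]; split_ifs <;> positivity
  have hK1r : (K1:ℝ) + 1 ≤ 3 * x ^ 33 := by
    have := P.K1u
    have := P.one_le_pow 33
    linarith
  have hK1p : (0:ℝ) < (K1:ℝ) + 1 := by positivity
  set s : ℝ := Real.sqrt ((A:ℝ) / (2 * (K1 + 1))) with hs
  have hs2 : s ^ 2 = (A:ℝ) / (2 * (K1 + 1)) := Real.sq_sqrt (by positivity)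
  have hspos : 0 < s := Real.sqrt_pos.2 (by positivity)
  -- the walk
  have hU : ∀ (ω : Fin D → Bool) (i : ℕ), 1 ≤ i → i ≤ K1 →
      Ws D (fun j => if i ≤ j + 1 then (δ (j + 1) : ℝ) else 0) (rv D ω) =
      Ws D w0 ω + Wk w ω (D + 1 - i) := by
    intro ω i h1 h2
    rw [Ws_rv, Wk_eq_Ws, ← Ws_add]
    refine Ws_congr D (fun l hl => ?_) ω
    have e0 : D - 1 - l + 1 = D - l := by omega
    rw [e0]
    simp only [hw0, hw]
    by_cases c1 : l < D - K1
    · have c2 : ¬ (D - K1 ≤ l) := by omega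
      have c3 : i ≤ D - l := by omega
      simp [c1, c2, c3]
    · have c2 : D - K1 ≤ l := by omega
      by_cases c3 : i ≤ D - l
      · have c4 : l < D + 1 - i := by omega
        simp [c1, c2, c3, c4]
      · have c4 : ¬ (l < D + 1 - i) := by omega
        simp [c1, c3, c4]
  have hpt : ∀ l < D, w l ^ 2 ≤ A * x := by
    intro l hl
    simp only [hw]
    split_ifs with c
    · have h1 := P.H.pt (D - l) (Finset.mem_Icc.2 ⟨by omega, by omega⟩) (by
        have e1 : ((D - l : ℕ):ℝ) ≤ K1 := by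
          have : D - l ≤ K1 := by omega
          exact_mod_cast this
        have e2 := P.K1u
        have e3 := P.D_big (a := 113) (by norm_num)
        calc ((D - l : ℕ):ℝ) * x ^ 80 ≤ (2 * x ^ 33) * x ^ 80 :=
              mul_le_mul_of_nonneg_right (e1.trans e2) (pow_pos hx _).le
          _ = 2 * x ^ 113 := by ring
          _ ≤ 100 * x ^ 113 := by have := pow_pos hx 113; linarith
          _ ≤ D := e3)
      have h2 : (1:ℝ) ≤ ((D - l : ℕ):ℝ) := by
        have : 1 ≤ D - l := by omega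
        exact_mod_cast this
      have h3 : (δ (D - l):ℝ) ^ 2 ≤ (((D - l : ℕ):ℝ) * δ (D - l)) ^ 2 := by
        apply pow_le_pow_left₀ (Nat.cast_nonneg _)
        have : (0:ℝ) ≤ δ (D - l) := Nat.cast_nonneg _
        nlinarith
      exact h3.trans h1
    · have : 0 < A * x := by positivity
      norm_num
      exact this.le
  have hV : ∑ j ∈ range D, w j ^ 2 ≤ 2 * (A * x) := by
    have e1 : ∑ j ∈ range D, w j ^ 2 = ∑ j ∈ Icc 1 D, (if j ≤ K1 then (δ j:ℝ) else 0) ^ 2 := by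
      have := sum_li (D := D) (i := 1) (by omega) (fun j => (if j ≤ K1 then (δ j:ℝ) else 0) ^ 2)
      rw [← this]
      have e2 : li D 1 = D := by unfold li; omega
      rw [e2]
      refine Finset.sum_congr rfl fun l hl => ?_
      rw [Finset.mem_range] at hl
      simp only [hw]
      by_cases c : D - K1 ≤ l
      · have c2 : D - l ≤ K1 := by omega
        rw [if_pos c, if_pos c2]
      · have c2 : ¬ (D - l ≤ K1) := by omega
        rw [if_neg c, if_neg c2]
    rw [e1]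
    have e2 : ∀ j ∈ Icc 1 D, (if j ≤ K1 then (δ j:ℝ) else 0) ^ 2 ≤ A * x * (1 / (j:ℝ) ^ 2) := by
      intro j hj
      rw [Finset.mem_Icc] at hj
      have hj0 : (0:ℝ) < j := by exact_mod_cast hj.1
      split_ifs with c
      · have h1 := P.H.pt j (Finset.mem_Icc.2 ⟨hj.1, hj.2⟩) (by
          have e1 : (j:ℝ) ≤ K1 := by exact_mod_cast c
          have e2 := P.K1u
          have e3 := P.D_big (a := 113) (by norm_num)
          calc (j:ℝ) * x ^ 80 ≤ (2 * x ^ 33) * x ^ 80 :=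
                mul_le_mul_of_nonneg_right (e1.trans e2) (pow_pos hx _).le
            _ = 2 * x ^ 113 := by ring
            _ ≤ 100 * x ^ 113 := by have := pow_pos hx 113; linarith
            _ ≤ D := e3)
        rw [mul_one_div, le_div_iff₀ (by positivity)]
        rw [mul_pow] at h1
        linarith
      · have : 0 < A * x * (1 / (j:ℝ) ^ 2) := by positivity
        norm_num
        positivity
    refine (Finset.sum_le_sum e2).trans ?_
    rw [← Finset.mul_sum]
    have e7 := sum_inv_sq_le D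
    have e8 : 0 < A * x := by positivity
    nlinarith
  have hvar : s ^ 2 ≤ ∑ j ∈ range D, w0 j ^ 2 := by
    have e1 : ∑ j ∈ range D, w0 j ^ 2 = ∑ j ∈ Icc 1 D, (if K1 < j then (δ j:ℝ) else 0) ^ 2 := by
      have := sum_li (D := D) (i := 1) (by omega) (fun j => (if K1 < j then (δ j:ℝ) else 0) ^ 2)
      rw [← this]
      have e2 : li D 1 = D := by unfold li; omega
      rw [e2]
      refine Finset.sum_congr rfl fun l hl => ?_
      rw [Finset.mem_range] at hl
      simp only [hw0]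
      by_cases c : l < D - K1
      · have c2 : K1 < D - l := by omega
        rw [if_pos c, if_pos c2]
      · have c2 : ¬ (K1 < D - l) := by omega
        rw [if_neg c, if_neg c2]
    rw [e1]
    have e2 : ∑ j ∈ Icc (K1 + 1) D, (δ j:ℝ) ^ 2 ≤
        ∑ j ∈ Icc 1 D, (if K1 < j then (δ j:ℝ) else 0) ^ 2 := by
      have e3 : ∑ j ∈ Icc (K1 + 1) D, (δ j:ℝ) ^ 2 =
          ∑ j ∈ Icc (K1 + 1) D, (if K1 < j then (δ j:ℝ) else 0) ^ 2 := by
        refine Finset.sum_congr rfl fun j hj => ?_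
        rw [Finset.mem_Icc] at hj
        rw [if_pos (by omega)]
      rw [e3]
      refine Finset.sum_le_sum_of_subset_of_nonneg ?_ fun _ _ _ => sq_nonneg _
      intro j hj
      rw [Finset.mem_Icc] at *
      omega
    refine le_trans ?_ e2
    have e4 := P.tail_ge (i := K1 + 1) (by
      have := P.K1l
      have e5 : x ^ 20 ≤ x ^ 33 := P.pw (by norm_num)
      push_cast
      linarith) hK12
    rw [hs2]
    push_cast at e4
    have e6 : (A:ℝ) / (2 * (K1 + 1)) = A / (K1 + 1) / 2 := by field_simp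
    rw [e6]; exact e4
  have hAbig : 32 * ((K1:ℝ) + 1) ≤ A := by
    have h1 := P.DkA (k := K1 + 1) hK12
    have h2 := P.D_big (a := 0) (by norm_num)
    have h3 := P.one_le_pow 9
    rw [pow_zero] at h2
    push_cast at h1
    have h4 : 100 * ((K1:ℝ) + 1) ≤ D * (K1 + 1) := by nlinarith
    have h5 : (D:ℝ) * (K1 + 1) ≤ D * (K1 + 1) * x ^ 9 := by
      have : (0:ℝ) ≤ D * (K1 + 1) := by positivity
      nlinarith
    linarith
  have hs4 : 4 ≤ s := by
    apply Real.le_sqrt_of_sq_le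
    rw [le_div_iff₀ (by positivity)]
    linarith
  have hWm : ∀ j < D, |w j| ≤ Real.sqrt (A * x) := by
    intro j hj
    rw [abs_of_nonneg (hwn j)]
    exact Real.le_sqrt_of_sq_le (hpt j hj)
  have key := base_survive D w0 w hw0n hwn s (Real.sqrt (A * x)) (2 * (A * x)) 1 hspos
    (by linarith) hvar hWm hV
  have hfin : Pr D (fun ω => ∀ t ≤ D, (1:ℝ) ≤ Ws D w0 ω + Wk w ω t) ≤
      Pr D (fun ω => ∀ k ∈ Icc 1 K1, (k:ℝ) ≤ Sd D δ ω k) := by
    rw [← Pr_equiv D (rv D) (fun ω => ∀ k ∈ Icc 1 K1, (k:ℝ) ≤ Sd D δ ω k)]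
    refine Pr_mono D fun ω hω k hk => ?_
    rw [Finset.mem_Icc] at hk
    have e1 : Sd D δ (rv D ω) k = ∑ i ∈ Icc 1 k,
        Ws D (fun j => if i ≤ j + 1 then (δ (j + 1) : ℝ) else 0) (rv D ω) := by
      rw [← Ws_sum]
      unfold Sd Ws
      refine Finset.sum_congr rfl fun j _ => ?_
      congr 1
      change _ = ∑ i ∈ Icc 1 k, (if i ≤ (j:ℕ) + 1 then (δ ((j:ℕ) + 1) : ℝ) else 0)
      rw [← Finset.sum_filter, Finset.sum_const, nsmul_eq_mul]
      congr 2
      have : (Icc 1 k).filter (fun i => i ≤ (j:ℕ) + 1) = Icc 1 (min ((j:ℕ) + 1) k) := by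
        ext i
        simp only [Finset.mem_filter, Finset.mem_Icc]
        omega
      rw [this, Nat.card_Icc]
      omega
    rw [e1]
    have e2 : (k:ℝ) = ∑ i ∈ Icc 1 k, (1:ℝ) := by simp
    rw [e2]
    refine Finset.sum_le_sum fun i hi => ?_
    rw [Finset.mem_Icc] at hi
    rw [hU ω i hi.1 (hi.2.trans hk.2)]
    exact hω _ (by omega)
  refine le_trans ?_ (key.trans hfin)
  -- numerics
  have hsA : (s / 4) ^ 2 ≤ A * x := by
    rw [div_pow, hs2]
    have h1 : (A:ℝ) / (2 * (K1 + 1)) ≤ A := by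
      apply div_le_self hA.le
      have : (0:ℝ) ≤ K1 := Nat.cast_nonneg _
      linarith
    have h2 := P.one_le_x
    have h3 : (A:ℝ) ≤ A * x := by nlinarith
    linarith
  have hsq : Real.sqrt (2 * (2 * (A * x)) + Real.sqrt (A * x) ^ 2 + (s / 4) ^ 2) ≤
      Real.sqrt (6 * (A * x)) := by
    apply Real.sqrt_le_sqrt
    rw [Real.sq_sqrt (by positivity)]
    linarith
  have h1 : (s / 4) / (2 * Real.sqrt (6 * (A * x))) ≤
      (s / 4) / (2 * Real.sqrt (2 * (2 * (A * x)) + Real.sqrt (A * x) ^ 2 + (s / 4) ^ 2)) := by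
    apply div_le_div_of_nonneg_left (by positivity) (by positivity)
    linarith
  -- `√(6Ax) ≤ s · 6 x^17`
  have h2 : Real.sqrt (6 * (A * x)) ≤ s * (6 * x ^ 17) := by
    rw [Real.sqrt_le_left (by positivity), mul_pow, hs2, div_mul_eq_mul_div, le_div_iff₀ (by positivity)]
    have e1 : 6 * (A * x) * (2 * ((K1:ℝ) + 1)) = A * (12 * x * (K1 + 1)) := by ring
    rw [e1]
    apply mul_le_mul_of_nonneg_left _ hA.le
    have e2 : 12 * x * ((K1:ℝ) + 1) ≤ 12 * x * (3 * x ^ 33) :=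
      mul_le_mul_of_nonneg_left hK1r (by positivity)
    have e3 : 12 * x * (3 * x ^ 33) = (6 * x ^ 17) ^ 2 := by ring
    linarith
  have h3 : 1 / (48 * x ^ 17) ≤ (s / 4) / (2 * Real.sqrt (6 * (A * x))) := by
    rw [div_le_div_iff₀ (by positivity) (by positivity)]
    have e1 : s / 4 * (48 * x ^ 17) = 2 * (s * (6 * x ^ 17)) := by ring
    linarith
  have h4 : 1 / x ^ 19 ≤ (3 / 32) * (1 / (48 * x ^ 17)) := by
    rw [mul_one_div, div_div, div_le_div_iff₀ (by positivity) (by positivity)]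
    have e1 : x ^ 19 = x ^ 17 * x ^ 2 := by ring
    rw [e1]
    have e2 : (10000:ℝ) ≤ x ^ 2 := by have := P.hx; nlinarith
    have e3 := pow_pos hx 17
    have e4 := mul_le_mul_of_nonneg_left e2 e3.le
    linarith
  refine h4.trans ?_
  apply mul_le_mul_of_nonneg_left (h3.trans h1) (by norm_num)

end

end Pool.GP.Delta
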