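import Pool.Agent.Lib.GP.Delta4

set_option autoImplicit false

/-!
The `δ`-model: the large range.
-/

namespace Pool.GP.Delta

open Finset Pool.GP

variable {D A : ℕ} {δ : ℕ → ℕ} {x : ℝ} {I K1 K2 : ℕ}

/-- summation by parts -/
lemma abel_large (δ : ℕ → ℕ) (D : ℕ) (f : ℕ → ℝ) (k : ℕ) (hk : 1 ≤ k) (T : ℝ)
    (h : ∀ m, k ≤ m → m ≤ D → T ≤ ∑ j ∈ range m, ((j:ℝ) + 1) * δ (j + 1) * f j) (hkD : k ≤ D) :
    T ≤ ∑ j ∈ range D, ((min (j + 1) k : ℕ):ℝ) * δ (j + 1) * f j := by
  have hk0 : (0:ℝ) < k := by exact_mod_cast hk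
  have key : ∀ n, k ≤ n → n ≤ D → T * (1 - k / n) ≤
      ∑ j ∈ range n, ((min (j + 1) k : ℕ):ℝ) * δ (j + 1) * f j -
        (k:ℝ) / n * ∑ j ∈ range n, ((j:ℝ) + 1) * δ (j + 1) * f j := by
    intro n hn
    induction n, hn using Nat.le_induction with
    | base =>
      intro _
      rw [div_self hk0.ne']
      have : ∑ j ∈ range k, ((min (j + 1) k : ℕ):ℝ) * δ (j + 1) * f j =
          ∑ j ∈ range k, ((j:ℝ) + 1) * δ (j + 1) * f j := by
        refine Finset.sum_congr rfl fun j hj => ?_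
        rw [Finset.mem_range] at hj
        rw [min_eq_left (by omega)]
        push_cast; ring
      rw [this]; simp
    | succ n hn ih =>
      intro hn2
      have ih' := ih (by omega)
      have hW := h n hn (by omega)
      rw [Finset.sum_range_succ, Finset.sum_range_succ]
      have hn0 : (0:ℝ) < n := lt_of_lt_of_le hk0 (by exact_mod_cast hn)
      rw [min_eq_right (by omega : k ≤ n + 1)]
      set R := ∑ j ∈ range n, ((min (j + 1) k : ℕ):ℝ) * δ (j + 1) * f j
      set W := ∑ j ∈ range n, ((j:ℝ) + 1) * δ (j + 1) * f j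
      have e1 : R + (k:ℝ) * δ (n + 1) * f n - (k:ℝ) / ((n + 1 : ℕ):ℝ) *
          (W + ((n:ℝ) + 1) * δ (n + 1) * f n) = R - (k:ℝ) / n * W +
            ((k:ℝ) / n - k / ((n + 1 : ℕ):ℝ)) * W := by
        push_cast
        field_simp
        ring
      rw [e1]
      have e2 : T * (1 - k / ((n + 1 : ℕ):ℝ)) = T * (1 - k / n) +
          ((k:ℝ) / n - k / ((n + 1 : ℕ):ℝ)) * T := by ring
      rw [e2]
      have e3 : 0 ≤ (k:ℝ) / n - k / ((n + 1 : ℕ):ℝ) := by
        rw [sub_nonneg]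
        apply div_le_div_of_nonneg_left hk0.le hn0
        push_cast; linarith
      have e4 := mul_le_mul_of_nonneg_left hW e3
      linarith
  have h1 := key D hkD le_rfl
  have h2 := h D hkD le_rfl
  have hD0 : (0:ℝ) < D := lt_of_lt_of_le hk0 (by exact_mod_cast hkD)
  have h3 : (k:ℝ) / D * T ≤ (k:ℝ) / D * ∑ j ∈ range D, ((j:ℝ) + 1) * δ (j + 1) * f j :=
    mul_le_mul_of_nonneg_left h2 (by positivity)
  linarith

section
variable (P : Par D A δ x I K1 K2)
include P

/-- the large range -/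
lemma Par.large : 1 / x ^ 167 ≤ Pr D (fun ω => ∀ k ∈ Icc K2 D, (k:ℝ) ≤ Sd D δ ω k) := by
  have hx := P.x_pos
  have hA := P.A_pos
  have hD := P.D_pos
  have hK12 := P.K1_le_K2
  have hK2D := P.K2_le_D
  have hIK := P.I_le_K1
  have hI2 := P.I_ge_two
  set w0 : ℕ → ℝ := fun l => if l < K2 then ((l:ℝ) + 1) * δ (l + 1) else 0 with hw0
  set w : ℕ → ℝ := fun l => if K2 ≤ l then ((l:ℝ) + 1) * δ (l + 1) else 0 with hw
  have hw0n : ∀ j, 0 ≤ w0 j := fun j => by simp only [hw0]; split_ifs <;> positivity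
  have hwn : ∀ j, 0 ≤ w j := fun j => by simp only [hw]; split_ifs <;> positivity
  have hK2big : x ^ 33 ≤ K2 := by
    have h1 := P.K1l
    have h2 : (K1:ℝ) ≤ K2 := by
      have : K1 ≤ K2 := by omega
      exact_mod_cast this
    linarith
  have hK2p : (0:ℝ) < K2 := lt_of_lt_of_le (pow_pos hx _) hK2big
  have hK2ge : 256 * (D:ℝ) * x ^ 40 ≤ K2 * D := by
    have h1 := P.K2l
    have h2 := P.D_big (a := 299) (by norm_num)
    have h3 : 50 * x ^ 49 ≤ K2 := by
      have e1 : x ^ 250 * (50 * x ^ 49) ≤ x ^ 250 * K2 := by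
        have : x ^ 299 = x ^ 250 * x ^ 49 := by ring
        rw [this] at h2
        linarith
      exact le_of_mul_le_mul_left e1 (pow_pos hx _)
    have h4 : 256 * x ^ 40 ≤ 50 * x ^ 49 := by
      have e1 : x ^ 49 = x ^ 40 * x ^ 9 := by ring
      rw [e1]
      have e2 := P.pw (a := 1) (b := 9) (by norm_num)
      rw [pow_one] at e2
      have := P.hx
      nlinarith [pow_pos hx 40]
    nlinarith
  set s : ℝ := Real.sqrt ((A:ℝ) * K2 / 16) with hs
  have hs2 : s ^ 2 = (A:ℝ) * K2 / 16 := Real.sq_sqrt (by positivity)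
  have hspos : 0 < s := Real.sqrt_pos.2 (by positivity)
  have hpt : ∀ l < D, w l ^ 2 ≤ A * x ^ 80 := by
    intro l hl
    simp only [hw]
    split_ifs with c
    · have h1 := P.H.pt2 (l + 1) (Finset.mem_Icc.2 ⟨by omega, by omega⟩)
      push_cast at h1
      exact h1
    · have : 0 < A * x ^ 80 := by positivity
      norm_num
      exact this.le
  have hV : ∑ j ∈ range D, w j ^ 2 ≤ D * (A * x ^ 80) := by
    refine (Finset.sum_le_sum fun j hj => hpt j (Finset.mem_range.1 hj)).trans ?_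
    rw [Finset.sum_const, nsmul_eq_mul, Finset.card_range]
  have hvar : s ^ 2 ≤ ∑ j ∈ range D, w0 j ^ 2 := by
    have e1 : ∑ j ∈ range D, w0 j ^ 2 = ∑ j ∈ Icc 1 D, (if j ≤ K2 then ((j:ℝ) * δ j) else 0) ^ 2 := by
      rw [← sum_range_succ_index D (fun j => (if j ≤ K2 then ((j:ℝ) * δ j) else 0) ^ 2)]
      refine Finset.sum_congr rfl fun l _ => ?_
      simp only [hw0]
      by_cases c : l < K2
      · rw [if_pos c, if_pos (by omega)]
        push_cast; ring
      · rw [if_neg c, if_neg (by omega)]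
    rw [e1]
    set i0 := K2 / 4 with hi0
    have hi0l : K2 ≤ 8 * i0 := by
      have : 8 ≤ K2 := by
        have h1 : (8:ℝ) ≤ x ^ 33 := by
          have e2 := P.pw (a := 1) (b := 33) (by norm_num)
          rw [pow_one] at e2
          have := P.hx
          linarith
        exact_mod_cast h1.trans hK2big
      omega
    have hi0u : 4 * i0 ≤ K2 := by omega
    have hi0lr : (K2:ℝ) ≤ 8 * i0 := by exact_mod_cast hi0l
    have hi0ur : 4 * (i0:ℝ) ≤ K2 := by exact_mod_cast hi0u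
    have hi0p : (0:ℝ) < i0 := by linarith
    have hi01 : 1 ≤ i0 := by exact_mod_cast (by exact_mod_cast hi0p : 0 < i0)
    have hx20 : x ^ 20 ≤ (i0:ℝ) := by
      have e2 : 8 * x ^ 20 ≤ x ^ 33 := by
        have e3 : x ^ 33 = x ^ 20 * x ^ 13 := by ring
        rw [e3]
        have e4 := P.pw (a := 1) (b := 13) (by norm_num)
        rw [pow_one] at e4
        have := P.hx
        nlinarith [pow_pos hx 20]
      linarith
    have t1 := (P.tail hx20 (by omega)).1
    have t2 := (P.tail (i := K2) (by linarith) le_rfl).2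
    have hsplit : ∑ j ∈ Icc i0 D, (δ j:ℝ) ^ 2 =
        ∑ j ∈ Ico i0 K2, (δ j:ℝ) ^ 2 + ∑ j ∈ Icc K2 D, (δ j:ℝ) ^ 2 := by
      rw [← Finset.sum_union]
      · refine Finset.sum_congr ?_ fun _ _ => rfl
        ext j; simp only [Finset.mem_union, Finset.mem_Icc, Finset.mem_Ico]; omega
      · rw [Finset.disjoint_left]
        intro j h1 h2
        simp only [Finset.mem_Icc, Finset.mem_Ico] at h1 h2
        omega
    have hmid : (A:ℝ) / i0 / 2 ≤ ∑ j ∈ Ico i0 K2, (δ j:ℝ) ^ 2 := by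
      have e2 : (A:ℝ) / K2 ≤ A / i0 / 4 := by
        rw [div_div, div_le_div_iff₀ hK2p (by positivity)]
        have : (A:ℝ) * (i0 * 4) ≤ A * K2 := mul_le_mul_of_nonneg_left (by linarith) hA.le
        exact this
      have e3 := P.inv_cube
      have e4 : 0 ≤ 1 / x ^ 3 := by positivity
      have e5 : (0:ℝ) ≤ A / i0 := by positivity
      have e6 : (A:ℝ) / K2 * (1 + 1 / x ^ 3) ≤ A / i0 / 4 * (9 / 8) :=
        mul_le_mul e2 (by linarith) (by positivity) (by positivity)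
      have e7 : (A:ℝ) / i0 * (7 / 8) ≤ A / i0 * (1 - 1 / x ^ 3) :=
        mul_le_mul_of_nonneg_left (by linarith) e5
      linarith
    have hlow : (i0:ℝ) ^ 2 * ∑ j ∈ Ico i0 K2, (δ j:ℝ) ^ 2 ≤
        ∑ j ∈ Icc 1 D, (if j ≤ K2 then ((j:ℝ) * δ j) else 0) ^ 2 := by
      rw [Finset.mul_sum]
      have e2 : ∑ j ∈ Ico i0 K2, (i0:ℝ) ^ 2 * (δ j:ℝ) ^ 2 ≤
          ∑ j ∈ Ico i0 K2, (if j ≤ K2 then ((j:ℝ) * δ j) else 0) ^ 2 := by
        refine Finset.sum_le_sum fun j hj => ?_
        rw [Finset.mem_Ico] at hj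
        rw [if_pos (by omega), mul_pow]
        apply mul_le_mul_of_nonneg_right _ (sq_nonneg _)
        exact pow_le_pow_left₀ hi0p.le (by exact_mod_cast hj.1) 2
      refine e2.trans (Finset.sum_le_sum_of_subset_of_nonneg ?_ fun _ _ _ => sq_nonneg _)
      intro j hj
      rw [Finset.mem_Ico] at hj
      rw [Finset.mem_Icc]
      omega
    refine le_trans ?_ hlow
    rw [hs2]
    have e8 : (i0:ℝ) ^ 2 * (A / i0 / 2) ≤ (i0:ℝ) ^ 2 * ∑ j ∈ Ico i0 K2, (δ j:ℝ) ^ 2 :=
      mul_le_mul_of_nonneg_left hmid (by positivity)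
    refine le_trans ?_ e8
    have e9 : (i0:ℝ) ^ 2 * (A / i0 / 2) = A * i0 / 2 := by field_simp
    rw [e9]
    nlinarith
  have hs4 : 4 * (D:ℝ) ≤ s := by
    apply Real.le_sqrt_of_sq_le
    have h1 := P.H.big
    have h2 : 16 * (16 * (D:ℝ) ^ 2) ≤ A * K2 := by
      have e1 : 256 * (D:ℝ) ^ 2 * (D ^ 2) ≤ (A * K2) * D ^ 2 := by
        have e2 : 256 * (D:ℝ) ^ 2 * (D ^ 2) ≤ 256 * (D:ℝ) ^ 2 * (A * x ^ 40) :=
          mul_le_mul_of_nonneg_left h1 (by positivity)
        have e3 : 256 * (D:ℝ) ^ 2 * (A * x ^ 40) = A * D * (256 * D * x ^ 40) := by ring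
        have e4 : (A:ℝ) * D * (256 * D * x ^ 40) ≤ A * D * (K2 * D) :=
          mul_le_mul_of_nonneg_left hK2ge (by positivity)
        have e5 : (A:ℝ) * D * (K2 * D) = (A * K2) * D ^ 2 := by ring
        linarith
      have e6 := le_of_mul_le_mul_right e1 (by positivity)
      linarith
    rw [mul_pow]
    linarith
  have hWm : ∀ j < D, |w j| ≤ Real.sqrt (A * x ^ 80) := by
    intro j hj
    rw [abs_of_nonneg (hwn j)]
    exact Real.le_sqrt_of_sq_le (hpt j hj)
  have key := base_survive D w0 w hw0n hwn s (Real.sqrt (A * x ^ 80)) (D * (A * x ^ 80)) D hspos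
    hs4 hvar hWm hV
  have hfin : Pr D (fun ω => ∀ t ≤ D, (D:ℝ) ≤ Ws D w0 ω + Wk w ω t) ≤
      Pr D (fun ω => ∀ k ∈ Icc K2 D, (k:ℝ) ≤ Sd D δ ω k) := by
    refine Pr_mono D fun ω hω k hk => ?_
    rw [Finset.mem_Icc] at hk
    have hkD : (k:ℝ) ≤ D := by exact_mod_cast hk.2
    refine hkD.trans ?_
    have e1 : Sd D δ ω k = ∑ j ∈ range D, ((min (j + 1) k : ℕ):ℝ) * δ (j + 1) * sg (ext ω j) := by
      rw [← Fin.sum_univ_eq_sum_range
        (fun j => ((min (j + 1) k : ℕ):ℝ) * δ (j + 1) * sg (ext ω j)) D]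
      unfold Sd
      refine Finset.sum_congr rfl fun j _ => ?_
      rw [ext_lt ω j.2]
    rw [e1]
    refine abel_large δ D (fun j => sg (ext ω j)) k (by omega) D (fun m h1 h2 => ?_) hk.2
    have e2 := hω m h2
    rw [Wk_eq_Ws, ← Ws_add] at e2
    have e3 : Ws D (fun j => w0 j + if j < m then w j else 0) ω =
        ∑ j ∈ range m, ((j:ℝ) + 1) * δ (j + 1) * sg (ext ω j) := by
      have e4 : Ws D (fun j => w0 j + if j < m then w j else 0) ω =
          ∑ j ∈ range D, (if j < m then ((j:ℝ) + 1) * δ (j + 1) * sg (ext ω j) else 0) := by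
        rw [← Fin.sum_univ_eq_sum_range
          (fun j => if j < m then ((j:ℝ) + 1) * δ (j + 1) * sg (ext ω j) else 0) D]
        unfold Ws
        refine Finset.sum_congr rfl fun j _ => ?_
        rw [ext_lt ω j.2]
        simp only [hw0, hw]
        by_cases c1 : (j:ℕ) < K2
        · have c2 : (j:ℕ) < m := by omega
          have c3 : ¬ (K2 ≤ (j:ℕ)) := by omega
          simp [c1, c2, c3]
        · have c3 : K2 ≤ (j:ℕ) := by omega
          by_cases c2 : (j:ℕ) < m
          · simp [c1, c2, c3]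
          · simp [c1, c2]
      rw [e4, ← Finset.sum_filter]
      refine Finset.sum_congr ?_ fun _ _ => rfl
      ext j
      simp only [Finset.mem_filter, Finset.mem_range]
      omega
    rw [e3] at e2
    exact e2
  refine le_trans ?_ (key.trans hfin)
  -- numerics
  have hD1 : (1:ℝ) ≤ D := by
    have := P.D_big (a := 0) (by norm_num)
    rw [pow_zero] at this; linarith
  have hK2Dr : (K2:ℝ) ≤ D := by exact_mod_cast hK2D
  set B : ℝ := D * (A * x ^ 80) with hB
  have hBpos : 0 < B := by positivity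
  have hsA : (s / 4) ^ 2 ≤ B := by
    rw [div_pow, hs2, hB]
    have h1 : (A:ℝ) * K2 ≤ A * D := mul_le_mul_of_nonneg_left hK2Dr hA.le
    have h2 : (A:ℝ) * D ≤ D * (A * x ^ 80) := by
      have := P.one_le_pow 80
      have e1 : (0:ℝ) ≤ A * D := by positivity
      nlinarith
    have h3 : (0:ℝ) ≤ A * K2 := by positivity
    linarith
  have hAB : A * x ^ 80 ≤ B := by
    rw [hB]
    have : 0 ≤ A * x ^ 80 := by positivity
    nlinarith
  have hsq : Real.sqrt (2 * B + Real.sqrt (A * x ^ 80) ^ 2 + (s / 4) ^ 2) ≤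
      Real.sqrt (4 * B) := by
    apply Real.sqrt_le_sqrt
    rw [Real.sq_sqrt (by positivity)]
    linarith
  have h1 : (s / 4) / (2 * Real.sqrt (4 * B)) ≤
      (s / 4) / (2 * Real.sqrt (2 * B + Real.sqrt (A * x ^ 80) ^ 2 + (s / 4) ^ 2)) := by
    apply div_le_div_of_nonneg_left (by positivity) (by positivity)
    linarith
  -- `√(4B) ≤ s · 12 x^165`
  have h2 : Real.sqrt (4 * B) ≤ s * (12 * x ^ 165) := by
    rw [Real.sqrt_le_left (by positivity), mul_pow, hs2, hB]
    have e1 := P.K2l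
    have e2 : 4 * ((D:ℝ) * (A * x ^ 80)) = (4 * A * x ^ 80) * D := by ring
    rw [e2]
    have e3 : (4 * A * x ^ 80) * (D:ℝ) ≤ (4 * A * x ^ 80) * (2 * x ^ 250 * K2) :=
      mul_le_mul_of_nonneg_left e1 (by positivity)
    have e4 : (4 * A * x ^ 80) * (2 * x ^ 250 * K2) = 8 * (A * K2 * x ^ 330) := by ring
    have e5 : (A:ℝ) * K2 / 16 * (12 * x ^ 165) ^ 2 = 9 * (A * K2 * x ^ 330) := by ring
    rw [e5]
    have e6 : (0:ℝ) ≤ A * K2 * x ^ 330 := by positivity
    linarith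
  have h3 : 1 / (96 * x ^ 165) ≤ (s / 4) / (2 * Real.sqrt (4 * B)) := by
    rw [div_le_div_iff₀ (by positivity) (by positivity)]
    have e1 : s / 4 * (96 * x ^ 165) = 2 * (s * (12 * x ^ 165)) := by ring
    linarith
  have h4 : 1 / x ^ 167 ≤ (3 / 32) * (1 / (96 * x ^ 165)) := by
    rw [mul_one_div, div_div, div_le_div_iff₀ (by positivity) (by positivity)]
    have e1 : x ^ 167 = x ^ 165 * x ^ 2 := by ring
    rw [e1]
    have e2 : (10000:ℝ) ≤ x ^ 2 := by have := P.hx; nlinarith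
    have e3 := pow_pos hx 165
    have e4 := mul_le_mul_of_nonneg_left e2 e3.le
    linarith
  refine h4.trans ?_
  apply mul_le_mul_of_nonneg_left (h3.trans h1) (by norm_num)

end

end Pool.GP.Delta
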