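import Pool.Agent.Lib.GP.AScale

set_option autoImplicit false

/-!
The `δ`-model: definitions shared by the probability side and the partition side.
-/

namespace Pool.GP

open Finset

/-- regularity of the step sizes `δ 1, …, δ D` -/
structure Dhyp (D A : ℕ) (δ : ℕ → ℕ) (x : ℝ) : Prop where
  tail : ∀ i : ℕ, x ^ 20 ≤ i → (i:ℝ) * x ^ 200 ≤ D →
    |(i:ℝ) * ∑ j ∈ Icc i D, (δ j:ℝ) ^ 2 - A| ≤ A / x ^ 3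
  pt : ∀ j ∈ Icc 1 D, (j:ℝ) * x ^ 80 ≤ D → ((j:ℝ) * δ j) ^ 2 ≤ A * x
  pt2 : ∀ j ∈ Icc 1 D, ((j:ℝ) * δ j) ^ 2 ≤ A * x ^ 80
  big : (D:ℝ) ^ 2 ≤ A * x ^ 40

/-- the signed sum `∑_{j ≤ D} min(j,k) δ_j ε_j` -/
noncomputable def Sd (D : ℕ) (δ : ℕ → ℕ) (ω : Fin D → Bool) (k : ℕ) : ℝ :=
  ∑ j : Fin D, ((min ((j:ℕ) + 1) k : ℕ):ℝ) * δ ((j:ℕ) + 1) * sg (ω j)

/-- the probability of graphicality for given step sizes -/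
noncomputable def PD (D : ℕ) (δ : ℕ → ℕ) : ℝ := Pr D (fun ω => ∀ k ∈ Icc 1 D, (k:ℝ) ≤ Sd D δ ω k)

/-- comparison of the `δ`-model with the canonical functional (proved in `Delta.lean`) -/
def DeltaTarget : Prop := ∃ C : ℕ, ∀ (x : ℝ) (D A : ℕ) (δ : ℕ → ℕ), (C:ℝ) ≤ x → x ^ C ≤ D → Dhyp D A δ x →
  ∃ K1 K2 : ℕ, x ^ 33 ≤ K1 ∧ (K1:ℝ) ≤ x ^ C ∧ K1 ≤ K2 ∧ K2 ≤ D ∧ (D:ℝ) ≤ x ^ C * K2 ∧ x ^ 20 * K2 ≤ A ∧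
    PD D δ ≤ G A K1 K2 (-(C / x)) + C * D * Real.exp (-(x / 40)) ∧
    (G A K1 K2 (C / x) - C * D * Real.exp (-(x / 40))) / x ^ C ≤ PD D δ

end Pool.GP
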