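import Pool.Agent.Lib.GP.Tilt

set_option autoImplicit false

/-!
Comparison of a weighted sign walk with the simple walk (two-sided).
-/

namespace Pool.GP

open Finset

/-- machines whose first `m` stages agree are in the same state before stage `m` is completed -/
lemma stage_agree (d d' : ℕ → ℕ) (m : ℕ) (h : ∀ l < m, d l = d' l) (b : ℕ → Bool) (t : ℕ) :
    (stg d b t < m → mrun d b t = mrun d' b t) ∧ (m ≤ stg d b t → m ≤ stg d' b t) := by
  induction t with
  | zero => exact ⟨fun _ => rfl, fun h => by simpa [stg, mrun] using h⟩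
  | succ t ih =>
    obtain ⟨ih1, ih2⟩ := ih
    have hs := stg_succ (d := d) b t
    have hs' := stg_succ (d := d') b t
    refine ⟨fun hlt => ?_, fun hle => ?_⟩
    · have h1 : stg d b t < m := by omega
      have h2 := ih1 h1
      simp only [mrun, mstep]
      rw [← h2]
      rw [h (mrun d b t).1 h1]
    · rcases Nat.lt_or_ge (stg d b t) m with h1 | h1
      · have h2 := ih1 h1
        have h3 : mrun d b (t+1) = mrun d' b (t+1) := by
          simp only [mrun, mstep]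
          rw [← h2, h (mrun d b t).1 h1]
        simp only [stg] at hle ⊢
        rw [← h3]; exact hle
      · have := ih2 h1
        omega

lemma stage_lt_iff (d d' : ℕ → ℕ) (m : ℕ) (h : ∀ l < m, d l = d' l) (b : ℕ → Bool) (t : ℕ) :
    stg d b t < m ↔ stg d' b t < m := by
  constructor
  · intro h1
    by_contra hc
    push Not at hc
    have := (stage_agree d' d m (fun l hl => (h l hl).symm) b t).2 hc
    omega
  · intro h1
    by_contra hc
    push Not at hc
    have := (stage_agree d d' m h b t).2 hc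
    omega

/-- marginal: an event depending only on the first `t` bits -/
lemma Pr_prefix {N t : ℕ} (h : t ≤ N) (P : (ℕ → Bool) → Prop)
    (hP : ∀ b b' : ℕ → Bool, (∀ v < t, b v = b' v) → (P b ↔ P b')) :
    Pr N (fun ω => P (ext ω)) = Pr t (fun ω => P (ext ω)) := by
  rw [← Pr_seg (N := N) (t := 0) (r := t) (by omega) (fun a => P (ext a))]
  refine Pr_congr N fun ω => hP _ _ fun v hv => ?_
  rw [ext_lt (seg 0 t ω) hv]
  simp [seg]

/-- the coarse walk -/
noncomputable def Cw (d : ℕ → ℕ) {m : ℕ} (ε : Fin m → Bool) (l : ℕ) : ℝ :=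
  Wk (fun j => (d j : ℝ)) ε l

lemma Cw_esig (d : ℕ → ℕ) (m n : ℕ) (ω : Fin n → Bool) {l : ℕ} (hl : l ≤ m) :
    Cw d (esig d m n ω) l
      = ((∑ l' ∈ range l, (d l' : ℤ) * si (msig d (ext ω) n l') : ℤ) : ℝ) := by
  unfold Cw Wk
  have h1 : (∑ j : Fin m, if (j:ℕ) < l then (d j : ℝ) * sg (esig d m n ω j) else 0)
      = ∑ j : Fin m, (fun j : ℕ => if j < l then (d j : ℝ) * sg (msig d (ext ω) n j) else 0) j :=
    rfl
  rw [h1, Fin.sum_univ_eq_sum_range
    (fun j : ℕ => if j < l then (d j : ℝ) * sg (msig d (ext ω) n j) else 0) m]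
  rw [← Finset.sum_subset (Finset.range_subset_range.2 hl)]
  · push_cast
    refine Finset.sum_congr rfl fun j hj => ?_
    rw [Finset.mem_range] at hj
    rw [if_pos hj, sg_eq_si]
  · intro j _ hj
    rw [Finset.mem_range] at hj
    rw [if_neg hj]

/-- One index: with high probability the coarse walk at stage `l` is close to `Y` at time `T`. -/
lemma one_index (d : ℕ → ℕ) (hd : ∀ l, 1 ≤ d l) (m N l T : ℕ) (x a : ℝ) (hx : 2 ≤ x)
    (hlm : l ≤ m)
    (ha : 0 < a) (hT1 : (T:ℝ) ≤ a) (hT2 : a ≤ T + 1)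
    (hsum : |∑ j ∈ range l, (d j : ℝ) ^ 2 - a| ≤ a / x ^ 3)
    (hfour : ∑ j ∈ range l, (d j : ℝ) ^ 4 ≤ a ^ 2 / x ^ 12)
    (hN : a * (1 + 2 / x ^ 3) + 1 ≤ N) :
    Pr N (fun ω => ¬ (l ≤ stg d (ext ω) N ∧ |Cw d (esig d m N ω) l - Y ω T| ≤ Real.sqrt a / x))
      ≤ 4 * Real.exp (-(x / 40)) := by
  have hx0 : 0 < x := by linarith
  have hx3 : 8 ≤ x ^ 3 := by
    calc (8:ℝ) = 2 ^ 3 := by norm_num
      _ ≤ x ^ 3 := pow_le_pow_left₀ (by norm_num) hx 3
  -- a is large
  have hA2 : ∑ j ∈ range l, (d j : ℝ) ^ 2 ≤ ∑ j ∈ range l, (d j : ℝ) ^ 4 := by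
    refine Finset.sum_le_sum fun j _ => ?_
    have h1 : (1:ℝ) ≤ d j := by exact_mod_cast hd j
    exact pow_le_pow_right₀ h1 (by norm_num)
  have hsum' := abs_le.1 hsum
  have hdiv : a / x ^ 3 ≤ a / 2 := by
    apply div_le_div_of_nonneg_left ha.le (by norm_num) (by linarith)
  have hSl : a / 2 ≤ ∑ j ∈ range l, (d j : ℝ) ^ 2 := by linarith [hsum'.1]
  have hx12 : 0 < x ^ 12 := by positivity
  have halarge : x ^ 12 / 2 ≤ a := by
    have h1 : a / 2 ≤ a ^ 2 / x ^ 12 := hSl.trans (hA2.trans hfour)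
    rw [le_div_iff₀ hx12] at h1
    have h2 : a * (x ^ 12 / 2) ≤ a * a := by
      have e1 : a * (x ^ 12 / 2) = a / 2 * x ^ 12 := by ring
      have e2 : a * a = a ^ 2 := by ring
      rw [e1, e2]; exact h1
    exact le_of_mul_le_mul_left h2 ha
  have hx9 : (512:ℝ) ≤ x ^ 9 := by
    calc (512:ℝ) = 2 ^ 9 := by norm_num
      _ ≤ x ^ 9 := pow_le_pow_left₀ (by norm_num) hx 9
  have hax3 : 256 ≤ a / x ^ 3 := by
    rw [le_div_iff₀ (by positivity)]
    have : 256 * x ^ 3 ≤ x ^ 12 / 2 := by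
      have : x ^ 12 = x ^ 9 * x ^ 3 := by ring
      rw [this]
      have := mul_le_mul_of_nonneg_right hx9 (by positivity : (0:ℝ) ≤ x ^ 3)
      linarith
    linarith
  set q := a / x ^ 3 with hq
  have hq2 : a * (1 + 2 / x ^ 3) = a + 2 * q := by rw [hq]; ring
  have hq3 : a * (1 - 2 / x ^ 3) = a - 2 * q := by rw [hq]; ring
  have hqa : q ≤ a / 8 := by
    rw [hq]; exact div_le_div_of_nonneg_left ha.le (by norm_num) hx3
  set t1 := ⌊a - 2 * q⌋₊ with ht1
  set t2 := ⌈a + 2 * q⌉₊ with ht2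
  have ht1le : (t1:ℝ) ≤ a - 2 * q := Nat.floor_le (by linarith)
  have ht1ge : a - 2 * q - 1 ≤ t1 := by have := Nat.lt_floor_add_one (a - 2 * q); linarith
  have ht2ge : a + 2 * q ≤ t2 := Nat.le_ceil _
  have ht2le : (t2:ℝ) ≤ a + 2 * q + 1 := (Nat.ceil_lt_add_one (by linarith)).le
  have ht1T : t1 ≤ T := by
    have : (t1:ℝ) ≤ T := by linarith
    exact_mod_cast this
  have hTt2 : T ≤ t2 := by
    have : (T:ℝ) ≤ t2 := by linarith
    exact_mod_cast this
  have ht2N : t2 ≤ N := by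
    rw [hq2] at hN
    have : (t2:ℝ) < N + 1 := by
      have := Nat.ceil_lt_add_one (show 0 ≤ a + 2 * q by linarith)
      linarith
    have h2 : t2 < N + 1 := by exact_mod_cast this
    omega
  have ht12 : t1 ≤ t2 := ht1T.trans hTt2
  set S := ∑ j ∈ range l, (d j : ℝ) ^ 2 with hS
  set F := ∑ j ∈ range l, (d j : ℝ) ^ 4 with hF
  -- the parameter
  set lam := Real.sqrt (x ^ 5 / (8 * a)) with hlam
  have hlam2 : lam ^ 2 = x ^ 5 / (8 * a) := Real.sq_sqrt (by positivity)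
  have hlampos : 0 < lam := Real.sqrt_pos.2 (by positivity)
  have hlam4 : lam ^ 4 = x ^ 10 / (64 * a ^ 2) := by
    have : lam ^ 4 = (lam ^ 2) ^ 2 := by ring
    rw [this, hlam2]; field_simp; ring
  have hlq : lam ^ 2 * q = x ^ 2 / 8 := by
    rw [hlam2, hq]; field_simp
  have hF0 : lam ^ 4 * F ≤ 1 / (64 * x ^ 2) := by
    calc lam ^ 4 * F ≤ lam ^ 4 * (a ^ 2 / x ^ 12) := mul_le_mul_of_nonneg_left hfour (by positivity)
      _ = 1 / (64 * x ^ 2) := by rw [hlam4]; field_simp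
  have hT0 : lam ^ 4 * a ≤ 1 / (32 * x ^ 2) := by
    rw [hlam4]
    have e1 : x ^ 10 / (64 * a ^ 2) * a = x ^ 10 / (64 * a) := by field_simp
    rw [e1, div_le_div_iff₀ (by positivity) (by positivity)]
    have e2 : x ^ 10 * (32 * x ^ 2) = 32 * x ^ 12 := by ring
    rw [e2]; linarith
  have hxinv : 1 / x ^ 2 ≤ 1 / 4 := by
    apply one_div_le_one_div_of_le (by norm_num)
    calc (4:ℝ) = 2 ^ 2 := by norm_num
      _ ≤ x ^ 2 := pow_le_pow_left₀ (by norm_num) hx 2
  have hF1 : lam ^ 4 * F ≤ 1 / 256 := by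
    refine hF0.trans ?_
    have : 1 / (64 * x ^ 2) = (1 / 64) * (1 / x ^ 2) := by field_simp
    rw [this]; linarith
  have hT1' : lam ^ 4 * a ≤ 1 / 128 := by
    refine hT0.trans ?_
    have : 1 / (32 * x ^ 2) = (1 / 32) * (1 / x ^ 2) := by field_simp
    rw [this]; linarith
  have hx2 : 2 * x ≤ x ^ 2 := by
    rw [pow_two]; exact mul_le_mul_of_nonneg_right hx hx0.le
  -- event 1
  have hP1 : Pr N (fun ω => stg d (ext ω) t2 < l) ≤ Real.exp (-(x / 40)) := by
    set d' : ℕ → ℕ := fun j => if j < l then d j else 1 with hd'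
    have hd'1 : ∀ j, 1 ≤ d' j := by intro j; simp only [hd']; split_ifs; exacts [hd j, le_rfl]
    have hagree : ∀ j < l, d j = d' j := by intro j hj; simp [hd', hj]
    rw [Pr_prefix ht2N (fun b => stg d b t2 < l) (fun b b' h => by
      simp only [stg]; rw [mrun_congr d h])]
    have h1 : Pr t2 (fun ω => stg d (ext ω) t2 < l) = Pr t2 (fun ω => stg d' (ext ω) t2 < l) :=
      Pr_congr t2 fun ω => stage_lt_iff d d' l hagree (ext ω) t2
    rw [h1]
    have hcond : ∀ j, lam * d' j ≤ 1/2 := by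
      intro j
      have hsq : (lam * d' j) ^ 2 ≤ (1/2) ^ 2 := by
        rw [mul_pow, hlam2]
        by_cases hj : j < l
        · have e0 : (d' j : ℝ) = d j := by simp [hd', hj]
          rw [e0]
          have e1 : (d j : ℝ) ^ 4 ≤ a ^ 2 / x ^ 12 := by
            refine le_trans ?_ hfour
            exact Finset.single_le_sum (f := fun j => (d j : ℝ) ^ 4) (fun _ _ => by positivity)
              (Finset.mem_range.2 hj)
          have e2 : ((d j : ℝ) ^ 2) ^ 2 ≤ (a / x ^ 6) ^ 2 := by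
            calc ((d j : ℝ) ^ 2) ^ 2 = (d j : ℝ) ^ 4 := by ring
              _ ≤ a ^ 2 / x ^ 12 := e1
              _ = (a / x ^ 6) ^ 2 := by rw [div_pow]; ring
          have e3 : (d j : ℝ) ^ 2 ≤ a / x ^ 6 := by
            exact (le_abs_self _).trans (abs_le_of_sq_le_sq e2 (by positivity))
          calc x ^ 5 / (8 * a) * (d j : ℝ) ^ 2 ≤ x ^ 5 / (8 * a) * (a / x ^ 6) :=
                mul_le_mul_of_nonneg_left e3 (by positivity)
            _ = 1 / (8 * x) := by field_simp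
            _ ≤ (1/2) ^ 2 := by
                rw [div_le_iff₀ (by positivity)]; linarith
        · have e0 : (d' j : ℝ) = 1 := by simp [hd', hj]
          rw [e0, one_pow, mul_one, div_le_iff₀ (by positivity)]
          have : x ^ 12 = x ^ 5 * x ^ 7 := by ring
          have h7 : (1:ℝ) ≤ x ^ 7 := by
            calc (1:ℝ) = 1 ^ 7 := by norm_num
              _ ≤ x ^ 7 := pow_le_pow_left₀ (by norm_num) (by linarith) 7
          have h8 : x ^ 5 * 1 ≤ x ^ 5 * x ^ 7 := mul_le_mul_of_nonneg_left h7 (by positivity)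
          linarith
      exact (le_abs_self _).trans (abs_le_of_sq_le_sq hsq (by norm_num))
    have hSeq : ∑ j ∈ range l, (d' j : ℝ) ^ 2 = S := by
      rw [hS]; refine Finset.sum_congr rfl fun j hj => ?_
      rw [Finset.mem_range] at hj; simp [hd', hj]
    have hFeq : ∑ j ∈ range l, (d' j : ℝ) ^ 4 = F := by
      rw [hF]; refine Finset.sum_congr rfl fun j hj => ?_
      rw [Finset.mem_range] at hj; simp [hd', hj]
    have h2 := clock_upper d' hd'1 lam hlampos hcond l t2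
    rw [hSeq, hFeq] at h2
    refine h2.trans (Real.exp_le_exp.2 ?_)
    have h3 : q ≤ (t2:ℝ) - S := by linarith [hsum'.2]
    have h4 : lam ^ 2 * q ≤ lam ^ 2 * ((t2:ℝ) - S) := mul_le_mul_of_nonneg_left h3 (by positivity)
    have h5 : (t2:ℝ) ≤ 2 * a := by linarith
    have h6 : lam ^ 4 * ((t2:ℝ) / 16 + F / 4) ≤ lam ^ 4 * (a / 8) + lam ^ 4 * F / 4 := by
      have := mul_le_mul_of_nonneg_left h5 (by positivity : (0:ℝ) ≤ lam ^ 4)
      have e1 : lam ^ 4 * ((t2:ℝ) / 16 + F / 4) = lam ^ 4 * t2 / 16 + lam ^ 4 * F / 4 := by ring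
      have e2 : lam ^ 4 * (a / 8) = lam ^ 4 * (2 * a) / 16 := by ring
      rw [e1, e2]; linarith
    have h7 : lam ^ 4 * (a / 8) = lam ^ 4 * a / 8 := by ring
    rw [hlq] at h4
    linarith
  -- event 2
  have hP2 : Pr N (fun ω => l ≤ stg d (ext ω) t1) ≤ Real.exp (-(x / 40)) := by
    rw [Pr_prefix (ht12.trans ht2N) (fun b => l ≤ stg d b t1) (fun b b' h => by
      simp only [stg]; rw [mrun_congr d h])]
    refine (clock_lower d hd lam l t1).trans (Real.exp_le_exp.2 ?_)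
    rw [← hS, ← hF]
    have h3 : q ≤ S - t1 := by linarith [hsum'.1]
    have h4 : lam ^ 2 * q ≤ lam ^ 2 * (S - t1) := mul_le_mul_of_nonneg_left h3 (by positivity)
    rw [hlq] at h4
    linarith
  -- event 3
  have hP3 : Pr N (fun ω => ∃ t, t1 ≤ t ∧ t ≤ t2 ∧ Real.sqrt a / (2 * x) ≤ |Y ω t - Y ω t1|)
      ≤ 2 * Real.exp (-(x / 40)) := by
    refine (maximal_window N t1 t2 ht12 ht2N (Real.sqrt a / (2 * x)) (by positivity)).trans ?_
    apply mul_le_mul_of_nonneg_left _ (by norm_num)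
    apply Real.exp_le_exp.2
    apply neg_le_neg
    have h12 : 0 < (t2:ℝ) - t1 := by linarith
    rw [le_div_iff₀ (by positivity)]
    have h5 : (t2:ℝ) - t1 ≤ 5 * q := by linarith
    have h6 : (Real.sqrt a / (2 * x)) ^ 2 = a / (4 * x ^ 2) := by
      rw [div_pow, Real.sq_sqrt ha.le]; ring
    rw [h6]
    calc x / 40 * (2 * ((t2:ℝ) - t1)) ≤ x / 40 * (2 * (5 * q)) := by gcongr
      _ = a / (4 * x ^ 2) := by rw [hq]; field_simp; norm_num
  -- combine
  have hcomb : ∀ ω : Fin N → Bool,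
      ¬ (l ≤ stg d (ext ω) N ∧ |Cw d (esig d m N ω) l - Y ω T| ≤ Real.sqrt a / x) →
      stg d (ext ω) t2 < l ∨ (l ≤ stg d (ext ω) t1 ∨
        ∃ t, t1 ≤ t ∧ t ≤ t2 ∧ Real.sqrt a / (2 * x) ≤ |Y ω t - Y ω t1|) := by
    intro ω hneg
    by_contra hc
    push Not at hc
    obtain ⟨h1, h2, h3⟩ := hc
    apply hneg
    refine ⟨h1.trans (stg_mono (ext ω) ht2N), ?_⟩
    obtain ⟨t, htt1, htt2, hvis⟩ := exists_visit hd (ext ω) h2 h1 ht2N
    rw [Cw_esig d m N ω hlm, ← hvis, ← Y_eq_Yi ω (htt2.trans ht2N)]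
    have e1 := h3 t htt1.le htt2
    have e2 := h3 T ht1T hTt2
    have e3 : |Y ω t - Y ω T| ≤ |Y ω t - Y ω t1| + |Y ω T - Y ω t1| := by
      have : Y ω t - Y ω T = (Y ω t - Y ω t1) - (Y ω T - Y ω t1) := by ring
      rw [this]; exact abs_sub _ _
    have e4 : Real.sqrt a / x = Real.sqrt a / (2 * x) + Real.sqrt a / (2 * x) := by
      field_simp; ring
    linarith
  refine (Pr_mono N hcomb).trans ((Pr_or_le N _ _).trans ?_)
  have h4 := Pr_or_le N (fun ω => l ≤ stg d (ext ω) t1)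
    (fun ω => ∃ t, t1 ≤ t ∧ t ≤ t2 ∧ Real.sqrt a / (2 * x) ≤ |Y ω t - Y ω t1|)
  linarith

end Pool.GP
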