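import Pool.Agent.Lib.GP.Scale

set_option autoImplicit false

/-!
Tilt for the canonical probability, a priori lower bound.
-/

namespace Pool.GP

open Finset

lemma sum_inv_le_log (u A : ℕ) (hu : 1 ≤ u) (huA : u ≤ A) :
    ∑ w ∈ Icc u A, 1 / (w:ℝ) ≤ 1 / (u:ℝ) + Real.log ((A:ℝ) / u) := by
  have hu' : (0:ℝ) < u := by exact_mod_cast hu
  induction A, huA using Nat.le_induction with
  | base => simp [div_self hu'.ne']
  | succ A hA ih =>
    rw [Finset.sum_Icc_succ_top (by omega)]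
    have hApos : (0:ℝ) < A := by exact_mod_cast (by omega : 0 < A)
    have h1 : Real.log (((A+1:ℕ):ℝ) / u) = Real.log ((A:ℝ) / u) + Real.log (((A:ℝ) + 1) / A) := by
      rw [← Real.log_mul (by positivity) (by positivity)]
      congr 1
      push_cast
      field_simp
    have h2 := Real.one_sub_inv_le_log_of_pos (show 0 < ((A:ℝ) + 1) / A by positivity)
    have h3 : 1 - (((A:ℝ) + 1) / A)⁻¹ = 1 / (((A+1:ℕ):ℝ)) := by
      push_cast; field_simp; ring
    rw [h1, ← h3]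
    linarith

lemma sqrt_step (v : ℕ) : 2 * (Real.sqrt ((v:ℝ) + 2) - Real.sqrt ((v:ℝ) + 1)) ≤ 1 / Real.sqrt ((v:ℝ) + 1) := by
  have h1 : 0 < Real.sqrt ((v:ℝ) + 1) := Real.sqrt_pos.2 (by positivity)
  have h2 : Real.sqrt ((v:ℝ) + 1) ≤ Real.sqrt ((v:ℝ) + 2) := Real.sqrt_le_sqrt (by linarith)
  have h3 : Real.sqrt ((v:ℝ) + 1) ^ 2 = v + 1 := Real.sq_sqrt (by positivity)
  have h4 : Real.sqrt ((v:ℝ) + 2) ^ 2 = v + 2 := Real.sq_sqrt (by positivity)
  rw [le_div_iff₀ h1]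
  nlinarith [sq_nonneg (Real.sqrt ((v:ℝ) + 2) - Real.sqrt ((v:ℝ) + 1))]

lemma sum_inv_sqrt_ge (v0 u : ℕ) (h : v0 ≤ u) :
    2 * (Real.sqrt ((u:ℝ) + 1) - Real.sqrt ((v0:ℝ) + 1))
      ≤ ∑ v ∈ range u, if v0 ≤ v then 1 / Real.sqrt ((v:ℝ) + 1) else 0 := by
  induction u, h using Nat.le_induction with
  | base =>
    rw [sub_self, mul_zero]
    exact Finset.sum_nonneg fun v _ => by split_ifs <;> positivity
  | succ u hu ih =>
    rw [Finset.sum_range_succ, if_pos hu]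
    have h1 := sqrt_step u
    push_cast
    have h2 : (u:ℝ) + 1 + 1 = u + 2 := by ring
    rw [h2]
    linarith

/-- **Tilt for `G`.** -/
lemma G_tilt (A K1 K2 : ℕ) (h M : ℝ) (p : ℕ) (hh0 : 0 < h) (hh1 : h ≤ 1/4) (hK2 : 1 ≤ K2)
    (hA : 8 * K2 ≤ A) (hM : 0 < M) :
    G A K1 K2 (-h) ≤ M * G A K1 K2 h + K2 * Real.exp (-(h / 4 * Real.sqrt ((A:ℝ) / K2)))
      + Real.exp (((p:ℝ) + 1) ^ 2 * (8 * h ^ 2 * (1 + Real.log (8 * K2)))) / M ^ p := by
  have hK2r : (1:ℝ) ≤ K2 := by exact_mod_cast hK2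
  have hAr : (8:ℝ) * K2 ≤ A := by exact_mod_cast hA
  have hApos : (0:ℝ) < A := by linarith
  set u0 := A / (4 * K2) with hu0
  have hu0ge : 2 ≤ u0 := by
    rw [hu0, Nat.le_div_iff_mul_le (by omega)]; omega
  have hu0le : (u0:ℝ) ≤ A / (4 * K2) := by
    have : ((A / (4 * K2) : ℕ) : ℝ) ≤ (A:ℝ) / ((4 * K2 : ℕ) : ℝ) := Nat.cast_div_le
    push_cast at this; exact this
  have hu0A : u0 ≤ A := Nat.div_le_self _ _
  have hu0low : (A:ℝ) / u0 ≤ 8 * K2 := by
    have h1 := Nat.lt_div_mul_add (a := A) (b := 4 * K2) (by omega)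
    have h2 : (A:ℝ) < u0 * (4 * K2) + 4 * K2 := by
      have : ((A:ℕ):ℝ) < ((A / (4 * K2) * (4 * K2) + 4 * K2 : ℕ) : ℝ) := by exact_mod_cast h1
      push_cast at this
      exact this
    have h3 : (2:ℝ) ≤ u0 := by exact_mod_cast hu0ge
    rw [div_le_iff₀ (by linarith)]
    nlinarith
  set v0 := u0 - 1 with hv0
  have hv0u0 : (v0:ℝ) + 1 = u0 := by
    rw [hv0]; rw [Nat.cast_sub (by omega)]; simp
  set b : ℕ → ℝ := fun v => if v0 ≤ v then 4 * h * (1 / Real.sqrt ((v:ℝ) + 1)) else 0 with hb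
  have hb0 : ∀ v, 0 ≤ b v := by
    intro v; simp only [hb]; split_ifs <;> positivity
  have hb1 : ∀ v, b v ≤ 1 := by
    intro v; simp only [hb]
    split_ifs
    · have h1 : (1:ℝ) ≤ Real.sqrt ((v:ℝ) + 1) := by
        rw [Real.one_le_sqrt]; have : (0:ℝ) ≤ v := by positivity
        linarith
      have h2 : 1 / Real.sqrt ((v:ℝ) + 1) ≤ 1 := by
        rw [div_le_one (by linarith)]; exact h1
      have h3 : 0 ≤ 1 / Real.sqrt ((v:ℝ) + 1) := by positivity
      nlinarith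
    · norm_num
  have hbsum : ∀ i ∈ Icc 1 K2, 2 * h * Real.sqrt ((A:ℝ) / i) ≤ (∑ v ∈ range (A / i), b v) / 2 := by
    intro i hi
    rw [Finset.mem_Icc] at hi
    have hipos : (0:ℝ) < i := by exact_mod_cast hi.1
    have hiK : (i:ℝ) ≤ K2 := by exact_mod_cast hi.2
    have h1 : ∑ v ∈ range (A / i), b v
        = 4 * h * ∑ v ∈ range (A / i), (if v0 ≤ v then 1 / Real.sqrt ((v:ℝ) + 1) else 0) := by
      rw [Finset.mul_sum]
      refine Finset.sum_congr rfl fun v _ => ?_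
      simp only [hb]; split_ifs <;> simp
    have hv0le : v0 ≤ A / i := by
      have : u0 ≤ A / i := by
        rw [hu0]; exact Nat.div_le_div_left (by omega) (by omega)
      omega
    have h2 := sum_inv_sqrt_ge v0 (A / i) hv0le
    rw [hv0u0] at h2
    have h3 : Real.sqrt ((A:ℝ) / i) ≤ Real.sqrt (((A / i : ℕ):ℝ) + 1) := by
      apply Real.sqrt_le_sqrt
      have := Nat.lt_div_mul_add (a := A) (b := i) (by omega)
      rw [div_le_iff₀ hipos]
      have h2 : (A:ℝ) < (A / i : ℕ) * i + i := by exact_mod_cast this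
      nlinarith
    have h4 : Real.sqrt (u0:ℝ) ≤ Real.sqrt ((A:ℝ) / i) / 2 := by
      have : Real.sqrt ((A:ℝ) / i) / 2 = Real.sqrt ((A:ℝ) / i / 4) := by
        rw [Real.sqrt_div (by positivity) 4]
        congr 1
        rw [show (4:ℝ) = 2 ^ 2 by norm_num, Real.sqrt_sq (by norm_num)]
      rw [this]
      apply Real.sqrt_le_sqrt
      refine hu0le.trans ?_
      rw [div_div]
      apply div_le_div_of_nonneg_left hApos.le (by positivity)
      linarith
    rw [h1]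
    have h5 : Real.sqrt ((A:ℝ) / i) ≤ ∑ v ∈ range (A / i), (if v0 ≤ v then 1 / Real.sqrt ((v:ℝ) + 1) else 0) := by
      linarith
    nlinarith
  set bad : (Fin A → Bool) → (Fin A → Bool) → Prop := fun ω F =>
    ∃ i ∈ Icc 1 K2, zc (A / i) ω F < h * Real.sqrt ((A:ℝ) / i) with hbad
  have hδ : J A b (fun ω F => ind (bad ω F)) ≤ K2 * Real.exp (-(h / 4 * Real.sqrt ((A:ℝ) / K2))) := by
    have h1 : ∀ ω F : Fin A → Bool, ind (bad ω F)
        ≤ ∑ i ∈ Icc 1 K2, ind (zc (A / i) ω F < h * Real.sqrt ((A:ℝ) / i)) := by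
      intro ω F
      by_cases hb' : bad ω F
      · rw [ind_of hb']
        obtain ⟨i, hi, hz⟩ := hb'
        calc (1:ℝ) = ind (zc (A / i) ω F < h * Real.sqrt ((A:ℝ) / i)) := (ind_of hz).symm
          _ ≤ _ := Finset.single_le_sum (f := fun i => ind (zc (A / i) ω F < h * Real.sqrt ((A:ℝ) / i)))
            (fun j _ => ind_nonneg _) hi
      · rw [ind_not hb']
        exact Finset.sum_nonneg fun j _ => ind_nonneg _
    refine (J_mono hb0 hb1 h1).trans ?_
    have h2 : J A b (fun ω F => ∑ i ∈ Icc 1 K2, ind (zc (A / i) ω F < h * Real.sqrt ((A:ℝ) / i)))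
        = ∑ i ∈ Icc 1 K2, J A b (fun ω F => ind (zc (A / i) ω F < h * Real.sqrt ((A:ℝ) / i))) := by
      unfold J
      simp only [Finset.mul_sum]
      rw [← E_sum]
      refine E_congr A fun ω => ?_
      rw [E_sum]
    rw [h2]
    have h3 : ∀ i ∈ Icc 1 K2, J A b (fun ω F => ind (zc (A / i) ω F < h * Real.sqrt ((A:ℝ) / i)))
        ≤ Real.exp (-(h / 4 * Real.sqrt ((A:ℝ) / K2))) := by
      intro i hi
      have hi' := Finset.mem_Icc.1 hi
      have hipos : (0:ℝ) < i := by exact_mod_cast hi'.1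
      have h4 := J_flips A b hb0 hb1 (A / i) (Nat.div_le_self _ _) (2 * h * Real.sqrt ((A:ℝ) / i))
        (by positivity) (hbsum i hi)
      have e1 : 2 * h * Real.sqrt ((A:ℝ) / i) / 2 = h * Real.sqrt ((A:ℝ) / i) := by ring
      rw [e1] at h4
      refine h4.trans (Real.exp_le_exp.2 (neg_le_neg ?_))
      have e2 : 2 * h * Real.sqrt ((A:ℝ) / i) / 8 = h / 4 * Real.sqrt ((A:ℝ) / i) := by ring
      rw [e2]
      apply mul_le_mul_of_nonneg_left _ (by positivity)
      apply Real.sqrt_le_sqrt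
      apply div_le_div_of_nonneg_left hApos.le hipos
      exact_mod_cast hi'.2
    refine (Finset.sum_le_sum h3).trans (le_of_eq ?_)
    rw [Finset.sum_const, Nat.card_Icc, nsmul_eq_mul]
    norm_num
  have hdet : ∀ ω F : Fin A → Bool, (∀ k ∈ Icc K1 K2, -h * Real.sqrt ((A:ℝ) * k) ≤ ZI A 1 ω k) →
      ¬ bad ω F → (∀ k ∈ Icc K1 K2, h * Real.sqrt ((A:ℝ) * k) ≤ ZI A 1 (orv ω F) k) := by
    intro ω F hω hgood k hk
    have hk' := Finset.mem_Icc.1 hk
    simp only [hbad] at hgood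
    push Not at hgood
    have h1 := hω k hk
    have h2 : ZI A 1 (orv ω F) k = ZI A 1 ω k + ∑ i ∈ Icc 1 k, 2 * zc (A / i) ω F := by
      unfold ZI
      rw [← Finset.sum_add_distrib]
      exact Finset.sum_congr rfl fun i _ => Y_orv (A / i) ω F
    have h3 : ∑ i ∈ Icc 1 k, 2 * (h * Real.sqrt ((A:ℝ) / i)) ≤ ∑ i ∈ Icc 1 k, 2 * zc (A / i) ω F := by
      refine Finset.sum_le_sum fun i hi => ?_
      have hi' := Finset.mem_Icc.1 hi
      have := hgood i (Finset.mem_Icc.2 ⟨hi'.1, hi'.2.trans hk'.2⟩)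
      linarith
    have h4 : 2 * h * Real.sqrt ((A:ℝ) * k) ≤ ∑ i ∈ Icc 1 k, 2 * (h * Real.sqrt ((A:ℝ) / i)) := by
      have e1 : ∑ i ∈ Icc 1 k, 2 * (h * Real.sqrt ((A:ℝ) / i))
          = 2 * h * Real.sqrt A * ∑ i ∈ Icc 1 k, 1 / Real.sqrt i := by
        rw [Finset.mul_sum]
        refine Finset.sum_congr rfl fun i _ => ?_
        rw [Real.sqrt_div hApos.le]; ring
      rw [e1, Real.sqrt_mul hApos.le]
      calc 2 * h * (Real.sqrt A * Real.sqrt k) = 2 * h * Real.sqrt A * Real.sqrt k := by ring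
        _ ≤ _ := mul_le_mul_of_nonneg_left (sqrt_le_sum_inv_sqrt k) (by positivity)
    rw [h2]
    linarith
  have hmain := tilt_abstract A b hb0 hb1
    (fun ω => ∀ k ∈ Icc K1 K2, -h * Real.sqrt ((A:ℝ) * k) ≤ ZI A 1 ω k)
    (fun ω => ∀ k ∈ Icc K1 K2, h * Real.sqrt ((A:ℝ) * k) ≤ ZI A 1 ω k) bad hdet _ M hM p hδ
  have hS : (∑ v ∈ range A, b v ^ 2) ≤ 16 * h ^ 2 * (1 + Real.log (8 * K2)) := by
    have h1 : ∑ v ∈ range A, b v ^ 2 = 16 * h ^ 2 * ∑ v ∈ range A, (if v0 ≤ v then 1 / ((v:ℝ) + 1) else 0) := by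
      rw [Finset.mul_sum]
      refine Finset.sum_congr rfl fun v _ => ?_
      simp only [hb]
      split_ifs
      · rw [mul_pow, div_pow, Real.sq_sqrt (by positivity)]; ring
      · simp
    have h2 : ∑ v ∈ range A, (if v0 ≤ v then 1 / ((v:ℝ) + 1) else 0) ≤ ∑ w ∈ Icc u0 A, 1 / (w:ℝ) := by
      rw [← Finset.sum_filter]
      have h3 : ∑ w ∈ Icc u0 A, 1 / (w:ℝ) = ∑ v ∈ filter (fun v => v0 ≤ v) (range A), 1 / (((v+1 : ℕ)):ℝ) := by
        refine Finset.sum_bij' (fun w _ => w - 1) (fun v _ => v + 1) ?_ ?_ ?_ ?_ ?_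
        · intro w hw
          rw [Finset.mem_Icc] at hw
          rw [Finset.mem_filter, Finset.mem_range]
          omega
        · intro v hv
          rw [Finset.mem_filter, Finset.mem_range] at hv
          rw [Finset.mem_Icc]
          omega
        · intro w hw
          rw [Finset.mem_Icc] at hw
          omega
        · intro v hv; omega
        · intro w hw
          rw [Finset.mem_Icc] at hw
          have : w - 1 + 1 = w := by omega
          rw [this]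
      rw [h3]
      apply le_of_eq
      refine Finset.sum_congr rfl fun v _ => ?_
      push_cast; rfl
    have h4 := sum_inv_le_log u0 A (by omega) hu0A
    have h5 : 1 / (u0:ℝ) ≤ 1 := by
      have : (2:ℝ) ≤ u0 := by exact_mod_cast hu0ge
      rw [div_le_one (by linarith)]; linarith
    have h6 : Real.log ((A:ℝ) / u0) ≤ Real.log (8 * K2) := by
      apply Real.log_le_log _ hu0low
      have : (2:ℝ) ≤ u0 := by exact_mod_cast hu0ge
      positivity
    rw [h1]
    apply mul_le_mul_of_nonneg_left _ (by positivity)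
    linarith
  have hexp : Real.exp (((p:ℝ) + 1) ^ 2 * (∑ v ∈ range A, b v ^ 2) / 2) / M ^ p
      ≤ Real.exp (((p:ℝ) + 1) ^ 2 * (8 * h ^ 2 * (1 + Real.log (8 * K2)))) / M ^ p := by
    apply div_le_div_of_nonneg_right _ (by positivity)
    apply Real.exp_le_exp.2
    have := mul_le_mul_of_nonneg_left hS (by positivity : (0:ℝ) ≤ ((p:ℝ) + 1) ^ 2)
    linarith
  unfold G
  linarith

end Pool.GP
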