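import Pool.Agent.Lib.GP.Sums

set_option autoImplicit false

/-!
Skorokhod embedding of a weighted sign walk into the simple walk, as a state machine.
State `(l, x)`: `l` completed stages, displacement `x` inside the current stage; the stage is
completed when `|x|` reaches `d l`.
-/

namespace Pool.GP

open Finset

/-- integer sign -/
def si (b : Bool) : ℤ := if b then 1 else -1

@[simp] lemma si_true : si true = 1 := rfl
@[simp] lemma si_false : si false = -1 := rfl

lemma sg_eq_si (b : Bool) : sg b = (si b : ℝ) := by cases b <;> simp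

lemma si_xor (a b : Bool) : si (xor a b) = - (si a * si b) := by cases a <;> cases b <;> simp

/-- extension of a finite sign vector by `false` -/
def ext {n : ℕ} (ω : Fin n → Bool) : ℕ → Bool := fun t => if h : t < n then ω ⟨t, h⟩ else false

lemma ext_lt {n : ℕ} (ω : Fin n → Bool) {t : ℕ} (h : t < n) : ext ω t = ω ⟨t, h⟩ := by
  simp [ext, h]

lemma ext_snoc_lt {n : ℕ} (ω : Fin n → Bool) (b : Bool) {t : ℕ} (h : t < n) :
    ext (Fin.snoc ω b : Fin (n+1) → Bool) t = ext ω t := by
  rw [ext_lt _ (by omega : t < n+1), ext_lt _ h]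
  have : (⟨t, by omega⟩ : Fin (n+1)) = Fin.castSucc ⟨t, h⟩ := rfl
  rw [this, Fin.snoc_castSucc]

lemma ext_snoc_last {n : ℕ} (ω : Fin n → Bool) (b : Bool) :
    ext (Fin.snoc ω b : Fin (n+1) → Bool) n = b := by
  rw [ext_lt _ (by omega : n < n+1)]
  have : (⟨n, by omega⟩ : Fin (n+1)) = Fin.last n := rfl
  rw [this, Fin.snoc_last]

/-- one step of the machine -/
def mstep (d : ℕ → ℕ) (s : ℕ × ℤ) (b : Bool) : ℕ × ℤ :=
  if (d s.1 : ℤ) ≤ |s.2 + si b| then (s.1 + 1, 0) else (s.1, s.2 + si b)

/-- run of the machine -/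
def mrun (d : ℕ → ℕ) (b : ℕ → Bool) : ℕ → ℕ × ℤ
  | 0 => (0, 0)
  | t+1 => mstep d (mrun d b t) (b t)

/-- the recorded exit signs -/
def msig (d : ℕ → ℕ) (b : ℕ → Bool) : ℕ → ℕ → Bool
  | 0 => fun _ => true
  | t+1 => fun l => if (d (mrun d b t).1 : ℤ) ≤ |(mrun d b t).2 + si (b t)| ∧ l = (mrun d b t).1
      then b t else msig d b t l

/-- stage at time `t` -/
def stg (d : ℕ → ℕ) (b : ℕ → Bool) (t : ℕ) : ℕ := (mrun d b t).1

/-- integer walk -/
def Yi (b : ℕ → Bool) (t : ℕ) : ℤ := ∑ v ∈ range t, si (b v)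

lemma mrun_congr (d : ℕ → ℕ) {b b' : ℕ → Bool} {t : ℕ} (h : ∀ v < t, b v = b' v) :
    mrun d b t = mrun d b' t := by
  induction t with
  | zero => rfl
  | succ t ih =>
    simp only [mrun]
    rw [ih (fun v hv => h v (by omega)), h t (by omega)]

lemma msig_congr (d : ℕ → ℕ) {b b' : ℕ → Bool} {t : ℕ} (h : ∀ v < t, b v = b' v) :
    msig d b t = msig d b' t := by
  induction t with
  | zero => rfl
  | succ t ih =>
    simp only [msig]
    rw [ih (fun v hv => h v (by omega)), h t (by omega),
      mrun_congr d (t := t) (fun v hv => h v (by omega))]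

variable {d : ℕ → ℕ} (hd : ∀ l, 1 ≤ d l)

include hd

lemma mrun_abs_lt (b : ℕ → Bool) (t : ℕ) : |(mrun d b t).2| < d (mrun d b t).1 := by
  induction t with
  | zero =>
    simp only [mrun]
    have := hd 0
    rw [abs_zero]; exact_mod_cast (by omega : 0 < d 0)
  | succ t ih =>
    simp only [mrun, mstep]
    split_ifs with h
    · have := hd ((mrun d b t).1 + 1)
      simp only [abs_zero]; exact_mod_cast (by omega : 0 < d ((mrun d b t).1 + 1))
    · push Not at h
      exact h

omit hd in
lemma abs_si (b : Bool) : |si b| = 1 := by cases b <;> simp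

/-- at an exit the displacement has absolute value exactly `d l` and the sign of the last bit -/
lemma exit_eq (b : ℕ → Bool) (t : ℕ)
    (h : (d (mrun d b t).1 : ℤ) ≤ |(mrun d b t).2 + si (b t)|) :
    (mrun d b t).2 + si (b t) = d (mrun d b t).1 * si (b t) := by
  have h1 := mrun_abs_lt hd b t
  rw [abs_lt] at h1
  obtain ⟨h2, h3⟩ := h1
  rcases hb : b t with _ | _
  · rw [hb] at h
    simp only [si_false] at h ⊢
    rcases abs_cases ((mrun d b t).2 + -1) with ⟨h4, h5⟩ | ⟨h4, h5⟩
    · rw [h4] at h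
      omega
    · rw [h4] at h
      omega
  · rw [hb] at h
    simp only [si_true] at h ⊢
    rcases abs_cases ((mrun d b t).2 + 1) with ⟨h4, h5⟩ | ⟨h4, h5⟩
    · rw [h4] at h
      omega
    · rw [h4] at h
      omega

omit hd in
lemma stg_succ (b : ℕ → Bool) (t : ℕ) : stg d b t ≤ stg d b (t+1) ∧ stg d b (t+1) ≤ stg d b t + 1 := by
  simp only [stg, mrun, mstep]
  split_ifs <;> simp

omit hd in
lemma stg_mono (b : ℕ → Bool) : Monotone (stg d b) :=
  monotone_nat_of_le_succ fun t => (stg_succ b t).1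

omit hd in
lemma stg_le (b : ℕ → Bool) (t : ℕ) : stg d b t ≤ t := by
  induction t with
  | zero => simp [stg, mrun]
  | succ t ih => have := (stg_succ (d := d) b t).2; omega

omit hd in
/-- recorded signs are stable -/
lemma msig_stable (b : ℕ → Bool) {t t' : ℕ} (h : t ≤ t') {l : ℕ} (hl : l < stg d b t) :
    msig d b t' l = msig d b t l := by
  induction t', h using Nat.le_induction with
  | base => rfl
  | succ t' ht ih =>
    simp only [msig]
    rw [if_neg, ih]
    rintro ⟨-, h2⟩
    have := stg_mono (d := d) b ht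
    simp only [stg] at this hl
    omega

/-- position = completed stages + displacement -/
lemma Yi_eq (b : ℕ → Bool) (t : ℕ) :
    Yi b t = ∑ l ∈ range (stg d b t), (d l : ℤ) * si (msig d b t l) + (mrun d b t).2 := by
  induction t with
  | zero => simp [Yi, stg, mrun]
  | succ t ih =>
    have h1 : Yi b (t+1) = Yi b t + si (b t) := by simp [Yi, Finset.sum_range_succ]
    rw [h1, ih]
    by_cases h : (d (mrun d b t).1 : ℤ) ≤ |(mrun d b t).2 + si (b t)|
    · have h2 : stg d b (t+1) = stg d b t + 1 := by simp [stg, mrun, mstep, h]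
      have h3 : (mrun d b (t+1)).2 = 0 := by simp [mrun, mstep, h]
      rw [h2, h3, Finset.sum_range_succ, add_assoc, exit_eq hd b t h, add_zero]
      congr 1
      · refine Finset.sum_congr rfl fun l hl => ?_
        rw [Finset.mem_range] at hl
        rw [msig_stable b (Nat.le_succ t) hl]
      · simp [msig, h, stg]
    · have h2 : stg d b (t+1) = stg d b t := by simp [stg, mrun, mstep, h]
      have h3 : (mrun d b (t+1)).2 = (mrun d b t).2 + si (b t) := by simp [mrun, mstep, h]
      rw [h2, h3, add_assoc]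
      congr 1
      refine Finset.sum_congr rfl fun l hl => ?_
      rw [Finset.mem_range] at hl
      rw [msig_stable b (Nat.le_succ t) hl]

/-- The coarse walk is visited by the fine walk between times `t1` and `t2`. -/
lemma exists_visit (b : ℕ → Bool) {t1 t2 n l : ℕ} (h1 : stg d b t1 < l) (h2 : l ≤ stg d b t2)
    (hn : t2 ≤ n) :
    ∃ t, t1 < t ∧ t ≤ t2 ∧ Yi b t = ∑ l' ∈ range l, (d l' : ℤ) * si (msig d b n l') := by
  classical
  have hex : ∃ t, l ≤ stg d b t := ⟨t2, h2⟩
  set t := Nat.find hex with ht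
  have htl : l ≤ stg d b t := Nat.find_spec hex
  have ht2 : t ≤ t2 := Nat.find_min' hex h2
  have ht1 : t1 < t := by
    by_contra hcon
    push Not at hcon
    have := stg_mono (d := d) b hcon
    omega
  have hpos : 0 < t := by omega
  obtain ⟨s, hs⟩ : ∃ s, t = s + 1 := ⟨t - 1, by omega⟩
  have hsl : stg d b s < l := by
    have := Nat.find_min hex (m := s) (by omega)
    omega
  have hst := stg_succ (d := d) b s
  have heq : stg d b t = l := by rw [hs] at htl ⊢; omega
  have hexit : (d (mrun d b s).1 : ℤ) ≤ |(mrun d b s).2 + si (b s)| := by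
    by_contra hc
    have : stg d b (s+1) = stg d b s := by simp [stg, mrun, mstep, hc]
    rw [hs] at heq; omega
  have hx : (mrun d b t).2 = 0 := by rw [hs]; simp [mrun, mstep, hexit]
  refine ⟨t, ht1, ht2, ?_⟩
  rw [Yi_eq hd b t, heq, hx, add_zero]
  refine Finset.sum_congr rfl fun l' hl' => ?_
  rw [Finset.mem_range] at hl'
  rw [msig_stable b (ht2.trans hn) (by rw [heq]; exact hl')]

omit hd in
/-- stage flip -/
def fl (d : ℕ → ℕ) (σ : ℕ → Bool) (b : ℕ → Bool) : ℕ → Bool := fun t => xor (b t) (σ (stg d b t))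

omit hd in
/-- effect of the flip on the machine -/
lemma mrun_fl (σ b : ℕ → Bool) (t : ℕ) :
    mrun d (fl d σ b) t = ((mrun d b t).1, (if σ (mrun d b t).1 then -1 else 1) * (mrun d b t).2) := by
  induction t with
  | zero => simp [mrun]
  | succ t ih =>
    have hbit : fl d σ b t = xor (b t) (σ (mrun d b t).1) := rfl
    simp only [mrun, mstep, ih, hbit]
    have hx : (if σ (mrun d b t).1 then (-1:ℤ) else 1) * (mrun d b t).2
        + si (xor (b t) (σ (mrun d b t).1))
        = (if σ (mrun d b t).1 then (-1:ℤ) else 1) * ((mrun d b t).2 + si (b t)) := by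
      cases σ (mrun d b t).1 <;> cases b t <;> simp <;> ring
    rw [hx, abs_mul]
    have h1 : |(if σ (mrun d b t).1 then (-1:ℤ) else 1)| = 1 := by split_ifs <;> simp
    rw [h1, one_mul]
    split_ifs with h2 h3 h3 <;> simp_all

omit hd in
lemma stg_fl (σ b : ℕ → Bool) (t : ℕ) : stg d (fl d σ b) t = stg d b t := by
  simp [stg, mrun_fl]

omit hd in
lemma fl_fl (σ b : ℕ → Bool) : fl d σ (fl d σ b) = b := by
  ext t
  have h := stg_fl (d := d) σ b t
  change xor (fl d σ b t) (σ (stg d (fl d σ b) t)) = b t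
  rw [h]
  change xor (xor (b t) (σ (stg d b t))) (σ (stg d b t)) = b t
  cases b t <;> cases σ (stg d b t) <;> simp

omit hd in
lemma msig_fl (σ b : ℕ → Bool) (t l : ℕ) (hl : l < stg d b t) :
    msig d (fl d σ b) t l = xor (msig d b t l) (σ l) := by
  induction t with
  | zero => simp [stg, mrun] at hl
  | succ t ih =>
    simp only [msig]
    have hm : mrun d (fl d σ b) t = ((mrun d b t).1, (if σ (mrun d b t).1 then -1 else 1) * (mrun d b t).2) :=
      mrun_fl σ b t
    have hbit : fl d σ b t = xor (b t) (σ (mrun d b t).1) := rfl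
    have hx : (if σ (mrun d b t).1 then (-1:ℤ) else 1) * (mrun d b t).2
        + si (xor (b t) (σ (mrun d b t).1))
        = (if σ (mrun d b t).1 then (-1:ℤ) else 1) * ((mrun d b t).2 + si (b t)) := by
      cases σ (mrun d b t).1 <;> cases b t <;> simp <;> ring
    have h1 : |(if σ (mrun d b t).1 then (-1:ℤ) else 1)| = 1 := by split_ifs <;> simp
    rw [hm, hbit]
    simp only
    rw [hx, abs_mul, h1, one_mul]
    by_cases h : (d (mrun d b t).1 : ℤ) ≤ |(mrun d b t).2 + si (b t)| ∧ l = (mrun d b t).1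
    · rw [if_pos h, if_pos h, h.2]
    · rw [if_neg h, if_neg h]
      apply ih
      by_contra hc
      apply h
      have hs := stg_succ (d := d) b t
      simp only [stg] at hl hc hs ⊢
      refine ⟨?_, by omega⟩
      by_contra hc2
      have : (mrun d b (t+1)).1 = (mrun d b t).1 := by simp [mrun, mstep, hc2]
      omega

omit hd in
lemma fl_inv_aux (d : ℕ → ℕ) (σ : ℕ → Bool) (n : ℕ) (ω : Fin n → Bool) :
    (fun t : Fin n => fl d σ (ext (fun t : Fin n => fl d σ (ext ω) t)) t) = ω := by
  have h : ∀ t < n, ext (fun t : Fin n => fl d σ (ext ω) t) t = fl d σ (ext ω) t := by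
    intro t ht
    rw [ext_lt _ ht]
  ext t
  have h1 : stg d (ext (fun t : Fin n => fl d σ (ext ω) t)) t = stg d (fl d σ (ext ω)) t := by
    simp only [stg]
    rw [mrun_congr d (fun v hv => h v (by omega))]
  change xor (ext (fun t : Fin n => fl d σ (ext ω) t) t)
    (σ (stg d (ext (fun t : Fin n => fl d σ (ext ω) t)) t)) = ω t
  rw [h1, h t t.2]
  change fl d σ (fl d σ (ext ω)) t = ω t
  rw [fl_fl, ext_lt _ t.2]

/-- The flip as a bijection of finite sign vectors. -/
def flE (d : ℕ → ℕ) (σ : ℕ → Bool) (n : ℕ) : (Fin n → Bool) ≃ (Fin n → Bool) where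
  toFun ω := fun t => fl d σ (ext ω) t
  invFun ω := fun t => fl d σ (ext ω) t
  left_inv ω := fl_inv_aux d σ n ω
  right_inv ω := fl_inv_aux d σ n ω

omit hd in
lemma ext_flE (σ : ℕ → Bool) (n : ℕ) (ω : Fin n → Bool) {t : ℕ} (ht : t < n) :
    ext (flE d σ n ω) t = fl d σ (ext ω) t := by
  rw [ext_lt _ ht]; rfl

omit hd in
lemma stg_flE (σ : ℕ → Bool) (n : ℕ) (ω : Fin n → Bool) {t : ℕ} (ht : t ≤ n) :
    stg d (ext (flE d σ n ω)) t = stg d (ext ω) t := by
  have : mrun d (ext (flE d σ n ω)) t = mrun d (fl d σ (ext ω)) t :=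
    mrun_congr d fun v hv => ext_flE σ n ω (by omega)
  simp only [stg, this]
  exact stg_fl σ (ext ω) t

/-- xor with a fixed vector -/
def xorE {m : ℕ} (e : Fin m → Bool) : (Fin m → Bool) ≃ (Fin m → Bool) where
  toFun ω := fun j => xor (e j) (ω j)
  invFun ω := fun j => xor (e j) (ω j)
  left_inv ω := by ext j; cases e j <;> simp
  right_inv ω := by ext j; cases e j <;> simp

omit hd in
/-- exit signs of the first `m` stages, read at time `n` -/
def esig (d : ℕ → ℕ) (m n : ℕ) (ω : Fin n → Bool) : Fin m → Bool := fun l => msig d (ext ω) n l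

omit hd in
/-- **Law of the embedded signs**. -/
lemma law_esig (d : ℕ → ℕ) (m n : ℕ) (F : (Fin m → Bool) → ℝ) :
    E n (fun ω => F (esig d m n ω) * ind (m ≤ stg d (ext ω) n))
      = Pr n (fun ω => m ≤ stg d (ext ω) n) * E m F := by
  have h1 : ∀ σ : Fin m → Bool, E n (fun ω => F (esig d m n ω) * ind (m ≤ stg d (ext ω) n))
      = E n (fun ω => F (xorE (esig d m n ω) σ) * ind (m ≤ stg d (ext ω) n)) := by
    intro σ
    rw [← E_equiv n (flE d (ext σ) n)]
    refine E_congr n fun ω => ?_
    rw [stg_flE (ext σ) n ω le_rfl]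
    by_cases h : m ≤ stg d (ext ω) n
    · congr 2
      ext l
      have h2 : msig d (ext (flE d (ext σ) n ω)) n = msig d (fl d (ext σ) (ext ω)) n :=
        msig_congr d fun v hv => ext_flE (ext σ) n ω hv
      simp only [esig, xorE, Equiv.coe_fn_mk]
      rw [h2, msig_fl (ext σ) (ext ω) n l (lt_of_lt_of_le l.2 h), ext_lt _ l.2]
    · rw [ind_not h, mul_zero, mul_zero]
  have h2 : E n (fun ω => F (esig d m n ω) * ind (m ≤ stg d (ext ω) n))
      = E m (fun σ => E n (fun ω => F (xorE (esig d m n ω) σ) * ind (m ≤ stg d (ext ω) n))) := by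
    rw [← E_const m (E n (fun ω => F (esig d m n ω) * ind (m ≤ stg d (ext ω) n)))]
    exact E_congr m fun σ => h1 σ
  rw [h2]
  have h3 : E m (fun σ => E n (fun ω => F (xorE (esig d m n ω) σ) * ind (m ≤ stg d (ext ω) n)))
      = E n (fun ω => E m (fun σ => F (xorE (esig d m n ω) σ) * ind (m ≤ stg d (ext ω) n))) := by
    unfold E
    rw [← Finset.sum_div, ← Finset.sum_div, Finset.sum_comm]
    ring
  rw [h3]
  have h4 : ∀ ω : Fin n → Bool,
      E m (fun σ => F (xorE (esig d m n ω) σ) * ind (m ≤ stg d (ext ω) n))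
      = ind (m ≤ stg d (ext ω) n) * E m F := by
    intro ω
    rw [E_mul_right, E_equiv m (xorE (esig d m n ω)) F, mul_comm]
  simp only [h4]
  rw [E_mul_right]
  rfl

end Pool.GP
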