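import Pool.Agent.Lib.GP.TScale

set_option autoImplicit false

/-!
Independence of `A` and scale invariance of `G` up to a factor `2`.
-/

namespace Pool.GP

open Finset Filter

lemma poly_exp_small (c b ε : ℝ) (n : ℕ) (hb : 0 < b) (hε : 0 < ε) :
    ∃ X : ℝ, ∀ x ≥ X, c * x ^ n * Real.exp (-(b * x)) ≤ ε := by
  have h1 : Tendsto (fun x : ℝ => c * (x ^ (n:ℝ) * Real.exp (-b * x))) atTop (nhds (c * 0)) :=
    (tendsto_rpow_mul_exp_neg_mul_atTop_nhds_zero (n:ℝ) b hb).const_mul c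
  rw [mul_zero] at h1
  have h2 := h1.eventually (eventually_le_nhds hε)
  obtain ⟨X, hX⟩ := eventually_atTop.1 h2
  refine ⟨max X 0, fun x hx => ?_⟩
  have h3 := hX x ((le_max_left _ _).trans hx)
  rw [Real.rpow_natCast] at h3
  calc c * x ^ n * Real.exp (-(b * x)) = c * (x ^ n * Real.exp (-b * x)) := by
        rw [mul_assoc, neg_mul]
    _ ≤ ε := h3

/-- the tilt with a constant factor and tiny errors -/
lemma tilt_const (m c : ℕ) : ∃ X : ℝ, 4 * (c + 1) ≤ X ∧ ∀ x ≥ X, ∀ (K1 K2 A : ℕ), 1 ≤ K2 →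
    (K2:ℝ) ≤ x ^ m → x ^ 20 * K2 ≤ A →
    G A K1 K2 (-(((c:ℝ) + 1) / x)) ≤ 5 / 4 * G A K1 K2 (((c:ℝ) + 1) / x) + Real.exp (-(x / 40)) := by
  set N : ℕ := ⌈(32:ℝ) * (c + 1) ^ 2⌉₊ with hN
  set c1 : ℝ := Real.exp (N * (1 + Real.log 8)) with hc1
  -- second error
  obtain ⟨X1, hX1⟩ := poly_exp_small (2 * c1) (1/6) (1/2) (N * m) (by norm_num) (by norm_num)
  obtain ⟨X2, hX2⟩ := poly_exp_small 1 (1/40) (1/2) m (by norm_num) (by norm_num)
  refine ⟨max (4 * (c + 1)) (max X1 (max X2 8)), le_max_left _ _, ?_⟩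
  intro x hx K1 K2 A hK2 hK2x hA
  have hxc : 4 * ((c:ℝ) + 1) ≤ x := (le_max_left _ _).trans hx
  have hxX1 : X1 ≤ x := (le_max_left _ _).trans ((le_max_right _ _).trans hx)
  have hxX2 : X2 ≤ x := (le_max_left _ _).trans ((le_max_right _ _).trans ((le_max_right _ _).trans hx))
  have hx8 : 8 ≤ x := (le_max_right _ _).trans ((le_max_right _ _).trans ((le_max_right _ _).trans hx))
  have hx0 : 0 < x := by linarith
  have hK2r : (1:ℝ) ≤ K2 := by exact_mod_cast hK2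
  have hK2pos : (0:ℝ) < K2 := by linarith
  have hcpos : (0:ℝ) < (c:ℝ) + 1 := by positivity
  set H : ℝ := ((c:ℝ) + 1) / x with hH
  have hHpos : 0 < H := by positivity
  have hH4 : H ≤ 1 / 4 := by
    rw [hH, div_le_div_iff₀ hx0 (by norm_num)]; linarith
  have hx20 : 8 ≤ x ^ 20 := by
    calc (8:ℝ) ≤ x := hx8
      _ = x ^ 1 := (pow_one x).symm
      _ ≤ x ^ 20 := pow_le_pow_right₀ (by linarith) (by norm_num)
  have h8A : 8 * K2 ≤ A := by
    have : (8:ℝ) * K2 ≤ A := (mul_le_mul_of_nonneg_right hx20 hK2pos.le).trans hA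
    exact_mod_cast this
  set p : ℕ := ⌊x⌋₊ with hp
  have hp1 : (p:ℝ) ≤ x := Nat.floor_le hx0.le
  have hp2 : x < p + 1 := Nat.lt_floor_add_one x
  have key := G_tilt A K1 K2 H (5/4) p hHpos hH4 hK2 h8A (by norm_num)
  refine key.trans ?_
  have e1 : (K2:ℝ) * Real.exp (-(H / 4 * Real.sqrt ((A:ℝ) / K2))) ≤ 1 / 2 * Real.exp (-(x / 40)) := by
    have h1 : x ^ 10 ≤ Real.sqrt ((A:ℝ) / K2) := by
      apply Real.le_sqrt_of_sq_le
      rw [le_div_iff₀ hK2pos]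
      calc (x ^ 10) ^ 2 * K2 = x ^ 20 * K2 := by ring
        _ ≤ (A:ℝ) := hA
    have h2 : x / 20 ≤ H / 4 * Real.sqrt ((A:ℝ) / K2) := by
      calc x / 20 ≤ H / 4 * x ^ 10 := by
            have : H / 4 * x ^ 10 = ((c:ℝ) + 1) / 4 * x ^ 9 := by rw [hH]; field_simp
            rw [this]
            have h3 : x ≤ x ^ 9 := by
              calc x = x ^ 1 := (pow_one x).symm
                _ ≤ x ^ 9 := pow_le_pow_right₀ (by linarith) (by norm_num)
            have h4 : (1:ℝ) ≤ (c:ℝ) + 1 := by have : (0:ℝ) ≤ c := by positivity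
                                              linarith
            nlinarith
        _ ≤ H / 4 * Real.sqrt ((A:ℝ) / K2) := mul_le_mul_of_nonneg_left h1 (by positivity)
    have h5 : Real.exp (-(H / 4 * Real.sqrt ((A:ℝ) / K2))) ≤ Real.exp (-(1/40 * x)) * Real.exp (-(x / 40)) := by
      rw [← Real.exp_add]
      apply Real.exp_le_exp.2
      linarith
    have h6 := hX2 x hxX2
    calc (K2:ℝ) * Real.exp (-(H / 4 * Real.sqrt ((A:ℝ) / K2)))
        ≤ x ^ m * (Real.exp (-(1/40 * x)) * Real.exp (-(x / 40))) :=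
          mul_le_mul hK2x h5 (Real.exp_pos _).le (by positivity)
      _ = (1 * x ^ m * Real.exp (-(1/40 * x))) * Real.exp (-(x / 40)) := by ring
      _ ≤ 1 / 2 * Real.exp (-(x / 40)) := mul_le_mul_of_nonneg_right h6 (Real.exp_pos _).le
  have e2 : Real.exp (((p:ℝ) + 1) ^ 2 * (8 * H ^ 2 * (1 + Real.log (8 * K2)))) / (5/4:ℝ) ^ p
      ≤ 1 / 2 * Real.exp (-(x / 40)) := by
    have h1 : ((p:ℝ) + 1) ^ 2 ≤ 4 * x ^ 2 := by nlinarith
    have hlog : 0 ≤ 1 + Real.log (8 * K2) := by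
      have : 0 ≤ Real.log (8 * K2) := Real.log_nonneg (by linarith)
      linarith
    have h2 : ((p:ℝ) + 1) ^ 2 * (8 * H ^ 2 * (1 + Real.log (8 * K2)))
        ≤ N * (1 + Real.log 8 + m * Real.log x) := by
      have h3 : Real.log (8 * K2) ≤ Real.log 8 + m * Real.log x := by
        rw [Real.log_mul (by norm_num) hK2pos.ne', ← Real.log_pow]
        have := Real.log_le_log hK2pos hK2x
        linarith
      have h4 : ((p:ℝ) + 1) ^ 2 * (8 * H ^ 2) ≤ N := by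
        have h5 : (32:ℝ) * (c + 1) ^ 2 ≤ N := Nat.le_ceil _
        have h6 : (4 * x ^ 2) * (8 * H ^ 2) = (32:ℝ) * (c + 1) ^ 2 := by
          rw [hH]; field_simp; ring
        have h7 : ((p:ℝ) + 1) ^ 2 * (8 * H ^ 2) ≤ (4 * x ^ 2) * (8 * H ^ 2) :=
          mul_le_mul_of_nonneg_right h1 (by positivity)
        linarith
      calc ((p:ℝ) + 1) ^ 2 * (8 * H ^ 2 * (1 + Real.log (8 * K2)))
          = (((p:ℝ) + 1) ^ 2 * (8 * H ^ 2)) * (1 + Real.log (8 * K2)) := by ring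
        _ ≤ N * (1 + Real.log (8 * K2)) := mul_le_mul_of_nonneg_right h4 hlog
        _ ≤ N * (1 + Real.log 8 + m * Real.log x) := by
            apply mul_le_mul_of_nonneg_left _ (by positivity)
            linarith
    have h8 : Real.exp (N * (1 + Real.log 8 + m * Real.log x)) = c1 * x ^ (N * m) := by
      have : (N:ℝ) * (1 + Real.log 8 + m * Real.log x) = N * (1 + Real.log 8) + ((N * m : ℕ):ℝ) * Real.log x := by
        push_cast; ring
      rw [this, Real.exp_add, hc1, ← Real.log_pow, Real.exp_log (by positivity)]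
    have h9 : Real.exp (1/5 * x) / 2 ≤ (5/4:ℝ) ^ p := by
      have h10 : Real.exp (1/5) ≤ 5/4 := by
        have := Real.exp_bound' (x := 1/5) (by norm_num) (by norm_num) (n := 3) (by norm_num)
        refine this.trans ?_
        norm_num [Finset.sum_range_succ, Nat.factorial]
      have h11 : Real.exp (1/5 * (p + 1)) ≤ (5/4:ℝ) ^ (p+1) := by
        calc Real.exp (1/5 * (p + 1)) = Real.exp (1/5) ^ (p+1) := by
              rw [← Real.exp_nat_mul]; congr 1; push_cast; ring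
          _ ≤ (5/4:ℝ) ^ (p+1) := pow_le_pow_left₀ (Real.exp_pos _).le h10 _
      have h12 : Real.exp (1/5 * x) ≤ Real.exp (1/5 * (p + 1)) := Real.exp_le_exp.2 (by linarith)
      rw [pow_succ] at h11
      have : 0 < (5/4:ℝ) ^ p := by positivity
      linarith
    have h13 := hX1 x hxX1
    calc Real.exp (((p:ℝ) + 1) ^ 2 * (8 * H ^ 2 * (1 + Real.log (8 * K2)))) / (5/4:ℝ) ^ p
        ≤ (c1 * x ^ (N * m)) / (Real.exp (1/5 * x) / 2) := by
          rw [← h8]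
          exact div_le_div₀ (Real.exp_pos _).le (Real.exp_le_exp.2 h2) (by positivity) h9
      _ = 2 * c1 * x ^ (N * m) * Real.exp (-(1/5 * x)) := by
          rw [Real.exp_neg]; field_simp
      _ ≤ 2 * c1 * x ^ (N * m) * (Real.exp (-(1/6 * x)) * Real.exp (-(x/40))) := by
          apply mul_le_mul_of_nonneg_left _ (by positivity)
          rw [← Real.exp_add]
          apply Real.exp_le_exp.2
          linarith
      _ = (2 * c1 * x ^ (N * m) * Real.exp (-(1/6 * x))) * Real.exp (-(x/40)) := by ring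
      _ ≤ 1 / 2 * Real.exp (-(x / 40)) := mul_le_mul_of_nonneg_right h13 (Real.exp_pos _).le
  linarith

/-- lower bound for `G` at level `h` -/
lemma G_low_h (m c : ℕ) : ∃ X : ℝ, 4 * (c + 1) ≤ X ∧ ∀ x ≥ X, ∀ (K1 K2 A : ℕ), 1 ≤ K2 →
    (K2:ℝ) ≤ x ^ m → x ^ 20 * K2 ≤ A → ∀ h : ℝ, h ≤ ((c:ℝ) + 1) / x →
    1 / (400 * Real.sqrt K2) ≤ G A K1 K2 h := by
  obtain ⟨X1, hX1c, hX1⟩ := tilt_const m c
  obtain ⟨X2, hX2⟩ := poly_exp_small 1 (1/40) (1/1600) m (by norm_num) (by norm_num)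
  refine ⟨max X1 (max X2 1), hX1c.trans (le_max_left _ _), ?_⟩
  intro x hx K1 K2 A hK2 hK2x hA h hh
  have hxX1 : X1 ≤ x := (le_max_left _ _).trans hx
  have hxX2 : X2 ≤ x := (le_max_left _ _).trans ((le_max_right _ _).trans hx)
  have hx1 : 1 ≤ x := (le_max_right _ _).trans ((le_max_right _ _).trans hx)
  have hx0 : 0 < x := by linarith
  have hK2r : (1:ℝ) ≤ K2 := by exact_mod_cast hK2
  have hKA : K2 ≤ A := by
    have h1 : (1:ℝ) * K2 ≤ x ^ 20 * K2 := mul_le_mul_of_nonneg_right (one_le_pow₀ hx1) (by positivity)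
    have : (K2:ℝ) ≤ A := by linarith
    exact_mod_cast this
  have h1 := G_lower A K1 K2 hK2 hKA
  have h2 : G A K1 K2 0 ≤ G A K1 K2 (-(((c:ℝ) + 1) / x)) := G_anti_h A K1 K2 (by
    have : 0 ≤ ((c:ℝ) + 1) / x := by positivity
    linarith)
  have h3 := hX1 x hxX1 K1 K2 A hK2 hK2x hA
  have h4 : G A K1 K2 (((c:ℝ) + 1) / x) ≤ G A K1 K2 h := G_anti_h A K1 K2 hh
  have h5 := hX2 x hxX2
  have hs : 1 ≤ Real.sqrt K2 := by
    rw [show (1:ℝ) = Real.sqrt 1 by simp]; exact Real.sqrt_le_sqrt hK2r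
  have hs2 : Real.sqrt K2 ≤ K2 := by
    rw [Real.sqrt_le_left (by linarith)]; nlinarith
  have h6 : Real.exp (-(x / 40)) ≤ 1 / (1600 * Real.sqrt K2) := by
    rw [le_div_iff₀ (by positivity)]
    have : Real.sqrt K2 ≤ x ^ m := hs2.trans hK2x
    have h7 : Real.exp (-(x/40)) = Real.exp (-(1/40*x)) := by congr 1; ring
    rw [h7]
    have := mul_le_mul_of_nonneg_right this (Real.exp_pos (-(1/40*x))).le
    nlinarith
  -- 5/4 G(H) ≥ 1/200s - 1/(400 s)·...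
  have h8 : 1 / (200 * Real.sqrt K2) = 2 * (1 / (400 * Real.sqrt K2)) := by field_simp; norm_num
  have h9 : 0 < 1 / (400 * Real.sqrt K2) := by positivity
  have h10 : 1 / (1600 * Real.sqrt K2) = 1 / 4 * (1 / (400 * Real.sqrt K2)) := by field_simp; norm_num
  linarith

lemma sqrt_big (A : ℕ) (x : ℝ) (hx : 2 ≤ x) (hA : x ^ 19 ≤ A) : 4 * x ^ 3 ≤ (Nat.sqrt A : ℕ) := by
  have h1 : A < (Nat.sqrt A + 1) ^ 2 := by
    have := Nat.lt_succ_sqrt' A
    simpa using this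
  have h2 : (A:ℝ) < ((Nat.sqrt A : ℕ) + 1) ^ 2 := by exact_mod_cast h1
  have hx0 : 0 < x := by linarith
  have hx3 : 8 ≤ x ^ 3 := by
    calc (8:ℝ) = 2 ^ 3 := by norm_num
      _ ≤ x ^ 3 := pow_le_pow_left₀ (by norm_num) hx 3
  have h3 : (4 * x ^ 3 + 1) ^ 2 ≤ x ^ 19 := by
    have e1 : (4 * x ^ 3 + 1) ^ 2 ≤ (5 * x ^ 3) ^ 2 := by
      apply pow_le_pow_left₀ (by positivity)
      linarith
    have e2 : (5 * x ^ 3) ^ 2 = 25 * x ^ 6 := by ring
    have e3 : x ^ 19 = x ^ 13 * x ^ 6 := by ring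
    have e4 : (25:ℝ) ≤ x ^ 13 := by
      calc (25:ℝ) ≤ 2 ^ 13 := by norm_num
        _ ≤ x ^ 13 := pow_le_pow_left₀ (by norm_num) hx 13
    rw [e2] at e1
    rw [e3]
    exact e1.trans (mul_le_mul_of_nonneg_right e4 (by positivity))
  have h4 : (4 * x ^ 3 + 1) ^ 2 < (((Nat.sqrt A : ℕ):ℝ) + 1) ^ 2 := by linarith
  have h5 := lt_of_pow_lt_pow_left₀ 2 (by positivity) h4
  linarith

/-- **Proposition S**: independence of `A` and scaling of the indices, up to a factor `2`. -/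
theorem propS (m c : ℕ) : ∃ X : ℝ, 400 ≤ X ∧ ∀ x ≥ X, ∀ (K1 K2 A B lam : ℕ), x ^ 8 ≤ K1 → K1 ≤ K2 →
    (K2:ℝ) ≤ x ^ m → x ^ 20 * K2 ≤ A → 1 ≤ lam → x ^ 20 * (lam * K2) ≤ B → ∀ h h' : ℝ,
    |h| ≤ c / x → |h'| ≤ c / x → G A K1 K2 h ≤ 2 * G B (lam * K1) (lam * K2) h' := by
  obtain ⟨X1, hX1c, hX1⟩ := tilt_const m (c + 17)
  obtain ⟨X2, hX2c, hX2⟩ := G_low_h m (c + 17)
  obtain ⟨X3, hX3⟩ := poly_exp_small 128000 (1/40) 1 (2 * m) (by norm_num) (by norm_num)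
  refine ⟨max 400 (max X1 (max X2 X3)), le_max_left _ _, ?_⟩
  intro x hx K1 K2 A B lam hK1 hK12 hK2x hA hlam hB h h' hh hh'
  have hx400 : 400 ≤ x := (le_max_left _ _).trans hx
  have hxX1 : X1 ≤ x := (le_max_left _ _).trans ((le_max_right _ _).trans hx)
  have hxX2 : X2 ≤ x := (le_max_left _ _).trans ((le_max_right _ _).trans ((le_max_right _ _).trans hx))
  have hxX3 : X3 ≤ x := (le_max_right _ _).trans ((le_max_right _ _).trans ((le_max_right _ _).trans hx))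
  have hx0 : 0 < x := by linarith
  have hx1 : 1 ≤ x := by linarith
  have hx2 : 2 ≤ x := by linarith
  have hK1r : (1:ℝ) ≤ K1 := (one_le_pow₀ hx1).trans hK1
  have hK1n : 1 ≤ K1 := by exact_mod_cast hK1r
  have hK12r : (K1:ℝ) ≤ K2 := by exact_mod_cast hK12
  have hK2r : (1:ℝ) ≤ K2 := hK1r.trans hK12r
  have hK2n : 1 ≤ K2 := hK1n.trans hK12
  have hlamr : (1:ℝ) ≤ lam := by exact_mod_cast hlam
  -- I
  set I : ℕ := ⌈4 * x ^ 3⌉₊ with hI
  have hI1 : 4 * x ^ 3 ≤ I := Nat.le_ceil _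
  have hI2 : (I:ℝ) < 4 * x ^ 3 + 1 := Nat.ceil_lt_add_one (by positivity)
  have hx3 : 1 ≤ x ^ 3 := one_le_pow₀ hx1
  have hI3 : (I:ℝ) ≤ 5 * x ^ 3 := by linarith
  have hIpos : (1:ℝ) ≤ I := by linarith
  have hIn : 1 ≤ I := by exact_mod_cast hIpos
  have hIK1r : 4 * x ^ 3 * I ≤ K1 := by
    refine le_trans ?_ hK1
    have e1 : 4 * x ^ 3 * I ≤ 4 * x ^ 3 * (5 * x ^ 3) := mul_le_mul_of_nonneg_left hI3 (by positivity)
    have e2 : 4 * x ^ 3 * (5 * x ^ 3) = 20 * x ^ 6 := by ring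
    have e3 : x ^ 8 = x ^ 2 * x ^ 6 := by ring
    have e4 : 20 ≤ x ^ 2 := by nlinarith
    have e5 : 20 * x ^ 6 ≤ x ^ 2 * x ^ 6 := mul_le_mul_of_nonneg_right e4 (by positivity)
    linarith
  have hIK1 : I + 1 ≤ K1 := by
    have : (I:ℝ) + 1 ≤ K1 := by
      have : 2 * (I:ℝ) ≤ 4 * x ^ 3 * I := mul_le_mul_of_nonneg_right (by linarith) (by linarith)
      linarith
    exact_mod_cast this
  -- A'' = B / lam
  set A' := B / lam with hA'
  have hlampos : (0:ℝ) < lam := by linarith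
  have hBl : (B:ℝ) / lam - 1 ≤ ((B / lam : ℕ) : ℝ) := by
    have := Nat.lt_div_mul_add (a := B) (b := lam) (by omega)
    have h2 : (B:ℝ) < (B / lam : ℕ) * lam + lam := by exact_mod_cast this
    rw [sub_le_iff_le_add, div_le_iff₀ hlampos]
    nlinarith
  have hBl2 : x ^ 20 * K2 ≤ (B:ℝ) / lam := by
    rw [le_div_iff₀ hlampos]
    calc x ^ 20 * K2 * lam = x ^ 20 * (lam * K2) := by ring
      _ ≤ (B:ℝ) := hB
  have hx19 : 1 ≤ x ^ 19 := one_le_pow₀ hx1
  have hA'1 : x ^ 19 * K2 ≤ A' := by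
    have e1 : x ^ 20 * K2 = x * (x ^ 19 * K2) := by ring
    have e2 : 1 ≤ x ^ 19 * K2 := by
      calc (1:ℝ) = 1 * 1 := by norm_num
        _ ≤ x ^ 19 * K2 := mul_le_mul hx19 hK2r (by norm_num) (by positivity)
    have : x ^ 19 * (K2:ℝ) ≤ x ^ 20 * K2 - 1 := by
      rw [e1]
      have e3 : 2 * (x ^ 19 * (K2:ℝ)) ≤ x * (x ^ 19 * K2) := mul_le_mul_of_nonneg_right hx2 (by positivity)
      linarith
    calc x ^ 19 * (K2:ℝ) ≤ x ^ 20 * K2 - 1 := this
      _ ≤ (B:ℝ) / lam - 1 := by linarith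
      _ ≤ A' := hBl
  have hA1 : x ^ 19 * K2 ≤ A := by
    refine le_trans ?_ hA
    have e1 : x ^ 20 * K2 = x * (x ^ 19 * K2) := by ring
    rw [e1]
    exact le_mul_of_one_le_left (by positivity) hx1
  have hcond : ∀ A0 : ℕ, x ^ 19 * K2 ≤ A0 → 2 * x ^ 12 * K2 ≤ A0 ∧ 4 * x ^ 3 ≤ (Nat.sqrt A0 : ℕ) ∧ 1 ≤ A0
      ∧ 4 * x ^ 3 * (K2 + 1) ≤ A0 := by
    intro A0 hA0
    have e0 : x ^ 19 ≤ x ^ 19 * K2 := le_mul_of_one_le_right (by positivity) hK2r
    refine ⟨?_, sqrt_big A0 x hx2 (e0.trans hA0), ?_, ?_⟩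
    · refine le_trans ?_ hA0
      apply mul_le_mul_of_nonneg_right _ (by positivity)
      have e1 : x ^ 19 = x ^ 7 * x ^ 12 := by ring
      have e2 : 2 ≤ x ^ 7 := by
        calc (2:ℝ) ≤ x := hx2
          _ = x ^ 1 := (pow_one x).symm
          _ ≤ x ^ 7 := pow_le_pow_right₀ hx1 (by norm_num)
      rw [e1]; exact mul_le_mul_of_nonneg_right e2 (by positivity)
    · have : (1:ℝ) ≤ A0 := by linarith
      exact_mod_cast this
    · refine le_trans ?_ hA0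
      have e1 : x ^ 19 * K2 = x ^ 16 * (x ^ 3 * K2) := by ring
      have e2 : 8 ≤ x ^ 16 := by
        calc (8:ℝ) ≤ x := by linarith
          _ = x ^ 1 := (pow_one x).symm
          _ ≤ x ^ 16 := pow_le_pow_right₀ hx1 (by norm_num)
      have e3 : 4 * x ^ 3 * (K2 + 1) ≤ 8 * (x ^ 3 * K2) := by
        have : 4 * x ^ 3 * ((K2:ℝ) + 1) ≤ 4 * x ^ 3 * (K2 + K2) :=
          mul_le_mul_of_nonneg_left (by linarith) (by positivity)
        linarith
      rw [e1]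
      have : 8 * (x ^ 3 * K2) ≤ x ^ 16 * (x ^ 3 * K2) := mul_le_mul_of_nonneg_right e2 (by positivity)
      linarith
  obtain ⟨cA1, cA2, cA3, cA4⟩ := hcond A hA1
  obtain ⟨cB1, cB2, cB3, cB4⟩ := hcond A' hA'1
  set F := A * A' with hF
  have s1 : (Nat.sqrt A') ^ 2 * A ≤ F := by
    rw [hF, mul_comm A A']; exact Nat.mul_le_mul_right _ (Nat.sqrt_le' A')
  have s2 : F < (Nat.sqrt A' + 1) ^ 2 * A := by
    rw [hF, mul_comm A A']
    exact Nat.mul_lt_mul_of_pos_right (by simpa using Nat.lt_succ_sqrt' A') (by omega)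
  have s3 : (Nat.sqrt A) ^ 2 * A' ≤ F := by
    rw [hF]; exact Nat.mul_le_mul_right _ (Nat.sqrt_le' A)
  have s4 : F < (Nat.sqrt A + 1) ^ 2 * A' := by
    rw [hF]
    exact Nat.mul_lt_mul_of_pos_right (by simpa using Nat.lt_succ_sqrt' A) (by omega)
  -- H
  have hcx : 4 * ((c:ℝ) + 18) ≤ x := by
    have := hX1c.trans hxX1
    push_cast at this; linarith
  have hc0 : (0:ℝ) ≤ c := by positivity
  have hcst : ∀ r : ℝ, 0 ≤ r → r ≤ 18 → |((c:ℝ) + r) / x| ≤ 1 := by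
    intro r hr0 hr1
    rw [abs_of_nonneg (by positivity), div_le_one hx0]
    linarith
  have t0 : G A K1 K2 h ≤ G A K1 K2 (-((((c + 17 : ℕ):ℝ)) + 1) / x) := by
    apply G_anti_h
    have := (abs_le.1 hh).1
    have e : -((((c + 17 : ℕ):ℝ)) + 1) / x = -(c / x) - 18 / x := by push_cast; field_simp; ring
    rw [e]
    have : 0 ≤ 18 / x := by positivity
    linarith
  have t1 := hX1 x hxX1 K1 K2 A hK2n hK2x hA
  have t2 := G_le_GI A I K1 K2 x (((c:ℝ) + 18) / x) hx0 hIn hIK1r (by omega) cA3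
  have e2 : ((c:ℝ) + 18) / x - 1 / x = ((c:ℝ) + 17) / x := by field_simp; ring
  rw [e2] at t2
  have t3 := GI_coarse_fine A F (Nat.sqrt A') (I+1) K1 K2 x (((c:ℝ) + 17) / x) hx2 (by omega) (by omega)
    s1 s2 cB2 cA1 (hcst 17 (by norm_num) (by norm_num))
  have e3 : ((c:ℝ) + 17) / x - 3 / x = ((c:ℝ) + 14) / x := by field_simp; ring
  rw [e3] at t3
  have t4 := GI_fine_coarse A' F (Nat.sqrt A) (I+1) K1 K2 x (((c:ℝ) + 14) / x) hx2 (by omega) (by omega)
    s3 s4 cA2 cB1 (hcst 14 (by norm_num) (by norm_num))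
  have e4 : ((c:ℝ) + 14) / x - 3 / x = ((c:ℝ) + 11) / x := by field_simp; ring
  rw [e4] at t4
  have t5 := GI_le_G A' I K1 K2 x (((c:ℝ) + 11) / x) hx0 hIn hIK1r (by omega) cB3
  have e5 : ((c:ℝ) + 11) / x - 1 / x = ((c:ℝ) + 1) / x + 9 / x := by field_simp; ring
  rw [e5] at t5
  have t6 := idx_scale lam B I K1 K2 x (((c:ℝ) + 1) / x) hlam hx2 hI1 hIK1r hK12
    (hcst 1 (by norm_num) (by norm_num)) cB4
  have t7 : G B (lam * K1) (lam * K2) (((c:ℝ) + 1) / x) ≤ G B (lam * K1) (lam * K2) h' := by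
    apply G_anti_h
    have := (abs_le.1 hh').2
    have e : ((c:ℝ) + 1) / x = c / x + 1 / x := by field_simp
    rw [e]
    have : 0 ≤ 1 / x := by positivity
    linarith
  have t8 := hX2 x hxX2 K1 K2 A hK2n hK2x hA h (by
    have := (abs_le.1 hh).2
    have e : (((c + 17 : ℕ):ℝ) + 1) / x = c / x + 18 / x := by push_cast; field_simp; ring
    rw [e]
    have : 0 ≤ 18 / x := by positivity
    linarith)
  have e1 : (((c + 17 : ℕ):ℝ) + 1) / x = ((c:ℝ) + 18) / x := by push_cast; ring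
  have e1' : -((((c + 17 : ℕ):ℝ)) + 1) / x = -((((c + 17 : ℕ):ℝ) + 1) / x) := by rw [neg_div]
  rw [e1'] at t0
  rw [e1] at t1 t0
  -- error
  have hexp : Real.exp (-(x / 2)) ≤ Real.exp (-(x / 40)) := Real.exp_le_exp.2 (by linarith)
  set e := Real.exp (-(x / 40)) with he
  have hepos : 0 < e := Real.exp_pos _
  have hexp2 : Real.exp (-(x / 2)) ≤ K2 * e := by
    have : 1 * e ≤ K2 * e := mul_le_mul_of_nonneg_right hK2r hepos.le
    linarith
  have hexp3 : 8 * ((K2:ℝ) + 1) * Real.exp (-(x / 2)) ≤ 16 * (K2 * e) := by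
    have : 8 * ((K2:ℝ) + 1) * Real.exp (-(x / 2)) ≤ 8 * ((K2:ℝ) + 1) * e :=
      mul_le_mul_of_nonneg_left hexp (by positivity)
    have h2 : 8 * ((K2:ℝ) + 1) * e ≤ 8 * (K2 + K2) * e := by
      apply mul_le_mul_of_nonneg_right _ hepos.le
      linarith
    linarith
  have herr : 320 * (K2 * e) ≤ G A K1 K2 h := by
    refine le_trans ?_ t8
    have hs : Real.sqrt K2 ≤ K2 := by
      rw [Real.sqrt_le_left (by linarith), sq]
      exact le_mul_of_one_le_left (by linarith) hK2r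
    have hspos : 0 < Real.sqrt K2 := Real.sqrt_pos.2 (by linarith)
    rw [le_div_iff₀ (by positivity)]
    have h5 := hX3 x hxX3
    have h6 : (K2:ℝ) * Real.sqrt K2 ≤ x ^ (2 * m) := by
      calc (K2:ℝ) * Real.sqrt K2 ≤ x ^ m * x ^ m := mul_le_mul hK2x (hs.trans hK2x) hspos.le (by positivity)
        _ = x ^ (2 * m) := by ring
    have h7 : Real.exp (-(1/40*x)) = e := by rw [he]; congr 1; ring
    rw [h7] at h5
    calc 320 * (K2 * e) * (400 * Real.sqrt K2) = 128000 * ((K2:ℝ) * Real.sqrt K2) * e := by ring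
      _ ≤ 128000 * x ^ (2 * m) * e := by
          apply mul_le_mul_of_nonneg_right _ hepos.le
          linarith
      _ ≤ 1 := h5
  have hKe : 0 ≤ K2 * e := by positivity
  have hee : e ≤ K2 * e := le_mul_of_one_le_left hepos.le hK2r
  have hG0 := G_nonneg B (lam * K1) (lam * K2) h'
  rw [← hA'] at t6
  clear_value e F A' I
  clear hX1 hX2 hX3 hX1c hX2c hcond s1 s2 s3 s4 hcst
  have q1 : G A K1 K2 (((c:ℝ) + 18) / x) ≤ G B (lam * K1) (lam * K2) h' + 32 * (K2 * e) := by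
    linarith
  linarith

end Pool.GP
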