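import Pool.Agent.Lib.GP.Canon

set_option autoImplicit false

/-!
Small indices, and index scaling of the canonical functional.
-/

namespace Pool.GP

open Finset

/-- variance of `∑_{i ≤ L} Y(A/i)` -/
lemma var_small (n A L : ℕ) :
    ∑ v ∈ range n, (∑ i ∈ Icc 1 L, if v < A / i then (1:ℝ) else 0) ^ 2 ≤ 2 * A * L := by
  have h1 : ∀ v, (∑ i ∈ Icc 1 L, if v < A / i then (1:ℝ) else 0) ^ 2
      = ∑ i ∈ Icc 1 L, ∑ j ∈ Icc 1 L, (if v < A / i then (1:ℝ) else 0) * (if v < A / j then (1:ℝ) else 0) := by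
    intro v
    rw [pow_two, Finset.sum_mul_sum]
  simp only [h1]
  rw [Finset.sum_comm]
  have h2 : ∀ i ∈ Icc 1 L, ∑ v ∈ range n, ∑ j ∈ Icc 1 L,
      (if v < A / i then (1:ℝ) else 0) * (if v < A / j then (1:ℝ) else 0)
      ≤ ∑ j ∈ Icc 1 L, ((if j ≤ i then (A:ℝ) / i else 0) + (if i ≤ j then (A:ℝ) / j else 0)) := by
    intro i hi
    rw [Finset.sum_comm]
    refine Finset.sum_le_sum fun j hj => ?_
    have hi1 : 1 ≤ i := (Finset.mem_Icc.1 hi).1
    have hj1 : 1 ≤ j := (Finset.mem_Icc.1 hj).1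
    have hcount : ∀ q : ℕ, ∑ v ∈ range n, (if v < q then (1:ℝ) else 0) ≤ q := by
      intro q
      rw [Finset.sum_ite, Finset.sum_const_zero, add_zero, Finset.sum_const, nsmul_eq_mul, mul_one]
      have : (filter (fun v => v < q) (range n)).card ≤ (range q).card := by
        apply Finset.card_le_card
        intro v hv
        rw [Finset.mem_filter] at hv
        exact Finset.mem_range.2 hv.2
      rw [Finset.card_range] at this
      exact_mod_cast this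
    rcases le_total j i with hji | hij
    · have e1 : ∑ v ∈ range n, (if v < A / i then (1:ℝ) else 0) * (if v < A / j then (1:ℝ) else 0)
          ≤ ∑ v ∈ range n, (if v < A / i then (1:ℝ) else 0) := by
        refine Finset.sum_le_sum fun v _ => ?_
        split_ifs <;> norm_num
      have e2 := hcount (A / i)
      have e3 : ((A / i : ℕ) : ℝ) ≤ (A:ℝ) / i := Nat.cast_div_le
      rw [if_pos hji]
      have e4 : 0 ≤ (if i ≤ j then (A:ℝ) / j else 0) := by split_ifs <;> positivity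
      linarith
    · have e1 : ∑ v ∈ range n, (if v < A / i then (1:ℝ) else 0) * (if v < A / j then (1:ℝ) else 0)
          ≤ ∑ v ∈ range n, (if v < A / j then (1:ℝ) else 0) := by
        refine Finset.sum_le_sum fun v _ => ?_
        split_ifs <;> norm_num
      have e2 := hcount (A / j)
      have e3 : ((A / j : ℕ) : ℝ) ≤ (A:ℝ) / j := Nat.cast_div_le
      rw [if_pos hij]
      have e4 : 0 ≤ (if j ≤ i then (A:ℝ) / i else 0) := by split_ifs <;> positivity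
      linarith
  refine (Finset.sum_le_sum h2).trans ?_
  simp only [Finset.sum_add_distrib]
  have h3 : ∀ i ∈ Icc 1 L, ∑ j ∈ Icc 1 L, (if j ≤ i then (A:ℝ) / i else 0) ≤ A := by
    intro i hi
    have hi1 : 1 ≤ i := (Finset.mem_Icc.1 hi).1
    rw [Finset.sum_ite, Finset.sum_const_zero, add_zero, Finset.sum_const, nsmul_eq_mul]
    have : (filter (fun j => j ≤ i) (Icc 1 L)).card ≤ i := by
      have h4 : (filter (fun j => j ≤ i) (Icc 1 L)).card ≤ (Icc 1 i).card := by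
        apply Finset.card_le_card
        intro j hj
        rw [Finset.mem_filter, Finset.mem_Icc] at hj
        exact Finset.mem_Icc.2 ⟨hj.1.1, hj.2⟩
      simpa using h4
    have h5 : ((filter (fun j => j ≤ i) (Icc 1 L)).card : ℝ) ≤ i := by exact_mod_cast this
    have hipos : (0:ℝ) < i := by exact_mod_cast hi1
    calc _ ≤ (i:ℝ) * ((A:ℝ) / i) := mul_le_mul_of_nonneg_right h5 (by positivity)
      _ = A := by field_simp
  have h4 : ∑ i ∈ Icc 1 L, ∑ j ∈ Icc 1 L, (if i ≤ j then (A:ℝ) / j else 0)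
      = ∑ i ∈ Icc 1 L, ∑ j ∈ Icc 1 L, (if j ≤ i then (A:ℝ) / i else 0) := Finset.sum_comm
  rw [h4]
  have h5 := Finset.sum_le_sum h3
  rw [Finset.sum_const, Nat.card_Icc, nsmul_eq_mul] at h5
  have h6 : ((L + 1 - 1 : ℕ) : ℝ) = L := by norm_num
  rw [h6] at h5
  linarith

/-- the sum over small indices is small -/
lemma small_idx (n A L : ℕ) (y V : ℝ) (hy : 0 ≤ y) (hV : 2 * (A:ℝ) * L ≤ V) (hV0 : 0 < V) :
    Pr n (fun ω => y ≤ |ZI A 1 ω L|) ≤ 2 * Real.exp (-(y ^ 2 / (2 * V))) := by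
  have h1 : ∀ ω : Fin n → Bool, ZI A 1 ω L
      = Ws n (fun v => ∑ i ∈ Icc 1 L, if v < A / i then (1:ℝ) else 0) ω := by
    intro ω
    rw [Ws_sum]; rfl
  simp only [h1]
  exact hoeffding_abs n _ V y ((var_small n A L).trans hV) hV0 hy

lemma ZI_split {n : ℕ} (A I k : ℕ) (hIk : I ≤ k) (ω : Fin n → Bool) :
    ZI A 1 ω k = ZI A 1 ω I + ZI A (I+1) ω k := by
  unfold ZI
  have e1 : ∀ a b : ℕ, Icc (a+1) b = Ioc a b := fun a b => by
    ext i; simp only [Finset.mem_Icc, Finset.mem_Ioc]; omega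
  rw [e1 0 k, e1 0 I, e1 I k]
  exact (Finset.sum_Ioc_consecutive _ (Nat.zero_le _) hIk).symm

/-- block comparison -/
lemma block_cmp (f : ℕ → ℝ) (a b : ℕ) (hab : a ≤ b) (g e : ℝ) (h : ∀ i ∈ Ioc a b, |f i - g| ≤ e) :
    |∑ i ∈ Ioc a b, f i - (b - a) * g| ≤ (b - a) * e := by
  have h1 : ((b:ℝ) - a) = ((Ioc a b).card : ℝ) := by
    rw [Nat.card_Ioc]; rw [Nat.cast_sub hab]
  have h2 : ∑ i ∈ Ioc a b, f i - (b - a) * g = ∑ i ∈ Ioc a b, (f i - g) := by
    rw [Finset.sum_sub_distrib, Finset.sum_const, nsmul_eq_mul, h1]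
  rw [h2]
  refine (Finset.abs_sum_le_sum_abs _ _).trans ((Finset.sum_le_sum h).trans ?_)
  rw [Finset.sum_const, nsmul_eq_mul, h1]

/-- multi-block comparison -/
lemma blocks_cmp (f g e : ℕ → ℝ) (lam I : ℕ) (k : ℕ) (hIk : I ≤ k)
    (h : ∀ j, I < j → j ≤ k → ∀ i ∈ Ioc (lam * (j-1)) (lam * j), |f i - g j| ≤ e j) :
    |∑ i ∈ Ioc (lam * I) (lam * k), f i - lam * ∑ j ∈ Ioc I k, g j| ≤ lam * ∑ j ∈ Ioc I k, e j := by
  induction k, hIk using Nat.le_induction with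
  | base => simp
  | succ k hIk ih =>
    have h1 := ih (fun j hj1 hj2 => h j hj1 (by omega))
    have h2 := block_cmp f (lam * k) (lam * (k+1)) (by gcongr; omega) (g (k+1)) (e (k+1))
      (by
        have := h (k+1) (by omega) le_rfl
        simpa using this)
    rw [← Finset.sum_Ioc_consecutive f (by gcongr : lam * I ≤ lam * k) (by gcongr; omega : lam * k ≤ lam * (k+1))]
    rw [Finset.sum_Ioc_succ_top hIk, Finset.sum_Ioc_succ_top hIk]
    have h3 : (((lam * (k+1) : ℕ) : ℝ) - ((lam * k : ℕ) : ℝ)) = lam := by push_cast; ring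
    rw [h3] at h2
    rw [abs_le] at h1 h2 ⊢
    constructor
    · nlinarith [h1.1, h2.1]
    · nlinarith [h1.2, h2.2]

/-- maximal inequality with a variance bound -/
lemma maximal_window' (N t1 t2 : ℕ) (h12 : t1 ≤ t2) (h2N : t2 ≤ N) (y V : ℝ) (hy : 0 < y)
    (hV : 0 < V) (hV2 : (t2:ℝ) - t1 ≤ V) :
    Pr N (fun ω => ∃ t, t1 ≤ t ∧ t ≤ t2 ∧ y ≤ |Y ω t - Y ω t1|)
      ≤ 2 * Real.exp (-(y ^ 2 / (2 * V))) := by
  rcases Nat.eq_or_lt_of_le h12 with h | h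
  · subst h
    have : Pr N (fun ω => ∃ t, t1 ≤ t ∧ t ≤ t1 ∧ y ≤ |Y ω t - Y ω t1|) ≤ Pr N (fun _ => False) := by
      refine Pr_mono N fun ω => ?_
      rintro ⟨t, h1, h2, h3⟩
      obtain rfl : t = t1 := le_antisymm h2 h1
      rw [sub_self, abs_zero] at h3
      linarith
    have h2 : Pr N (fun _ => False) = 0 := by simp [Pr, ind, E_const]
    rw [h2] at this
    exact this.trans (by positivity)
  · refine (maximal_window N t1 t2 h12 h2N y hy).trans ?_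
    have h3 : (0:ℝ) < (t2:ℝ) - t1 := by
      have : (t1:ℝ) < t2 := by exact_mod_cast h
      linarith
    apply mul_le_mul_of_nonneg_left _ (by norm_num)
    apply Real.exp_le_exp.2
    apply neg_le_neg
    apply div_le_div_of_nonneg_left (by positivity) (by positivity)
    linarith

/-- tail of one value of the walk -/
lemma Y_tail (n t : ℕ) (y V : ℝ) (hy : 0 ≤ y) (hV : (t:ℝ) ≤ V) (hV0 : 0 < V) :
    Pr n (fun ω => y ≤ |Y ω t|) ≤ 2 * Real.exp (-(y ^ 2 / (2 * V))) := by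
  refine hoeffding_abs n _ V y ?_ hV0 hy
  refine le_trans ?_ hV
  have h1 : ∀ v, (if v < t then (1:ℝ) else 0) ^ 2 = if v < t then (1:ℝ) else 0 := by
    intro v; split_ifs <;> norm_num
  simp only [h1]
  rw [Finset.sum_ite, Finset.sum_const_zero, add_zero, Finset.sum_const, nsmul_eq_mul, mul_one]
  have : (filter (fun v => v < t) (range n)).card ≤ (range t).card := by
    apply Finset.card_le_card
    intro v hv
    rw [Finset.mem_filter] at hv
    exact Finset.mem_range.2 hv.2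
  rw [Finset.card_range] at this
  exact_mod_cast this

/-- `G` read on a longer walk -/
lemma G_prefix (A N K1 K2 : ℕ) (h : ℝ) (hAN : A ≤ N) :
    G A K1 K2 h = Pr N (fun ω => ∀ k ∈ Icc K1 K2, h * Real.sqrt ((A:ℝ) * k) ≤ ZI A 1 ω k) := by
  have h1 : ∀ (M : ℕ), A ≤ M → ∀ ω : Fin M → Bool, (∀ k ∈ Icc K1 K2, h * Real.sqrt ((A:ℝ) * k) ≤ ZI A 1 ω k) ↔
      (∀ k ∈ Icc K1 K2, h * Real.sqrt ((A:ℝ) * k) ≤ ∑ i ∈ Icc 1 k, (Yi (ext ω) (A / i) : ℝ)) := by
    intro M hM ω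
    have : ∀ k, ZI A 1 ω k = ∑ i ∈ Icc 1 k, (Yi (ext ω) (A / i) : ℝ) := by
      intro k
      unfold ZI
      exact Finset.sum_congr rfl fun i _ => Y_eq_Yi ω ((Nat.div_le_self A i).trans hM)
    simp only [this]
  unfold G
  rw [Pr_congr A (h1 A le_rfl), Pr_congr N (h1 N hAN)]
  symm
  apply Pr_prefix hAN (fun b => ∀ k ∈ Icc K1 K2, h * Real.sqrt ((A:ℝ) * k) ≤ ∑ i ∈ Icc 1 k, (Yi b (A / i) : ℝ))
  intro b b' hbb
  have : ∀ i, Yi b (A / i) = Yi b' (A / i) := by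
    intro i
    unfold Yi
    refine Finset.sum_congr rfl fun v hv => ?_
    rw [Finset.mem_range] at hv
    rw [hbb v (lt_of_lt_of_le hv (Nat.div_le_self A i))]
  simp only [this]

lemma ZI_Ioc {n : ℕ} (A k : ℕ) (ω : Fin n → Bool) : ZI A 1 ω k = ∑ i ∈ Ioc 0 k, Y ω (A / i) := by
  unfold ZI
  congr 1

lemma sum_sqrt_Ioc_le (A : ℝ) (hA : 0 ≤ A) (I k : ℕ) (x : ℝ) (hx : 0 < x) :
    ∑ j ∈ Ioc I k, Real.sqrt (A / j) / x ≤ 2 / x * Real.sqrt (A * k) := by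
  have h1 : ∑ j ∈ Ioc I k, Real.sqrt (A / j) / x ≤ ∑ j ∈ Icc 1 k, Real.sqrt (A / j) / x := by
    apply Finset.sum_le_sum_of_subset_of_nonneg
    · intro i hi
      rw [Finset.mem_Ioc] at hi
      exact Finset.mem_Icc.2 ⟨by omega, hi.2⟩
    · intro i _ _; positivity
  refine h1.trans ?_
  have h2 : ∑ i ∈ Icc 1 k, Real.sqrt (A/i) / x
      = Real.sqrt A / x * ∑ i ∈ Icc 1 k, 1 / Real.sqrt i := by
    rw [Finset.mul_sum]
    refine Finset.sum_congr rfl fun i _ => ?_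
    rw [Real.sqrt_div hA]
    field_simp
  rw [h2, Real.sqrt_mul hA]
  calc Real.sqrt A / x * ∑ i ∈ Icc 1 k, 1 / Real.sqrt i ≤ Real.sqrt A / x * (2 * Real.sqrt k) :=
        mul_le_mul_of_nonneg_left (sum_inv_sqrt_le k) (by positivity)
    _ = 2 / x * (Real.sqrt A * Real.sqrt k) := by ring

/-- deterministic part of index scaling -/
lemma idx_det {n : ℕ} (lam B I K1 K2 : ℕ) (x h : ℝ) (hlam : 1 ≤ lam) (hx : 2 ≤ x) (hI : 1 ≤ I)
    (hIK : I + 1 ≤ K1) (hh : |h| ≤ 1) (hK1 : 4 * x ^ 3 ≤ K1) (hA : x ≤ ((B / lam : ℕ) : ℝ))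
    (ω : Fin n → Bool)
    (g1 : ∀ j ∈ Icc (I+1) (K2+1), ∀ t, (B / lam) / j ≤ t → t ≤ (B / lam) / (j - 1) →
      |Y ω t - Y ω ((B / lam) / j)| ≤ Real.sqrt (((B / lam : ℕ) : ℝ) / j) / x)
    (g2 : ∀ j ∈ Icc K1 (K2+1), |Y ω ((B / lam) / j)| ≤ Real.sqrt x * Real.sqrt (((B / lam : ℕ) : ℝ) / j))
    (g3 : |ZI B 1 ω (lam * I)| ≤ Real.sqrt ((B:ℝ) * ((lam * K1 : ℕ) : ℝ)) / x)
    (g4 : |ZI (B / lam) 1 ω I| ≤ Real.sqrt (((B / lam : ℕ) : ℝ) * K1) / x)
    (hE : ∀ k ∈ Icc K1 K2, (h + 9 / x) * Real.sqrt (((B / lam : ℕ) : ℝ) * k) ≤ ZI (B / lam) 1 ω k) :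
    ∀ k ∈ Icc (lam * K1) (lam * K2), h * Real.sqrt ((B:ℝ) * k) ≤ ZI B 1 ω k := by
  intro k hk
  rw [Finset.mem_Icc] at hk
  have hx0 : 0 < x := by linarith
  set A := B / lam with hAdef
  set k' := k / lam with hk'def
  have hlk : lam * k' ≤ k := Nat.mul_div_le k lam
  have hlk2 : k < lam * (k' + 1) := by
    have := Nat.lt_mul_div_succ k (show 0 < lam by omega)
    simpa [Nat.succ_eq_add_one] using this
  have hk1 : K1 ≤ k' := (Nat.le_div_iff_mul_le (by omega)).2 (by rw [mul_comm]; exact hk.1)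
  have hk2 : k' ≤ K2 := by
    by_contra hc
    have : lam * (K2 + 1) ≤ lam * k' := Nat.mul_le_mul_left lam (by omega)
    have h3 : lam * (K2 + 1) = lam * K2 + lam := by ring
    omega
  have hAB : lam * A ≤ B := Nat.mul_div_le B lam
  have hAB2 : B < lam * (A + 1) := by
    have := Nat.lt_mul_div_succ B (show 0 < lam by omega)
    simpa [Nat.succ_eq_add_one] using this
  have hlamR : (1:ℝ) ≤ lam := by exact_mod_cast hlam
  have hApos : 0 < (A:ℝ) := by linarith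
  have hk'R : 4 * x ^ 3 ≤ (k':ℝ) := hK1.trans (by exact_mod_cast hk1)
  have hx3 : x ≤ x ^ 3 := by
    calc x = x * 1 := by ring
      _ ≤ x * x ^ 2 := mul_le_mul_of_nonneg_left (one_le_pow₀ (by linarith)) hx0.le
      _ = x ^ 3 := by ring
  have hk'x : x ≤ (k':ℝ) := by linarith [pow_pos hx0 3]
  have hk'pos : 0 < (k':ℝ) := by linarith
  set R := lam * Real.sqrt ((A:ℝ) * k') with hR
  set R' := Real.sqrt ((B:ℝ) * k) with hR'
  have hRnn : 0 ≤ R := by positivity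
  have hR'nn : 0 ≤ R' := Real.sqrt_nonneg _
  have hRsq : R ^ 2 = lam ^ 2 * (A * k') := by
    rw [hR, mul_pow, Real.sq_sqrt (by positivity)]
  have hR'sq : R' ^ 2 = B * k := Real.sq_sqrt (by positivity)
  have hABr : (lam:ℝ) * A ≤ B := by exact_mod_cast hAB
  have hAB2r : (B:ℝ) ≤ lam * (A + 1) := by exact_mod_cast hAB2.le
  have hlkr : (lam:ℝ) * k' ≤ k := by exact_mod_cast hlk
  have hlk2r : (k:ℝ) ≤ lam * (k' + 1) := by exact_mod_cast hlk2.le
  have hRR' : R ≤ R' := by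
    apply le_of_sq_le_sq _ hR'nn
    rw [hRsq, hR'sq]
    calc (lam:ℝ) ^ 2 * (A * k') = (lam * A) * (lam * k') := by ring
      _ ≤ B * k := mul_le_mul hABr hlkr (by positivity) (by positivity)
  have hR'R : R' ≤ (1 + 1 / x) * R := by
    apply le_of_sq_le_sq _ (by positivity)
    rw [mul_pow, hRsq, hR'sq]
    have e1 : (A:ℝ) + 1 ≤ (1 + 1 / x) * A := by
      have : 1 ≤ 1 / x * A := by rw [one_div, inv_mul_eq_div, le_div_iff₀ hx0]; linarith
      linarith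
    have e2 : (k':ℝ) + 1 ≤ (1 + 1 / x) * k' := by
      have : 1 ≤ 1 / x * k' := by rw [one_div, inv_mul_eq_div, le_div_iff₀ hx0]; linarith
      linarith
    calc (B:ℝ) * k ≤ (lam * (A + 1)) * (lam * (k' + 1)) :=
          mul_le_mul hAB2r hlk2r (by positivity) (by positivity)
      _ ≤ (lam * ((1 + 1 / x) * A)) * (lam * ((1 + 1 / x) * k')) := by gcongr
      _ = (1 + 1 / x) ^ 2 * (lam ^ 2 * (A * k')) := by ring
  -- decompositions
  have hIk' : I ≤ k' := by omega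
  have hlI : lam * I ≤ lam * k' := Nat.mul_le_mul_left lam hIk'
  have d1 : ZI B 1 ω k = ZI B 1 ω (lam * I) + ∑ i ∈ Ioc (lam * I) (lam * k'), Y ω (B / i)
      + ∑ i ∈ Ioc (lam * k') k, Y ω (B / i) := by
    rw [ZI_Ioc, ZI_Ioc, add_assoc, Finset.sum_Ioc_consecutive _ hlI hlk,
      Finset.sum_Ioc_consecutive _ (Nat.zero_le _) (hlI.trans hlk)]
  have d2 : ZI A 1 ω k' = ZI A 1 ω I + ∑ j ∈ Ioc I k', Y ω (A / j) := by
    rw [ZI_Ioc, ZI_Ioc, Finset.sum_Ioc_consecutive _ (Nat.zero_le _) hIk']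
  have hwin : ∀ j, I < j → j ≤ k' + 1 → ∀ i ∈ Ioc (lam * (j-1)) (lam * j),
      |Y ω (B / i) - Y ω (A / j)| ≤ Real.sqrt ((A:ℝ) / j) / x := by
    intro j hj1 hj2 i hi
    rw [Finset.mem_Ioc] at hi
    apply g1 j (Finset.mem_Icc.2 ⟨by omega, by omega⟩)
    · rw [hAdef, Nat.div_div_eq_div_mul]
      exact Nat.div_le_div_left hi.2 (by omega)
    · rw [hAdef, Nat.div_div_eq_div_mul]
      exact Nat.div_le_div_left hi.1.le (Nat.mul_pos (by omega) (by omega))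
  have t1 := blocks_cmp (fun i => Y ω (B / i)) (fun j => Y ω (A / j))
    (fun j => Real.sqrt ((A:ℝ) / j) / x) lam I k' hIk'
    (fun j hj1 hj2 i hi => hwin j hj1 (by omega) i hi)
  have t1' : (lam:ℝ) * ∑ j ∈ Ioc I k', Real.sqrt ((A:ℝ) / j) / x ≤ 2 / x * R := by
    have := mul_le_mul_of_nonneg_left (sum_sqrt_Ioc_le (A:ℝ) hApos.le I k' x hx0)
      (by positivity : (0:ℝ) ≤ lam)
    calc _ ≤ _ := this
      _ = 2 / x * R := by rw [hR]; ring
  have t2 := block_cmp (fun i => Y ω (B / i)) (lam * k') k hlk (Y ω (A / (k'+1)))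
    (Real.sqrt ((A:ℝ) / ((k'+1 : ℕ):ℝ)) / x) (by
      intro i hi
      rw [Finset.mem_Ioc] at hi
      apply hwin (k'+1) (by omega) le_rfl i
      rw [Finset.mem_Ioc]
      refine ⟨by simpa using hi.1, by omega⟩)
  have g2' := g2 (k'+1) (Finset.mem_Icc.2 ⟨by omega, by omega⟩)
  have hdiff : (k:ℝ) - ((lam * k' : ℕ) : ℝ) ≤ lam := by push_cast; linarith
  have hdiff0 : 0 ≤ (k:ℝ) - ((lam * k' : ℕ) : ℝ) := by push_cast; linarith
  set q := Real.sqrt ((A:ℝ) / ((k'+1 : ℕ):ℝ)) with hq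
  have hqnn : 0 ≤ q := Real.sqrt_nonneg _
  have hqle : q * k' ≤ Real.sqrt ((A:ℝ) * k') := by
    apply Real.le_sqrt_of_sq_le
    rw [mul_pow, hq, Real.sq_sqrt (by positivity)]
    push_cast
    rw [div_mul_eq_mul_div, div_le_iff₀ (by positivity)]
    have f1 : (A:ℝ) * k' * (k' + 1) = A * k' ^ 2 + A * k' := by ring
    have f2 := mul_pos hApos hk'pos
    rw [f1]; linarith
  have hsx : Real.sqrt x ≤ x := by
    rw [Real.sqrt_le_left hx0.le, pow_two]
    calc x = x * 1 := by ring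
      _ ≤ x * x := mul_le_mul_of_nonneg_left (by linarith) hx0.le
  have t3 : |∑ i ∈ Ioc (lam * k') k, Y ω (B / i)| ≤ R / x := by
    have e1 : |∑ i ∈ Ioc (lam * k') k, Y ω (B / i)| ≤ lam * (Real.sqrt x * q) + lam * (q / x) := by
      have e2 : |((k:ℝ) - ((lam * k' : ℕ) : ℝ)) * Y ω (A / (k'+1))| ≤ lam * (Real.sqrt x * q) := by
        rw [abs_mul, abs_of_nonneg hdiff0]
        exact mul_le_mul hdiff g2' (abs_nonneg _) (by positivity)
      have e3 : ((k:ℝ) - ((lam * k' : ℕ) : ℝ)) * (q / x) ≤ lam * (q / x) :=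
        mul_le_mul_of_nonneg_right hdiff (by positivity)
      rw [abs_le] at t2 e2 ⊢
      constructor <;> linarith [t2.1, t2.2, e2.1, e2.2]
    refine e1.trans ?_
    rw [hR, le_div_iff₀ hx0]
    have e4 : (lam * (Real.sqrt x * q) + lam * (q / x)) * x = lam * (q * (Real.sqrt x * x + 1)) := by
      field_simp
    rw [e4]
    apply mul_le_mul_of_nonneg_left _ (by positivity)
    refine le_trans ?_ hqle
    apply mul_le_mul_of_nonneg_left _ hqnn
    have e5 : Real.sqrt x * x ≤ x ^ 2 := by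
      rw [pow_two]; exact mul_le_mul_of_nonneg_right hsx hx0.le
    have e6 : x ^ 2 + 1 ≤ 4 * x ^ 3 := by
      have f1 : x ^ 2 ≤ x ^ 3 := pow_le_pow_right₀ (by linarith) (by norm_num)
      have f2 : (1:ℝ) ≤ x ^ 3 := one_le_pow₀ (by linarith)
      linarith
    linarith
  have g3' : |ZI B 1 ω (lam * I)| ≤ R' / x := by
    refine g3.trans ?_
    apply div_le_div_of_nonneg_right _ hx0.le
    apply Real.sqrt_le_sqrt
    exact mul_le_mul_of_nonneg_left (by exact_mod_cast hk.1) (by positivity)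
  have g4' : |(lam:ℝ) * ZI A 1 ω I| ≤ R / x := by
    rw [abs_mul, abs_of_nonneg (by positivity : (0:ℝ) ≤ lam)]
    calc (lam:ℝ) * |ZI A 1 ω I| ≤ lam * (Real.sqrt ((A:ℝ) * K1) / x) :=
          mul_le_mul_of_nonneg_left g4 (by positivity)
      _ ≤ lam * (Real.sqrt ((A:ℝ) * k') / x) := by
          apply mul_le_mul_of_nonneg_left _ (by positivity)
          apply div_le_div_of_nonneg_right _ hx0.le
          apply Real.sqrt_le_sqrt
          exact mul_le_mul_of_nonneg_left (by exact_mod_cast hk1) hApos.le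
      _ = R / x := by rw [hR]; ring
  have hEk := hE k' (Finset.mem_Icc.2 ⟨hk1, hk2⟩)
  have hEk' : (h + 9 / x) * R ≤ lam * ZI A 1 ω k' := by
    have := mul_le_mul_of_nonneg_left hEk (by positivity : (0:ℝ) ≤ lam)
    calc (h + 9 / x) * R = lam * ((h + 9 / x) * Real.sqrt ((A:ℝ) * k')) := by rw [hR]; ring
      _ ≤ _ := this
  have hR'x : R' / x ≤ 3 / 2 * (R / x) := by
    rw [← mul_div_assoc, div_le_div_iff_of_pos_right hx0]
    refine hR'R.trans ?_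
    apply mul_le_mul_of_nonneg_right _ hRnn
    have : 1 / x ≤ 1 / 2 := one_div_le_one_div_of_le (by norm_num) hx
    linarith
  have hRx : 9 / x * R = 9 * (R / x) := by ring
  have hRx2 : 2 / x * R = 2 * (R / x) := by ring
  have hgoal : h * R' ≤ h * R + R / x := by
    rcases le_or_gt 0 h with h0 | h0
    · have h1 : h ≤ 1 := (le_abs_self h).trans hh
      have e1 := mul_le_mul_of_nonneg_left hR'R h0
      have e2 : h * ((1 + 1 / x) * R) = h * R + h * (R / x) := by ring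
      have e3 : h * (R / x) ≤ 1 * (R / x) := mul_le_mul_of_nonneg_right h1 (by positivity)
      linarith
    · have e1 : h * R' ≤ h * R := mul_le_mul_of_nonpos_left hRR' h0.le
      have : 0 ≤ R / x := by positivity
      linarith
  have hRxnn : 0 ≤ R / x := by positivity
  rw [abs_le] at t1 t3 g3' g4'
  rw [add_mul, hRx] at hEk'
  rw [hRx2] at t1'
  have d2' : (lam:ℝ) * ZI A 1 ω k' = lam * ZI A 1 ω I + lam * ∑ j ∈ Ioc I k', Y ω (A / j) := by
    rw [d2]; ring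
  rw [d1]
  linarith [t1.1, t3.1, g3'.1, g4'.2]

/-- **Index scaling**. -/
lemma idx_scale (lam B I K1 K2 : ℕ) (x h : ℝ) (hlam : 1 ≤ lam) (hx : 2 ≤ x)
    (hI : 4 * x ^ 3 ≤ I) (hK1 : 4 * x ^ 3 * I ≤ K1) (hK12 : K1 ≤ K2) (hh : |h| ≤ 1)
    (hA : 4 * x ^ 3 * (K2 + 1) ≤ ((B / lam : ℕ) : ℝ)) :
    G (B / lam) K1 K2 (h + 9 / x) ≤ G B (lam * K1) (lam * K2) h
      + 8 * (K2 + 1) * Real.exp (-(x / 2)) := by
  have hx0 : 0 < x := by linarith
  set A := B / lam with hAdef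
  have hAB : A ≤ B := Nat.div_le_self B lam
  have hx3 : 8 ≤ x ^ 3 := by
    calc (8:ℝ) = 2 ^ 3 := by norm_num
      _ ≤ x ^ 3 := pow_le_pow_left₀ (by norm_num) hx 3
  have hI32 : (32:ℝ) ≤ I := by linarith
  have hI1 : 32 ≤ I := by exact_mod_cast hI32
  have hK1I : (32:ℝ) * I ≤ K1 := by
    have := mul_le_mul_of_nonneg_right (by linarith : (32:ℝ) ≤ 4 * x ^ 3) (by linarith : (0:ℝ) ≤ I)
    linarith
  have hIK : I + 1 ≤ K1 := by
    have : (I:ℝ) + 1 ≤ K1 := by linarith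
    exact_mod_cast this
  have hK1r : 4 * x ^ 3 ≤ (K1:ℝ) := by linarith
  have hK1K2 : (K1:ℝ) ≤ K2 := by exact_mod_cast hK12
  have hApos : 0 < (A:ℝ) := lt_of_lt_of_le (by positivity) hA
  have hxx3 : x ≤ x ^ 3 := by
    calc x = x * 1 := by ring
      _ ≤ x * x ^ 2 := mul_le_mul_of_nonneg_left (one_le_pow₀ (by linarith)) hx0.le
      _ = x ^ 3 := by ring
  have hAx : x ≤ (A:ℝ) := by
    have : (0:ℝ) ≤ 4 * x ^ 3 * K2 := by positivity
    nlinarith
  have hlamR : (1:ℝ) ≤ lam := by exact_mod_cast hlam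
  have hABr : (lam:ℝ) * A ≤ B := by exact_mod_cast Nat.mul_div_le B lam
  have hBpos : 0 < (B:ℝ) := by nlinarith
  -- bad events
  have b1 : ∀ j ∈ Icc (I+1) (K2+1), Pr B (fun ω => ∃ t, A / j ≤ t ∧ t ≤ A / (j-1) ∧
      Real.sqrt ((A:ℝ) / j) / x ≤ |Y ω t - Y ω (A / j)|) ≤ 2 * Real.exp (-(x / 2)) := by
    intro j hj
    rw [Finset.mem_Icc] at hj
    have hj1 : (I:ℝ) + 1 ≤ j := by exact_mod_cast hj.1
    have hj2 : (j:ℝ) ≤ K2 + 1 := by exact_mod_cast hj.2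
    have hjpos : (0:ℝ) < j := by linarith
    have hjm : ((j - 1 : ℕ) : ℝ) = j - 1 := by rw [Nat.cast_sub (by omega)]; simp
    have hjm0 : (0:ℝ) < (j:ℝ) - 1 := by linarith
    have hV2 : ((A / (j-1) : ℕ) : ℝ) - ((A / j : ℕ) : ℝ) ≤ (A:ℝ) / (j * (j-1)) + 1 := by
      have e1 : ((A / (j-1) : ℕ) : ℝ) ≤ (A:ℝ) / (j - 1) := by
        rw [← hjm]; exact Nat.cast_div_le
      have e2 : (A:ℝ) / j ≤ ((A / j : ℕ) : ℝ) + 1 := by
        have := Nat.lt_div_mul_add (a := A) (b := j) (by omega)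
        rw [div_le_iff₀ hjpos]
        have h2 : (A:ℝ) < (A / j : ℕ) * j + j := by exact_mod_cast this
        nlinarith
      have e3 : (A:ℝ) / (j - 1) - A / j = (A:ℝ) / (j * (j-1)) := by
        field_simp; ring
      linarith
    have hVpos : 0 < (A:ℝ) / (j * (j-1)) + 1 := by positivity
    refine (maximal_window' B (A / j) (A / (j-1)) (Nat.div_le_div_left (by omega) (by omega))
      ((Nat.div_le_self A _).trans hAB) (Real.sqrt ((A:ℝ) / j) / x) ((A:ℝ) / (j * (j-1)) + 1)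
      (by positivity) hVpos hV2).trans ?_
    apply mul_le_mul_of_nonneg_left _ (by norm_num)
    apply Real.exp_le_exp.2
    apply neg_le_neg
    rw [le_div_iff₀ (by positivity), div_pow, Real.sq_sqrt (by positivity), le_div_iff₀ (by positivity)]
    -- x/2 * (2 * (A/(j(j-1)) + 1)) * x² ≤ A/j
    have e1 : x / 2 * (2 * ((A:ℝ) / (j * (j-1)) + 1)) * x ^ 2
        = x ^ 3 * ((A:ℝ) / (j * (j-1))) + x ^ 3 := by ring
    rw [e1]
    have e2 : x ^ 3 * ((A:ℝ) / (j * (j-1))) ≤ (A:ℝ) / j / 2 := by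
      have : x ^ 3 * ((A:ℝ) / (j * (j-1))) = (A:ℝ) / j * (x ^ 3 / (j-1)) := by
        field_simp
      rw [this]
      have h2 : x ^ 3 / ((j:ℝ)-1) ≤ 1 / 2 := by
        rw [div_le_div_iff₀ hjm0 (by norm_num)]; linarith
      have := mul_le_mul_of_nonneg_left h2 (by positivity : (0:ℝ) ≤ (A:ℝ)/j)
      linarith
    have e3 : x ^ 3 ≤ (A:ℝ) / j / 2 := by
      rw [div_div, le_div_iff₀ (by positivity)]
      have : x ^ 3 * (j * 2) ≤ x ^ 3 * ((K2 + 1) * 2) := by gcongr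
      have h5 : 0 ≤ x ^ 3 * ((K2:ℝ) + 1) := by positivity
      nlinarith
    linarith
  have b2 : ∀ j ∈ Icc K1 (K2+1), Pr B (fun ω => Real.sqrt x * Real.sqrt ((A:ℝ) / j) ≤ |Y ω (A / j)|)
      ≤ 2 * Real.exp (-(x / 2)) := by
    intro j hj
    rw [Finset.mem_Icc] at hj
    have hjpos : (0:ℝ) < j := by
      have : (K1:ℝ) ≤ j := by exact_mod_cast hj.1
      linarith
    refine (Y_tail B (A / j) (Real.sqrt x * Real.sqrt ((A:ℝ) / j)) ((A:ℝ)/j) (by positivity)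
      Nat.cast_div_le (by positivity)).trans (le_of_eq ?_)
    rw [mul_pow, Real.sq_sqrt hx0.le, Real.sq_sqrt (by positivity)]
    congr 3
    field_simp
  have b34 : x ≤ (K1:ℝ) / (4 * x ^ 2 * I) := by
    rw [le_div_iff₀ (by positivity)]
    have : x * (4 * x ^ 2 * I) = 4 * x ^ 3 * I := by ring
    rw [this]; exact hK1
  have b3 : Pr B (fun ω => Real.sqrt ((B:ℝ) * ((lam * K1 : ℕ) : ℝ)) / x ≤ |ZI B 1 ω (lam * I)|)
      ≤ 2 * Real.exp (-(x / 2)) := by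
    refine (small_idx B B (lam * I) _ (2 * B * ((lam * I : ℕ) : ℝ)) (by positivity) le_rfl
      (by push_cast; positivity)).trans ?_
    apply mul_le_mul_of_nonneg_left _ (by norm_num)
    apply Real.exp_le_exp.2
    apply neg_le_neg
    rw [div_pow, Real.sq_sqrt (by positivity)]
    have : (B:ℝ) * ((lam * K1 : ℕ) : ℝ) / x ^ 2 / (2 * (2 * B * ((lam * I : ℕ) : ℝ)))
        = (K1:ℝ) / (4 * x ^ 2 * I) := by
      push_cast; field_simp; ring
    rw [this]; linarith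
  have b4 : Pr B (fun ω => Real.sqrt ((A:ℝ) * K1) / x ≤ |ZI A 1 ω I|) ≤ 2 * Real.exp (-(x / 2)) := by
    refine (small_idx B A I _ (2 * A * I) (by positivity) le_rfl (by positivity)).trans ?_
    apply mul_le_mul_of_nonneg_left _ (by norm_num)
    apply Real.exp_le_exp.2
    apply neg_le_neg
    rw [div_pow, Real.sq_sqrt (by positivity)]
    have : (A:ℝ) * K1 / x ^ 2 / (2 * (2 * A * I)) = (K1:ℝ) / (4 * x ^ 2 * I) := by
      field_simp; ring
    rw [this]; linarith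
  rw [G_prefix A B K1 K2 _ hAB]
  unfold G
  have hmain : ∀ ω : Fin B → Bool,
      (∀ k ∈ Icc K1 K2, (h + 9 / x) * Real.sqrt ((A:ℝ) * k) ≤ ZI A 1 ω k) →
      (∀ k ∈ Icc (lam * K1) (lam * K2), h * Real.sqrt ((B:ℝ) * k) ≤ ZI B 1 ω k) ∨
      ((∃ j ∈ Icc (I+1) (K2+1), ∃ t, A / j ≤ t ∧ t ≤ A / (j-1) ∧
        Real.sqrt ((A:ℝ) / j) / x ≤ |Y ω t - Y ω (A / j)|) ∨
       ((∃ j ∈ Icc K1 (K2+1), Real.sqrt x * Real.sqrt ((A:ℝ) / j) ≤ |Y ω (A / j)|) ∨
        ((Real.sqrt ((B:ℝ) * ((lam * K1 : ℕ) : ℝ)) / x ≤ |ZI B 1 ω (lam * I)|) ∨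
         (Real.sqrt ((A:ℝ) * K1) / x ≤ |ZI A 1 ω I|)))) := by
    intro ω hE
    by_contra hc
    push Not at hc
    obtain ⟨hc1, hc2, hc3, hc4, hc5⟩ := hc
    obtain ⟨k, hk, hk2⟩ := hc1
    have := idx_det lam B I K1 K2 x h hlam hx (by omega) hIK hh hK1r hAx ω
      (fun j hj t ht1 ht2 => (hc2 j hj t ht1 ht2).le) (fun j hj => (hc3 j hj).le) hc4.le hc5.le hE k hk
    linarith
  refine (Pr_mono B hmain).trans ((Pr_or_le B _ _).trans (add_le_add le_rfl ?_))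
  have c1 := Pr_or_le B (fun ω => (∃ j ∈ Icc (I+1) (K2+1), ∃ t, A / j ≤ t ∧ t ≤ A / (j-1) ∧
        Real.sqrt ((A:ℝ) / j) / x ≤ |Y ω t - Y ω (A / j)|))
       (fun ω => ((∃ j ∈ Icc K1 (K2+1), Real.sqrt x * Real.sqrt ((A:ℝ) / j) ≤ |Y ω (A / j)|) ∨
        ((Real.sqrt ((B:ℝ) * ((lam * K1 : ℕ) : ℝ)) / x ≤ |ZI B 1 ω (lam * I)|) ∨
         (Real.sqrt ((A:ℝ) * K1) / x ≤ |ZI A 1 ω I|))))
  have c2 := Pr_or_le B (fun ω => (∃ j ∈ Icc K1 (K2+1), Real.sqrt x * Real.sqrt ((A:ℝ) / j) ≤ |Y ω (A / j)|))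
       (fun ω => ((Real.sqrt ((B:ℝ) * ((lam * K1 : ℕ) : ℝ)) / x ≤ |ZI B 1 ω (lam * I)|) ∨
         (Real.sqrt ((A:ℝ) * K1) / x ≤ |ZI A 1 ω I|)))
  have c3 := Pr_or_le B (fun ω => (Real.sqrt ((B:ℝ) * ((lam * K1 : ℕ) : ℝ)) / x ≤ |ZI B 1 ω (lam * I)|))
       (fun ω => (Real.sqrt ((A:ℝ) * K1) / x ≤ |ZI A 1 ω I|))
  have c4 := (Pr_exists_le B (Icc (I+1) (K2+1)) (fun j ω => ∃ t, A / j ≤ t ∧ t ≤ A / (j-1) ∧
        Real.sqrt ((A:ℝ) / j) / x ≤ |Y ω t - Y ω (A / j)|)).trans (Finset.sum_le_sum b1)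
  have c5 := (Pr_exists_le B (Icc K1 (K2+1)) (fun j ω => Real.sqrt x * Real.sqrt ((A:ℝ) / j)
    ≤ |Y ω (A / j)|)).trans (Finset.sum_le_sum b2)
  rw [Finset.sum_const, Nat.card_Icc, nsmul_eq_mul] at c4 c5
  have n1 : ((K2 + 1 + 1 - (I + 1) : ℕ) : ℝ) ≤ K2 + 1 := by
    have : K2 + 1 + 1 - (I + 1) ≤ K2 + 1 := by omega
    exact_mod_cast this
  have n2 : ((K2 + 1 + 1 - K1 : ℕ) : ℝ) ≤ K2 + 1 := by
    have : K2 + 1 + 1 - K1 ≤ K2 + 1 := by omega
    exact_mod_cast this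
  have hexp := Real.exp_pos (-(x/2))
  have m1 := mul_le_mul_of_nonneg_right n1 (by positivity : (0:ℝ) ≤ 2 * Real.exp (-(x/2)))
  have m2 := mul_le_mul_of_nonneg_right n2 (by positivity : (0:ℝ) ≤ 2 * Real.exp (-(x/2)))
  have hK2nn : (0:ℝ) ≤ K2 := by positivity
  nlinarith

end Pool.GP
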