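import Pool.Agent.Lib.GP.Window

set_option autoImplicit false

/-!
Persistence of the area of the simple random walk, part 1: decomposition at the first minimum
of the area among the zeros of the walk.
-/

namespace Pool.GP.Sinai

open Finset Pool.GP

/-- area under the walk -/
def Ar (b : ℕ → Bool) (t : ℕ) : ℤ := ∑ u ∈ range (t + 1), Yi b u

/-- shifted sequence -/
def sh (s : ℕ) (b : ℕ → Bool) : ℕ → Bool := fun j => b (s + j)

@[simp] lemma Yi_zero (b : ℕ → Bool) : Yi b 0 = 0 := by simp [Yi]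

lemma Yi_succ (b : ℕ → Bool) (t : ℕ) : Yi b (t + 1) = Yi b t + si (b t) := by
  simp [Yi, Finset.sum_range_succ]

@[simp] lemma Ar_zero (b : ℕ → Bool) : Ar b 0 = 0 := by simp [Ar]

lemma Ar_succ (b : ℕ → Bool) (t : ℕ) : Ar b (t + 1) = Ar b t + Yi b (t + 1) := by
  simp [Ar, Finset.sum_range_succ]

lemma si_abs (b : Bool) : si b = 1 ∨ si b = -1 := by cases b <;> simp

lemma Yi_sh (s : ℕ) (b : ℕ → Bool) (t : ℕ) : Yi b (s + t) = Yi b s + Yi (sh s b) t := by
  induction t with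
  | zero => simp
  | succ t ih => rw [← add_assoc, Yi_succ, Yi_succ, ih, sh]; ring

lemma Ar_sh (s : ℕ) (b : ℕ → Bool) (hs : Yi b s = 0) (t : ℕ) :
    Ar b (s + t) = Ar b s + Ar (sh s b) t := by
  induction t with
  | zero => simp
  | succ t ih => rw [← add_assoc, Ar_succ, Ar_succ, ih, add_assoc s, Yi_sh, hs]; ring

lemma Yi_congr {b b' : ℕ → Bool} {t : ℕ} (h : ∀ v < t, b v = b' v) : Yi b t = Yi b' t := by
  unfold Yi
  exact Finset.sum_congr rfl fun v hv => by rw [h v (Finset.mem_range.1 hv)]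

lemma Ar_congr {b b' : ℕ → Bool} {t : ℕ} (h : ∀ v < t, b v = b' v) : Ar b t = Ar b' t := by
  unfold Ar
  refine Finset.sum_congr rfl fun u hu => Yi_congr fun v hv => h v ?_
  have := Finset.mem_range.1 hu
  omega

/-- area nonnegative at the zeros -/
def GR (n : ℕ) (b : ℕ → Bool) : Prop := ∀ t ≤ n, Yi b t = 0 → 0 ≤ Ar b t

/-- bridge with area nonnegative at the zeros -/
def GQ (n : ℕ) (b : ℕ → Bool) : Prop := Yi b n = 0 ∧ GR n b

/-- bridge whose end is the strict first minimum of the area -/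
def GS (n : ℕ) (b : ℕ → Bool) : Prop := Yi b n = 0 ∧ ∀ t < n, Yi b t = 0 → Ar b n < Ar b t

/-- bridge whose end is a minimum of the area -/
def GT (n : ℕ) (b : ℕ → Bool) : Prop := Yi b n = 0 ∧ ∀ t < n, Yi b t = 0 → Ar b n ≤ Ar b t

/-- events depending on the first `n` steps -/
def Loc (n : ℕ) (A : (ℕ → Bool) → Prop) : Prop :=
  ∀ b b' : ℕ → Bool, (∀ v < n, b v = b' v) → A b → A b'

lemma loc_GR (n : ℕ) : Loc n (GR n) := by
  intro b b' h hb t ht h0
  rw [← Yi_congr fun v hv => h v (lt_of_lt_of_le hv ht)] at h0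
  rw [← Ar_congr fun v hv => h v (lt_of_lt_of_le hv ht)]
  exact hb t ht h0

lemma loc_Yi (n : ℕ) : Loc n (fun b => Yi b n = 0) := by
  intro b b' h hb
  change Yi b' n = 0
  rw [← Yi_congr h]; exact hb

lemma loc_GQ (n : ℕ) : Loc n (GQ n) := fun b b' h hb => ⟨loc_Yi n b b' h hb.1, loc_GR n b b' h hb.2⟩

lemma loc_GS (n : ℕ) : Loc n (GS n) := by
  intro b b' h hb
  refine ⟨loc_Yi n b b' h hb.1, fun t ht h0 => ?_⟩
  rw [← Yi_congr fun v hv => h v (lt_trans hv ht)] at h0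
  rw [← Ar_congr fun v hv => h v (lt_trans hv ht), ← Ar_congr h]
  exact hb.2 t ht h0

lemma loc_GT (n : ℕ) : Loc n (GT n) := by
  intro b b' h hb
  refine ⟨loc_Yi n b b' h hb.1, fun t ht h0 => ?_⟩
  rw [← Yi_congr fun v hv => h v (lt_trans hv ht)] at h0
  rw [← Ar_congr fun v hv => h v (lt_trans hv ht), ← Ar_congr h]
  exact hb.2 t ht h0

lemma Loc.iff {n : ℕ} {A : (ℕ → Bool) → Prop} (hA : Loc n A) {b b' : ℕ → Bool}
    (h : ∀ v < n, b v = b' v) : A b ↔ A b' :=
  ⟨hA b b' h, hA b' b fun v hv => (h v hv).symm⟩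

/-- probability in terms of infinite sequences -/
noncomputable def PP (n : ℕ) (A : (ℕ → Bool) → Prop) : ℝ := Pr n (fun ω => A (ext ω))

lemma PP_mono (n : ℕ) {A B : (ℕ → Bool) → Prop} (h : ∀ b, A b → B b) : PP n A ≤ PP n B :=
  Pr_mono n fun ω => h _

lemma PP_nonneg (n : ℕ) (A : (ℕ → Bool) → Prop) : 0 ≤ PP n A := Pr_nonneg n _

lemma PP_le_one (n : ℕ) (A : (ℕ → Bool) → Prop) : PP n A ≤ 1 := Pr_le_one n _

lemma PP_true (n : ℕ) : PP n (fun _ => True) = 1 := Pr_true n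

lemma ext_append_lt {s m : ℕ} (a : Fin s → Bool) (b : Fin m → Bool) {v : ℕ} (hv : v < s) :
    ext (Fin.append a b) v = ext a v := by
  rw [ext_lt _ (by omega : v < s + m), ext_lt _ hv]
  have : (⟨v, by omega⟩ : Fin (s + m)) = Fin.castAdd m ⟨v, hv⟩ := rfl
  rw [this, Fin.append_left]

lemma sh_ext_append {s m : ℕ} (a : Fin s → Bool) (b : Fin m → Bool) :
    sh s (ext (Fin.append a b)) = ext b := by
  funext j
  unfold sh
  by_cases hj : j < m
  · rw [ext_lt _ (by omega : s + j < s + m), ext_lt _ hj]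
    have : (⟨s + j, by omega⟩ : Fin (s + m)) = Fin.natAdd s ⟨j, hj⟩ := rfl
    rw [this, Fin.append_right]
  · unfold ext
    rw [dif_neg (by omega), dif_neg hj]

/-- independence of the past and the future -/
lemma PP_append {s m : ℕ} {A : (ℕ → Bool) → Prop} (hA : Loc s A) (B : (ℕ → Bool) → Prop) :
    PP (s + m) (fun b => A b ∧ B (sh s b)) = PP s A * PP m B := by
  unfold PP Pr
  rw [E_append, ← E_mul_right]
  refine E_congr s fun a => ?_
  rw [← E_mul_left]
  refine E_congr m fun b => ?_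
  rw [ind_and, sh_ext_append]
  congr 1
  have h := hA.iff (b := ext (Fin.append a b)) (b' := ext a) fun v hv => ext_append_lt a b hv
  by_cases h' : A (ext a)
  · rw [ind_of h', ind_of (h.2 h')]
  · rw [ind_not h', ind_not fun h'' => h' (h.1 h'')]

lemma PP_append' {n s : ℕ} (hs : s ≤ n) {A : (ℕ → Bool) → Prop} (hA : Loc s A)
    (B : (ℕ → Bool) → Prop) :
    PP n (fun b => A b ∧ B (sh s b)) = PP s A * PP (n - s) B := by
  obtain ⟨m, rfl⟩ := Nat.exists_eq_add_of_le hs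
  rw [PP_append hA, Nat.add_sub_cancel_left]

/-- existence of the first minimum -/
lemma exists_first (b : ℕ → Bool) (n : ℕ) : ∃ s ≤ n, GS s b ∧ GR (n - s) (sh s b) := by
  classical
  set Z := (range (n + 1)).filter fun t => Yi b t = 0 with hZ
  have hne : Z.Nonempty := ⟨0, by simp [hZ]⟩
  obtain ⟨t0, ht0, hmin⟩ := Finset.exists_min_image Z (fun t => Ar b t) hne
  have hZmem : ∀ t, t ∈ Z ↔ t ≤ n ∧ Yi b t = 0 := by
    intro t; simp [hZ, Nat.lt_succ_iff]
  have hex : ∃ s, s ≤ n ∧ Yi b s = 0 ∧ Ar b s = Ar b t0 :=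
    ⟨t0, ((hZmem t0).1 ht0).1, ((hZmem t0).1 ht0).2, rfl⟩
  obtain ⟨h1, h2, h3⟩ := Nat.find_spec hex
  refine ⟨Nat.find hex, h1, ⟨h2, fun t ht h0 => ?_⟩, fun t ht h0 => ?_⟩
  · rw [h3]
    refine lt_of_le_of_ne (hmin t ((hZmem t).2 ⟨by omega, h0⟩)) fun heq => ?_
    exact Nat.find_min hex ht ⟨by omega, h0, heq.symm⟩
  · have e1 : Yi b (Nat.find hex + t) = 0 := by rw [Yi_sh, h2, h0, add_zero]
    have e2 := hmin (Nat.find hex + t) ((hZmem _).2 ⟨by omega, e1⟩)
    rw [Ar_sh _ _ h2, h3] at e2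
    simpa using e2

lemma first_unique {b : ℕ → Bool} {n s s' : ℕ} (hs : s ≤ n) (hs' : s' ≤ n)
    (h : GS s b ∧ GR (n - s) (sh s b)) (h' : GS s' b ∧ GR (n - s') (sh s' b)) : s = s' := by
  have key : ∀ {s s' : ℕ}, s' ≤ n → (GS s b ∧ GR (n - s) (sh s b)) →
      (GS s' b ∧ GR (n - s') (sh s' b)) → ¬ s < s' := by
    intro s s' hs' h h' hlt
    obtain ⟨⟨a1, _⟩, a2⟩ := h
    obtain ⟨⟨b1, b2⟩, _⟩ := h'
    have c1 := b2 s hlt a1
    have c2 := a2 (s' - s) (by omega) (by
      have := Yi_sh s b (s' - s)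
      rw [Nat.add_sub_cancel' hlt.le, b1, a1] at this
      omega)
    have c3 := Ar_sh s b a1 (s' - s)
    rw [Nat.add_sub_cancel' hlt.le] at c3
    omega
  rcases lt_trichotomy s s' with h1 | h1 | h1
  · exact absurd h1 (key hs' h h')
  · exact h1
  · exact absurd h1 (key hs h' h)

lemma sum_first (b : ℕ → Bool) (n : ℕ) :
    ∑ s ∈ range (n + 1), ind (GS s b ∧ GR (n - s) (sh s b)) = 1 := by
  obtain ⟨s, hs, h⟩ := exists_first b n
  rw [Finset.sum_eq_single s, ind_of h]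
  · intro s' hs' hne
    apply ind_not
    intro h'
    exact hne (first_unique (by have := Finset.mem_range.1 hs'; omega) hs h' h)
  · intro h1
    exact absurd (Finset.mem_range.2 (by omega)) h1

noncomputable def qs (n : ℕ) : ℝ := PP n (GS n)
noncomputable def qq (n : ℕ) : ℝ := PP n (GQ n)
noncomputable def rr (n : ℕ) : ℝ := PP n (GR n)
noncomputable def bb (n : ℕ) : ℝ := PP n (fun b => Yi b n = 0)

/-- renewal identity for paths -/
lemma conv_rr (n : ℕ) : ∑ s ∈ range (n + 1), qs s * rr (n - s) = 1 := by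
  have h : ∀ s ∈ range (n + 1), qs s * rr (n - s) =
      E n (fun ω => ind (GS s (ext ω) ∧ GR (n - s) (sh s (ext ω)))) := by
    intro s hs
    exact (PP_append' (by have := Finset.mem_range.1 hs; omega) (loc_GS s) (GR (n - s))).symm
  rw [Finset.sum_congr rfl h, ← E_sum]
  simp only [sum_first]
  exact E_const n 1

/-- renewal identity for bridges -/
lemma conv_qq (n : ℕ) : ∑ s ∈ range (n + 1), qs s * qq (n - s) = bb n := by
  have h : ∀ s ∈ range (n + 1), qs s * qq (n - s) =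
      E n (fun ω => ind (GS s (ext ω) ∧ GR (n - s) (sh s (ext ω))) * ind (Yi (ext ω) n = 0)) := by
    intro s hs
    have hs' : s ≤ n := by have := Finset.mem_range.1 hs; omega
    have := PP_append' hs' (loc_GS s) (GQ (n - s))
    unfold qs qq
    rw [← this]
    unfold PP Pr
    refine E_congr n fun ω => ?_
    rw [← ind_and]
    congr 1
    apply propext
    have e := Yi_sh s (ext ω) (n - s)
    rw [Nat.add_sub_cancel' hs'] at e
    constructor
    · rintro ⟨h1, h2, h3⟩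
      exact ⟨⟨h1, h3⟩, by rw [e, h1.1, h2, add_zero]⟩
    · rintro ⟨⟨h1, h2⟩, h3⟩
      refine ⟨h1, ?_, h2⟩
      rw [h3, h1.1] at e
      omega
  rw [Finset.sum_congr rfl h, ← E_sum]
  unfold bb PP Pr
  refine E_congr n fun ω => ?_
  rw [← Finset.sum_mul, sum_first, one_mul]

lemma qs_nonneg (n : ℕ) : 0 ≤ qs n := PP_nonneg n _
lemma qq_nonneg (n : ℕ) : 0 ≤ qq n := PP_nonneg n _
lemma rr_nonneg (n : ℕ) : 0 ≤ rr n := PP_nonneg n _
lemma bb_nonneg (n : ℕ) : 0 ≤ bb n := PP_nonneg n _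

lemma qs_zero : qs 0 = 1 := by
  unfold qs PP
  rw [Pr_congr 0 (B := fun _ => True), Pr_true]
  intro ω
  simp [GS]

lemma rr_succ_le (n : ℕ) : rr (n + 1) ≤ rr n := by
  have h := PP_append (m := 1) (loc_GR n) (fun _ => True)
  rw [PP_true, mul_one] at h
  unfold rr
  rw [← h]
  refine PP_mono _ fun b hb => ⟨fun t ht => hb t (by omega), trivial⟩

lemma rr_antitone : Antitone rr := antitone_nat_of_succ_le rr_succ_le

/-- reversal -/
def revE (n : ℕ) : (Fin n → Bool) ≃ (Fin n → Bool) where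
  toFun ω := fun i => ω i.rev
  invFun ω := fun i => ω i.rev
  left_inv ω := by funext i; simp
  right_inv ω := by funext i; simp

lemma ext_rev {n : ℕ} (ω : Fin n → Bool) {j : ℕ} (hj : j < n) :
    ext (revE n ω) j = ext ω (n - 1 - j) := by
  rw [ext_lt _ hj, ext_lt _ (by omega : n - 1 - j < n)]
  change ω (Fin.rev ⟨j, hj⟩) = _
  congr 1
  ext
  simp [Fin.val_rev]
  omega

lemma Yi_rev {n : ℕ} (ω : Fin n → Bool) {t : ℕ} (ht : t ≤ n) :
    Yi (ext (revE n ω)) t = Yi (ext ω) n - Yi (ext ω) (n - t) := by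
  induction t with
  | zero => simp
  | succ t ih =>
    rw [Yi_succ, ih (by omega), ext_rev ω (by omega)]
    have e : n - t = (n - (t + 1)) + 1 := by omega
    rw [e, Yi_succ]
    have e2 : n - 1 - t = n - (t + 1) := by omega
    rw [e2]; ring

lemma Ar_rev {n : ℕ} (ω : Fin n → Bool) (h0 : Yi (ext ω) n = 0) {t : ℕ} (ht : t ≤ n) :
    Ar (ext (revE n ω)) t = Ar (ext ω) (n - t) - Ar (ext ω) n - Yi (ext ω) (n - t) := by
  induction t with
  | zero => simp [h0]
  | succ t ih =>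
    rw [Ar_succ, ih (by omega), Yi_rev ω ht, h0]
    have e : n - t = (n - (t + 1)) + 1 := by omega
    rw [e, Ar_succ]; ring

lemma qq_eq_GT (n : ℕ) : qq n = PP n (GT n) := by
  unfold qq PP
  rw [← Pr_equiv n (revE n)]
  refine Pr_congr n fun ω => ?_
  have e0 : Yi (ext (revE n ω)) n = Yi (ext ω) n := by
    rw [Yi_rev ω le_rfl, Nat.sub_self, Yi_zero, sub_zero]
  constructor
  · rintro ⟨h1, h2⟩
    rw [e0] at h1
    refine ⟨h1, fun t ht h0 => ?_⟩
    have e1 := h2 (n - t) (by omega) (by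
      rw [Yi_rev ω (by omega), h1, Nat.sub_sub_self ht.le, h0, sub_zero])
    rw [Ar_rev ω h1 (by omega), Nat.sub_sub_self ht.le, h0] at e1
    omega
  · rintro ⟨h1, h2⟩
    refine ⟨by rw [e0]; exact h1, fun t ht h0 => ?_⟩
    rw [Yi_rev ω ht, h1] at h0
    rw [Ar_rev ω h1 ht]
    have h0' : Yi (ext ω) (n - t) = 0 := by omega
    rw [h0']
    rcases Nat.eq_zero_or_pos t with rfl | htp
    · simp
    · have := h2 (n - t) (by omega) h0'
      omega

lemma qs_le_qq (n : ℕ) : qs n ≤ qq n := by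
  rw [qq_eq_GT]
  exact PP_mono n fun b hb => ⟨hb.1, fun t ht h0 => (hb.2 t ht h0).le⟩

lemma PP_two : PP 2 (fun b => b 0 = false ∧ b 1 = true) = 1 / 4 := by
  unfold PP Pr
  rw [E_succ', E_succ', E_succ', E_zero, E_zero, E_zero, E_zero]
  have h : ∀ a b : Bool, ind (ext (Fin.cons a (Fin.cons b (fun i : Fin 0 => i.elim0)) :
      Fin 2 → Bool) 0 = false ∧ ext (Fin.cons a (Fin.cons b (fun i : Fin 0 => i.elim0)) :
      Fin 2 → Bool) 1 = true) = ind (a = false ∧ b = true) := by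
    intro a b
    congr 1
  rw [h, h, h, h]
  simp [ind]
  norm_num

lemma qq_le (n : ℕ) : qq n ≤ 4 * qs (n + 2) := by
  have h := PP_append (m := 2) (loc_GT n) (fun b => b 0 = false ∧ b 1 = true)
  rw [PP_two, ← qq_eq_GT] at h
  have h2 : PP (n + 2) (fun b => GT n b ∧ (sh n b 0 = false ∧ sh n b 1 = true)) ≤ qs (n + 2) := by
    refine PP_mono _ fun b hb => ?_
    obtain ⟨⟨h1, h2⟩, h3, h4⟩ := hb
    have h3' : b n = false := h3
    have h4' : b (n + 1) = true := h4
    have e1 : Yi b (n + 1) = -1 := by rw [Yi_succ, h1, h3']; rfl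
    have e2 : Yi b (n + 2) = 0 := by rw [Yi_succ, e1, h4']; rfl
    have e3 : Ar b (n + 2) = Ar b n - 1 := by rw [Ar_succ, Ar_succ, e1, e2]; ring
    refine ⟨e2, fun t ht h0 => ?_⟩
    rw [e3]
    rcases Nat.lt_or_ge t n with h5 | h5
    · have := h2 t h5 h0
      omega
    · have h6 : t = n ∨ t = n + 1 := by omega
      rcases h6 with rfl | rfl
      · omega
      · rw [e1] at h0; omega
  linarith

end Pool.GP.Sinai
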