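import Pool.Agent.Lib.GP.Sinai1

set_option autoImplicit false

/-!
Persistence of the area of the simple random walk, part 2: Tanaka formula, renewal estimates.
-/

namespace Pool.GP.Sinai

open Finset Pool.GP

/-! ### Tanaka formula and moments -/

lemma Yi_snoc {n : ℕ} (ω : Fin n → Bool) (b : Bool) :
    Yi (ext (Fin.snoc ω b : Fin (n + 1) → Bool)) (n + 1) = Yi (ext ω) n + si b := by
  rw [Yi_succ, ext_snoc_last, Yi_congr fun v hv => ext_snoc_lt ω b hv]

/-- recursion for functions of the endpoint -/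
lemma E_end_succ (n : ℕ) (f : ℝ → ℝ) :
    E (n + 1) (fun ω => f (Yi (ext ω) (n + 1) : ℝ)) =
      E n (fun ω => (f ((Yi (ext ω) n : ℝ) + 1) + f ((Yi (ext ω) n : ℝ) - 1)) / 2) := by
  rw [E_succ]
  have h : ∀ g : (Fin n → Bool) → ℝ, E n (fun ω => g ω / 2) = E n g / 2 := by
    intro g
    have := E_mul_right n (1 / 2) g
    simpa [div_eq_mul_inv] using this
  rw [h, E_add]
  congr 2
  · refine E_congr n fun ω => ?_
    rw [Yi_snoc]; simp
  · refine E_congr n fun ω => ?_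
    rw [Yi_snoc]; simp [sub_eq_add_neg]

lemma tanaka (n : ℕ) : ∑ s ∈ range n, bb s = E n (fun ω => |(Yi (ext ω) n : ℝ)|) := by
  induction n with
  | zero => simp [E_zero]
  | succ n ih =>
    rw [Finset.sum_range_succ, ih, E_end_succ n (fun y => |y|)]
    unfold bb PP Pr
    rw [← E_add]
    refine E_congr n fun ω => ?_
    change |(Yi (ext ω) n : ℝ)| + ind (Yi (ext ω) n = 0) = _
    generalize Yi (ext ω) n = y
    by_cases hy : y = 0
    · rw [ind_of hy, hy]; norm_num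
    · rw [ind_not hy, add_zero]
      rcases lt_or_gt_of_ne hy with h | h
      · have h1 : (y : ℝ) ≤ -1 := by exact_mod_cast (by omega : y ≤ -1)
        rw [abs_of_nonpos (by linarith), abs_of_nonpos (by linarith), abs_of_nonpos (by linarith)]
        ring
      · have h1 : (1 : ℝ) ≤ y := by exact_mod_cast (by omega : 1 ≤ y)
        rw [abs_of_nonneg (by linarith), abs_of_nonneg (by linarith), abs_of_nonneg (by linarith)]
        ring

lemma E_sq (n : ℕ) : E n (fun ω => (Yi (ext ω) n : ℝ) ^ 2) = n := by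
  induction n with
  | zero => simp [E_zero]
  | succ n ih =>
    rw [E_end_succ n (fun y => y ^ 2)]
    have h : ∀ ω : Fin n → Bool, (((Yi (ext ω) n : ℝ) + 1) ^ 2 + ((Yi (ext ω) n : ℝ) - 1) ^ 2) / 2 =
        (Yi (ext ω) n : ℝ) ^ 2 + 1 := fun ω => by ring
    rw [E_congr n h, E_add, ih, E_const]
    push_cast; ring

lemma E_four (n : ℕ) : E n (fun ω => (Yi (ext ω) n : ℝ) ^ 4) = 3 * (n : ℝ) ^ 2 - 2 * n := by
  induction n with
  | zero => simp [E_zero]
  | succ n ih =>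
    rw [E_end_succ n (fun y => y ^ 4)]
    have h : ∀ ω : Fin n → Bool, (((Yi (ext ω) n : ℝ) + 1) ^ 4 + ((Yi (ext ω) n : ℝ) - 1) ^ 4) / 2 =
        (Yi (ext ω) n : ℝ) ^ 4 + (6 * (Yi (ext ω) n : ℝ) ^ 2 + 1) := fun ω => by ring
    rw [E_congr n h, E_add, E_add, E_mul_left, ih, E_sq, E_const]
    push_cast; ring

lemma sum_bb_le (n : ℕ) : ∑ s ∈ range n, bb s ≤ Real.sqrt n := by
  rw [tanaka]
  rcases Nat.eq_zero_or_pos n with rfl | hn
  · simp [E_zero]
  have hs : 0 < Real.sqrt n := Real.sqrt_pos.2 (by exact_mod_cast hn)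
  have hs2 : Real.sqrt n ^ 2 = n := Real.sq_sqrt (by positivity)
  have h : ∀ ω : Fin n → Bool, |(Yi (ext ω) n : ℝ)| ≤
      (1 / (2 * Real.sqrt n)) * (Yi (ext ω) n : ℝ) ^ 2 + Real.sqrt n / 2 := by
    intro ω
    generalize (Yi (ext ω) n : ℝ) = y
    rw [← sq_abs y]
    have h1 : (1 / (2 * Real.sqrt n)) * |y| ^ 2 + Real.sqrt n / 2 - |y| =
        (|y| - Real.sqrt n) ^ 2 / (2 * Real.sqrt n) := by
      field_simp; ring
    have h2 : 0 ≤ (|y| - Real.sqrt n) ^ 2 / (2 * Real.sqrt n) := by positivity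
    linarith
  refine (E_mono n h).trans ?_
  rw [E_add, E_mul_left, E_sq, E_const]
  have : (1 / (2 * Real.sqrt n)) * (n : ℝ) = Real.sqrt n / 2 := by
    rw [← hs2, Real.sqrt_sq hs.le]
    field_simp
  rw [this]; linarith

lemma le_sum_bb (n : ℕ) : 5 / 9 * Real.sqrt n ≤ ∑ s ∈ range n, bb s := by
  rw [tanaka]
  rcases Nat.eq_zero_or_pos n with rfl | hn
  · simp [E_zero]
  have hs : 0 < Real.sqrt n := Real.sqrt_pos.2 (by exact_mod_cast hn)
  have hs2 : Real.sqrt n ^ 2 = n := Real.sq_sqrt (by positivity)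
  set s := Real.sqrt n with hsd
  have h : ∀ ω : Fin n → Bool, (1 / s) * (Yi (ext ω) n : ℝ) ^ 2 -
      (4 / (27 * s ^ 3)) * (Yi (ext ω) n : ℝ) ^ 4 ≤ |(Yi (ext ω) n : ℝ)| := by
    intro ω
    generalize (Yi (ext ω) n : ℝ) = y
    have e1 : y ^ 2 = |y| ^ 2 := (sq_abs y).symm
    have e2 : y ^ 4 = |y| ^ 4 := by
      rw [show y ^ 4 = (y ^ 2) ^ 2 by ring, e1]; ring
    rw [e1, e2]
    have hy : 0 ≤ |y| := abs_nonneg y
    generalize |y| = t at hy ⊢
    have h1 : t - ((1 / s) * t ^ 2 - (4 / (27 * s ^ 3)) * t ^ 4) =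
        (4 / 27) * t * (t / s - 3 / 2) ^ 2 * (t / s + 3) := by
      field_simp; ring
    have h2 : 0 ≤ (4 / 27) * t * (t / s - 3 / 2) ^ 2 * (t / s + 3) := by positivity
    linarith
  refine le_trans ?_ (E_mono n h)
  rw [E_sub, E_mul_left, E_mul_left, E_sq, E_four]
  have h3 : (4 / (27 * s ^ 3)) * (3 * (n : ℝ) ^ 2 - 2 * n) ≤ (4 / (27 * s ^ 3)) * (3 * (n : ℝ) ^ 2) := by
    apply mul_le_mul_of_nonneg_left _ (by positivity)
    have : (0 : ℝ) ≤ n := Nat.cast_nonneg n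
    linarith
  have h4 : (1 / s) * (n : ℝ) - (4 / (27 * s ^ 3)) * (3 * (n : ℝ) ^ 2) = 5 / 9 * s := by
    rw [← hs2]; field_simp; ring
  linarith

/-! ### convolutions -/

lemma conv_eq (f g : ℕ → ℝ) (N : ℕ) :
    ∑ n ∈ range N, ∑ s ∈ range (n + 1), f s * g (n - s) =
      ∑ p ∈ (range N ×ˢ range N).filter (fun p => p.1 + p.2 < N), f p.1 * g p.2 := by
  rw [← Finset.sum_fiberwise_of_maps_to (s := (range N ×ˢ range N).filter (fun p => p.1 + p.2 < N))
    (t := range N) (g := fun p => p.1 + p.2)]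
  · refine Finset.sum_congr rfl fun n hn => ?_
    rw [← Finset.Nat.sum_antidiagonal_eq_sum_range_succ (fun a b => f a * g b) n]
    refine Finset.sum_congr ?_ fun _ _ => rfl
    ext ⟨a, b⟩
    have := Finset.mem_range.1 hn
    rw [HasAntidiagonal.mem_antidiagonal, Finset.mem_filter, Finset.mem_filter, Finset.mem_product,
      Finset.mem_range, Finset.mem_range]
    dsimp only
    omega
  · intro p hp
    exact Finset.mem_range.2 (Finset.mem_filter.1 hp).2

lemma conv_le (f g : ℕ → ℝ) (hf : ∀ n, 0 ≤ f n) (hg : ∀ n, 0 ≤ g n) (N : ℕ) :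
    ∑ n ∈ range N, ∑ s ∈ range (n + 1), f s * g (n - s) ≤
      (∑ s ∈ range N, f s) * ∑ s ∈ range N, g s := by
  rw [conv_eq, Finset.sum_mul_sum, ← Finset.sum_product']
  exact Finset.sum_le_sum_of_subset_of_nonneg (Finset.filter_subset _ _)
    fun p _ _ => mul_nonneg (hf _) (hg _)

lemma le_conv (f g : ℕ → ℝ) (hf : ∀ n, 0 ≤ f n) (hg : ∀ n, 0 ≤ g n) (N : ℕ) :
    (∑ s ∈ range N, f s) * ∑ s ∈ range N, g s ≤
      ∑ n ∈ range (2 * N), ∑ s ∈ range (n + 1), f s * g (n - s) := by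
  rw [conv_eq, Finset.sum_mul_sum, ← Finset.sum_product']
  refine Finset.sum_le_sum_of_subset_of_nonneg ?_ fun p _ _ => mul_nonneg (hf _) (hg _)
  intro p hp
  simp only [Finset.mem_filter, Finset.mem_product, Finset.mem_range] at hp ⊢
  omega

noncomputable def PS (N : ℕ) : ℝ := ∑ s ∈ range N, qs s
noncomputable def PQ (N : ℕ) : ℝ := ∑ s ∈ range N, qq s
noncomputable def RR (N : ℕ) : ℝ := ∑ s ∈ range N, rr s

lemma PS_nonneg (N : ℕ) : 0 ≤ PS N := Finset.sum_nonneg fun _ _ => qs_nonneg _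
lemma RR_nonneg (N : ℕ) : 0 ≤ RR N := Finset.sum_nonneg fun _ _ => rr_nonneg _

lemma PS_le_PQ (N : ℕ) : PS N ≤ PQ N := Finset.sum_le_sum fun n _ => qs_le_qq n

lemma PQ_le (N : ℕ) : PQ N ≤ 4 * PS (N + 2) := by
  unfold PQ PS
  have h1 : ∑ s ∈ range N, qq s ≤ ∑ s ∈ range N, 4 * qs (s + 2) :=
    Finset.sum_le_sum fun n _ => qq_le n
  rw [← Finset.mul_sum] at h1
  have h2 : ∑ s ∈ range N, qs (s + 2) ≤ ∑ s ∈ range (N + 2), qs s := by
    rw [Finset.sum_range_succ', Finset.sum_range_succ']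
    have := qs_nonneg 0
    have := qs_nonneg (0 + 1)
    linarith
  linarith

end Pool.GP.Sinai
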