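import Pool.Agent.Lib.GP.Sinai2

set_option autoImplicit false

/-!
Persistence of the area of the simple random walk, part 3: lower bound `n^{-1/4}`.
-/

namespace Pool.GP.Sinai

open Finset Pool.GP

/-! ### renewal estimates -/

lemma PS_sq_le (N : ℕ) : PS N ^ 2 ≤ Real.sqrt ((2 * N : ℕ) : ℝ) := by
  have h1 : PS N ^ 2 ≤ PS N * PQ N := by
    rw [sq]; exact mul_le_mul_of_nonneg_left (PS_le_PQ N) (PS_nonneg N)
  have h2 := le_conv qs qq qs_nonneg qq_nonneg N
  simp only [conv_qq] at h2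
  exact (h1.trans h2).trans (sum_bb_le _)

lemma le_PS_sq (N : ℕ) : 5 / 36 * Real.sqrt N ≤ PS (N + 2) ^ 2 := by
  have h1 := conv_le qs qq qs_nonneg qq_nonneg N
  simp only [conv_qq] at h1
  have h2 := (le_sum_bb N).trans h1
  have h3 : PS N ≤ PS (N + 2) :=
    Finset.sum_le_sum_of_subset_of_nonneg (Finset.range_mono (by omega)) fun _ _ _ => qs_nonneg _
  have h4 : PS N * PQ N ≤ PS (N + 2) * (4 * PS (N + 2)) :=
    mul_le_mul h3 (PQ_le N) ((PS_nonneg N).trans (PS_le_PQ N)) (PS_nonneg _)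
  have h5 : (∑ s ∈ range N, qs s) * ∑ s ∈ range N, qq s = PS N * PQ N := rfl
  rw [h5] at h2
  nlinarith

lemma one_le_PS (n : ℕ) : 1 ≤ PS (n + 1) := by
  have h : ∑ s ∈ range 1, qs s ≤ PS (n + 1) :=
    Finset.sum_le_sum_of_subset_of_nonneg (Finset.range_mono (by omega)) fun _ _ _ => qs_nonneg _
  rw [Finset.sum_range_one, qs_zero] at h
  exact h

/-- fourth root -/
noncomputable def fr (n : ℕ) : ℝ := Real.sqrt (Real.sqrt n)

lemma fr_nonneg (n : ℕ) : 0 ≤ fr n := Real.sqrt_nonneg _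

lemma fr_sq (n : ℕ) : fr n ^ 2 = Real.sqrt n := Real.sq_sqrt (Real.sqrt_nonneg _)

lemma fr_four (n : ℕ) : fr n ^ 4 = n := by
  rw [show fr n ^ 4 = (fr n ^ 2) ^ 2 by ring, fr_sq, Real.sq_sqrt (Nat.cast_nonneg n)]

lemma fr_pos {n : ℕ} (hn : 1 ≤ n) : 0 < fr n :=
  Real.sqrt_pos.2 (Real.sqrt_pos.2 (by exact_mod_cast hn))

lemma le_PS (n : ℕ) : fr (n + 1) ≤ 4 * PS (n + 1) := by
  have h0 : fr (n + 1) ^ 2 ≤ (4 * PS (n + 1)) ^ 2 := by
    rw [fr_sq]
    rcases n with _ | n
    · have := one_le_PS 0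
      simp only [zero_add, Nat.cast_one, Real.sqrt_one] at *
      nlinarith
    · have h1 := one_le_PS (n + 1)
      have h2 := le_PS_sq n
      rcases Nat.eq_zero_or_pos n with rfl | hn
      · have h3 : Real.sqrt ((0 + 1 + 1 : ℕ) : ℝ) ≤ 2 := by
          rw [Real.sqrt_le_left (by norm_num)]; norm_num
        nlinarith
      · have h3 : Real.sqrt ((n + 1 + 1 : ℕ) : ℝ) ≤ 2 * Real.sqrt n := by
          rw [Real.sqrt_le_left (by positivity), mul_pow, Real.sq_sqrt (Nat.cast_nonneg n)]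
          push_cast
          have : (1 : ℝ) ≤ n := by exact_mod_cast hn
          linarith
        have h4 : 0 ≤ Real.sqrt n := Real.sqrt_nonneg _
        nlinarith
  exact le_of_sq_le_sq h0 (by have := PS_nonneg (n + 1); positivity)

lemma rr_le (n : ℕ) : rr n * fr (n + 1) ≤ 4 := by
  have h1 := conv_rr n
  have h2 : rr n * PS (n + 1) ≤ 1 := by
    rw [← h1, mul_comm]
    unfold PS
    rw [Finset.sum_mul]
    exact Finset.sum_le_sum fun s _ => mul_le_mul_of_nonneg_left (rr_antitone (Nat.sub_le _ _))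
      (qs_nonneg s)
  have h3 := mul_le_mul_of_nonneg_left (le_PS n) (rr_nonneg n)
  linarith

lemma RR_le (M : ℕ) : RR M ≤ 16 / 3 * fr M ^ 3 := by
  induction M with
  | zero => simp [RR, fr]
  | succ M ih =>
    unfold RR at ih ⊢
    rw [Finset.sum_range_succ]
    have hu := fr_pos (n := M + 1) (by omega)
    have hv := fr_nonneg M
    have hu4 := fr_four (M + 1)
    have hv4 := fr_four M
    have h1 := rr_le M
    set u := fr (M + 1)
    set v := fr M
    have huv : v ≤ u := Real.sqrt_le_sqrt (Real.sqrt_le_sqrt (by push_cast; linarith))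
    have hd : u ^ 4 - v ^ 4 = 1 := by rw [hu4, hv4]; push_cast; ring
    have h2 : 4 * v ^ 3 * (u - v) ≤ 1 := by
      have e : u ^ 4 - v ^ 4 = (u - v) * (u ^ 3 + u ^ 2 * v + u * v ^ 2 + v ^ 3) := by ring
      have e1 : v ^ 3 ≤ u ^ 3 := pow_le_pow_left₀ hv huv 3
      have e2 : v ^ 3 ≤ u ^ 2 * v := by
        have := mul_le_mul_of_nonneg_right (pow_le_pow_left₀ hv huv 2) hv
        nlinarith
      have e3 : v ^ 3 ≤ u * v ^ 2 := by nlinarith [sq_nonneg v]
      have e4 : (u - v) * (4 * v ^ 3) ≤ (u - v) * (u ^ 3 + u ^ 2 * v + u * v ^ 2 + v ^ 3) :=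
        mul_le_mul_of_nonneg_left (by linarith) (by linarith)
      nlinarith
    have h3 : rr M * u ≤ (16 / 3 * u ^ 3 - 16 / 3 * v ^ 3) * u := by
      have : (16 / 3 * u ^ 3 - 16 / 3 * v ^ 3) * u = 16 / 3 * (u ^ 4 - v ^ 4 - v ^ 3 * (u - v)) := by
        ring
      rw [this, hd]
      linarith
    have h4 := le_of_mul_le_mul_right h3 hu
    linarith

lemma le_RR (N : ℕ) : (N : ℝ) ≤ PS N * RR N := by
  have h := conv_le qs rr qs_nonneg rr_nonneg N
  simp only [conv_rr, Finset.sum_const, Finset.card_range, nsmul_eq_mul, mul_one] at h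
  exact h

/-- lower bound for the probability that the area is nonnegative at the zeros -/
lemma le_rr (M : ℕ) (hM : 1 ≤ M) : 1 / 6 ≤ fr M * rr M := by
  have hv := fr_pos hM
  have hv4 := fr_four M
  have h1 := le_RR (32 * M)
  have h2 : PS (32 * M) ≤ 3 * fr M := by
    have h := PS_sq_le (32 * M)
    have e : ((2 * (32 * M) : ℕ) : ℝ) = 8 ^ 2 * M := by push_cast; ring
    rw [e, Real.sqrt_mul (by norm_num), Real.sqrt_sq (by norm_num), ← fr_sq] at h
    apply le_of_sq_le_sq _ (by positivity)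
    nlinarith [sq_nonneg (fr M)]
  have h3 : RR (32 * M) ≤ RR M + 32 * M * rr M := by
    unfold RR
    rw [← Finset.sum_range_add_sum_Ico _ (show M ≤ 32 * M by omega)]
    have : ∑ s ∈ Finset.Ico M (32 * M), rr s ≤ ∑ s ∈ Finset.Ico M (32 * M), rr M :=
      Finset.sum_le_sum fun s hs => rr_antitone (Finset.mem_Ico.1 hs).1
    rw [Finset.sum_const, Nat.card_Ico, nsmul_eq_mul] at this
    have h5 : ((32 * M - M : ℕ) : ℝ) ≤ 32 * M := by
      have : (32 * M - M : ℕ) ≤ 32 * M := Nat.sub_le _ _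
      exact_mod_cast this
    have := mul_le_mul_of_nonneg_right h5 (rr_nonneg M)
    linarith
  have h4 := RR_le M
  have h5 : ((32 * M : ℕ) : ℝ) ≤ 3 * fr M * RR (32 * M) :=
    h1.trans (mul_le_mul_of_nonneg_right h2 (RR_nonneg _))
  rw [Nat.cast_mul, ← hv4] at h5
  rw [← hv4] at h3
  set v := fr M
  have h6 : 32 * v ^ 4 ≤ 3 * v * (16 / 3 * v ^ 3 + 32 * v ^ 4 * rr M) := by
    have : 3 * v * RR (32 * M) ≤ 3 * v * (16 / 3 * v ^ 3 + 32 * v ^ 4 * rr M) :=
      mul_le_mul_of_nonneg_left (by linarith) (by positivity)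
    push_cast at h5
    linarith
  have h7 : 0 < v ^ 4 := by positivity
  have h8 : v ^ 4 * (1 / 6) ≤ v ^ 4 * (v * rr M) := by nlinarith
  exact le_of_mul_le_mul_left h8 h7

/-! ### from the zeros to all times -/

lemma up {b : ℕ → Bool} (u : ℕ) (h : ∀ t ≤ u, Yi b t = 0 → 0 ≤ Ar b t) (hu : 0 ≤ Yi b u) :
    0 ≤ Ar b u := by
  induction u with
  | zero => simp
  | succ u ih =>
    by_cases h0 : Yi b (u + 1) = 0
    · exact h _ le_rfl h0
    · have h1 : 0 ≤ Yi b u := by
        have := Yi_succ b u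
        rcases si_abs (b u) with h2 | h2 <;> omega
      have := ih (fun t ht => h t (by omega)) h1
      rw [Ar_succ]; omega

lemma down {b : ℕ → Bool} {L : ℕ} (hL : Yi b L = 0) (h : ∀ t ≤ L, Yi b t = 0 → 0 ≤ Ar b t)
    (k : ℕ) (hk : k ≤ L) (hu : Yi b (L - k) ≤ 0) : 0 ≤ Ar b (L - k) := by
  induction k with
  | zero => exact h _ (Nat.sub_le _ _) hL
  | succ k ih =>
    by_cases h0 : Yi b (L - (k + 1)) = 0
    · exact h _ (Nat.sub_le _ _) h0
    · have e : L - k = L - (k + 1) + 1 := by omega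
      have h1 := Yi_succ b (L - (k + 1))
      rw [← e] at h1
      have h2 : Yi b (L - k) ≤ 0 := by
        rcases si_abs (b (L - (k + 1))) with h2 | h2 <;> omega
      have h3 := ih (by omega) h2
      have h4 := Ar_succ b (L - (k + 1))
      rw [← e] at h4
      omega

lemma GQ_nonneg {b : ℕ → Bool} {L : ℕ} (h : GQ L b) (u : ℕ) (hu : u ≤ L) : 0 ≤ Ar b u := by
  rcases le_total 0 (Yi b u) with h1 | h1
  · exact up u (fun t ht => h.2 t (by omega)) h1
  · have := down h.1 h.2 (L - u) (Nat.sub_le _ _) (by rwa [Nat.sub_sub_self hu])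
    rwa [Nat.sub_sub_self hu] at this

/-- no zero after the start -/
def NZ (m : ℕ) (b : ℕ → Bool) : Prop := ∀ t, 1 ≤ t → t ≤ m → Yi b t ≠ 0
/-- positive after the start -/
def PZ (m : ℕ) (b : ℕ → Bool) : Prop := ∀ t, 1 ≤ t → t ≤ m → 0 < Yi b t
/-- negative after the start -/
def MZ (m : ℕ) (b : ℕ → Bool) : Prop := ∀ t, 1 ≤ t → t ≤ m → Yi b t < 0

lemma NZ_imp {m : ℕ} {b : ℕ → Bool} (h : NZ m b) : PZ m b ∨ MZ m b := by
  induction m with
  | zero => left; intro t h1 h2; omega
  | succ m ih =>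
    rcases ih (fun t h1 h2 => h t h1 (by omega)) with h1 | h1
    · rcases Nat.eq_zero_or_pos m with rfl | hm
      · have h2 := h 1 le_rfl le_rfl
        rcases lt_or_gt_of_ne h2 with h3 | h3
        · right; intro t e1 e2
          have : t = 1 := by omega
          rw [this]; exact h3
        · left; intro t e1 e2
          have : t = 1 := by omega
          rw [this]; exact h3
      · left; intro t e1 e2
        rcases Nat.lt_or_ge t (m + 1) with h3 | h3
        · exact h1 t e1 (by omega)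
        · have : t = m + 1 := by omega
          rw [this]
          have e3 := h1 m hm le_rfl
          have e4 := h (m + 1) (by omega) le_rfl
          have e5 := Yi_succ b m
          rcases si_abs (b m) with h4 | h4 <;> omega
    · rcases Nat.eq_zero_or_pos m with rfl | hm
      · have h2 := h 1 le_rfl le_rfl
        rcases lt_or_gt_of_ne h2 with h3 | h3
        · right; intro t e1 e2
          have : t = 1 := by omega
          rw [this]; exact h3
        · left; intro t e1 e2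
          have : t = 1 := by omega
          rw [this]; exact h3
      · right; intro t e1 e2
        rcases Nat.lt_or_ge t (m + 1) with h3 | h3
        · exact h1 t e1 (by omega)
        · have : t = m + 1 := by omega
          rw [this]
          have e3 := h1 m hm le_rfl
          have e4 := h (m + 1) (by omega) le_rfl
          have e5 := Yi_succ b m
          rcases si_abs (b m) with h4 | h4 <;> omega

lemma Yi_flip {n : ℕ} (ω : Fin n → Bool) {t : ℕ} (ht : t ≤ n) :
    Yi (ext (flipAll n ω)) t = - Yi (ext ω) t := by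
  induction t with
  | zero => simp
  | succ t ih =>
    rw [Yi_succ, Yi_succ, ih (by omega), ext_lt _ (by omega : t < n), ext_lt _ (by omega : t < n)]
    change -Yi (ext ω) t + si (!(ω ⟨t, _⟩)) = _
    cases ω ⟨t, by omega⟩ <;> simp <;> ring

lemma PP_MZ (m : ℕ) : PP m (MZ m) = PP m (PZ m) := by
  unfold PP
  rw [← Pr_equiv m (flipAll m)]
  refine Pr_congr m fun ω => ?_
  constructor
  · intro h t h1 h2
    have := h t h1 h2
    rw [Yi_flip ω h2] at this
    omega
  · intro h t h1 h2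
    rw [Yi_flip ω h2]
    have := h t h1 h2
    omega

lemma PP_NZ (m : ℕ) : PP m (NZ m) ≤ 2 * PP m (PZ m) := by
  have h1 : PP m (NZ m) ≤ PP m (PZ m) + PP m (MZ m) :=
    Pr_le_add m fun ω h => NZ_imp h
  rw [PP_MZ] at h1
  linarith

lemma exists_last {b : ℕ → Bool} {n : ℕ} (h : GR n b) :
    ∃ L ≤ n, GQ L b ∧ NZ (n - L) (sh L b) := by
  classical
  have hex : ∃ k, k ≤ n ∧ Yi b (n - k) = 0 := ⟨n, le_rfl, by simp⟩
  obtain ⟨h1, h2⟩ := Nat.find_spec hex
  refine ⟨n - Nat.find hex, Nat.sub_le _ _, ⟨h2, fun t ht => h t (by omega)⟩, ?_⟩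
  intro t ht1 ht2 h0
  have e := Yi_sh (n - Nat.find hex) b t
  rw [h2, h0] at e
  have hlt : Nat.find hex - t < Nat.find hex := by omega
  apply Nat.find_min hex hlt
  refine ⟨by omega, ?_⟩
  have : n - (Nat.find hex - t) = n - Nat.find hex + t := by omega
  rw [this, e]; simp

/-- area nonnegative at all times -/
def FF (n : ℕ) (b : ℕ → Bool) : Prop := ∀ u ≤ n, 0 ≤ Ar b u

lemma FF_of {b : ℕ → Bool} {n L : ℕ} (h : GQ L b ∧ PZ (n - L) (sh L b)) : FF n b := by
  intro u hu
  rcases Nat.lt_or_ge u L with h1 | h1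
  · exact GQ_nonneg h.1 u h1.le
  · have e := Ar_sh L b h.1.1 (u - L)
    rw [Nat.add_sub_cancel' h1] at e
    have h2 := GQ_nonneg h.1 L le_rfl
    have h3 : 0 ≤ Ar (sh L b) (u - L) := by
      unfold Ar
      refine Finset.sum_nonneg fun v hv => ?_
      have hv' := Finset.mem_range.1 hv
      rcases Nat.eq_zero_or_pos v with rfl | hv0
      · simp
      · exact (h.2 v hv0 (by omega)).le
    omega

lemma last_unique {b : ℕ → Bool} {n L L' : ℕ} (hL : L ≤ n) (hL' : L' ≤ n)
    (h : GQ L b ∧ PZ (n - L) (sh L b)) (h' : GQ L' b ∧ PZ (n - L') (sh L' b)) : L = L' := by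
  have key : ∀ {L L' : ℕ}, L' ≤ n → (GQ L b ∧ PZ (n - L) (sh L b)) →
      (GQ L' b ∧ PZ (n - L') (sh L' b)) → ¬ L < L' := by
    intro L L' hL' h h' hlt
    have e := Yi_sh L b (L' - L)
    rw [Nat.add_sub_cancel' hlt.le, h.1.1, h'.1.1] at e
    have := h.2 (L' - L) (by omega) (by omega)
    omega
  rcases lt_trichotomy L L' with h1 | h1 | h1
  · exact absurd h1 (key hL' h h')
  · exact h1
  · exact absurd h1 (key hL h' h)

lemma rr_le_FF (n : ℕ) : rr n ≤ 2 * PP n (FF n) := by
  have h1 : rr n ≤ ∑ L ∈ range (n + 1), PP n (fun b => GQ L b ∧ NZ (n - L) (sh L b)) := by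
    unfold rr PP Pr
    rw [← E_sum]
    refine E_mono n fun ω => ?_
    by_cases h : GR n (ext ω)
    · obtain ⟨L, hL, h2⟩ := exists_last h
      rw [ind_of h]
      have h3 : ind (GQ L (ext ω) ∧ NZ (n - L) (sh L (ext ω))) = 1 := ind_of h2
      rw [← h3]
      exact Finset.single_le_sum (f := fun L => ind (GQ L (ext ω) ∧ NZ (n - L) (sh L (ext ω))))
        (fun _ _ => ind_nonneg _) (Finset.mem_range.2 (by omega))
    · rw [ind_not h]
      exact Finset.sum_nonneg fun _ _ => ind_nonneg _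
  have h2 : ∑ L ∈ range (n + 1), PP n (fun b => GQ L b ∧ NZ (n - L) (sh L b)) ≤
      2 * ∑ L ∈ range (n + 1), PP n (fun b => GQ L b ∧ PZ (n - L) (sh L b)) := by
    rw [Finset.mul_sum]
    refine Finset.sum_le_sum fun L hL => ?_
    have hL' : L ≤ n := by have := Finset.mem_range.1 hL; omega
    rw [PP_append' hL' (loc_GQ L), PP_append' hL' (loc_GQ L)]
    have := mul_le_mul_of_nonneg_left (PP_NZ (n - L)) (PP_nonneg L (GQ L))
    linarith
  have h3 : ∑ L ∈ range (n + 1), PP n (fun b => GQ L b ∧ PZ (n - L) (sh L b)) ≤ PP n (FF n) := by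
    unfold PP Pr
    rw [← E_sum]
    refine E_mono n fun ω => ?_
    by_cases h : ∃ L ≤ n, GQ L (ext ω) ∧ PZ (n - L) (sh L (ext ω))
    · obtain ⟨L, hL, h2⟩ := h
      rw [ind_of (FF_of h2), Finset.sum_eq_single L, ind_of h2]
      · intro L' hL' hne
        apply ind_not
        intro h'
        exact hne (last_unique (by have := Finset.mem_range.1 hL'; omega) hL h' h2)
      · intro h1
        exact absurd (Finset.mem_range.2 (by omega)) h1
    · rw [Finset.sum_eq_zero]
      · exact ind_nonneg _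
      · intro L hL
        apply ind_not
        intro h'
        exact h ⟨L, by have := Finset.mem_range.1 hL; omega, h'⟩
  linarith

/-- **Sinai's lower bound** for the persistence of the area of the simple random walk. -/
theorem sinai (n : ℕ) (hn : 1 ≤ n) :
    1 / 12 * (n : ℝ) ^ (-(1 / 4) : ℝ) ≤
      Pr n (fun ω => ∀ u ≤ n, 0 ≤ ∑ t ∈ range (u + 1), Y ω t) := by
  have h1 := le_rr n hn
  have h2 := rr_le_FF n
  have hv := fr_pos hn
  have h3 : (n : ℝ) ^ (-(1 / 4) : ℝ) = (fr n)⁻¹ := by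
    rw [Real.rpow_neg (Nat.cast_nonneg n)]
    congr 1
    have h4 := fr_four n
    conv_lhs => rw [← h4]
    rw [← Real.rpow_natCast, ← Real.rpow_mul hv.le]
    norm_num
  have h5 : PP n (FF n) = Pr n (fun ω => ∀ u ≤ n, 0 ≤ ∑ t ∈ range (u + 1), Y ω t) := by
    unfold PP
    refine Pr_congr n fun ω => forall_congr' fun u => forall_congr' fun hu => ?_
    have : ∑ t ∈ range (u + 1), Y ω t = ((Ar (ext ω) u : ℤ) : ℝ) := by
      unfold Ar
      push_cast
      refine Finset.sum_congr rfl fun t ht => ?_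
      exact Y_eq_Yi ω (by have := Finset.mem_range.1 ht; omega)
    rw [this]
    exact_mod_cast Iff.rfl
  rw [← h5, h3]
  have h6 : 1 / 6 * (fr n)⁻¹ ≤ rr n := by
    rw [← div_eq_mul_inv, div_le_iff₀ hv]; linarith
  linarith

end Pool.GP.Sinai
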