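import Pool.Agent.Lib.GP.Basic

set_option autoImplicit false

/-!
Weighted sign sums: Hoeffding, anti-concentration, survival.
-/

namespace Pool.GP

open Finset

/-- weighted sign sum -/
noncomputable def Ws (n : ℕ) (w : ℕ → ℝ) (ω : Fin n → Bool) : ℝ := ∑ j : Fin n, w j * sg (ω j)

/-- partial weighted sign sum over the indices `< k` -/
noncomputable def Wk {n : ℕ} (w : ℕ → ℝ) (ω : Fin n → Bool) (k : ℕ) : ℝ :=
  ∑ j : Fin n, if (j:ℕ) < k then w j * sg (ω j) else 0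

lemma Wk_eq_Ws {n : ℕ} (w : ℕ → ℝ) (ω : Fin n → Bool) (k : ℕ) :
    Wk w ω k = Ws n (fun j => if j < k then w j else 0) ω := by
  unfold Wk Ws
  refine Finset.sum_congr rfl fun j _ => ?_
  by_cases h : (j:ℕ) < k <;> simp [h]

lemma Ws_add (n : ℕ) (w w' : ℕ → ℝ) (ω : Fin n → Bool) :
    Ws n (fun j => w j + w' j) ω = Ws n w ω + Ws n w' ω := by
  unfold Ws; rw [← Finset.sum_add_distrib]
  exact Finset.sum_congr rfl fun j _ => by ring

lemma Ws_smul (n : ℕ) (c : ℝ) (w : ℕ → ℝ) (ω : Fin n → Bool) :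
    Ws n (fun j => c * w j) ω = c * Ws n w ω := by
  unfold Ws; rw [Finset.mul_sum]
  exact Finset.sum_congr rfl fun j _ => by ring

lemma Ws_neg (n : ℕ) (w : ℕ → ℝ) (ω : Fin n → Bool) :
    Ws n w (flipAll n ω) = - Ws n w ω := by
  unfold Ws flipAll
  rw [← Finset.sum_neg_distrib]
  refine Finset.sum_congr rfl fun j _ => ?_
  simp only [Equiv.coe_fn_mk, sg_not]; ring

lemma Ws_sum {ι : Type*} (n : ℕ) (s : Finset ι) (w : ι → ℕ → ℝ) (ω : Fin n → Bool) :
    Ws n (fun j => ∑ i ∈ s, w i j) ω = ∑ i ∈ s, Ws n (w i) ω := by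
  unfold Ws
  rw [Finset.sum_comm]
  exact Finset.sum_congr rfl fun j _ => by rw [Finset.sum_mul]

lemma Ws_congr (n : ℕ) {w w' : ℕ → ℝ} (h : ∀ j < n, w j = w' j) (ω : Fin n → Bool) :
    Ws n w ω = Ws n w' ω := by
  unfold Ws
  exact Finset.sum_congr rfl fun j _ => by rw [h j j.2]

lemma Ws_snoc (n : ℕ) (w : ℕ → ℝ) (ω : Fin n → Bool) (b : Bool) :
    Ws (n+1) w (Fin.snoc ω b) = Ws n w ω + w n * sg b := by
  unfold Ws
  rw [Fin.sum_univ_castSucc]
  simp

lemma Ws_cons (n : ℕ) (w : ℕ → ℝ) (ω : Fin n → Bool) (b : Bool) :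
    Ws (n+1) w (Fin.cons b ω) = w 0 * sg b + Ws n (fun j => w (j+1)) ω := by
  unfold Ws
  rw [Fin.sum_univ_succ]
  simp

/-- exponential moment -/
lemma E_exp_Ws_le (n : ℕ) (w : ℕ → ℝ) (l : ℝ) :
    E n (fun ω => Real.exp (l * Ws n w ω)) ≤ Real.exp (l ^ 2 * (∑ j ∈ range n, w j ^ 2) / 2) := by
  have h1 : E n (fun ω => Real.exp (l * Ws n w ω))
      = E n (fun ω => ∏ j : Fin n, Real.exp (l * (w j * sg (ω j)))) := by
    refine E_congr n fun ω => ?_
    rw [← Real.exp_sum]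
    congr 1
    unfold Ws
    rw [Finset.mul_sum]
  rw [h1, E_prod n (fun j b => Real.exp (l * (w j * sg b)))]
  have h2 : ∀ j : Fin n, (Real.exp (l * (w j * sg true)) + Real.exp (l * (w j * sg false))) / 2
      = Real.cosh (l * w j) := by
    intro j
    rw [Real.cosh_eq]
    simp
  simp only [h2]
  calc ∏ j : Fin n, Real.cosh (l * w j) ≤ ∏ j : Fin n, Real.exp ((l * w j) ^ 2 / 2) :=
        Finset.prod_le_prod (fun j _ => (Real.cosh_pos _).le)
          (fun j _ => Real.cosh_le_exp_half_sq _)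
    _ = Real.exp (l ^ 2 * (∑ j ∈ range n, w j ^ 2) / 2) := by
        rw [← Real.exp_sum]
        congr 1
        rw [← Fin.sum_univ_eq_sum_range (fun j => w j ^ 2) n, Finset.mul_sum, Finset.sum_div]
        exact Finset.sum_congr rfl fun j _ => by ring

/-- Hoeffding's inequality -/
lemma hoeffding (n : ℕ) (w : ℕ → ℝ) (V y : ℝ) (hV : ∑ j ∈ range n, w j ^ 2 ≤ V) (hV0 : 0 < V)
    (hy : 0 ≤ y) : Pr n (fun ω => y ≤ Ws n w ω) ≤ Real.exp (- (y ^ 2 / (2 * V))) := by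
  have h1 : Pr n (fun ω => y ≤ Ws n w ω)
      ≤ Pr n (fun ω => Real.exp (y / V * y) ≤ Real.exp (y / V * Ws n w ω)) :=
    Pr_mono n fun ω h => Real.exp_le_exp.2 (mul_le_mul_of_nonneg_left h (by positivity))
  refine h1.trans ((Pr_markov n _ (fun ω => (Real.exp_pos _).le) (Real.exp_pos _)).trans ?_)
  rw [div_le_iff₀ (Real.exp_pos _), ← Real.exp_add]
  refine (E_exp_Ws_le n w (y / V)).trans (Real.exp_le_exp.2 ?_)
  have h2 : (y / V) ^ 2 * (∑ j ∈ range n, w j ^ 2) / 2 ≤ (y / V) ^ 2 * V / 2 := by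
    have := mul_le_mul_of_nonneg_left hV (sq_nonneg (y / V))
    linarith
  refine h2.trans (le_of_eq ?_)
  field_simp
  ring

/-- two-sided Hoeffding -/
lemma hoeffding_abs (n : ℕ) (w : ℕ → ℝ) (V y : ℝ) (hV : ∑ j ∈ range n, w j ^ 2 ≤ V) (hV0 : 0 < V)
    (hy : 0 ≤ y) : Pr n (fun ω => y ≤ |Ws n w ω|) ≤ 2 * Real.exp (- (y ^ 2 / (2 * V))) := by
  have h1 := hoeffding n w V y hV hV0 hy
  have h2 : Pr n (fun ω => y ≤ - Ws n w ω) ≤ Real.exp (- (y ^ 2 / (2 * V))) := by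
    have := Pr_equiv n (flipAll n) (fun ω => y ≤ Ws n w ω)
    simp only [Ws_neg] at this
    rw [this]; exact h1
  have h3 : Pr n (fun ω => y ≤ |Ws n w ω|)
      ≤ Pr n (fun ω => y ≤ Ws n w ω) + Pr n (fun ω => y ≤ - Ws n w ω) :=
    Pr_le_add n fun ω h => le_abs.1 h
  linarith

/-- second moment -/
lemma E_Ws_sq (n : ℕ) (w : ℕ → ℝ) : E n (fun ω => Ws n w ω ^ 2) = ∑ j ∈ range n, w j ^ 2 := by
  induction n with
  | zero => rw [E_zero]; simp [Ws]
  | succ n ih =>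
    rw [E_succ, Finset.sum_range_succ, ← ih]
    simp only [Ws_snoc, sg_true, sg_false]
    rw [← E_add]
    have : ∀ ω, (Ws n w ω + w n * 1) ^ 2 + (Ws n w ω + w n * -1) ^ 2
        = 2 * Ws n w ω ^ 2 + 2 * w n ^ 2 := fun ω => by ring
    simp only [this]
    rw [E_add, E_mul_left, E_const]
    ring

/-- fourth moment -/
lemma E_Ws_four (n : ℕ) (w : ℕ → ℝ) :
    E n (fun ω => Ws n w ω ^ 4) ≤ 3 * (∑ j ∈ range n, w j ^ 2) ^ 2 := by
  induction n with
  | zero => rw [E_zero]; simp [Ws]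
  | succ n ih =>
    rw [E_succ, Finset.sum_range_succ]
    simp only [Ws_snoc, sg_true, sg_false]
    rw [← E_add]
    have : ∀ ω, (Ws n w ω + w n * 1) ^ 4 + (Ws n w ω + w n * -1) ^ 4
        = 2 * Ws n w ω ^ 4 + ((12 * w n ^ 2) * Ws n w ω ^ 2 + 2 * w n ^ 4) := fun ω => by ring
    simp only [this]
    rw [E_add, E_add, E_mul_left, E_mul_left, E_const, E_Ws_sq]
    set s := ∑ j ∈ range n, w j ^ 2
    nlinarith [sq_nonneg (w n ^ 2), ih]

/-- Paley–Zygmund: `P(W ≥ σ/2) ≥ 3/32` -/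
lemma paley_zygmund (n : ℕ) (w : ℕ → ℝ) (s : ℝ) (hs : 0 < s) (hV : s ^ 2 ≤ ∑ j ∈ range n, w j ^ 2) :
    3 / 32 ≤ Pr n (fun ω => s / 2 ≤ Ws n w ω) := by
  set V := ∑ j ∈ range n, w j ^ 2 with hVdef
  have hVpos : 0 < V := lt_of_lt_of_le (by positivity) hV
  -- on the complement of `W² ≥ V/4`
  have h1 : E n (fun ω => Ws n w ω ^ 2) = V := E_Ws_sq n w
  -- For all W: W² ≤ V/4 + (3/(8V))... use: for t = 2/(3V)·..., W² ≤ V/4 + a·1{W²≥V/4} + W⁴/(4V)·
  -- inequality: W² 1{W² ≥ V/4} ≤ c·1{W² ≥ V/4} + W⁴/(4c) for any c > 0; take c = 2V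
  have key : ∀ ω, Ws n w ω ^ 2 ≤ V / 4 + (2 * V) * ind (V / 4 ≤ Ws n w ω ^ 2)
      + (1 / (8 * V)) * Ws n w ω ^ 4 := by
    intro ω
    set x := Ws n w ω
    have h4 : 0 ≤ (1 / (8 * V)) * x ^ 4 := by positivity
    by_cases h : V / 4 ≤ x ^ 2
    · rw [ind_of h]
      have : x ^ 2 ≤ 2 * V + (1 / (8 * V)) * x ^ 4 := by
        have e : 2 * V + (1 / (8 * V)) * x ^ 4 - x ^ 2 = (x ^ 2 - 4 * V) ^ 2 / (8 * V) := by
          field_simp; ring
        have : 0 ≤ (x ^ 2 - 4 * V) ^ 2 / (8 * V) := by positivity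
        linarith
      linarith
    · rw [ind_not h]
      push Not at h
      linarith
  have h5 := E_mono n key
  rw [E_add, E_add, E_const, E_mul_left, E_mul_left, h1] at h5
  have h6 := E_Ws_four n w
  have h7 : (1 / (8 * V)) * E n (fun ω => Ws n w ω ^ 4) ≤ 3 / 8 * V := by
    have := mul_le_mul_of_nonneg_left h6 (by positivity : (0:ℝ) ≤ 1 / (8 * V))
    refine this.trans (le_of_eq ?_)
    rw [← hVdef]
    field_simp
  have h8 : 3 / 16 ≤ Pr n (fun ω => V / 4 ≤ Ws n w ω ^ 2) := by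
    unfold Pr
    have : V ≤ V / 4 + 2 * V * E n (fun ω => ind (V / 4 ≤ Ws n w ω ^ 2)) + 3 / 8 * V := by
      linarith
    have h9 : 3 / 8 * V ≤ 2 * V * E n (fun ω => ind (V / 4 ≤ Ws n w ω ^ 2)) := by linarith
    have h10 : V * (3 / 16) ≤ V * E n (fun ω => ind (V / 4 ≤ Ws n w ω ^ 2)) := by linarith
    exact le_of_mul_le_mul_left h10 hVpos
  have h11 : Pr n (fun ω => V / 4 ≤ Ws n w ω ^ 2)
      ≤ Pr n (fun ω => s / 2 ≤ Ws n w ω) + Pr n (fun ω => s / 2 ≤ - Ws n w ω) := by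
    refine Pr_le_add n fun ω h => ?_
    rw [← le_abs]
    have : (s / 2) ^ 2 ≤ Ws n w ω ^ 2 := by
      have : (s/2)^2 = s^2/4 := by ring
      rw [this]
      exact (div_le_div_of_nonneg_right hV (by norm_num)).trans h
    exact (le_abs_self _).trans (sq_le_sq.1 this)
  have h12 : Pr n (fun ω => s / 2 ≤ - Ws n w ω) = Pr n (fun ω => s / 2 ≤ Ws n w ω) := by
    have := Pr_equiv n (flipAll n) (fun ω => s / 2 ≤ Ws n w ω)
    simpa only [Ws_neg] using this
  linarith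

/-- probability that `H + W_k > 0` for all `k ≤ n` -/
lemma Wk_cons_zero {n : ℕ} (w : ℕ → ℝ) (b : Bool) (ω : Fin n → Bool) :
    Wk w (Fin.cons b ω : Fin (n+1) → Bool) 0 = 0 := by
  simp [Wk]

lemma Wk_cons_succ {n : ℕ} (w : ℕ → ℝ) (b : Bool) (ω : Fin n → Bool) (k : ℕ) :
    Wk w (Fin.cons b ω : Fin (n+1) → Bool) (k+1) = w 0 * sg b + Wk (fun j => w (j+1)) ω k := by
  unfold Wk
  rw [Fin.sum_univ_succ]
  simp

lemma Wk_zero {n : ℕ} (w : ℕ → ℝ) (ω : Fin n → Bool) : Wk w ω 0 = 0 := by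
  simp [Wk]

/-- survival of a weighted sign walk started at `H > 0` -/
lemma survive_aux (n : ℕ) : ∀ (w : ℕ → ℝ) (Wm A H : ℝ), (∀ j < n, |w j| ≤ Wm) → 0 < A →
    Wm ^ 2 + 3 * ∑ j ∈ range n, w j ^ 2 ≤ 3 * A ^ 2 → 0 < H →
    H * (3 * A ^ 2 - H ^ 2 - 3 * ∑ j ∈ range n, w j ^ 2) / (2 * A ^ 3)
      ≤ Pr n (fun ω => ∀ k ≤ n, 0 < H + Wk w ω k) := by
  induction n with
  | zero =>
    intro w Wm A H _ hA _ hH
    have : Pr 0 (fun ω => ∀ k ≤ 0, 0 < H + Wk w ω k) = 1 := by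
      rw [← Pr_true 0]
      refine Pr_congr 0 fun ω => ⟨fun _ => trivial, fun _ k hk => ?_⟩
      obtain rfl : k = 0 := by omega
      rw [Wk_zero]; linarith
    rw [this, div_le_one (by positivity)]
    simp only [Finset.range_zero, Finset.sum_empty]
    nlinarith [mul_nonneg (sq_nonneg (A - H)) (by positivity : (0:ℝ) ≤ 2 * A + H)]
  | succ n ih =>
    intro w Wm A H hw hA hV hH
    set w' : ℕ → ℝ := fun j => w (j+1) with hw'
    have hsum : ∑ j ∈ range (n+1), w j ^ 2 = w 0 ^ 2 + ∑ j ∈ range n, w' j ^ 2 := by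
      rw [Finset.sum_range_succ']; ring
    set V' := ∑ j ∈ range n, w' j ^ 2 with hV'
    have hV'0 : 0 ≤ V' := Finset.sum_nonneg fun j _ => sq_nonneg _
    have hWm : 0 ≤ Wm := (abs_nonneg _).trans (hw 0 (by omega))
    have hw0 : |w 0| ≤ Wm := hw 0 (by omega)
    have hw0' : w 0 ^ 2 ≤ Wm ^ 2 := by
      rw [← sq_abs]; exact pow_le_pow_left₀ (abs_nonneg _) hw0 2
    -- the recursion
    have hrec : Pr (n+1) (fun ω => ∀ k ≤ n+1, 0 < H + Wk w ω k)
        = (Pr n (fun ω => ∀ k ≤ n, 0 < (H + w 0) + Wk w' ω k)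
          + Pr n (fun ω => ∀ k ≤ n, 0 < (H - w 0) + Wk w' ω k)) / 2 := by
      unfold Pr
      rw [E_succ']
      congr 2
      · refine E_congr n fun ω => ?_
        congr 1
        apply propext
        constructor
        · intro h k hk
          have := h (k+1) (by omega)
          rw [Wk_cons_succ, sg_true] at this
          linarith
        · intro h k hk
          rcases k with _ | k
          · rw [Wk_zero]; linarith
          · have := h k (by omega)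
            rw [Wk_cons_succ, sg_true]
            linarith
      · refine E_congr n fun ω => ?_
        congr 1
        apply propext
        constructor
        · intro h k hk
          have := h (k+1) (by omega)
          rw [Wk_cons_succ, sg_false] at this
          linarith
        · intro h k hk
          rcases k with _ | k
          · rw [Wk_zero]; linarith
          · have := h k (by omega)
            rw [Wk_cons_succ, sg_false]
            linarith
    -- lower bound valid for every starting point above `-|w 0|`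
    have hlow : ∀ H', - |w 0| ≤ H' →
        H' * (3 * A ^ 2 - H' ^ 2 - 3 * V') / (2 * A ^ 3)
          ≤ Pr n (fun ω => ∀ k ≤ n, 0 < H' + Wk w' ω k) := by
      intro H' hH'
      rcases le_or_gt H' 0 with h | h
      · have h1 : H' ^ 2 ≤ w 0 ^ 2 := by
          rw [← sq_abs (w 0)]
          exact sq_le_sq' hH' (h.trans (abs_nonneg _))
        have h2 : H' * (3 * A ^ 2 - H' ^ 2 - 3 * V') / (2 * A ^ 3) ≤ 0 := by
          apply div_nonpos_of_nonpos_of_nonneg _ (by positivity)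
          apply mul_nonpos_of_nonpos_of_nonneg h
          rw [hsum] at hV
          nlinarith [sq_nonneg (w 0)]
        exact h2.trans (Pr_nonneg _ _)
      · apply ih w' Wm A H' (fun j hj => hw (j+1) (by omega)) hA _ h
        rw [hsum] at hV
        nlinarith [sq_nonneg (w 0)]
    rw [hrec, hsum]
    have h1 := hlow (H + w 0) (by have := neg_abs_le (w 0); linarith)
    have h2 := hlow (H - w 0) (by have := le_abs_self (w 0); linarith)
    have h3 : H * (3 * A ^ 2 - H ^ 2 - 3 * (w 0 ^ 2 + V')) / (2 * A ^ 3)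
        = ((H + w 0) * (3 * A ^ 2 - (H + w 0) ^ 2 - 3 * V') / (2 * A ^ 3)
          + (H - w 0) * (3 * A ^ 2 - (H - w 0) ^ 2 - 3 * V') / (2 * A ^ 3)) / 2 := by
      field_simp
      ring
    rw [h3]
    linarith

/-- survival bound: from `H > 0`, a walk with total variance `≤ V` and steps `≤ Wm` stays
positive with probability at least `H / (2 √(2V + Wm² + H²))`. -/
lemma survive (n : ℕ) (w : ℕ → ℝ) (Wm V H : ℝ) (hw : ∀ j < n, |w j| ≤ Wm)
    (hV : ∑ j ∈ range n, w j ^ 2 ≤ V) (hH : 0 < H) :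
    H / (2 * Real.sqrt (2 * V + Wm ^ 2 + H ^ 2))
      ≤ Pr n (fun ω => ∀ k ≤ n, 0 < H + Wk w ω k) := by
  have hV0 : 0 ≤ V := (Finset.sum_nonneg fun j _ => sq_nonneg _).trans hV
  set A := Real.sqrt (2 * V + Wm ^ 2 + H ^ 2) with hA
  have hApos : 0 < A := Real.sqrt_pos.2 (by positivity)
  have hA2 : A ^ 2 = 2 * V + Wm ^ 2 + H ^ 2 := Real.sq_sqrt (by positivity)
  refine le_trans ?_ (survive_aux n w Wm A H hw hApos ?_ hH)
  · rw [div_le_div_iff₀ (by positivity) (by positivity)]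
    have h1 : A ^ 2 ≤ 3 * A ^ 2 - H ^ 2 - 3 * ∑ j ∈ range n, w j ^ 2 := by
      rw [hA2]; nlinarith [sq_nonneg Wm, sq_nonneg H]
    have h2 : H * (2 * A ^ 3) = (H * (2 * A)) * A ^ 2 := by ring
    rw [h2]
    have h3 : H * (3 * A ^ 2 - H ^ 2 - 3 * ∑ j ∈ range n, w j ^ 2) * (2 * A)
        = (H * (2 * A)) * (3 * A ^ 2 - H ^ 2 - 3 * ∑ j ∈ range n, w j ^ 2) := by ring
    rw [h3]
    exact mul_le_mul_of_nonneg_left h1 (by positivity)
  · rw [hA2]
    nlinarith [sq_nonneg Wm, sq_nonneg H]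

end Pool.GP
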