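import Pool.Agent.Lib.GP.AScale

set_option autoImplicit false

/-!
Time scaling: `G` for two different values of `A`.
-/

namespace Pool.GP

open Finset

lemma scale_hyp (A F L I K2 : ℕ) (x : ℝ) (hx : 2 ≤ x) (hI : 2 ≤ I) (hIK : I ≤ K2)
    (h1 : L ^ 2 * A ≤ F) (h2 : F < (L + 1) ^ 2 * A) (hL : 4 * x ^ 3 ≤ L)
    (hA : 2 * x ^ 12 * K2 ≤ A) :
    EmbHyp (fun _ => L) (fun i => A / i) F I K2 x := by
  have hx0 : 0 < x := by linarith
  have hx3 : 8 ≤ x ^ 3 := by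
    calc (8:ℝ) = 2 ^ 3 := by norm_num
      _ ≤ x ^ 3 := pow_le_pow_left₀ (by norm_num) hx 3
  have hx12 : x ^ 3 * 2 ≤ x ^ 12 := by
    have e : x ^ 12 = x ^ 3 * x ^ 9 := by ring
    rw [e]
    apply mul_le_mul_of_nonneg_left _ (by positivity)
    calc (2:ℝ) ≤ 2 ^ 9 := by norm_num
      _ ≤ x ^ 9 := pow_le_pow_left₀ (by norm_num) hx 9
  have hLr : (32:ℝ) ≤ L := by linarith
  have hL1 : 1 ≤ L := by
    have : (1:ℝ) ≤ L := by linarith
    exact_mod_cast this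
  have hK2 : (2:ℝ) ≤ K2 := by exact_mod_cast hI.trans hIK
  have hAr : (64:ℝ) ≤ A := by nlinarith
  have hApos : (0:ℝ) < A := by linarith
  have h1r : (L:ℝ) ^ 2 * A ≤ F := by exact_mod_cast h1
  have h2r : (F:ℝ) ≤ ((L:ℝ) + 1) ^ 2 * A := by exact_mod_cast h2.le
  have hLpos : (0:ℝ) < L := by linarith
  have hFpos : (0:ℝ) < F := lt_of_lt_of_le (by positivity) h1r
  refine ⟨fun _ => hL1, hx, hI, ?_, ?_, ?_, ?_⟩
  · intro i hi
    exact Nat.div_le_div_left (Finset.mem_Icc.1 hi).1 (by omega)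
  · intro i hi
    have hi' := Finset.mem_Icc.1 hi
    have hipos : (0:ℝ) < i := by exact_mod_cast (by omega : 0 < i)
    have hiK : (i:ℝ) ≤ K2 := by exact_mod_cast hi'.2
    rw [Finset.sum_const, Finset.card_range, nsmul_eq_mul]
    have e1 : ((A / i : ℕ) : ℝ) ≤ (A:ℝ) / i := Nat.cast_div_le
    have e2 : (A:ℝ) / i - 1 ≤ ((A / i : ℕ) : ℝ) := by
      have := Nat.lt_div_mul_add (a := A) (b := i) (by omega)
      have h2 : (A:ℝ) < (A / i : ℕ) * i + i := by exact_mod_cast this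
      rw [sub_le_iff_le_add, div_le_iff₀ hipos]
      nlinarith
    have hiA : (i:ℝ) / A ≤ 1 / (4 * x ^ 3) := by
      rw [div_le_div_iff₀ hApos (by positivity)]
      nlinarith
    rw [abs_le]
    constructor
    · -- F/i - floor L² ≤ (F/i)/x³
      have e3 : (F:ℝ) - L ^ 2 * A ≤ 3 * (F / L) := by
        have : (F:ℝ) - L ^ 2 * A ≤ 3 * (L * A) := by nlinarith
        have h4 : (L:ℝ) * A ≤ F / L := by
          rw [le_div_iff₀ hLpos]; nlinarith
        linarith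
      have e4 : (L:ℝ) ^ 2 ≤ F / A := by rw [le_div_iff₀ hApos]; exact h1r
      have e5 : (F:ℝ) / i - ((A / i : ℕ) : ℝ) * (L:ℝ) ^ 2 ≤ 3 * (F / L) / i + F / A := by
        have : ((A:ℝ) / i - 1) * (L:ℝ) ^ 2 ≤ ((A / i : ℕ) : ℝ) * (L:ℝ) ^ 2 :=
          mul_le_mul_of_nonneg_right e2 (by positivity)
        have h6 : (F:ℝ) / i - ((A:ℝ) / i - 1) * (L:ℝ) ^ 2 = (F - L ^ 2 * A) / i + L ^ 2 := by
          field_simp; ring
        have h7 : ((F:ℝ) - L ^ 2 * A) / i ≤ 3 * (F / L) / i := div_le_div_of_nonneg_right e3 hipos.le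
        linarith
      have e6 : 3 * ((F:ℝ) / L) / i ≤ F / i / x ^ 3 * (3 / 4) := by
        have : 3 * ((F:ℝ) / L) / i = F / i * (3 / L) := by ring
        rw [this]
        have h8 : 3 / (L:ℝ) ≤ 3 / (4 * x ^ 3) := by
          apply div_le_div_of_nonneg_left (by norm_num) (by positivity) hL
        have := mul_le_mul_of_nonneg_left h8 (by positivity : (0:ℝ) ≤ F / i)
        calc (F:ℝ) / i * (3 / L) ≤ F / i * (3 / (4 * x ^ 3)) := this
          _ = F / i / x ^ 3 * (3 / 4) := by field_simp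
      have e7 : (F:ℝ) / A ≤ F / i / x ^ 3 * (1 / 4) := by
        have : (F:ℝ) / A = F / i * (i / A) := by field_simp
        rw [this]
        have := mul_le_mul_of_nonneg_left hiA (by positivity : (0:ℝ) ≤ F / i)
        calc (F:ℝ) / i * (i / A) ≤ F / i * (1 / (4 * x ^ 3)) := this
          _ = F / i / x ^ 3 * (1 / 4) := by field_simp
      have e8 : (F:ℝ) / i / x ^ 3 * (3 / 4) + F / i / x ^ 3 * (1 / 4) = F / i / x ^ 3 := by ring
      linarith
    · have e3 : ((A / i : ℕ) : ℝ) * (L:ℝ) ^ 2 ≤ F / i := by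
        calc ((A / i : ℕ) : ℝ) * (L:ℝ) ^ 2 ≤ (A:ℝ) / i * (L:ℝ) ^ 2 :=
              mul_le_mul_of_nonneg_right e1 (by positivity)
          _ = (L ^ 2 * A) / i := by ring
          _ ≤ F / i := div_le_div_of_nonneg_right h1r hipos.le
      have : 0 ≤ (F:ℝ) / i / x ^ 3 := by positivity
      linarith
  · intro i hi
    have hi' := Finset.mem_Icc.1 hi
    have hipos : (0:ℝ) < i := by exact_mod_cast (by omega : 0 < i)
    have hiK : (i:ℝ) ≤ K2 := by exact_mod_cast hi'.2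
    rw [Finset.sum_const, Finset.card_range, nsmul_eq_mul]
    have e1 : ((A / i : ℕ) : ℝ) ≤ (A:ℝ) / i := Nat.cast_div_le
    have e4 : (L:ℝ) ^ 2 ≤ F / A := by rw [le_div_iff₀ hApos]; exact h1r
    have e5 : (L:ℝ) ^ 4 ≤ ((F:ℝ) / A) ^ 2 := by
      calc (L:ℝ) ^ 4 = ((L:ℝ) ^ 2) ^ 2 := by ring
        _ ≤ ((F:ℝ) / A) ^ 2 := pow_le_pow_left₀ (by positivity) e4 2
    calc ((A / i : ℕ) : ℝ) * (L:ℝ) ^ 4 ≤ (A:ℝ) / i * ((F:ℝ) / A) ^ 2 :=
          mul_le_mul e1 e5 (by positivity) (by positivity)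
      _ = ((F:ℝ) / i) ^ 2 * ((i:ℝ) / A) := by field_simp
      _ ≤ ((F:ℝ) / i) ^ 2 * (1 / x ^ 12) := by
          apply mul_le_mul_of_nonneg_left _ (by positivity)
          rw [div_le_div_iff₀ hApos (by positivity)]
          nlinarith [pow_pos hx0 12]
      _ = ((F:ℝ) / i) ^ 2 / x ^ 12 := by ring
  · have : (4:ℝ) ≤ F := by
      have : (1:ℝ) * 64 ≤ (L:ℝ) ^ 2 * A := mul_le_mul (by nlinarith) hAr (by norm_num) (by positivity)
      linarith
    exact_mod_cast this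

lemma CI_const (A L I : ℕ) {m : ℕ} (ε : Fin m → Bool) (k : ℕ) :
    CI (fun _ => L) (fun i => A / i) I ε k = L * ZI A I ε k := by
  unfold CI ZI
  rw [Finset.mul_sum]
  refine Finset.sum_congr rfl fun i _ => ?_
  unfold Cw Y
  rw [Wk_eq_Ws, ← Ws_smul]
  unfold Ws
  refine Finset.sum_congr rfl fun j _ => ?_
  beta_reduce
  by_cases hj : (j:ℕ) < A / i
  · simp [hj]
  · simp [hj]

lemma GI_prefix (A I K1 K2 : ℕ) (h : ℝ) (hI : 1 ≤ I) :
    GI A I K1 K2 h = Pr (A / I) (fun ω => ∀ k ∈ Icc K1 K2, h * Real.sqrt ((A:ℝ) * k) ≤ ZI A I ω k) := by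
  have h1 : ∀ (M : ℕ), A / I ≤ M → ∀ ω : Fin M → Bool, (∀ k ∈ Icc K1 K2, h * Real.sqrt ((A:ℝ) * k) ≤ ZI A I ω k) ↔
      (∀ k ∈ Icc K1 K2, h * Real.sqrt ((A:ℝ) * k) ≤ ∑ i ∈ Icc I k, (Yi (ext ω) (A / i) : ℝ)) := by
    intro M hM ω
    have : ∀ k, ZI A I ω k = ∑ i ∈ Icc I k, (Yi (ext ω) (A / i) : ℝ) := by
      intro k
      unfold ZI
      refine Finset.sum_congr rfl fun i hi => Y_eq_Yi ω ?_
      exact (Nat.div_le_div_left (Finset.mem_Icc.1 hi).1 (by omega)).trans hM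
    simp only [this]
  unfold GI
  rw [Pr_congr A (h1 A (Nat.div_le_self _ _)), Pr_congr (A/I) (h1 (A/I) le_rfl)]
  apply Pr_prefix (Nat.div_le_self A I) (fun b => ∀ k ∈ Icc K1 K2, h * Real.sqrt ((A:ℝ) * k) ≤ ∑ i ∈ Icc I k, (Yi b (A / i) : ℝ))
  intro b b' hbb
  have : ∀ i, I ≤ i → Yi b (A / i) = Yi b' (A / i) := by
    intro i hi
    unfold Yi
    refine Finset.sum_congr rfl fun v hv => ?_
    rw [Finset.mem_range] at hv
    rw [hbb v (lt_of_lt_of_le hv (Nat.div_le_div_left hi (by omega)))]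
  have h2 : ∀ k, ∑ i ∈ Icc I k, (Yi b (A / i) : ℝ) = ∑ i ∈ Icc I k, (Yi b' (A / i) : ℝ) := by
    intro k
    exact Finset.sum_congr rfl fun i hi => by rw [this i (Finset.mem_Icc.1 hi).1]
  simp only [h2]

lemma LsqrtA (A F L : ℕ) (x : ℝ) (hx : 2 ≤ x) (h1 : L ^ 2 * A ≤ F) (h2 : F < (L + 1) ^ 2 * A)
    (hL : 4 * x ^ 3 ≤ L) (k : ℕ) :
    (L:ℝ) * Real.sqrt ((A:ℝ) * k) ≤ Real.sqrt ((F:ℝ) * k) ∧
      Real.sqrt ((F:ℝ) * k) ≤ (1 + 1 / (2 * x)) * (L * Real.sqrt ((A:ℝ) * k)) := by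
  have hx0 : 0 < x := by linarith
  have hxL : 2 * x ≤ L := by
    refine le_trans ?_ hL
    have : (1:ℝ) ≤ x ^ 2 := one_le_pow₀ (by linarith)
    nlinarith
  have hLpos : (0:ℝ) < L := by linarith
  have h1r : (L:ℝ) ^ 2 * A ≤ F := by exact_mod_cast h1
  have h2r : (F:ℝ) ≤ ((L:ℝ) + 1) ^ 2 * A := by exact_mod_cast h2.le
  constructor
  · apply Real.le_sqrt_of_sq_le
    rw [mul_pow, Real.sq_sqrt (by positivity), ← mul_assoc]
    exact mul_le_mul_of_nonneg_right h1r (by positivity)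
  · have h3 : Real.sqrt ((F:ℝ) * k) ≤ ((L:ℝ) + 1) * Real.sqrt ((A:ℝ) * k) := by
      rw [Real.sqrt_le_left (by positivity), mul_pow, Real.sq_sqrt (by positivity), ← mul_assoc]
      exact mul_le_mul_of_nonneg_right h2r (by positivity)
    refine h3.trans ?_
    rw [← mul_assoc]
    apply mul_le_mul_of_nonneg_right _ (Real.sqrt_nonneg _)
    have : 1 ≤ 1 / (2 * x) * L := by
      rw [one_div, inv_mul_eq_div, le_div_iff₀ (by positivity)]; linarith
    linarith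

/-- coarse time scale ≤ fine time scale -/
lemma GI_coarse_fine (A F L I K1 K2 : ℕ) (x h : ℝ) (hx : 2 ≤ x) (hI : 2 ≤ I) (hIK : I ≤ K2)
    (h1 : L ^ 2 * A ≤ F) (h2 : F < (L + 1) ^ 2 * A) (hL : 4 * x ^ 3 ≤ L)
    (hA : 2 * x ^ 12 * K2 ≤ A) (hh : |h| ≤ 1) :
    GI A I K1 K2 h ≤ GI F I K1 K2 (h - 3 / x) + 8 * K2 * Real.exp (-(x / 40)) := by
  have hx0 : 0 < x := by linarith
  have H := scale_hyp A F L I K2 x hx hI hIK h1 h2 hL hA
  have key := emb_coarse_le (fun _ => L) (fun i => A / i) F I K1 K2 x H hIK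
    (fun k => (h - 3 / x) * Real.sqrt ((F:ℝ) * k))
  rw [GI_prefix A I K1 K2 h (by omega)]
  refine le_trans (Pr_mono _ fun ε hε k hk => ?_) key
  rw [CI_const]
  have e1 := hε k hk
  obtain ⟨e2, e3⟩ := LsqrtA A F L x hx h1 h2 hL k
  have hLpos : (0:ℝ) ≤ L := by positivity
  have e4 : h * (L * Real.sqrt ((A:ℝ) * k)) ≤ L * ZI A I ε k := by
    have := mul_le_mul_of_nonneg_left e1 hLpos
    linarith
  refine le_trans ?_ e4
  set R := L * Real.sqrt ((A:ℝ) * k)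
  set R' := Real.sqrt ((F:ℝ) * k)
  have hR0 : 0 ≤ R := by positivity
  have hR'0 : 0 ≤ R' := Real.sqrt_nonneg _
  have e5 : (h - 3 / x) * R' + 2 / x * R' = h * R' - R' / x := by ring
  rw [e5]
  rcases le_or_gt 0 h with h0 | h0
  · have hh1 : h ≤ 1 := (le_abs_self h).trans hh
    have e6 : h * R' ≤ h * ((1 + 1 / (2 * x)) * R) := mul_le_mul_of_nonneg_left e3 h0
    have e7 : h * ((1 + 1 / (2 * x)) * R) = h * R + h * (R / (2 * x)) := by field_simp
    have e8 : h * (R / (2 * x)) ≤ 1 * (R / (2 * x)) := mul_le_mul_of_nonneg_right hh1 (by positivity)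
    have e9 : R / (2 * x) ≤ R' / x := by
      rw [div_le_div_iff₀ (by positivity) hx0]
      nlinarith
    linarith
  · have e6 : h * R' ≤ h * R := mul_le_mul_of_nonpos_left e2 h0.le
    have : 0 ≤ R' / x := by positivity
    linarith

/-- fine time scale ≤ coarse time scale -/
lemma GI_fine_coarse (A F L I K1 K2 : ℕ) (x h : ℝ) (hx : 2 ≤ x) (hI : 2 ≤ I) (hIK : I ≤ K2)
    (h1 : L ^ 2 * A ≤ F) (h2 : F < (L + 1) ^ 2 * A) (hL : 4 * x ^ 3 ≤ L)
    (hA : 2 * x ^ 12 * K2 ≤ A) (hh : |h| ≤ 1) :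
    GI F I K1 K2 h ≤ GI A I K1 K2 (h - 3 / x) + 4 * K2 * Real.exp (-(x / 40)) := by
  have hx0 : 0 < x := by linarith
  have H := scale_hyp A F L I K2 x hx hI hIK h1 h2 hL hA
  have key := emb_fine_le (fun _ => L) (fun i => A / i) F I K1 K2 x H hIK
    (fun k => (h - 2 / x) * Real.sqrt ((F:ℝ) * k))
  have hLpos : (0:ℝ) < L := by
    have : 0 < 4 * x ^ 3 := by positivity
    linarith
  have k1 : GI F I K1 K2 h ≤ Pr F (fun ω => ∀ k ∈ Icc K1 K2,
      (h - 2 / x) * Real.sqrt ((F:ℝ) * k) + 2 / x * Real.sqrt ((F:ℝ) * k) ≤ ZI F I ω k) := by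
    unfold GI
    refine Pr_mono F fun ω hω k hk => ?_
    have := hω k hk
    have e : (h - 2 / x) * Real.sqrt ((F:ℝ) * k) + 2 / x * Real.sqrt ((F:ℝ) * k)
        = h * Real.sqrt ((F:ℝ) * k) := by ring
    rw [e]; exact this
  refine (k1.trans key).trans (add_le_add ?_ le_rfl)
  rw [GI_prefix A I K1 K2 _ (by omega)]
  refine Pr_mono _ fun ε hε k hk => ?_
  have e1 := hε k hk
  rw [CI_const] at e1
  obtain ⟨e2, e3⟩ := LsqrtA A F L x hx h1 h2 hL k
  set R := L * Real.sqrt ((A:ℝ) * k) with hR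
  set R' := Real.sqrt ((F:ℝ) * k) with hR'
  have hR0 : 0 ≤ R := by positivity
  have hR'0 : 0 ≤ R' := Real.sqrt_nonneg _
  have e4 : (h - 3 / x) * R ≤ (h - 2 / x) * R' := by
    rcases le_or_gt 0 (h - 2 / x) with h0 | h0
    · have e6 : (h - 2 / x) * R ≤ (h - 2 / x) * R' := mul_le_mul_of_nonneg_left e2 h0
      have e7 : (h - 3 / x) * R = (h - 2 / x) * R - R / x := by ring
      have : 0 ≤ R / x := by positivity
      linarith
    · have hb : -2 ≤ h - 2 / x := by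
        have h3 := (abs_le.1 hh).1
        have : 2 / x ≤ 1 := by rw [div_le_one hx0]; exact hx
        linarith
      have e6 : (h - 2 / x) * ((1 + 1 / (2 * x)) * R) ≤ (h - 2 / x) * R' :=
        mul_le_mul_of_nonpos_left e3 h0.le
      have e7 : (h - 2 / x) * ((1 + 1 / (2 * x)) * R) = (h - 2 / x) * R + (h - 2 / x) * (R / (2 * x)) := by
        field_simp
      have e8 : -2 * (R / (2 * x)) ≤ (h - 2 / x) * (R / (2 * x)) :=
        mul_le_mul_of_nonneg_right hb (by positivity)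
      have e9 : (h - 3 / x) * R = (h - 2 / x) * R - R / x := by ring
      have e10 : -2 * (R / (2 * x)) = - (R / x) := by field_simp
      linarith
  have e5 : (L:ℝ) * ((h - 3 / x) * Real.sqrt ((A:ℝ) * k)) ≤ L * ZI A I ε k := by
    have : (L:ℝ) * ((h - 3 / x) * Real.sqrt ((A:ℝ) * k)) = (h - 3 / x) * R := by rw [hR]; ring
    rw [this]; linarith
  exact le_of_mul_le_mul_left e5 hLpos

end Pool.GP
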