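import Pool.Agent.Lib.GP.Theta
import Pool.Agent.Lib.GP.DeltaDefs

set_option autoImplicit false

/-!
Theorem U: the probability in the `δ`-model is `D^(-theta+o(1))`.
-/

namespace Pool.GP

open Finset Filter

lemma rpow_kappa_pow (D κ : ℝ) (hD : 0 ≤ D) (n : ℕ) : (D ^ κ) ^ n = D ^ (κ * n) := by
  rw [← Real.rpow_natCast, ← Real.rpow_mul hD]

/-- Theorem U for `ε ≤ 1` -/
theorem theoremU_aux (hT : DeltaTarget) (ε : ℝ) (hε : 0 < ε) (hε1 : ε ≤ 1) : ∃ κ0 : ℝ, 0 < κ0 ∧ ∀ κ : ℝ, 0 < κ →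
    ∃ D0 : ℕ, ∀ D : ℕ, D0 ≤ D → ∀ x : ℝ, (D:ℝ) ^ κ ≤ x → x ≤ (D:ℝ) ^ κ0 → ∀ (A : ℕ) (δ : ℕ → ℕ), Dhyp D A δ x →
    (D:ℝ) ^ (-(theta + ε)) ≤ PD D δ ∧ PD D δ ≤ (D:ℝ) ^ (-(theta - ε)) := by
  obtain ⟨C, hC⟩ := hT
  have ht0 := theta_nonneg
  -- κ0
  set κ0 : ℝ := min (1 / (4 * (C + 1))) (ε / (8 * (theta + 1) * (C + 1))) with hκ0
  have hκ0pos : 0 < κ0 := by rw [hκ0]; positivity
  refine ⟨κ0, hκ0pos, ?_⟩
  intro κ hκ
  have hκ1 : κ0 * C ≤ 1 / 4 := by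
    have h1 : κ0 ≤ 1 / (4 * (C + 1)) := min_le_left _ _
    rw [le_div_iff₀ (by positivity)] at h1
    have h2 : κ0 * (4 * ((C:ℝ) + 1)) = 4 * (κ0 * C) + 4 * κ0 := by ring
    linarith
  have hκ2 : κ0 * C * (theta + 1) ≤ ε / 8 := by
    have h1 : κ0 ≤ ε / (8 * (theta + 1) * (C + 1)) := min_le_right _ _
    rw [le_div_iff₀ (by positivity)] at h1
    have h2 : κ0 * (8 * (theta + 1) * ((C:ℝ) + 1)) = 8 * (κ0 * C * (theta + 1)) + 8 * (κ0 * (theta + 1)) := by ring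
    have h3 : 0 ≤ κ0 * (theta + 1) := by positivity
    linarith
  -- Prop S and T1 with m ≥ 1/κ, c = C
  set m : ℕ := ⌈1 / κ⌉₊ with hm
  have hmκ : 1 ≤ κ * m := by
    have : 1 / κ ≤ m := Nat.le_ceil _
    rw [div_le_iff₀ hκ] at this
    linarith
  obtain ⟨X1, hX1400, hX1⟩ := T1 m C
  obtain ⟨X2, hX2400, hX2⟩ := propS m C
  obtain ⟨c2, hc2, N2, hN2, hT2⟩ := T2 (ε/8) (by positivity)
  have ht8 : 0 < theta + 1 := by linarith
  -- x = D^κ → ∞
  have htend : Tendsto (fun D : ℕ => (D:ℝ) ^ κ) atTop atTop :=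
    (tendsto_rpow_atTop hκ).comp tendsto_natCast_atTop_atTop
  -- eventual conditions
  have ev1 : ∀ᶠ D : ℕ in atTop, max (max X1 X2) (max (C:ℝ) N2) + 2 ≤ (D:ℝ) ^ κ := htend.eventually_ge_atTop _
  -- exponential error
  obtain ⟨X3, hX3⟩ := poly_exp_small (4 * C) (1/40) 1 (m * (3 + ⌈theta⌉₊)) (by norm_num) (by norm_num)
  have ev2 : ∀ᶠ D : ℕ in atTop, X3 ≤ (D:ℝ) ^ κ := htend.eventually_ge_atTop _
  -- constants absorbed in D^(ε/8)
  have htend8 : Tendsto (fun D : ℕ => (D:ℝ) ^ (ε/8)) atTop atTop :=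
    (tendsto_rpow_atTop (by positivity)).comp tendsto_natCast_atTop_atTop
  have ev3 : ∀ᶠ D : ℕ in atTop, max (max (4 / c2) 8) ((2:ℝ) ^ (theta + 4)) ≤ (D:ℝ) ^ (ε/8) :=
    htend8.eventually_ge_atTop _
  obtain ⟨D0, hD0⟩ := eventually_atTop.1 ((ev1.and (ev2.and ev3)).and (eventually_ge_atTop 1))
  refine ⟨D0, fun D hD x hx1' hx2' A δ hδ => ?_⟩
  obtain ⟨⟨e1', e2', e3⟩, hD1⟩ := hD0 D hD
  have e1 := e1'.trans hx1'
  have e2 := e2'.trans hx1'
  have hD1r : (1:ℝ) ≤ D := by exact_mod_cast hD1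
  have hD0r : (0:ℝ) < D := by linarith
  have hxX1 : X1 ≤ x := by
    have := (le_max_left X1 X2).trans (le_max_left (max X1 X2) (max (C:ℝ) N2)); linarith
  have hxX2 : X2 ≤ x := by
    have := (le_max_right X1 X2).trans (le_max_left (max X1 X2) (max (C:ℝ) N2)); linarith
  have hxC : (C:ℝ) ≤ x := by
    have := (le_max_left (C:ℝ) N2).trans (le_max_right (max X1 X2) (max (C:ℝ) N2)); linarith
  have hxN : (N2:ℝ) ≤ x := by
    have := (le_max_right (C:ℝ) N2).trans (le_max_right (max X1 X2) (max (C:ℝ) N2)); linarith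
  have hx400 : 400 ≤ x := hX1400.trans hxX1
  have hx1 : 1 ≤ x := by linarith
  have hx0 : 0 < x := by linarith
  have hpow : ∀ n : ℕ, x ^ n ≤ (D:ℝ) ^ (κ0 * n) := fun n => by
    rw [← rpow_kappa_pow D κ0 hD0r.le n]
    exact pow_le_pow_left₀ hx0.le hx2' n
  have hDm : (D:ℝ) ≤ x ^ m := by
    refine le_trans ?_ (pow_le_pow_left₀ (by positivity) hx1' m)
    rw [rpow_kappa_pow D κ hD0r.le m]
    calc (D:ℝ) = (D:ℝ) ^ (1:ℝ) := (Real.rpow_one _).symm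
      _ ≤ (D:ℝ) ^ (κ * m) := Real.rpow_le_rpow_of_exponent_le hD1r hmκ
  have hxCD : x ^ C ≤ D := by
    refine (hpow C).trans ?_
    calc (D:ℝ) ^ (κ0 * C) ≤ (D:ℝ) ^ (1:ℝ) := Real.rpow_le_rpow_of_exponent_le hD1r (by linarith)
      _ = D := Real.rpow_one _
  obtain ⟨K1, K2, hK1, hK1C, hK12, hK2D, hDK2, hAK2, hup, hlow⟩ := hC x D A δ hxC hxCD hδ
  have hK1pos : (1:ℝ) ≤ K1 := (one_le_pow₀ hx1).trans hK1
  have hK1n : 1 ≤ K1 := by exact_mod_cast hK1pos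
  have hK12r : (K1:ℝ) ≤ K2 := by exact_mod_cast hK12
  have hK2Dr : (K2:ℝ) ≤ D := by exact_mod_cast hK2D
  have hK2pos : (0:ℝ) < K2 := by linarith
  have hK8 : x ^ 8 ≤ K1 := (pow_le_pow_right₀ hx1 (by norm_num)).trans hK1
  have hCC : |((C:ℝ)) / x| ≤ C / x := (abs_of_nonneg (by positivity)).le
  have hCC' : |(-((C:ℝ) / x))| ≤ C / x := by rw [abs_neg]; exact hCC
  have h0C : |(0:ℝ)| ≤ C / x := by rw [abs_zero]; positivity
  -- exponential error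
  have herr : 4 * (C * D * Real.exp (-(x / 40))) ≤ (D:ℝ) ^ (-(theta + 2)) := by
    have h1 := hX3 x e2
    have h2 : (D:ℝ) ^ (theta + 3) ≤ x ^ (m * (3 + ⌈theta⌉₊)) := by
      calc (D:ℝ) ^ (theta + 3) ≤ (D:ℝ) ^ (((3 + ⌈theta⌉₊ : ℕ)):ℝ) := by
            apply Real.rpow_le_rpow_of_exponent_le hD1r
            push_cast
            have := Nat.le_ceil theta
            linarith
        _ = (D:ℝ) ^ (3 + ⌈theta⌉₊) := Real.rpow_natCast _ _
        _ ≤ (x ^ m) ^ (3 + ⌈theta⌉₊) := pow_le_pow_left₀ hD0r.le hDm _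
        _ = x ^ (m * (3 + ⌈theta⌉₊)) := (pow_mul _ _ _).symm
    have h3 : Real.exp (-(1/40*x)) = Real.exp (-(x/40)) := by congr 1; ring
    rw [h3] at h1
    have h4 : (D:ℝ) ^ (-(theta + 2)) = 1 / (D:ℝ) ^ (theta + 2) := by
      rw [Real.rpow_neg hD0r.le, one_div]
    rw [h4, le_div_iff₀ (by positivity)]
    have h5 : (D:ℝ) * (D:ℝ) ^ (theta + 2) = (D:ℝ) ^ (theta + 3) := by
      have : (D:ℝ) * (D:ℝ) ^ (theta + 2) = (D:ℝ) ^ (1:ℝ) * (D:ℝ) ^ (theta + 2) := by rw [Real.rpow_one]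
      rw [this, ← Real.rpow_add hD0r]; congr 1; ring
    calc 4 * (C * D * Real.exp (-(x / 40))) * (D:ℝ) ^ (theta + 2)
        = 4 * C * (D * (D:ℝ) ^ (theta + 2)) * Real.exp (-(x / 40)) := by ring
      _ = 4 * C * (D:ℝ) ^ (theta + 3) * Real.exp (-(x / 40)) := by rw [h5]
      _ ≤ 4 * C * x ^ (m * (3 + ⌈theta⌉₊)) * Real.exp (-(x / 40)) := by
          apply mul_le_mul_of_nonneg_right _ (Real.exp_pos _).le
          exact mul_le_mul_of_nonneg_left h2 (by positivity)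
      _ ≤ 1 := h1
  have hC0 : (0:ℝ) ≤ C := by positivity
  have herr0 : 0 ≤ (C:ℝ) * D * Real.exp (-(x / 40)) := by positivity
  have h8a : 4 / c2 ≤ (D:ℝ) ^ (ε/8) := (le_max_left _ _).trans ((le_max_left _ _).trans e3)
  have h8b : 8 ≤ (D:ℝ) ^ (ε/8) := (le_max_right _ _).trans ((le_max_left _ _).trans e3)
  have h8c : (2:ℝ) ^ (theta + 4) ≤ (D:ℝ) ^ (ε/8) := (le_max_right _ _).trans e3
  have hxpow : x ^ C ≤ (D:ℝ) ^ (ε/8) := by
    refine (hpow C).trans ?_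
    apply Real.rpow_le_rpow_of_exponent_le hD1r
    have h1 : κ0 * C * (theta + 1) = κ0 * C * theta + κ0 * C := by ring
    have h2 : 0 ≤ κ0 * C * theta := by positivity
    linarith
  constructor
  · -- lower bound
    have g1 : G A K1 K2 0 ≤ 2 * G A K1 K2 (C / x) := by
      have := hX2 x hxX2 K1 K2 A A 1 hK8 hK12 (hK2Dr.trans hDm) hAK2 le_rfl (by simpa using hAK2) 0 (C / x) h0C hCC
      simpa using this
    have g2 : c2 * ((K2:ℝ) / K1) ^ (-(theta + ε/8)) ≤ G A K1 K2 0 := by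
      apply hT2 K1 K2 A
      · have : (N2:ℝ) ≤ K1 := by
          refine hxN.trans (le_trans ?_ hK1)
          calc x = x ^ 1 := (pow_one x).symm
            _ ≤ x ^ 33 := pow_le_pow_right₀ hx1 (by norm_num)
        exact_mod_cast this
      · exact hK12
      · have : (N2:ℝ) * K2 ≤ A := by
          refine le_trans (mul_le_mul_of_nonneg_right ?_ hK2pos.le) hAK2
          refine hxN.trans ?_
          calc x = x ^ 1 := (pow_one x).symm
            _ ≤ x ^ 20 := pow_le_pow_right₀ hx1 (by norm_num)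
        exact_mod_cast this
    have g3 : (D:ℝ) ^ (-(theta + ε/8)) ≤ ((K2:ℝ) / K1) ^ (-(theta + ε/8)) := by
      apply Real.rpow_le_rpow_of_nonpos (by positivity)
      · rw [div_le_iff₀ (by linarith)]
        calc (K2:ℝ) ≤ D := hK2Dr
          _ ≤ D * K1 := le_mul_of_one_le_right (by linarith) hK1pos
      · linarith
    have g4 : c2 * (D:ℝ) ^ (-(theta + ε/8)) ≤ G A K1 K2 0 :=
      (mul_le_mul_of_nonneg_left g3 hc2.le).trans g2
    have g5 : 4 * (D:ℝ) ^ (-(theta + ε/4)) ≤ G A K1 K2 0 := by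
      refine le_trans ?_ g4
      have : (D:ℝ) ^ (-(theta + ε/8)) = (D:ℝ) ^ (-(theta + ε/4)) * (D:ℝ) ^ (ε/8) := by
        rw [← Real.rpow_add hD0r]; congr 1; ring
      rw [this]
      have h9 : 4 ≤ c2 * (D:ℝ) ^ (ε/8) := by
        rw [div_le_iff₀ hc2] at h8a; linarith
      calc 4 * (D:ℝ) ^ (-(theta + ε/4)) ≤ (c2 * (D:ℝ) ^ (ε/8)) * (D:ℝ) ^ (-(theta + ε/4)) :=
            mul_le_mul_of_nonneg_right h9 (by positivity)
        _ = c2 * ((D:ℝ) ^ (-(theta + ε/4)) * (D:ℝ) ^ (ε/8)) := by ring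
    have g6 : (D:ℝ) ^ (-(theta + 2)) ≤ (D:ℝ) ^ (-(theta + ε/4)) := by
      apply Real.rpow_le_rpow_of_exponent_le hD1r
      linarith
    have g7 : (D:ℝ) ^ (-(theta + ε)) ≤ (D:ℝ) ^ (-(theta + ε/4)) / x ^ C := by
      rw [le_div_iff₀ (by positivity)]
      calc (D:ℝ) ^ (-(theta + ε)) * x ^ C ≤ (D:ℝ) ^ (-(theta + ε)) * (D:ℝ) ^ (ε/8) :=
            mul_le_mul_of_nonneg_left hxpow (by positivity)
        _ = (D:ℝ) ^ (-(theta + ε) + ε/8) := by rw [Real.rpow_add hD0r]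
        _ ≤ (D:ℝ) ^ (-(theta + ε/4)) := Real.rpow_le_rpow_of_exponent_le hD1r (by linarith)
    refine g7.trans (le_trans ?_ hlow)
    apply div_le_div_of_nonneg_right _ (by positivity)
    linarith
  · -- upper bound
    have hDx : x ≤ D := by
      calc x ≤ (D:ℝ) ^ κ0 := hx2'
        _ ≤ (D:ℝ) ^ (1:ℝ) := by
            apply Real.rpow_le_rpow_of_exponent_le hD1r
            have h1 : κ0 ≤ 1 / (4 * (C + 1)) := min_le_left _ _
            have h2 : 1 / (4 * ((C:ℝ) + 1)) ≤ 1 := by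
              rw [div_le_one (by positivity)]; linarith
            linarith
        _ = D := Real.rpow_one _
    have hD400 : (400:ℝ) ≤ D := by linarith
    have hx2C0 : x ^ C * x ^ C ≤ (D:ℝ) ^ (κ0 * C + κ0 * C) := by
      rw [Real.rpow_add hD0r]
      exact mul_le_mul (hpow C) (hpow C) (by positivity) (by positivity)
    have hx2C : x ^ C * x ^ C ≤ (D:ℝ) ^ ((1:ℝ)/2) :=
      hx2C0.trans (Real.rpow_le_rpow_of_exponent_le hD1r (by linarith))
    have hsq : (D:ℝ) ^ ((1:ℝ)/2) * (D:ℝ) ^ ((1:ℝ)/2) = D := by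
      rw [← Real.rpow_add hD0r]; norm_num
    have hsqpos : 0 < (D:ℝ) ^ ((1:ℝ)/2) := by positivity
    have hratio : (D:ℝ) / (x ^ C * x ^ C) ≤ K2 / K1 := by
      rw [div_le_div_iff₀ (by positivity) (by linarith)]
      calc (D:ℝ) * K1 ≤ (x ^ C * K2) * x ^ C := mul_le_mul hDK2 hK1C (by linarith) (by positivity)
        _ = K2 * (x ^ C * x ^ C) := by ring
    have hratio2 : (D:ℝ) ^ ((1:ℝ)/2) ≤ (D:ℝ) / (x ^ C * x ^ C) := by
      rw [le_div_iff₀ (by positivity)]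
      calc (D:ℝ) ^ ((1:ℝ)/2) * (x ^ C * x ^ C) ≤ (D:ℝ) ^ ((1:ℝ)/2) * (D:ℝ) ^ ((1:ℝ)/2) :=
            mul_le_mul_of_nonneg_left hx2C hsqpos.le
        _ = D := hsq
    have h2 : 2 ≤ (D:ℝ) ^ ((1:ℝ)/2) := by
      by_contra h
      push Not at h
      have : (D:ℝ) ^ ((1:ℝ)/2) * (D:ℝ) ^ ((1:ℝ)/2) < 2 * 2 := mul_lt_mul'' h h hsqpos.le hsqpos.le
      linarith
    set R := K2 / K1 with hR
    have hR2 : 2 ≤ R := by
      rw [hR, Nat.le_div_iff_mul_le (by omega)]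
      have h3 : (2:ℝ) ≤ K2 / K1 := by linarith
      rw [le_div_iff₀ (by linarith)] at h3
      exact_mod_cast h3
    have hRK : R * K1 ≤ K2 := Nat.div_mul_le_self _ _
    have hRKr : ((R * K1 : ℕ):ℝ) ≤ K2 := by exact_mod_cast hRK
    have hRlow : (K2:ℝ) / K1 ≤ 2 * R := by
      have h4 : K2 < (R + 1) * K1 := by
        have := Nat.lt_div_mul_add (a := K2) (b := K1) (by omega)
        rw [add_mul, one_mul]; exact this
      have h5 : (K2:ℝ) < (R + 1) * K1 := by exact_mod_cast h4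
      rw [div_le_iff₀ (by linarith)]
      have h6 : ((R:ℝ) + 1) * K1 ≤ (2 * R) * K1 := by
        apply mul_le_mul_of_nonneg_right _ (by linarith)
        have : (2:ℝ) ≤ R := by exact_mod_cast hR2
        linarith
      linarith
    have u1 := hX1 x hxX1 K1 R A hK8 hR2 (hRKr.trans (hK2Dr.trans hDm))
      ((mul_le_mul_of_nonneg_left hRKr (by positivity)).trans hAK2) (-(C / x)) hCC'
    have u2 : G A K1 K2 (-(C / x)) ≤ 2 * (R:ℝ) ^ (-theta) := (G_anti_K A K1 (R*K1) K2 _ hRK).trans u1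
    have hRpos : (0:ℝ) < R := by exact_mod_cast (by omega : 0 < R)
    have u3 : (R:ℝ) ^ (-theta) ≤ (D / (x ^ C * x ^ C) / 2) ^ (-theta) := by
      apply Real.rpow_le_rpow_of_nonpos (by positivity)
      · linarith
      · linarith
    have u4 : (D / (x ^ C * x ^ C) / 2) ^ (-theta) = (D:ℝ) ^ (-theta) * ((x ^ C * x ^ C) ^ theta * 2 ^ theta) := by
      rw [Real.div_rpow (by positivity) (by positivity), Real.div_rpow (by positivity) (by positivity)]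
      rw [Real.rpow_neg (by positivity : (0:ℝ) ≤ x ^ C * x ^ C), Real.rpow_neg (by norm_num : (0:ℝ) ≤ 2)]
      field_simp
    have u5 : (x ^ C * x ^ C) ^ theta ≤ (D:ℝ) ^ (ε/4) := by
      refine (Real.rpow_le_rpow (by positivity) hx2C0 ht0).trans ?_
      rw [← Real.rpow_mul hD0r.le]
      apply Real.rpow_le_rpow_of_exponent_le hD1r
      have h1 : κ0 * C * (theta + 1) = κ0 * C * theta + κ0 * C := by ring
      have h2 : (κ0 * C + κ0 * C) * theta = 2 * (κ0 * C * theta) := by ring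
      have h3 : 0 ≤ κ0 * C := by positivity
      linarith
    have u6 : (2:ℝ) ^ (theta + 4) = 16 * 2 ^ theta := by
      rw [Real.rpow_add (by norm_num)]; norm_num; ring
    have u7 : G A K1 K2 (-(C / x)) ≤ 1 / 2 * (D:ℝ) ^ (-(theta - ε)) := by
      refine u2.trans ?_
      calc 2 * (R:ℝ) ^ (-theta) ≤ 2 * ((D:ℝ) ^ (-theta) * ((x ^ C * x ^ C) ^ theta * 2 ^ theta)) := by
            rw [← u4]; exact mul_le_mul_of_nonneg_left u3 (by norm_num)
        _ ≤ 2 * ((D:ℝ) ^ (-theta) * ((D:ℝ) ^ (ε/4) * 2 ^ theta)) := by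
            apply mul_le_mul_of_nonneg_left _ (by norm_num)
            apply mul_le_mul_of_nonneg_left _ (by positivity)
            exact mul_le_mul_of_nonneg_right u5 (by positivity)
        _ = 1 / 8 * ((D:ℝ) ^ (-theta) * (D:ℝ) ^ (ε/4) * (16 * 2 ^ theta)) := by ring
        _ ≤ 1 / 8 * ((D:ℝ) ^ (-theta) * (D:ℝ) ^ (ε/4) * (D:ℝ) ^ (ε/8)) := by
            apply mul_le_mul_of_nonneg_left _ (by norm_num)
            apply mul_le_mul_of_nonneg_left _ (by positivity)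
            rw [← u6]; exact h8c
        _ = 1 / 8 * (D:ℝ) ^ (-theta + ε/4 + ε/8) := by
            rw [Real.rpow_add hD0r, Real.rpow_add hD0r]
        _ ≤ 1 / 8 * (D:ℝ) ^ (-(theta - ε)) := by
            apply mul_le_mul_of_nonneg_left _ (by norm_num)
            exact Real.rpow_le_rpow_of_exponent_le hD1r (by linarith)
        _ ≤ 1 / 2 * (D:ℝ) ^ (-(theta - ε)) := by
            apply mul_le_mul_of_nonneg_right (by norm_num) (by positivity)
    have u8 : (D:ℝ) ^ (-(theta + 2)) ≤ (D:ℝ) ^ (-(theta - ε)) :=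
      Real.rpow_le_rpow_of_exponent_le hD1r (by linarith)
    linarith

/-- **Theorem U.** -/
theorem theoremU (hT : DeltaTarget) (ε : ℝ) (hε : 0 < ε) : ∃ κ0 : ℝ, 0 < κ0 ∧ ∀ κ : ℝ, 0 < κ →
    ∃ D0 : ℕ, ∀ D : ℕ, D0 ≤ D → ∀ x : ℝ, (D:ℝ) ^ κ ≤ x → x ≤ (D:ℝ) ^ κ0 → ∀ (A : ℕ) (δ : ℕ → ℕ), Dhyp D A δ x →
    (D:ℝ) ^ (-(theta + ε)) ≤ PD D δ ∧ PD D δ ≤ (D:ℝ) ^ (-(theta - ε)) := by
  obtain ⟨κ0, hκ0, h⟩ := theoremU_aux hT (min ε 1) (lt_min hε one_pos) (min_le_right _ _)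
  refine ⟨κ0, hκ0, fun κ hκ => ?_⟩
  obtain ⟨D0, hD0⟩ := h κ hκ
  refine ⟨D0 + 1, fun D hD x hx1 hx2 A δ hδ => ?_⟩
  obtain ⟨h1, h2⟩ := hD0 D (by omega) x hx1 hx2 A δ hδ
  have hD1 : (1:ℝ) ≤ D := by exact_mod_cast (by omega : 1 ≤ D)
  have hm := min_le_left ε 1
  constructor
  · refine le_trans ?_ h1
    exact Real.rpow_le_rpow_of_exponent_le hD1 (by linarith)
  · refine h2.trans ?_
    exact Real.rpow_le_rpow_of_exponent_le hD1 (by linarith)

end Pool.GP
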