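import Pool.Agent.Lib.GP.PropS

set_option autoImplicit false

/-!
The persistence exponent `theta`: existence of the limit and two-sided bounds.
-/

namespace Pool.GP

open Finset Filter

/-- finite-size exponent -/
noncomputable def vK (K : ℕ) : ℝ := -Real.log (G (K^5) K (K^2) 0) / Real.log K

/-- the persistence exponent -/
noncomputable def theta : ℝ := liminf vK atTop

lemma block_lower (g : ℝ) (hg : 0 ≤ g) (K R : ℕ) (C0 : ℝ) (hR : 1 ≤ R)
    (hyp : ∀ lam B : ℕ, 1 ≤ lam → C0 * lam ≤ B → g ≤ G B (lam*K) (lam*(R*K)) 0) (hC0 : 0 ≤ C0) :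
    ∀ s lam B : ℕ, 1 ≤ lam → C0 * (lam * R ^ (s+1) : ℕ) ≤ B → g ^ (s+1) ≤ G B (lam*K) (lam*R^(s+1)*K) 0 := by
  intro s
  induction s with
  | zero =>
    intro lam B hlam hB
    have h1 : C0 * lam ≤ B := by
      refine le_trans ?_ hB
      apply mul_le_mul_of_nonneg_left _ hC0
      have : lam ≤ lam * R ^ (0+1) := Nat.le_mul_of_pos_right _ (by positivity)
      exact_mod_cast this
    have := hyp lam B hlam h1
    simpa [mul_assoc] using this
  | succ s ih =>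
    intro lam B hlam hB
    have hle : lam * R ^ (s+1) ≤ lam * R ^ (s+1+1) := by
      apply Nat.mul_le_mul_left
      exact Nat.pow_le_pow_right hR (by omega)
    have hB2 : C0 * (lam * R ^ (s+1) : ℕ) ≤ B := by
      refine le_trans ?_ hB
      apply mul_le_mul_of_nonneg_left _ hC0
      exact_mod_cast hle
    have h1 := ih lam B hlam hB2
    have h2 := hyp (lam * R ^ (s+1)) B (Nat.one_le_iff_ne_zero.2 (by positivity)) hB2
    have h3 := G_split B (lam*K) (lam*R^(s+1)*K) (lam*R^(s+1)*(R*K)) 0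
    have e : lam * R ^ (s+1+1) * K = lam*R^(s+1)*(R*K) := by ring
    rw [e]
    refine le_trans ?_ h3
    rw [pow_succ]
    exact mul_le_mul h1 h2 hg (G_nonneg _ _ _ _)

/-- blocks cover `[K1,K2]` -/
lemma block_cover (g : ℝ) (hg : 0 ≤ g) (K R : ℕ) (C0 : ℝ) (hR : 2 ≤ R) (hK : 1 ≤ K)
    (hyp : ∀ lam B : ℕ, 1 ≤ lam → C0 * lam ≤ B → g ≤ G B (lam*K) (lam*(R*K)) 0) (hC0 : 0 ≤ C0)
    (K1 K2 B n : ℕ) (hK1 : 2 * K ≤ K1) (hn2 : 2 ≤ n) (hn : 2 * K2 ≤ n * K1)
    (hB : C0 * (K1 * (R * n) : ℕ) ≤ B) :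
    g ^ (Nat.clog R n) ≤ G B K1 K2 0 := by
  set lam := K1 / K with hlam
  have hlam2 : 2 ≤ lam := by rw [hlam, Nat.le_div_iff_mul_le (by omega)]; exact hK1
  have hlamK : lam * K ≤ K1 := Nat.div_mul_le_self _ _
  have hlamK2 : K1 ≤ 2 * (lam * K) := by
    have := Nat.lt_div_mul_add (a := K1) (b := K) (by omega)
    have h2 : 2 * K ≤ lam * K := Nat.mul_le_mul_right _ hlam2
    rw [← hlam] at this
    omega
  have hclog : 1 ≤ Nat.clog R n := Nat.clog_pos (by omega) hn2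
  obtain ⟨s, hs⟩ : ∃ s, Nat.clog R n = s + 1 := ⟨Nat.clog R n - 1, by omega⟩
  have hpow1 : n ≤ R ^ (s+1) := by rw [← hs]; exact Nat.le_pow_clog (by omega) n
  have hpow2 : R ^ (s+1) ≤ R * n := by
    have h1 := Nat.pow_pred_clog_lt_self (b := R) (x := n) (by omega) (by omega)
    rw [hs] at h1
    have : (s+1).pred = s := rfl
    rw [this] at h1
    rw [pow_succ, mul_comm]
    exact Nat.mul_le_mul_left _ h1.le
  have h1 := block_lower g hg K R C0 (by omega) hyp hC0 s lam B (by omega) (by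
    refine le_trans ?_ hB
    apply mul_le_mul_of_nonneg_left _ hC0
    have h2 : lam ≤ K1 := Nat.div_le_self _ _
    exact_mod_cast Nat.mul_le_mul h2 hpow2)
  rw [hs]
  refine h1.trans ?_
  refine (G_mono_K1 B (lam*K) K1 _ 0 hlamK).trans (G_anti_K B K1 K2 _ 0 ?_)
  -- K2 ≤ lam * R^(s+1) * K
  have h3 : 2 * K2 ≤ 2 * (lam * R^(s+1) * K) := by
    calc 2 * K2 ≤ n * K1 := hn
      _ ≤ R^(s+1) * (2 * (lam * K)) := Nat.mul_le_mul hpow1 hlamK2
      _ = 2 * (lam * R^(s+1) * K) := by ring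
  omega

/-- the key limsup bound -/
lemma vK_limsup (g : ℝ) (hg : 0 < g) (hg1 : g ≤ 1) (K R : ℕ) (C0 : ℝ) (hR : 2 ≤ R) (hK : 1 ≤ K)
    (hyp : ∀ lam B : ℕ, 1 ≤ lam → C0 * lam ≤ B → g ≤ G B (lam*K) (lam*(R*K)) 0) (hC0 : 0 ≤ C0)
    (ε : ℝ) (hε : 0 < ε) :
    ∀ᶠ K' : ℕ in atTop, vK K' ≤ -Real.log g / Real.log R + ε := by
  have hlogR : 0 < Real.log R := Real.log_pos (by exact_mod_cast (by omega : 1 < R))
  have hlg : 0 ≤ -Real.log g := by
    have := Real.log_nonpos hg.le hg1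
    linarith
  have hlogtend : Tendsto (fun K' : ℕ => Real.log (K':ℝ)) atTop atTop :=
    Real.tendsto_log_atTop.comp tendsto_natCast_atTop_atTop
  -- error → 0
  have ev1 : ∀ᶠ K' : ℕ in atTop, (-Real.log g) * (Real.log 2 / Real.log R + 1) / ε ≤ Real.log (K':ℝ) :=
    hlogtend.eventually_ge_atTop _
  have ev2 : ∀ᶠ K' : ℕ in atTop, 2 * K + 4 + ⌈C0 * 2 * R⌉₊ ≤ K' := eventually_ge_atTop _
  filter_upwards [ev1, ev2] with K' h1 h2
  have hK'4 : 4 ≤ K' := by omega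
  have hK'r : (4:ℝ) ≤ K' := by exact_mod_cast hK'4
  have hlogK : 0 < Real.log (K':ℝ) := Real.log_pos (by linarith)
  have hcov := block_cover g hg.le K R C0 hR hK hyp hC0 K' (K'^2) (K'^5) (2 * K') (by omega) (by omega)
    (by nlinarith) (by
      have hc1 : C0 * 2 * R ≤ K' := by
        have h3 : (⌈C0 * 2 * R⌉₊ : ℝ) ≤ K' := by exact_mod_cast (by omega : ⌈C0 * 2 * R⌉₊ ≤ K')
        exact (Nat.le_ceil _).trans h3
      push_cast
      calc C0 * (K' * (R * (2 * K'))) = (C0 * 2 * R) * (K':ℝ)^2 := by ring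
        _ ≤ K' * (K':ℝ)^2 := mul_le_mul_of_nonneg_right hc1 (by positivity)
        _ = (K':ℝ)^3 := by ring
        _ ≤ (K':ℝ)^5 := pow_le_pow_right₀ (by linarith) (by norm_num))
  set s := Nat.clog R (2 * K') with hs
  have hspos : 1 ≤ s := Nat.clog_pos (by omega) (by omega)
  have hs2 : (s:ℝ) * Real.log R ≤ Real.log 2 + Real.log K' + Real.log R := by
    have h3 := Nat.pow_pred_clog_lt_self (b := R) (x := 2 * K') (by omega) (by omega)
    have h4 : ((R:ℝ)) ^ (s - 1) ≤ 2 * K' := by exact_mod_cast h3.le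
    have h5 := Real.log_le_log (by positivity) h4
    rw [Real.log_pow, Real.log_mul (by norm_num) (by linarith)] at h5
    have h6 : ((s - 1 : ℕ):ℝ) = s - 1 := by push_cast [Nat.cast_sub hspos]; ring
    rw [h6] at h5
    linarith
  have hlog : -Real.log (G (K'^5) K' (K'^2) 0) ≤ s * (-Real.log g) := by
    have h7 := Real.log_le_log (by positivity) hcov
    rw [Real.log_pow] at h7
    linarith
  unfold vK
  rw [div_le_iff₀ hlogK]
  have h8 : (s:ℝ) * (-Real.log g) ≤ ((Real.log 2 + Real.log K' + Real.log R) / Real.log R) * (-Real.log g) := by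
    apply mul_le_mul_of_nonneg_right _ hlg
    rw [le_div_iff₀ hlogR]; exact hs2
  have h9 : (-Real.log g) * (Real.log 2 / Real.log R + 1) ≤ Real.log (K':ℝ) * ε := by
    rwa [div_le_iff₀ hε] at h1
  have h10 : ((Real.log 2 + Real.log K' + Real.log R) / Real.log R) * (-Real.log g)
      = (-Real.log g / Real.log R) * Real.log K' + (-Real.log g) * (Real.log 2 / Real.log R + 1) := by
    field_simp; ring
  calc -Real.log (G (K'^5) K' (K'^2) 0) ≤ s * (-Real.log g) := hlog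
    _ ≤ (-Real.log g / Real.log R) * Real.log K' + (-Real.log g) * (Real.log 2 / Real.log R + 1) := by
        rw [← h10]; exact h8
    _ ≤ (-Real.log g / Real.log R + ε) * Real.log K' := by linarith

lemma vK_nonneg (K : ℕ) : 0 ≤ vK K := by
  unfold vK
  apply div_nonneg
  · have := Real.log_nonpos (G_nonneg (K^5) K (K^2) 0) (G_le_one _ _ _ _)
    linarith
  · rcases Nat.eq_zero_or_pos K with rfl | h
    · simp
    · exact Real.log_nonneg (by exact_mod_cast h)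

lemma G_vK_pos (K : ℕ) (hK : 1 ≤ K) : 1 / (200 * (K:ℝ)) ≤ G (K^5) K (K^2) 0 := by
  have h := G_lower (K^5) K (K^2) (Nat.one_le_pow _ _ hK) (Nat.pow_le_pow_right hK (by norm_num))
  push_cast at h
  rwa [Real.sqrt_sq (by positivity)] at h

lemma vK_le (K : ℕ) (hK : 200 ≤ K) : vK K ≤ 2 := by
  have hKr : (200:ℝ) ≤ K := by exact_mod_cast hK
  have h1 := G_vK_pos K (by omega)
  have h2 : 1 / (K:ℝ)^2 ≤ 1 / (200 * (K:ℝ)) := by
    apply one_div_le_one_div_of_le (by positivity)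
    nlinarith
  have h3 := Real.log_le_log (by positivity) (h2.trans h1)
  rw [one_div, Real.log_inv, Real.log_pow] at h3
  unfold vK
  rw [div_le_iff₀ (Real.log_pos (by linarith))]
  push_cast at h3
  linarith

lemma G_vK (K : ℕ) (hK : 2 ≤ K) : G (K^5) K (K^2) 0 = (K:ℝ) ^ (-vK K) := by
  have hKr : (2:ℝ) ≤ K := by exact_mod_cast hK
  have hlog : 0 < Real.log K := Real.log_pos (by linarith)
  have hpos : 0 < G (K^5) K (K^2) 0 := lt_of_lt_of_le (by positivity) (G_vK_pos K (by omega))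
  rw [Real.rpow_def_of_pos (by linarith)]
  unfold vK
  have : Real.log K * -(-Real.log (G (K^5) K (K^2) 0) / Real.log K) = Real.log (G (K^5) K (K^2) 0) := by
    field_simp
  rw [this, Real.exp_log hpos]

/-- the scaling hypothesis of `block_lower` from Proposition S -/
lemma hyp_of_propS (m c : ℕ) : ∃ X : ℝ, 400 ≤ X ∧ ∀ x ≥ X, ∀ (K R A : ℕ), x ^ 8 ≤ K → 1 ≤ R →
    ((R * K : ℕ):ℝ) ≤ x ^ m → x ^ 20 * (R * K : ℕ) ≤ A → ∀ h : ℝ, |h| ≤ c / x →
    ∀ lam B : ℕ, 1 ≤ lam → (x ^ 20 * (R * K : ℕ)) * lam ≤ B → G A K (R * K) h / 2 ≤ G B (lam*K) (lam*(R*K)) 0 := by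
  obtain ⟨X, hX400, hX⟩ := propS m c
  refine ⟨X, hX400, fun x hx K R A hK hR hRK hA h hh lam B hlam hB => ?_⟩
  have hx0 : 0 < x := by linarith
  have h1 := hX x hx K (R*K) A B lam hK (Nat.le_mul_of_pos_left _ (by omega)) hRK hA hlam (by
    calc x ^ 20 * (lam * (R * K : ℕ)) = (x ^ 20 * (R * K : ℕ)) * lam := by ring
      _ ≤ (B:ℝ) := hB) h 0 hh (by rw [abs_zero]; positivity)
  linarith

lemma eventually_K (m : ℕ) (hm : 100 ≤ m) (X : ℝ) (hX : 400 ≤ X) : ∀ᶠ K : ℕ in atTop,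
    2 ≤ K ∧ ∃ x : ℝ, X ≤ x ∧ x ^ 8 ≤ K ∧ ((K * K : ℕ):ℝ) ≤ x ^ m ∧ x ^ 20 * (K * K : ℕ) ≤ ((K^5 : ℕ):ℝ) := by
  have ev1 : ∀ᶠ K : ℕ in atTop, 2 + ⌈X ^ 50⌉₊ ≤ K := eventually_ge_atTop _
  filter_upwards [ev1] with K hK
  refine ⟨by omega, (K:ℝ) ^ ((1:ℝ)/50), ?_, ?_, ?_, ?_⟩
  · have h1 : X ^ 50 ≤ K := (Nat.le_ceil _).trans (by exact_mod_cast (by omega : ⌈X ^ 50⌉₊ ≤ K))
    have h2 : (X ^ 50) ^ ((1:ℝ)/50) ≤ (K:ℝ) ^ ((1:ℝ)/50) := Real.rpow_le_rpow (by positivity) h1 (by norm_num)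
    have h3 : (X ^ 50) ^ ((1:ℝ)/50) = X := by
      rw [← Real.rpow_natCast, ← Real.rpow_mul (by linarith)]
      norm_num
    linarith
  all_goals have hK1 : (1:ℝ) ≤ K := by exact_mod_cast (by omega : 1 ≤ K)
  · have : ((K:ℝ) ^ ((1:ℝ)/50)) ^ 8 = (K:ℝ) ^ ((8:ℝ)/50) := by
      rw [← Real.rpow_natCast, ← Real.rpow_mul (by linarith)]; norm_num
    rw [this]
    calc (K:ℝ) ^ ((8:ℝ)/50) ≤ (K:ℝ) ^ (1:ℝ) := Real.rpow_le_rpow_of_exponent_le hK1 (by norm_num)
      _ = K := Real.rpow_one _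
  · have h1 : (1:ℝ) ≤ (K:ℝ) ^ ((1:ℝ)/50) := Real.one_le_rpow hK1 (by norm_num)
    calc ((K * K : ℕ):ℝ) = ((K:ℝ) ^ ((1:ℝ)/50)) ^ 100 := by
          rw [← Real.rpow_natCast, ← Real.rpow_mul (by linarith)]; norm_num [sq]
      _ ≤ ((K:ℝ) ^ ((1:ℝ)/50)) ^ m := pow_le_pow_right₀ h1 hm
  · have : ((K:ℝ) ^ ((1:ℝ)/50)) ^ 20 = (K:ℝ) ^ ((20:ℝ)/50) := by
      rw [← Real.rpow_natCast, ← Real.rpow_mul (by linarith)]; norm_num
    rw [this]
    push_cast
    calc (K:ℝ) ^ ((20:ℝ)/50) * (K * K) ≤ (K:ℝ) ^ (1:ℝ) * (K * K) :=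
          mul_le_mul_of_nonneg_right (Real.rpow_le_rpow_of_exponent_le hK1 (by norm_num)) (by positivity)
      _ = (K:ℝ) ^ 3 := by rw [Real.rpow_one]; ring
      _ ≤ (K:ℝ) ^ 5 := pow_le_pow_right₀ hK1 (by norm_num)

lemma vK_limsup_self : ∀ ε : ℝ, 0 < ε → ∀ᶠ K : ℕ in atTop,
    (∀ᶠ K' : ℕ in atTop, vK K' ≤ vK K + ε) := by
  intro ε hε
  obtain ⟨X, hX400, hX⟩ := hyp_of_propS 100 0
  have hlogtend : Tendsto (fun K' : ℕ => Real.log (K':ℝ)) atTop atTop :=
    Real.tendsto_log_atTop.comp tendsto_natCast_atTop_atTop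
  filter_upwards [eventually_K 100 le_rfl X hX400, hlogtend.eventually_ge_atTop (2 * Real.log 2 / ε)]
    with K hK hlogK
  obtain ⟨hK2, x, hx, hx8, hxm, hx20⟩ := hK
  have hx0 : 0 < x := by linarith
  have hlog2 : 0 < Real.log 2 := Real.log_pos (by norm_num)
  have hlog0 : 0 < Real.log K := lt_of_lt_of_le (by positivity) hlogK
  have hpos : 0 < G (K^5) K (K^2) 0 := lt_of_lt_of_le (by
    have : (0:ℝ) < K := by exact_mod_cast (by omega : 0 < K)
    positivity) (G_vK_pos K (by omega))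
  have h1 := hX x hx K K (K^5) hx8 (by omega) hxm hx20 0 (by simp)
  have e : K * K = K ^ 2 := by ring
  have h2 := vK_limsup (G (K^5) K (K*K) 0 / 2) (by rw [e]; positivity)
    (by have := G_le_one (K^5) K (K*K) 0; linarith) K K _ hK2 (by omega) h1 (by positivity) (ε/2) (by positivity)
  filter_upwards [h2] with K' h3
  refine h3.trans ?_
  rw [e, Real.log_div hpos.ne' (by norm_num)]
  have h4 : -(Real.log (G (K^5) K (K^2) 0) - Real.log 2) / Real.log K = vK K + Real.log 2 / Real.log K := by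
    unfold vK; field_simp; ring
  rw [h4]
  have h5 : Real.log 2 / Real.log K ≤ ε / 2 := by
    rw [div_le_iff₀ hlog0]
    rw [div_le_iff₀ hε] at hlogK
    linarith
  linarith

/-- **The persistence exponent exists.** -/
theorem theta_tendsto : Tendsto vK atTop (nhds theta) := by
  have hbdd_below : IsBoundedUnder (· ≥ ·) atTop vK := isBoundedUnder_of ⟨0, fun K => vK_nonneg K⟩
  have hbdd_above : IsBoundedUnder (· ≤ ·) atTop vK :=
    isBoundedUnder_of_eventually_le (a := 2) ((eventually_ge_atTop 200).mono fun K hK => vK_le K hK)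
  rw [Metric.tendsto_atTop']
  intro ε hε
  have h1 : ∀ᶠ K in atTop, theta - ε < vK K := by
    apply eventually_lt_of_lt_liminf _ hbdd_below
    show theta - ε < theta
    linarith
  have h2 : ∃ᶠ K in atTop, vK K < theta + ε / 3 := by
    apply frequently_lt_of_liminf_lt
    · exact hbdd_above.isCoboundedUnder_ge
    · show theta < theta + ε/3
      linarith
  obtain ⟨K, hK1, hK2⟩ := (h2.and_eventually (vK_limsup_self (ε/3) (by positivity))).exists
  obtain ⟨N, hN⟩ := eventually_atTop.1 (h1.and hK2)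
  refine ⟨N, fun n hn => ?_⟩
  obtain ⟨h3, h4⟩ := hN n hn.le
  rw [Real.dist_eq, abs_lt]
  constructor <;> linarith

lemma theta_nonneg : 0 ≤ theta := ge_of_tendsto theta_tendsto (Eventually.of_forall vK_nonneg)

lemma theta_le_of_hyp (g : ℝ) (hg : 0 < g) (hg1 : g ≤ 1) (K R : ℕ) (C0 : ℝ) (hR : 2 ≤ R) (hK : 1 ≤ K)
    (hyp : ∀ lam B : ℕ, 1 ≤ lam → C0 * lam ≤ B → g ≤ G B (lam*K) (lam*(R*K)) 0) (hC0 : 0 ≤ C0) :
    g ≤ (R:ℝ) ^ (-theta) := by
  have hRr : (2:ℝ) ≤ R := by exact_mod_cast hR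
  have hlogR : 0 < Real.log R := Real.log_pos (by linarith)
  have h1 : theta ≤ -Real.log g / Real.log R := by
    apply le_of_forall_pos_le_add
    intro ε hε
    exact le_of_tendsto theta_tendsto (vK_limsup g hg hg1 K R C0 hR hK hyp hC0 ε hε)
  rw [le_div_iff₀ hlogR] at h1
  rw [Real.rpow_def_of_pos (by linarith), ← Real.log_le_iff_le_exp hg]
  linarith

/-- **Upper bound T1.** -/
theorem T1 (m c : ℕ) : ∃ X : ℝ, 400 ≤ X ∧ ∀ x ≥ X, ∀ (K R A : ℕ), x ^ 8 ≤ K → 2 ≤ R →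
    ((R * K : ℕ):ℝ) ≤ x ^ m → x ^ 20 * (R * K : ℕ) ≤ A → ∀ h : ℝ, |h| ≤ c / x →
    G A K (R * K) h ≤ 2 * (R:ℝ) ^ (-theta) := by
  obtain ⟨X, hX400, hX⟩ := hyp_of_propS m c
  refine ⟨X, hX400, fun x hx K R A hK hR hRK hA h hh => ?_⟩
  have hx0 : 0 < x := by linarith
  have h1 := hX x hx K R A hK (by omega) hRK hA h hh
  rcases (G_nonneg A K (R*K) h).eq_or_lt with h0 | h0
  · rw [← h0]; positivity
  have hKr : (1:ℝ) ≤ K := (one_le_pow₀ (by linarith)).trans hK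
  have h2 := theta_le_of_hyp (G A K (R*K) h / 2) (by positivity)
    (by have := G_le_one A K (R*K) h; linarith) K R _ hR (by exact_mod_cast hKr) h1 (by positivity)
  linarith

/-- **Lower bound T2.** -/
theorem T2 (ε : ℝ) (hε : 0 < ε) : ∃ c : ℝ, 0 < c ∧ ∃ N : ℕ, 1 ≤ N ∧ ∀ K1 K2 A : ℕ, N ≤ K1 → K1 ≤ K2 →
    N * K2 ≤ A → c * ((K2:ℝ) / K1) ^ (-(theta + ε)) ≤ G A K1 K2 0 := by
  obtain ⟨X, hX400, hX⟩ := hyp_of_propS 100 0
  have hlogtend : Tendsto (fun K' : ℕ => Real.log (K':ℝ)) atTop atTop :=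
    Real.tendsto_log_atTop.comp tendsto_natCast_atTop_atTop
  have ev1 : ∀ᶠ K : ℕ in atTop, vK K < theta + ε/2 :=
    theta_tendsto.eventually_lt_const (by linarith)
  obtain ⟨K, hK, hlogK, hvK⟩ := ((eventually_K 100 le_rfl X hX400).and
    ((hlogtend.eventually_ge_atTop (2 * Real.log 2 / ε)).and ev1)).exists
  obtain ⟨hK2, x, hx, hx8, hxm, hx20⟩ := hK
  have hx0 : 0 < x := by linarith
  have hlog2 : 0 < Real.log 2 := Real.log_pos (by norm_num)
  have hlog0 : 0 < Real.log K := lt_of_lt_of_le (by positivity) hlogK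
  have hKpos : (0:ℝ) < K := by exact_mod_cast (by omega : 0 < K)
  have hpos : 0 < G (K^5) K (K^2) 0 := lt_of_lt_of_le (by positivity) (G_vK_pos K (by omega))
  have h1 := hX x hx K K (K^5) hx8 (by omega) hxm hx20 0 (by simp)
  have e : K * K = K ^ 2 := by ring
  set C0 := x ^ 20 * (K * K : ℕ) with hC0
  have hC0pos : 0 ≤ C0 := by positivity
  set g := G (K^5) K (K*K) 0 / 2 with hg
  have hgpos : 0 < g := by rw [hg, e]; positivity
  have hgK : (K:ℝ) ^ (-(theta + ε)) ≤ g := by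
    rw [hg, e, G_vK K hK2]
    have h3 : (2:ℝ) ≤ (K:ℝ) ^ (ε/2) := by
      rw [Real.rpow_def_of_pos hKpos, ← Real.log_le_iff_le_exp (by norm_num)]
      rw [div_le_iff₀ hε] at hlogK
      linarith
    rw [le_div_iff₀ (by norm_num)]
    calc (K:ℝ) ^ (-(theta + ε)) * 2 ≤ (K:ℝ) ^ (-(theta + ε)) * (K:ℝ) ^ (ε/2) :=
          mul_le_mul_of_nonneg_left h3 (by positivity)
      _ = (K:ℝ) ^ (-(theta + ε/2)) := by rw [← Real.rpow_add hKpos]; congr 1; ring
      _ ≤ (K:ℝ) ^ (-vK K) := by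
          apply Real.rpow_le_rpow_of_exponent_le
          · exact_mod_cast (by omega : 1 ≤ K)
          · linarith
  have hte : 0 ≤ theta + ε := by have := theta_nonneg; linarith
  set N : ℕ := 2 * K + ⌈C0 * (4 * K)⌉₊ with hN
  refine ⟨(4 * K:ℝ) ^ (-(theta + ε)), by positivity, N, by omega, ?_⟩
  intro K1 K2 A hNK1 hK12 hA
  have hK1pos : 0 < K1 := by omega
  have hK1r : (0:ℝ) < K1 := by exact_mod_cast hK1pos
  have hK12r : (K1:ℝ) ≤ K2 := by exact_mod_cast hK12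
  set n := 2 * K2 / K1 + 1 with hn
  have hn1 : 2 * K2 ≤ n * K1 := by
    have := Nat.lt_div_mul_add (a := 2 * K2) (b := K1) hK1pos
    rw [hn, add_mul, one_mul]; omega
  have hn2 : 2 ≤ n := by
    have : 1 ≤ 2 * K2 / K1 := by rw [Nat.le_div_iff_mul_le hK1pos]; omega
    omega
  have hn3 : n * K1 ≤ 4 * K2 := by
    rw [hn, add_mul, one_mul]
    have := Nat.div_mul_le_self (2 * K2) K1
    omega
  have hn3r : (n:ℝ) * K1 ≤ 4 * K2 := by exact_mod_cast hn3
  have h2 := block_cover g hgpos.le K K C0 hK2 (by omega) h1 hC0pos K1 K2 A n (by omega) hn2 hn1 (by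
    have h3 : (N:ℝ) * K2 ≤ A := by exact_mod_cast hA
    have h4 : C0 * (4 * K) ≤ N := by
      rw [hN]; push_cast
      have := Nat.le_ceil (C0 * (4 * K))
      linarith
    push_cast
    calc C0 * (K1 * (K * n)) = C0 * K * (n * K1) := by ring
      _ ≤ C0 * K * (4 * K2) := mul_le_mul_of_nonneg_left hn3r (by positivity)
      _ = C0 * (4 * K) * K2 := by ring
      _ ≤ N * K2 := mul_le_mul_of_nonneg_right h4 (by positivity)
      _ ≤ (A:ℝ) := h3)
  refine le_trans ?_ h2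
  set s := Nat.clog K n with hs
  have hspos : 1 ≤ s := Nat.clog_pos (by omega) hn2
  have hpow : ((K:ℝ)) ^ s ≤ K * n := by
    have h3 := Nat.pow_pred_clog_lt_self (b := K) (x := n) (by omega) (by omega)
    have h4 : K ^ s ≤ K * n := by
      have : s = (s - 1) + 1 := by omega
      rw [this, pow_succ, mul_comm]
      exact Nat.mul_le_mul_left _ h3.le
    exact_mod_cast h4
  have h5 : ((K:ℝ) ^ (-(theta + ε))) ^ s ≤ g ^ s := pow_le_pow_left₀ (by positivity) hgK s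
  refine le_trans ?_ h5
  have h6 : ((K:ℝ) ^ (-(theta + ε))) ^ s = (((K:ℝ)) ^ s) ^ (-(theta + ε)) := by
    rw [← Real.rpow_natCast, ← Real.rpow_mul hKpos.le, ← Real.rpow_natCast, ← Real.rpow_mul hKpos.le]
    congr 1; ring
  rw [h6, ← Real.mul_rpow (by positivity) (by positivity)]
  apply Real.rpow_le_rpow_of_nonpos (by positivity) _ (by linarith)
  refine hpow.trans ?_
  calc (K:ℝ) * n = K * (n * K1) / K1 := by field_simp
    _ ≤ K * (4 * K2) / K1 := by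
        apply div_le_div_of_nonneg_right _ hK1r.le
        exact mul_le_mul_of_nonneg_left hn3r hKpos.le
    _ = 4 * K * (K2 / K1) := by ring

end Pool.GP
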