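import Pool.Agent.Lib.GP.Window

set_option autoImplicit false

/-!
Change of measure (exponential tilt) on the sign cube.
-/

namespace Pool.GP

open Finset

/-- likelihood ratio of the tilted measure -/
noncomputable def Lr (n : ℕ) (b : ℕ → ℝ) (ω : Fin n → Bool) : ℝ := ∏ v : Fin n, (1 + b v * sg (ω v))

/-- pointwise maximum of two sign vectors -/
def orv {n : ℕ} (ω F : Fin n → Bool) : Fin n → Bool := fun j => ω j || F j

/-- joint expectation: `ω` uniform, `F` independent with `P(F v) = b v` -/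
noncomputable def J (n : ℕ) (b : ℕ → ℝ) (g : (Fin n → Bool) → (Fin n → Bool) → ℝ) : ℝ :=
  E n (fun ω => E n (fun F => (∏ v : Fin n, (if F v then 2 * b v else 2 * (1 - b v))) * g ω F))

lemma J_succ (n : ℕ) (b : ℕ → ℝ) (g : (Fin (n+1) → Bool) → (Fin (n+1) → Bool) → ℝ) :
    J (n+1) b g = (b n * J n b (fun ω F => g (Fin.snoc ω true) (Fin.snoc F true))
      + (1 - b n) * J n b (fun ω F => g (Fin.snoc ω true) (Fin.snoc F false))
      + b n * J n b (fun ω F => g (Fin.snoc ω false) (Fin.snoc F true))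
      + (1 - b n) * J n b (fun ω F => g (Fin.snoc ω false) (Fin.snoc F false))) / 2 := by
  unfold J
  rw [E_succ]
  have h : ∀ (F : Fin n → Bool) (c : Bool), (∏ v : Fin (n+1), (if (Fin.snoc F c : Fin (n+1) → Bool) v
      then 2 * b v else 2 * (1 - b v))) = (∏ v : Fin n, (if F v then 2 * b v else 2 * (1 - b v)))
        * (if c then 2 * b n else 2 * (1 - b n)) := by
    intro F c
    rw [Fin.prod_univ_castSucc]
    simp
  have h2 : ∀ ω : Fin (n+1) → Bool, E (n+1) (fun F => (∏ v : Fin (n+1), (if F v then 2 * b v else 2 * (1 - b v))) * g ω F)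
      = b n * E n (fun F => (∏ v : Fin n, (if F v then 2 * b v else 2 * (1 - b v))) * g ω (Fin.snoc F true))
      + (1 - b n) * E n (fun F => (∏ v : Fin n, (if F v then 2 * b v else 2 * (1 - b v))) * g ω (Fin.snoc F false)) := by
    intro ω
    rw [E_succ]
    simp only [h, if_true, Bool.false_eq_true, if_false]
    have h3 : ∀ (c : ℝ) (f : (Fin n → Bool) → ℝ) , E n (fun F => (∏ v : Fin n, (if F v then 2 * b v else 2 * (1 - b v))) * (2 * c) * f F)
        = 2 * (c * E n (fun F => (∏ v : Fin n, (if F v then 2 * b v else 2 * (1 - b v))) * f F)) := by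
      intro c f
      rw [← E_mul_left, ← E_mul_left]
      exact E_congr n fun F => by ring
    rw [h3, h3]
    ring
  simp only [h2]
  rw [E_add, E_add, E_mul_left, E_mul_left, E_mul_left, E_mul_left]
  ring

lemma J_mono {n : ℕ} {b : ℕ → ℝ} (hb0 : ∀ v, 0 ≤ b v) (hb1 : ∀ v, b v ≤ 1)
    {g g' : (Fin n → Bool) → (Fin n → Bool) → ℝ} (h : ∀ ω F, g ω F ≤ g' ω F) :
    J n b g ≤ J n b g' := by
  unfold J
  refine E_mono n fun ω => E_mono n fun F => ?_
  apply mul_le_mul_of_nonneg_left (h ω F)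
  refine Finset.prod_nonneg fun v _ => ?_
  have h0 := hb0 v
  have h1 := hb1 v
  split_ifs <;> linarith

lemma J_add (n : ℕ) (b : ℕ → ℝ) (g g' : (Fin n → Bool) → (Fin n → Bool) → ℝ) :
    J n b (fun ω F => g ω F + g' ω F) = J n b g + J n b g' := by
  unfold J
  rw [← E_add]
  refine E_congr n fun ω => ?_
  rw [← E_add]
  exact E_congr n fun F => by ring

lemma J_mul_left (n : ℕ) (b : ℕ → ℝ) (c : ℝ) (g : (Fin n → Bool) → (Fin n → Bool) → ℝ) :
    J n b (fun ω F => c * g ω F) = c * J n b g := by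
  unfold J
  rw [← E_mul_left]
  refine E_congr n fun ω => ?_
  rw [← E_mul_left]
  exact E_congr n fun F => by ring

/-- first marginal -/
lemma J_fst (n : ℕ) (b : ℕ → ℝ) (f : (Fin n → Bool) → ℝ) : J n b (fun ω _ => f ω) = E n f := by
  induction n with
  | zero => unfold J; rw [E_zero, E_zero]; simp [E_zero]
  | succ n ih =>
    rw [J_succ, ih, ih, E_succ]
    ring

/-- law of `ω ∨ F` -/
lemma J_or (n : ℕ) (b : ℕ → ℝ) (f : (Fin n → Bool) → ℝ) :
    J n b (fun ω F => f (orv ω F)) = E n (fun ω => Lr n b ω * f ω) := by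
  induction n with
  | zero =>
    unfold J Lr
    rw [E_zero, E_zero, E_zero]
    simp only [Finset.univ_eq_empty, Finset.prod_empty, one_mul]
    congr 1
    ext i
    exact i.elim0
  | succ n ih =>
    have h1 : ∀ (ω F : Fin n → Bool) (c c' : Bool), orv (Fin.snoc ω c : Fin (n+1) → Bool)
        (Fin.snoc F c' : Fin (n+1) → Bool) = Fin.snoc (orv ω F) (c || c') := by
      intro ω F c c'
      ext j
      refine Fin.lastCases ?_ (fun i => ?_) j
      · simp [orv]
      · simp [orv]
    have h2 : ∀ (ω : Fin n → Bool) (c : Bool), Lr (n+1) b (Fin.snoc ω c) = Lr n b ω * (1 + b n * sg c) := by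
      intro ω c
      unfold Lr
      rw [Fin.prod_univ_castSucc]
      simp
    rw [J_succ, E_succ]
    simp only [h1, h2, Bool.or_true, Bool.or_false, sg_true, sg_false]
    rw [ih (fun ω => f (Fin.snoc ω true)), ih (fun ω => f (Fin.snoc ω false))]
    have h3 : ∀ (c : ℝ) (f : (Fin n → Bool) → ℝ), E n (fun ω => Lr n b ω * c * f ω)
        = c * E n (fun ω => Lr n b ω * f ω) := by
      intro c f
      rw [← E_mul_left]
      exact E_congr n fun ω => by ring
    rw [h3, h3]
    ring

/-- number of effective flips before time `u` -/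
noncomputable def zc {n : ℕ} (u : ℕ) (ω F : Fin n → Bool) : ℝ :=
  ∑ v : Fin n, if (v:ℕ) < u ∧ F v = true ∧ ω v = false then 1 else 0

lemma Y_orv {n : ℕ} (u : ℕ) (ω F : Fin n → Bool) : Y (orv ω F) u = Y ω u + 2 * zc u ω F := by
  unfold Y Ws zc orv
  rw [Finset.mul_sum, ← Finset.sum_add_distrib]
  refine Finset.sum_congr rfl fun v _ => ?_
  by_cases h : (v:ℕ) < u
  · cases ω v <;> cases F v <;> simp [h] <;> norm_num
  · simp [h]

/-- Laplace-type bound for the number of effective flips -/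
lemma J_half_pow (n : ℕ) (b : ℕ → ℝ) (u : ℕ) :
    J n b (fun ω F => ∏ v : Fin n, (if (v:ℕ) < u ∧ F v = true ∧ ω v = false then (1/2:ℝ) else 1))
      = ∏ v ∈ range n, (if v < u then 1 - b v / 4 else 1) := by
  induction n with
  | zero => unfold J; rw [E_zero, E_zero]; simp
  | succ n ih =>
    rw [J_succ, Finset.prod_range_succ, ← ih]
    have h1 : ∀ (ω F : Fin n → Bool) (c c' : Bool),
        (∏ v : Fin (n+1), (if (v:ℕ) < u ∧ (Fin.snoc F c' : Fin (n+1) → Bool) v = true
          ∧ (Fin.snoc ω c : Fin (n+1) → Bool) v = false then (1/2:ℝ) else 1))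
        = (if n < u ∧ c' = true ∧ c = false then (1/2:ℝ) else 1)
          * ∏ v : Fin n, (if (v:ℕ) < u ∧ F v = true ∧ ω v = false then (1/2:ℝ) else 1) := by
      intro ω F c c'
      rw [Fin.prod_univ_castSucc, mul_comm]
      simp
    simp only [h1, J_mul_left]
    by_cases hu : n < u <;> simp [hu] <;> ring

lemma J_flips (n : ℕ) (b : ℕ → ℝ) (hb0 : ∀ v, 0 ≤ b v) (hb1 : ∀ v, b v ≤ 1) (u : ℕ) (hu : u ≤ n)
    (m : ℝ) (hm0 : 0 ≤ m) (hm : m ≤ (∑ v ∈ range u, b v) / 2) :
    J n b (fun ω F => ind (zc u ω F < m / 2)) ≤ Real.exp (-(m / 8)) := by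
  have hlog : Real.log 2 ≤ 3/4 := by
    have := Real.log_two_lt_d9
    linarith
  have h1 : ∀ ω F : Fin n → Bool, ind (zc u ω F < m / 2)
      ≤ Real.exp (Real.log 2 * (m / 2))
        * ∏ v : Fin n, (if (v:ℕ) < u ∧ F v = true ∧ ω v = false then (1/2:ℝ) else 1) := by
    intro ω F
    have h2 : ∏ v : Fin n, (if (v:ℕ) < u ∧ F v = true ∧ ω v = false then (1/2:ℝ) else 1)
        = Real.exp (-(Real.log 2 * zc u ω F)) := by
      unfold zc
      rw [Finset.mul_sum, ← Finset.sum_neg_distrib, Real.exp_sum]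
      refine Finset.prod_congr rfl fun v _ => ?_
      split_ifs
      · rw [mul_one, Real.exp_neg, Real.exp_log (by norm_num)]; norm_num
      · simp
    rw [h2, ← Real.exp_add]
    by_cases h : zc u ω F < m / 2
    · rw [ind_of h]
      apply Real.one_le_exp
      have : 0 < Real.log 2 := Real.log_pos (by norm_num)
      nlinarith
    · rw [ind_not h]; exact (Real.exp_pos _).le
  refine (J_mono hb0 hb1 h1).trans ?_
  rw [J_mul_left, J_half_pow]
  have h2 : ∏ v ∈ range n, (if v < u then 1 - b v / 4 else 1) ≤ Real.exp (-(m/2)) := by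
    have h3 : ∏ v ∈ range n, (if v < u then 1 - b v / 4 else 1)
        ≤ ∏ v ∈ range n, Real.exp (if v < u then -(b v / 4) else 0) := by
      refine Finset.prod_le_prod (fun v _ => ?_) (fun v _ => ?_)
      · have := hb1 v; have := hb0 v
        split_ifs <;> linarith
      · split_ifs
        · have := Real.add_one_le_exp (-(b v / 4)); linarith
        · simp
    refine h3.trans ?_
    rw [← Real.exp_sum]
    apply Real.exp_le_exp.2
    have h4 : ∑ v ∈ range n, (if v < u then -(b v / 4) else 0) = ∑ v ∈ range u, -(b v / 4) := by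
      rw [← Finset.sum_filter]
      congr 1
      ext v
      simp only [Finset.mem_filter, Finset.mem_range]
      omega
    rw [h4, Finset.sum_neg_distrib, ← Finset.sum_div]
    linarith
  calc Real.exp (Real.log 2 * (m / 2)) * ∏ v ∈ range n, (if v < u then 1 - b v / 4 else 1)
      ≤ Real.exp (Real.log 2 * (m / 2)) * Real.exp (-(m/2)) :=
        mul_le_mul_of_nonneg_left h2 (Real.exp_pos _).le
    _ ≤ Real.exp (-(m / 8)) := by
        rw [← Real.exp_add]
        apply Real.exp_le_exp.2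
        nlinarith

/-- moments of the likelihood ratio -/
lemma E_Lr_pow (n : ℕ) (b : ℕ → ℝ) (hb0 : ∀ v, 0 ≤ b v) (hb1 : ∀ v, b v ≤ 1) (p : ℕ) :
    E n (fun ω => Lr n b ω ^ p) ≤ Real.exp ((p:ℝ) ^ 2 * (∑ v ∈ range n, b v ^ 2) / 2) := by
  have h1 : E n (fun ω => Lr n b ω ^ p)
      = E n (fun ω => ∏ j : Fin n, (1 + b j * sg (ω j)) ^ p) := by
    refine E_congr n fun ω => ?_
    unfold Lr
    rw [Finset.prod_pow]
  rw [h1, E_prod n (fun j c => (1 + b j * sg c) ^ p)]
  have h2 : ∀ j : Fin n, ((1 + b j * sg true) ^ p + (1 + b j * sg false) ^ p) / 2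
      ≤ Real.exp (((p:ℝ) * b j) ^ 2 / 2) := by
    intro j
    have e1 : (1 + b j * sg true) ^ p ≤ Real.exp (p * b j) := by
      rw [Real.exp_nat_mul]
      apply pow_le_pow_left₀ (by have := hb0 j; simp; linarith)
      have := Real.add_one_le_exp (b j)
      simp; linarith
    have e2 : (1 + b j * sg false) ^ p ≤ Real.exp (-(p * b j)) := by
      rw [← mul_neg, Real.exp_nat_mul]
      apply pow_le_pow_left₀ (by have := hb1 j; simp; linarith)
      have := Real.add_one_le_exp (-b j)
      simp; linarith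
    have e3 := Real.cosh_le_exp_half_sq (p * b j)
    rw [Real.cosh_eq] at e3
    linarith
  calc ∏ j : Fin n, ((1 + b j * sg true) ^ p + (1 + b j * sg false) ^ p) / 2
      ≤ ∏ j : Fin n, Real.exp (((p:ℝ) * b j) ^ 2 / 2) := by
        refine Finset.prod_le_prod (fun j _ => ?_) (fun j _ => h2 j)
        have e1 : 0 ≤ (1 + b j * sg true) ^ p := by
          have := hb0 j; exact pow_nonneg (by simp; linarith) _
        have e2 : 0 ≤ (1 + b j * sg false) ^ p := by
          have := hb1 j; exact pow_nonneg (by simp; linarith) _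
        linarith
    _ = Real.exp ((p:ℝ) ^ 2 * (∑ v ∈ range n, b v ^ 2) / 2) := by
        rw [← Real.exp_sum]
        congr 1
        rw [← Fin.sum_univ_eq_sum_range (fun j => b j ^ 2) n, Finset.mul_sum, Finset.sum_div]
        exact Finset.sum_congr rfl fun j _ => by ring

/-- **Abstract tilt lemma.** -/
lemma tilt_abstract (n : ℕ) (b : ℕ → ℝ) (hb0 : ∀ v, 0 ≤ b v) (hb1 : ∀ v, b v ≤ 1)
    (A B : (Fin n → Bool) → Prop) (bad : (Fin n → Bool) → (Fin n → Bool) → Prop)
    (hAB : ∀ ω F, A ω → ¬ bad ω F → B (orv ω F)) (δ M : ℝ) (hM : 0 < M) (p : ℕ)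
    (hδ : J n b (fun ω F => ind (bad ω F)) ≤ δ) :
    Pr n A ≤ M * Pr n B + δ
      + Real.exp (((p:ℝ) + 1) ^ 2 * (∑ v ∈ range n, b v ^ 2) / 2) / M ^ p := by
  -- step 1: P(A) ≤ E_b(1_B) + δ
  have h1 : Pr n A ≤ E n (fun ω => Lr n b ω * ind (B ω)) + δ := by
    have h2 : ∀ ω F : Fin n → Bool, ind (A ω) ≤ ind (B (orv ω F)) + ind (bad ω F) := by
      intro ω F
      by_cases hA : A ω
      · by_cases hb : bad ω F
        · rw [ind_of hb]; have := ind_le_one (A ω); have := ind_nonneg (B (orv ω F)); linarith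
        · rw [ind_of (hAB ω F hA hb)]; have := ind_le_one (A ω); have := ind_nonneg (bad ω F)
          linarith
      · rw [ind_not hA]; exact add_nonneg (ind_nonneg _) (ind_nonneg _)
    have h3 := J_mono hb0 hb1 h2
    rw [J_fst n b (fun ω => ind (A ω)), J_add, J_or n b (fun ω => ind (B ω))] at h3
    unfold Pr
    linarith
  have hL0 : ∀ ω : Fin n → Bool, 0 ≤ Lr n b ω := by
    intro ω
    refine Finset.prod_nonneg fun v _ => ?_
    have := hb0 v; have := hb1 v
    cases ω v <;> simp <;> linarith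
  -- step 2
  have h4 : E n (fun ω => Lr n b ω * ind (B ω)) ≤ M * Pr n B
      + E n (fun ω => Lr n b ω ^ (p+1)) / M ^ p := by
    unfold Pr
    rw [← E_mul_left, div_eq_mul_inv, ← E_mul_right, ← E_add]
    refine E_mono n fun ω => ?_
    have hL := hL0 ω
    have hpos : 0 ≤ Lr n b ω ^ (p+1) * (M ^ p)⁻¹ := by positivity
    by_cases hB : B ω
    · rw [ind_of hB, mul_one, mul_one]
      rcases le_or_gt (Lr n b ω) M with h | h
      · linarith
      · have : Lr n b ω ≤ Lr n b ω ^ (p+1) * (M ^ p)⁻¹ := by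
          rw [pow_succ, mul_comm (Lr n b ω ^ p), mul_assoc]
          apply le_mul_of_one_le_right hL
          rw [← div_eq_mul_inv, le_div_iff₀ (by positivity), one_mul]
          exact pow_le_pow_left₀ hM.le h.le p
        linarith
    · rw [ind_not hB, mul_zero, mul_zero, zero_add]; exact hpos
  have h5 := E_Lr_pow n b hb0 hb1 (p+1)
  push_cast at h5
  have h6 : E n (fun ω => Lr n b ω ^ (p+1)) / M ^ p
      ≤ Real.exp (((p:ℝ) + 1) ^ 2 * (∑ v ∈ range n, b v ^ 2) / 2) / M ^ p := by
    gcongr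
  linarith

end Pool.GP
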