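import Pool.Agent.Lib.GP.Clock

set_option autoImplicit false

/-!
The fine walk `Y`, marginals, and the maximal inequality on windows.
-/

namespace Pool.GP

open Finset

/-- Fubini for concatenation -/
lemma E_append (m n : ℕ) (f : (Fin (m+n) → Bool) → ℝ) :
    E (m+n) f = E m (fun a => E n (fun b => f (Fin.append a b))) := by
  unfold E
  rw [← Finset.sum_div, ← (Fin.appendEquiv m n).sum_comp, Fintype.sum_prod_type, pow_add]
  rw [div_div, mul_comm ((2:ℝ)^n)]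
  rfl

/-- segment of a sign vector -/
def seg {N : ℕ} (t r : ℕ) (ω : Fin N → Bool) : Fin r → Bool := fun s => ext ω (t + s)

lemma E_seg {N t r : ℕ} (h : t + r ≤ N) (f : (Fin r → Bool) → ℝ) :
    E N (fun ω => f (seg t r ω)) = E r f := by
  obtain ⟨k, rfl⟩ : ∃ k, N = t + r + k := ⟨N - (t + r), by omega⟩
  rw [E_append (t+r) k]
  have h1 : ∀ (a : Fin (t+r) → Bool) (b : Fin k → Bool),
      seg t r (Fin.append a b) = fun s : Fin r => a ⟨t + s, by omega⟩ := by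
    intro a b
    ext s
    unfold seg
    rw [ext_lt _ (by omega : t + (s:ℕ) < t + r + k)]
    have : (⟨t + (s:ℕ), by omega⟩ : Fin (t+r+k)) = Fin.castAdd k ⟨t + s, by omega⟩ := rfl
    rw [this, Fin.append_left]
  simp only [h1]
  simp only [E_const]
  rw [E_append t r]
  have h2 : ∀ (a : Fin t → Bool) (b : Fin r → Bool),
      (fun s : Fin r => Fin.append a b ⟨t + s, by omega⟩) = b := by
    intro a b
    ext s
    have : (⟨t + (s:ℕ), by omega⟩ : Fin (t+r)) = Fin.natAdd t s := rfl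
    rw [this, Fin.append_right]
  simp only [h2]
  rw [E_const]

lemma Pr_seg {N t r : ℕ} (h : t + r ≤ N) (A : (Fin r → Bool) → Prop) :
    Pr N (fun ω => A (seg t r ω)) = Pr r A :=
  E_seg h (fun a => ind (A a))

/-- The fine walk. -/
noncomputable def Y {n : ℕ} (ω : Fin n → Bool) (t : ℕ) : ℝ :=
  Ws n (fun j => if j < t then 1 else 0) ω

lemma Y_eq_Yi {n : ℕ} (ω : Fin n → Bool) {t : ℕ} (ht : t ≤ n) : Y ω t = (Yi (ext ω) t : ℝ) := by
  unfold Y Ws Yi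
  have h1 : ∑ j : Fin n, (if (j:ℕ) < t then (1:ℝ) else 0) * sg (ω j)
      = ∑ j : Fin n, (fun j : ℕ => (if j < t then (1:ℝ) else 0) * sg (ext ω j)) j := by
    refine Finset.sum_congr rfl fun j _ => ?_
    simp only [ext_lt ω j.2]
  rw [h1, Fin.sum_univ_eq_sum_range (fun j : ℕ => (if j < t then (1:ℝ) else 0) * sg (ext ω j)) n]
  rw [← Finset.sum_subset (Finset.range_subset_range.2 ht)]
  · push_cast
    refine Finset.sum_congr rfl fun j hj => ?_
    rw [Finset.mem_range] at hj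
    simp [hj, sg_eq_si]
  · intro j _ hj
    rw [Finset.mem_range] at hj
    simp [hj]

lemma Yi_seg {N : ℕ} (t r : ℕ) (ω : Fin N → Bool) {s : ℕ} (hs : s ≤ r) :
    Yi (ext (seg t r ω)) s = Yi (ext ω) (t + s) - Yi (ext ω) t := by
  induction s with
  | zero => simp [Yi]
  | succ s ih =>
    have h1 : Yi (ext (seg t r ω)) (s+1) = Yi (ext (seg t r ω)) s + si (ext ω (t+s)) := by
      simp only [Yi, Finset.sum_range_succ]
      rw [ext_lt _ (by omega : s < r)]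
      rfl
    have h2 : Yi (ext ω) (t + (s+1)) = Yi (ext ω) (t+s) + si (ext ω (t+s)) := by
      simp only [Yi, ← add_assoc, Finset.sum_range_succ]
    rw [h1, h2, ih (by omega)]
    ring

/-- maximal inequality, walk started at time 0 -/
lemma maximal_zero (n r : ℕ) (hr : 1 ≤ r) :
    Pr n (fun ω => ∃ t ≤ n, (r:ℤ) ≤ |Yi (ext ω) t|) ≤ 2 * Real.exp (-((r:ℝ) ^ 2 / (2 * n))) := by
  have h1 : ∀ ω : Fin n → Bool, (∃ t ≤ n, (r:ℤ) ≤ |Yi (ext ω) t|) →
      1 ≤ stg (fun _ => r) (ext ω) n := by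
    rintro ω ⟨t, ht, h⟩
    by_contra hc
    have h0 : stg (fun _ => r) (ext ω) n = 0 := by omega
    have h2 : stg (fun _ => r) (ext ω) t = 0 := by
      have := stg_mono (d := fun _ => r) (ext ω) ht
      omega
    have h3 := Yi_eq (d := fun _ => r) (fun _ => hr) (ext ω) t
    rw [h2] at h3
    simp only [Finset.range_zero, Finset.sum_empty, zero_add] at h3
    have h4 := mrun_abs_lt (d := fun _ => r) (fun _ => hr) (ext ω) t
    rw [← h3] at h4
    omega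
  refine (Pr_mono n h1).trans ?_
  rcases Nat.eq_zero_or_pos n with rfl | hn
  · simp
    exact (Pr_le_one _ _).trans (by norm_num)
  have hn' : (0:ℝ) < n := by exact_mod_cast hn
  refine (clock_lower_raw (fun _ => r) (fun _ => hr) ((r:ℝ) / n) 1 n).trans ?_
  rw [Finset.prod_range_one, div_le_iff₀ (Real.cosh_pos _)]
  have h2 : Real.exp ((r:ℝ) / n * r) / 2 ≤ Real.cosh ((r:ℝ) / n * r) := by
    rw [Real.cosh_eq]
    have := Real.exp_pos (-((r:ℝ) / n * r))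
    linarith
  have h3 : Real.cosh ((r:ℝ) / n) ^ n ≤ Real.exp ((n:ℝ) * (((r:ℝ) / n) ^ 2 / 2)) := by
    rw [Real.exp_nat_mul]
    exact pow_le_pow_left₀ (Real.cosh_pos _).le (Real.cosh_le_exp_half_sq _) n
  refine h3.trans ?_
  have h4 : Real.exp ((n:ℝ) * (((r:ℝ) / n) ^ 2 / 2))
      = 2 * Real.exp (-((r:ℝ) ^ 2 / (2 * n))) * (Real.exp ((r:ℝ) / n * r) / 2) := by
    have : (n:ℝ) * (((r:ℝ) / n) ^ 2 / 2) = -((r:ℝ) ^ 2 / (2 * n)) + (r:ℝ) / n * r := by
      field_simp; ring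
    rw [this, Real.exp_add]; ring
  rw [h4]
  exact mul_le_mul_of_nonneg_left h2 (by positivity)

/-- maximal inequality on a window -/
lemma maximal_window (N t1 t2 : ℕ) (h12 : t1 ≤ t2) (h2N : t2 ≤ N) (y : ℝ) (hy : 0 < y) :
    Pr N (fun ω => ∃ t, t1 ≤ t ∧ t ≤ t2 ∧ y ≤ |Y ω t - Y ω t1|)
      ≤ 2 * Real.exp (-(y ^ 2 / (2 * ((t2:ℝ) - t1)))) := by
  set r := ⌈y⌉₊ with hr
  have hr1 : 1 ≤ r := Nat.one_le_ceil_iff.2 hy
  have hyr : y ≤ r := Nat.le_ceil y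
  obtain ⟨s, rfl⟩ : ∃ s, t2 = t1 + s := ⟨t2 - t1, by omega⟩
  have h1 : ∀ ω : Fin N → Bool, (∃ t, t1 ≤ t ∧ t ≤ t1 + s ∧ y ≤ |Y ω t - Y ω t1|) →
      ∃ t ≤ s, (r:ℤ) ≤ |Yi (ext (seg t1 s ω)) t| := by
    rintro ω ⟨t, ht1, ht2, h⟩
    obtain ⟨t', rfl⟩ : ∃ t', t = t1 + t' := ⟨t - t1, by omega⟩
    refine ⟨t', by omega, ?_⟩
    rw [Yi_seg t1 s ω (by omega : t' ≤ s)]
    rw [Y_eq_Yi ω (by omega), Y_eq_Yi ω (by omega)] at h
    have h' : y ≤ ((|Yi (ext ω) (t1 + t') - Yi (ext ω) t1| : ℤ) : ℝ) := by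
      push_cast; exact h
    have : (⌈y⌉ : ℤ) ≤ |Yi (ext ω) (t1 + t') - Yi (ext ω) t1| := Int.ceil_le.2 h'
    have h3 : ((r:ℕ):ℤ) = ⌈y⌉ := by
      rw [hr]; exact Int.natCast_ceil_eq_ceil hy.le
    rw [h3]; exact this
  refine (Pr_mono N h1).trans ?_
  rw [Pr_seg (by omega : t1 + s ≤ N) (fun a => ∃ t ≤ s, (r:ℤ) ≤ |Yi (ext a) t|)]
  refine (maximal_zero s r hr1).trans ?_
  push_cast
  rw [add_sub_cancel_left]
  rcases Nat.eq_zero_or_pos s with rfl | hs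
  · simp
  have hs' : (0:ℝ) < s := by exact_mod_cast hs
  gcongr

end Pool.GP
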